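import Pool.Agent.Lib.MP_862e0f_al.Mg.G007
import Pool.Agent.Lib.MP_862e0f_P.RegDefs

section

/-!
# Bastiani calculus with a topological parameter: definitions
-/

set_option autoImplicit false
set_option linter.unusedSectionVars false

namespace Pool.Agent.Lib.MP_862e0f_al

open Filter Topology Set unitInterval

universe u v w x y

/-- `f : T × E → F` is `C^k` in the second variable on `U ⊆ T × E`, and the derivatives depend
continuously on both variables. -/
def ParCk (T : Type y) [TopologicalSpace T] : ℕ → ∀ (E : Type u) (F : Type v) [AddCommGroup E]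
    [Module ℝ E] [TopologicalSpace E] [AddCommGroup F] [Module ℝ F] [TopologicalSpace F],
    (T → E → F) → Set (T × E) → Prop
  | 0 => fun _ _ _ _ _ _ _ _ f U => ContinuousOn (Function.uncurry f) U
  | k + 1 => fun E F _ _ _ _ _ _ f U => ContinuousOn (Function.uncurry f) U ∧
      ∃ df : T → E × E → F, (∀ p ∈ U, ∀ v : E, HasDirDeriv (f p.1) p.2 v (df p.1 (p.2, v))) ∧
        ParCk T k (E × E) F df {q | (q.1, q.2.1) ∈ U}

/-- `f` is smooth in the second variable, with derivatives continuous in both variables. -/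
def ParSmooth (T : Type y) [TopologicalSpace T] (E : Type u) (F : Type v) [AddCommGroup E]
    [Module ℝ E] [TopologicalSpace E] [AddCommGroup F] [Module ℝ F] [TopologicalSpace F]
    (f : T → E → F) (U : Set (T × E)) : Prop :=
  ∀ k : ℕ, ParCk T k E F f U

/-- `B` is a continuous bilinear map. -/
structure IsContBilin {E : Type u} {F : Type v} {G : Type w} [AddCommGroup E]
    [Module ℝ E] [TopologicalSpace E] [AddCommGroup F] [Module ℝ F] [TopologicalSpace F]
    [AddCommGroup G] [Module ℝ G] [TopologicalSpace G] (B : E → F → G) : Prop where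
  cont : Continuous fun p : E × F => B p.1 p.2
  add_left : ∀ a b c, B (a + b) c = B a c + B b c
  add_right : ∀ a b c, B a (b + c) = B a b + B a c
  smul_left : ∀ (r : ℝ) a b, B (r • a) b = r • B a b
  smul_right : ∀ (r : ℝ) a b, B a (r • b) = r • B a b

open Classical in
/-- The directional derivative `df (x, v)` (with the value `0` if it does not exist). -/
noncomputable def bd {E : Type u} {F : Type v} [AddCommGroup E] [Module ℝ E] [AddCommGroup F]
    [Module ℝ F] [TopologicalSpace F] (f : E → F) : E × E → F := fun p =>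
  if h : ∃ w : F, HasDirDeriv f p.1 p.2 w then h.choose else 0

section manifold

variable (T : Type y) [TopologicalSpace T] (X : Type w) [AddCommGroup X] [Module ℝ X]
  [TopologicalSpace X] (E : Type v) [AddCommGroup E] [Module ℝ E] [TopologicalSpace E]
  {H : Type u} [TopologicalSpace H] [ChartedSpace E H]

/-- The map `f : T × X → H` into a manifold is `C^k` in the second variable on `U`. -/
def MCk (k : ℕ) (f : T → X → H) (U : Set (T × X)) : Prop :=
  ContinuousOn (Function.uncurry f) U ∧ ∀ ψ ∈ atlas E H,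
    ParCk T k X E (fun t x => ψ (f t x)) {p | p ∈ U ∧ f p.1 p.2 ∈ ψ.source}

/-- The map `f : T × X → H` into a manifold is smooth in the second variable on `U`. -/
def MSmooth (f : T → X → H) (U : Set (T × X)) : Prop := ∀ k : ℕ, MCk T X E k f U

end manifold

section velocity

variable {F : Type v} [AddCommGroup F] [Module ℝ F] [TopologicalSpace F]
  {K : Type u} [Group K] [TopologicalSpace K] [ChartedSpace F K] {ι : Type w}

/-- The family `k i` of group elements tends to `1` and `k i ≈ 1 + s i • v`: it has the velocity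
`v` (in the chart at `1`) with respect to the small scalars `s i`. -/
structure VelF (l : Filter ι) (s : ι → ℝ) (k : ι → K) (v : F) : Prop where
  cont : Tendsto k l (𝓝 1)
  vel : Tendsto (fun i => (s i)⁻¹ • (chartAt F (1 : K) (k i) - chartAt F (1 : K) 1)) l (𝓝 v)

/-- The curve `γ : [0, 1] → K` has the left velocity `v` at `t`. -/
def LVel (γ : I → K) (t : I) (v : F) : Prop :=
  VelF (𝓝[≠] t) (fun s : I => (s : ℝ) - t) (fun s => (γ t)⁻¹ * γ s) v

end velocity

section anti

variable {Y : Type v} [AddCommGroup Y] [Module ℝ Y] [TopologicalSpace Y]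

variable (Y) in
/-- Each continuous curve `[0, 1] → Y` has an antiderivative. -/
def HasAnti : Prop :=
  ∀ c : I → Y, Continuous c → ∃ C : I → Y, C 0 = 0 ∧ ∀ t, HasIDeriv C t (c t)

open Classical in
/-- The antiderivative `t ↦ ∫₀ᵗ c(s) ds` of a curve. -/
noncomputable def integ (c : I → Y) : I → Y :=
  if h : ∃ C : I → Y, C 0 = 0 ∧ ∀ t, HasIDeriv C t (c t) then h.choose else 0

end anti

end Pool.Agent.Lib.MP_862e0f_al
end

section

/-!
# Curves and antiderivatives in locally convex spaces
-/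

set_option autoImplicit false
set_option linter.unusedSectionVars false

namespace Pool.Agent.Lib.MP_862e0f_al

open Filter Topology Set unitInterval

universe u v w x y z

variable {Y : Type v} {Z : Type w}
  [AddCommGroup Y] [Module ℝ Y] [TopologicalSpace Y] [IsTopologicalAddGroup Y] [ContinuousSMul ℝ Y]
  [AddCommGroup Z] [Module ℝ Z] [TopologicalSpace Z] [IsTopologicalAddGroup Z] [ContinuousSMul ℝ Z]

instance neBot_nhdsNE_I (t : I) : NeBot (𝓝[≠] t) := by
  have _ : ConnectedSpace I := Subtype.connectedSpace ⟨nonempty_Icc.mpr zero_le_one,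
    isPreconnected_Icc⟩
  infer_instance

theorem HasIDeriv.unique [T2Space Y] {c : I → Y} {t : I} {v w : Y} (h : HasIDeriv c t v)
    (h' : HasIDeriv c t w) : v = w := tendsto_nhds_unique h h'

theorem Anti_coe_ne {s t : I} (h : s ≠ t) : (s : ℝ) - t ≠ 0 :=
  fun h' => h (Subtype.ext (sub_eq_zero.mp h'))

theorem HasIDeriv.continuousAt {c : I → Y} {t : I} {v : Y} (h : HasIDeriv c t v) :
    ContinuousAt c t := by
  rw [continuousAt_iff_punctured_nhds]
  have h1 : Tendsto (fun s : I => ((s : ℝ) - t)) (𝓝[≠] t) (𝓝 0) := by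
    have h2 : Continuous (fun s : I => ((s : ℝ) - t)) := by fun_prop
    have h3 := (h2.tendsto t).mono_left (nhdsWithin_le_nhds (s := {t}ᶜ))
    rwa [sub_self] at h3
  have h4 : Tendsto (fun s : I => ((s : ℝ) - t) • (((s : ℝ) - t)⁻¹ • (c s - c t)) + c t) (𝓝[≠] t)
      (𝓝 ((0 : ℝ) • v + c t)) := (h1.smul h).add_const _
  rw [zero_smul, zero_add] at h4
  refine h4.congr' ?_
  filter_upwards [self_mem_nhdsWithin] with s hs
  rw [smul_smul, mul_inv_cancel₀ (Anti_coe_ne hs), one_smul, sub_add_cancel]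

theorem HasIDeriv.clm {c : I → Y} {t : I} {v : Y} (L : Y →L[ℝ] Z) (h : HasIDeriv c t v) :
    HasIDeriv (fun s => L (c s)) t (L v) := by
  have h1 := (L.continuous.tendsto v).comp h
  refine h1.congr fun s => ?_
  simp only [Function.comp_apply, map_smul, map_sub]

theorem HasIDeriv.prodMk {c : I → Y} {d : I → Z} {t : I} {v : Y} {w : Z} (h : HasIDeriv c t v)
    (h' : HasIDeriv d t w) : HasIDeriv (fun s => (c s, d s)) t (v, w) := by
  have h1 : Tendsto (fun s : I => (((s : ℝ) - t)⁻¹ • (c s - c t), ((s : ℝ) - t)⁻¹ • (d s - d t)))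
      (𝓝[≠] t) (𝓝 (v, w)) := Tendsto.prodMk_nhds h h'
  exact h1

theorem HasIDeriv.congr {c d : I → Y} {t : I} {v : Y} (h : HasIDeriv c t v)
    (hcd : ∀ᶠ s in 𝓝 t, c s = d s) : HasIDeriv d t v := by
  have ht : c t = d t := hcd.self_of_nhds
  refine Tendsto.congr' ?_ h
  filter_upwards [hcd.filter_mono nhdsWithin_le_nhds] with s hs
  rw [hs, ht]

theorem Anti_sub {c d : I → Y} {t : I} {v w : Y} (hc : HasIDeriv c t v)
    (hd : HasIDeriv d t w) : HasIDeriv (fun s => c s - d s) t (v - w) := by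
  refine (Tendsto.sub hc hd).congr fun s => ?_
  rw [← smul_sub, sub_sub_sub_comm]

/-- real valued curves: the ordinary derivative at interior points -/
theorem Anti_hasDerivAt {g : I → ℝ} {t : I} {w : ℝ} (h : HasIDeriv g t w) (h0 : (0 : ℝ) < t)
    (h1 : (t : ℝ) < 1) :
    HasDerivAt (fun x : ℝ => g (projIcc 0 1 zero_le_one x)) w (t : ℝ) := by
  rw [hasDerivAt_iff_tendsto_slope]
  have hproj : ∀ x ∈ Ioo (0 : ℝ) 1, ((projIcc (0 : ℝ) 1 zero_le_one x : I) : ℝ) = x := by
    intro x hx
    rw [projIcc_of_mem zero_le_one (Ioo_subset_Icc_self hx)]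
  have htt : projIcc (0 : ℝ) 1 zero_le_one (t : ℝ) = t := Subtype.ext (hproj _ ⟨h0, h1⟩)
  have hev : ∀ᶠ x in 𝓝[≠] (t : ℝ), x ∈ Ioo (0 : ℝ) 1 :=
    nhdsWithin_le_nhds (Ioo_mem_nhds h0 h1)
  have h2 : Tendsto (fun x : ℝ => projIcc (0 : ℝ) 1 zero_le_one x) (𝓝[≠] (t : ℝ)) (𝓝[≠] t) := by
    apply tendsto_nhdsWithin_of_tendsto_nhds_of_eventually_within
    · have h3 : Tendsto (fun x : ℝ => projIcc (0 : ℝ) 1 zero_le_one x) (𝓝 (t : ℝ))
          (𝓝 (projIcc (0 : ℝ) 1 zero_le_one (t : ℝ))) := continuous_projIcc.tendsto _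
      rw [htt] at h3
      exact h3.mono_left nhdsWithin_le_nhds
    · filter_upwards [hev, self_mem_nhdsWithin] with x hx hx'
      intro h4
      apply hx'
      have h5 : ((projIcc (0 : ℝ) 1 zero_le_one x : I) : ℝ) = t := congrArg Subtype.val h4
      rw [hproj x hx] at h5
      exact h5
  have h3 := Tendsto.comp h h2
  refine h3.congr' ?_
  filter_upwards [hev] with x hx
  simp only [Function.comp_apply, slope, vsub_eq_sub, htt]
  rw [hproj x hx]

variable [LocallyConvexSpace ℝ Y] [T2Space Y]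

/-- mean value theorem (real functionals and Hahn-Banach, see `mean_value_mem` in `Calc.lean`) -/
theorem HasIDeriv.mean_value {C c : I → Y} {a b : I} (hab : a < b)
    (h : ∀ t ∈ Icc a b, HasIDeriv C t (c t)) {K : Set Y} (hK : Convex ℝ K) (hK' : IsClosed K)
    (hc : ∀ t ∈ Icc a b, c t ∈ K) : ((b : ℝ) - a)⁻¹ • (C b - C a) ∈ K := by
  by_contra hn
  obtain ⟨l, u, h1, h2⟩ := geometric_hahn_banach_closed_point hK hK' hn
  have hab' : (a : ℝ) < b := hab
  have hmem : ∀ x ∈ Icc (a : ℝ) b, x ∈ Icc (0 : ℝ) 1 := fun x hx =>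
    ⟨a.2.1.trans hx.1, hx.2.trans b.2.2⟩
  have hproj : ∀ x : ℝ, ∀ hx : x ∈ Icc (a : ℝ) b,
      projIcc (0 : ℝ) 1 zero_le_one x = ⟨x, hmem x hx⟩ := fun x hx =>
    projIcc_of_mem zero_le_one (hmem x hx)
  obtain ⟨x, hx, h3⟩ := exists_hasDerivAt_eq_slope
    (fun x : ℝ => l (C (projIcc 0 1 zero_le_one x)))
    (fun x : ℝ => l (c (projIcc 0 1 zero_le_one x))) hab' (by
      intro x hx
      have h4 : ContinuousAt C (projIcc (0 : ℝ) 1 zero_le_one x) := by
        rw [hproj x hx]
        exact (h ⟨x, hmem x hx⟩ hx).continuousAt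
      have h5 : ContinuousAt (fun x : ℝ => projIcc (0 : ℝ) 1 zero_le_one x) x :=
        continuous_projIcc.continuousAt
      have h6 : ContinuousAt (fun x : ℝ => C (projIcc (0 : ℝ) 1 zero_le_one x)) x :=
        ContinuousAt.comp (f := fun x : ℝ => projIcc (0 : ℝ) 1 zero_le_one x) h4 h5
      exact (l.continuous.continuousAt.comp h6).continuousWithinAt) (by
      intro x hx
      have hx' := Ioo_subset_Icc_self hx
      have h4 := (h ⟨x, hmem x hx'⟩ hx').clm l
      have h5 := Anti_hasDerivAt h4 (lt_of_le_of_lt a.2.1 hx.1) (lt_of_lt_of_le hx.2 b.2.2)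
      rw [hproj x hx']
      exact h5)
  have hx' := Ioo_subset_Icc_self hx
  rw [hproj x hx', hproj b ⟨hab'.le, le_rfl⟩, hproj a ⟨le_rfl, hab'.le⟩] at h3
  have h4 : l (((b : ℝ) - a)⁻¹ • (C b - C a)) = l (c ⟨x, hmem x hx'⟩) := by
    rw [map_smul, map_sub, smul_eq_mul, h3, div_eq_inv_mul]
  rw [h4] at h2
  exact absurd (h1 _ (hc ⟨x, hmem x hx'⟩ hx')) (not_lt.mpr h2.le)

/-- curves with the same derivative and the same initial value coincide -/
theorem eq_of_hasIDeriv {C D c : I → Y} (hC : ∀ t, HasIDeriv C t (c t))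
    (hD : ∀ t, HasIDeriv D t (c t)) (h0 : C 0 = D 0) : C = D := by
  funext t
  rcases eq_or_lt_of_le (unitInterval.nonneg' (t := t)) with h | h
  · rw [← h]
    exact h0
  · have h1 : ∀ s ∈ Icc (0 : I) t, HasIDeriv (fun s => C s - D s) s ((fun _ => (0 : Y)) s) := by
      intro s _
      have h2 := Anti_sub (hC s) (hD s)
      rw [sub_self] at h2
      exact h2
    have h2 := HasIDeriv.mean_value h h1 (K := {0}) (convex_singleton 0) isClosed_singleton
      (fun s _ => rfl)
    have h3 : ((t : ℝ) - ((0 : I) : ℝ))⁻¹ • ((C t - D t) - (C 0 - D 0)) = 0 := h2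
    rw [h0, sub_self, sub_zero, smul_eq_zero, inv_eq_zero] at h3
    rcases h3 with h3 | h3
    · exact absurd h3 (Anti_coe_ne h.ne')
    · exact sub_eq_zero.mp h3

theorem integ_spec (hY : HasAnti Y) {c : I → Y} (hc : Continuous c) :
    integ c 0 = 0 ∧ ∀ t, HasIDeriv (integ c) t (c t) := by
  have h := hY c hc
  unfold integ
  rw [dif_pos h]
  exact h.choose_spec

theorem integ_eq {c C : I → Y} (h0 : C 0 = 0) (hC : ∀ t, HasIDeriv C t (c t)) : integ c = C := by
  have h : ∃ C : I → Y, C 0 = 0 ∧ ∀ t, HasIDeriv C t (c t) := ⟨C, h0, hC⟩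
  unfold integ
  rw [dif_pos h]
  exact eq_of_hasIDeriv h.choose_spec.2 hC (h.choose_spec.1.trans h0.symm)

theorem integ_zero : integ (fun _ : I => (0 : Y)) = 0 :=
  integ_eq rfl fun t => HasIDeriv.zero t

theorem integ_sub (hY : HasAnti Y) {c d : I → Y} (hc : Continuous c) (hd : Continuous d) (t : I) :
    integ (fun s => c s - d s) t = integ c t - integ d t := by
  have h1 := integ_spec hY hc
  have h2 := integ_spec hY hd
  have h3 : integ (fun s => c s - d s) = fun t => integ c t - integ d t := by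
    refine integ_eq ?_ fun t => Anti_sub (h1.2 t) (h2.2 t)
    show integ c 0 - integ d 0 = 0
    rw [h1.1, h2.1, sub_self]
  rw [h3]

theorem integ_add (hY : HasAnti Y) {c d : I → Y} (hc : Continuous c) (hd : Continuous d) (t : I) :
    integ (fun s => c s + d s) t = integ c t + integ d t := by
  have h1 := integ_spec hY hc
  have h2 := integ_spec hY hd
  have h3 : integ (fun s => c s + d s) = fun t => integ c t + integ d t := by
    refine integ_eq ?_ fun t => (h1.2 t).add (h2.2 t)
    show integ c 0 + integ d 0 = 0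
    rw [h1.1, h2.1, add_zero]
  rw [h3]

theorem integ_smul (hY : HasAnti Y) {c : I → Y} (hc : Continuous c) (r : ℝ) (t : I) :
    integ (fun s => r • c s) t = r • integ c t := by
  have h1 := integ_spec hY hc
  have h3 : integ (fun s => r • c s) = fun t => r • integ c t := by
    refine integ_eq ?_ fun t => (h1.2 t).smul r
    show r • integ c 0 = 0
    rw [h1.1, smul_zero]
  rw [h3]

theorem integ_const (v : Y) (t : I) : integ (fun _ : I => v) t = (t : ℝ) • v := by
  have h3 : integ (fun _ : I => v) = fun t : I => (t : ℝ) • v := by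
    refine integ_eq ?_ fun t => ?_
    · show ((0 : I) : ℝ) • v = 0
      rw [Icc.coe_zero, zero_smul]
    · have h4 : Tendsto (fun _ : I => v) (𝓝[≠] t) (𝓝 v) := tendsto_const_nhds
      refine h4.congr' ?_
      filter_upwards [self_mem_nhdsWithin] with s hs
      rw [← sub_smul, smul_smul, inv_mul_cancel₀ (Anti_coe_ne hs), one_smul]
  rw [h3]

/-- the integral over `[0, t]` lies in closed convex sets containing `0` and the curve -/
theorem integ_mem (hY : HasAnti Y) {c : I → Y} (hc : Continuous c) {K : Set Y} (hK : Convex ℝ K)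
    (hK' : IsClosed K) (h0 : (0 : Y) ∈ K) (h : ∀ s, c s ∈ K) (t : I) : integ c t ∈ K := by
  have h1 := integ_spec hY hc
  rcases eq_or_lt_of_le (unitInterval.nonneg' (t := t)) with h2 | h2
  · rw [← h2, h1.1]
    exact h0
  · have h3 := HasIDeriv.mean_value h2 (fun s _ => h1.2 s) hK hK' (fun s _ => h s)
    rw [h1.1, sub_zero, Icc.coe_zero, sub_zero] at h3
    have h4 := hK h3 h0 t.2.1 (sub_nonneg.mpr t.2.2) (by ring)
    have h5 : (t : ℝ) ≠ 0 := by
      have h6 := Anti_coe_ne h2.ne'
      rwa [Icc.coe_zero, sub_zero] at h6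
    rw [smul_smul, mul_inv_cancel₀ h5, one_smul, smul_zero, add_zero] at h4
    exact h4

theorem integ_clm [LocallyConvexSpace ℝ Z] [T2Space Z] (hY : HasAnti Y) {c : I → Y}
    (hc : Continuous c) (L : Y →L[ℝ] Z) (t : I) : integ (fun s => L (c s)) t = L (integ c t) := by
  have h1 := integ_spec hY hc
  have h3 : integ (fun s => L (c s)) = fun t => L (integ c t) := by
    refine integ_eq ?_ fun t => (h1.2 t).clm L
    show L (integ c 0) = 0
    rw [h1.1, map_zero]
  rw [h3]

end Pool.Agent.Lib.MP_862e0f_al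
end

section

/-!
# Antiderivatives exist in sequentially complete locally convex spaces

Proof: `bernsteinApproximation_uniform` (Mathlib, valued in locally convex spaces): the Bernstein
approximations `c_n t = ∑ k, bernstein n k t • c (k/n)` converge uniformly to `c`. They have
explicit antiderivatives `C_n t = ∑ k, (∫ s in 0..t, bernstein n k s) • c (k/n)` (real interval
integrals, fundamental theorem of calculus). By `HasIDeriv.mean_value` the `C_n t` are Cauchy,
uniformly in `t`; the limit `C` has the derivative `c` (mean value theorem for `C_n` on the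
interval between `t` and `s`, with a closed convex neighbourhood, and pass to the limit).
-/

set_option autoImplicit false
set_option linter.unusedSectionVars false

namespace Pool.Agent.Lib.MP_862e0f_al

open Filter Topology Set unitInterval

universe u v w x y z

theorem AntiComplete_hasIDeriv {G : ℝ → ℝ} {t : I} {g : ℝ} (h : HasDerivAt G g (t : ℝ)) :
    HasIDeriv (fun s : I => G s) t g := by
  rw [hasDerivAt_iff_tendsto_slope] at h
  have h1 : Tendsto (fun s : I => (s : ℝ)) (𝓝[≠] t) (𝓝[≠] (t : ℝ)) := by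
    apply tendsto_nhdsWithin_of_tendsto_nhds_of_eventually_within
    · exact (continuous_subtype_val.tendsto t).mono_left nhdsWithin_le_nhds
    · filter_upwards [self_mem_nhdsWithin] with s hs
      exact fun h' => hs (Subtype.ext h')
  have h2 := h.comp h1
  refine h2.congr fun s => ?_
  simp only [Function.comp_apply, slope, vsub_eq_sub]

section

variable {Y : Type v} [AddCommGroup Y] [Module ℝ Y] [TopologicalSpace Y]
    [IsTopologicalAddGroup Y] [ContinuousSMul ℝ Y]

/-- the Bernstein polynomial as a real function -/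
noncomputable def AntiComplete_B (n k : ℕ) (x : ℝ) : ℝ :=
  (n.choose k : ℝ) * x ^ k * (1 - x) ^ (n - k)

theorem AntiComplete_B_cont (n k : ℕ) : Continuous (AntiComplete_B n k) := by
  unfold AntiComplete_B
  fun_prop

/-- the antiderivatives of the Bernstein approximations -/
noncomputable def AntiComplete_C (f : C(I, Y)) (n : ℕ) (t : I) : Y :=
  ∑ k : Fin (n + 1), (∫ x in (0 : ℝ)..(t : ℝ), AntiComplete_B n k x) • f (bernstein.z k)

theorem AntiComplete_C_zero (f : C(I, Y)) (n : ℕ) : AntiComplete_C f n 0 = 0 := by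
  unfold AntiComplete_C
  simp

theorem AntiComplete_C_deriv (f : C(I, Y)) (n : ℕ) (t : I) :
    HasIDeriv (AntiComplete_C f n) t (bernsteinApproximation n f t) := by
  have h1 : ∀ k : Fin (n + 1), HasIDeriv
      (fun s : I => ∫ x in (0 : ℝ)..(s : ℝ), AntiComplete_B n k x) t (bernstein n k t) := by
    intro k
    have h2 : HasDerivAt (fun s : ℝ => ∫ x in (0 : ℝ)..s, AntiComplete_B n k x)
        (AntiComplete_B n k (t : ℝ)) (t : ℝ) :=
      intervalIntegral.integral_hasDerivAt_right
        ((AntiComplete_B_cont n k).intervalIntegrable _ _)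
        ((AntiComplete_B_cont n k).stronglyMeasurableAtFilter _ _)
        (AntiComplete_B_cont n k).continuousAt
    have h3 := AntiComplete_hasIDeriv h2
    rw [bernstein_apply]
    exact h3
  rw [bernsteinApproximation.apply]
  have h4 : Tendsto (fun s : I => ∑ k : Fin (n + 1), (((s : ℝ) - t)⁻¹ •
      ((∫ x in (0 : ℝ)..(s : ℝ), AntiComplete_B n k x) -
        ∫ x in (0 : ℝ)..(t : ℝ), AntiComplete_B n k x)) • f (bernstein.z k)) (𝓝[≠] t)
      (𝓝 (∑ k : Fin (n + 1), bernstein n k t • f (bernstein.z k))) :=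
    tendsto_finsetSum _ fun k _ => (h1 k).smul_const _
  refine h4.congr fun s => ?_
  unfold AntiComplete_C
  rw [← Finset.sum_sub_distrib, Finset.smul_sum]
  refine Finset.sum_congr rfl fun k _ => ?_
  rw [← sub_smul, smul_smul, smul_eq_mul]

variable [LocallyConvexSpace ℝ Y]

theorem AntiComplete_unif (f : C(I, Y)) {W : Set Y} (hW : W ∈ 𝓝 (0 : Y)) :
    ∃ N : ℕ, ∀ n ≥ N, ∀ t : I, bernsteinApproximation n f t - f t ∈ W := by
  let _ : UniformSpace Y := IsTopologicalAddGroup.rightUniformSpace Y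
  have _ : IsUniformAddGroup Y := isUniformAddGroup_of_addCommGroup
  have h1 := bernsteinApproximation_uniform f
  rw [ContinuousMap.tendsto_iff_tendstoUniformly] at h1
  have h2 : {p : Y × Y | p.2 - p.1 ∈ W} ∈ uniformity Y := by
    rw [uniformity_eq_comap_nhds_zero Y]
    exact preimage_mem_comap hW
  obtain ⟨N, hN⟩ := eventually_atTop.mp (h1 _ h2)
  exact ⟨N, fun n hn t => hN n hn t⟩

/-- closed convex neighbourhoods -/
theorem AntiComplete_nhds {y : Y} {N : Set Y} (hN : N ∈ 𝓝 y) :
    ∃ K : Set Y, K ∈ 𝓝 y ∧ Convex ℝ K ∧ IsClosed K ∧ K ⊆ N := by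
  obtain ⟨N', hN', hcl, hsub⟩ := exists_mem_nhds_isClosed_subset hN
  obtain ⟨C, hC1, hC2, hCN⟩ := (locallyConvexSpace_iff_exists_convex_subset ℝ Y).mp inferInstance
    y N' hN'
  exact ⟨closure C, mem_of_superset hC1 subset_closure, hC2.closure, isClosed_closure,
    (closure_minimal hCN hcl).trans hsub⟩

variable [T2Space Y]

theorem AntiComplete_mem {C c : I → Y} (h0 : C 0 = 0) (hC : ∀ t, HasIDeriv C t (c t))
    {K : Set Y} (hK : Convex ℝ K) (hK' : IsClosed K) (hK0 : (0 : Y) ∈ K) (h : ∀ s, c s ∈ K)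
    (t : I) : C t ∈ K := by
  rcases eq_or_lt_of_le (unitInterval.nonneg' (t := t)) with h2 | h2
  · rw [← h2, h0]
    exact hK0
  · have h3 := HasIDeriv.mean_value h2 (fun s _ => hC s) hK hK' (fun s _ => h s)
    rw [h0, sub_zero, Icc.coe_zero, sub_zero] at h3
    have h4 := hK h3 hK0 t.2.1 (sub_nonneg.mpr t.2.2) (by ring)
    have h5 : (t : ℝ) ≠ 0 := by
      intro h6
      apply h2.ne
      exact Subtype.ext h6.symm
    rw [smul_smul, mul_inv_cancel₀ h5, one_smul, smul_zero, add_zero] at h4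
    exact h4

/-- difference quotients in both directions -/
theorem AntiComplete_quot {C c : I → Y} (hC : ∀ t, HasIDeriv C t (c t)) {s t : I} (hst : s ≠ t)
    {K : Set Y} (hK : Convex ℝ K) (hK' : IsClosed K)
    (h : ∀ r ∈ Icc (min s t) (max s t), c r ∈ K) : ((s : ℝ) - t)⁻¹ • (C s - C t) ∈ K := by
  rcases lt_or_gt_of_ne hst with h1 | h1
  · rw [min_eq_left h1.le, max_eq_right h1.le] at h
    have h2 := HasIDeriv.mean_value h1 (fun r _ => hC r) hK hK' h
    have h3 : ((s : ℝ) - t)⁻¹ • (C s - C t) = ((t : ℝ) - s)⁻¹ • (C t - C s) := by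
      rw [← neg_sub (t : ℝ) s, ← neg_sub (C t) (C s), inv_neg, neg_smul_neg]
    rw [h3]
    exact h2
  · rw [min_eq_right h1.le, max_eq_left h1.le] at h
    exact HasIDeriv.mean_value h1 (fun r _ => hC r) hK hK' h

end

/-- sequentially complete locally convex spaces -/
theorem hasAnti_of_seqComplete {Y : Type v} [AddCommGroup Y] [Module ℝ Y] [TopologicalSpace Y]
    [IsTopologicalAddGroup Y] [ContinuousSMul ℝ Y] [LocallyConvexSpace ℝ Y] [T2Space Y]
    (h : ∀ a : ℕ → Y, (∀ W ∈ 𝓝 (0 : Y), ∃ N : ℕ, ∀ m ≥ N, ∀ n ≥ N, a m - a n ∈ W) →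
      ∃ b : Y, Tendsto a atTop (𝓝 b)) : HasAnti Y := by
  intro c hc
  obtain ⟨f, hf⟩ : ∃ f : C(I, Y), ∀ t, f t = c t := ⟨⟨c, hc⟩, fun _ => rfl⟩
  -- the approximations are Cauchy
  have hcau : ∀ t : I, ∀ W ∈ 𝓝 (0 : Y), ∃ N : ℕ, ∀ m ≥ N, ∀ n ≥ N,
      AntiComplete_C f m t - AntiComplete_C f n t ∈ W := by
    intro t W hW
    obtain ⟨K, hK1, hK2, hK3, hKW⟩ := AntiComplete_nhds hW
    obtain ⟨V, hV, hVK⟩ := exists_nhds_half_neg hK1
    obtain ⟨N, hN⟩ := AntiComplete_unif f hV
    refine ⟨N, fun m hm n hn => hKW ?_⟩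
    refine AntiComplete_mem (C := fun t => AntiComplete_C f m t - AntiComplete_C f n t)
      (c := fun t => bernsteinApproximation m f t - bernsteinApproximation n f t) ?_ ?_ hK2 hK3
      (mem_of_mem_nhds hK1) ?_ t
    · show AntiComplete_C f m 0 - AntiComplete_C f n 0 = 0
      rw [AntiComplete_C_zero, AntiComplete_C_zero, sub_self]
    · intro t
      exact Anti_sub (AntiComplete_C_deriv f m t) (AntiComplete_C_deriv f n t)
    · intro s
      have h1 := hVK _ (hN m hm s) _ (hN n hn s)
      rw [sub_sub_sub_cancel_right] at h1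
      exact h1
  choose C hC using fun t : I => h (fun n => AntiComplete_C f n t) (hcau t)
  refine ⟨C, ?_, ?_⟩
  · have h1 : Tendsto (fun _ : ℕ => (0 : Y)) atTop (𝓝 (C 0)) :=
      (hC 0).congr fun n => AntiComplete_C_zero f n
    exact tendsto_nhds_unique h1 tendsto_const_nhds
  · intro t N hN
    rw [mem_map]
    obtain ⟨K, hK1, hK2, hK3, hKN⟩ := AntiComplete_nhds hN
    -- a neighbourhood W of 0 with c t + W + W inside K
    have h1 : (fun y : Y => c t + y) ⁻¹' K ∈ 𝓝 (0 : Y) := by
      have h2 : ContinuousAt (fun y : Y => c t + y) 0 := by fun_prop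
      apply h2.preimage_mem_nhds
      rw [add_zero]
      exact hK1
    obtain ⟨V, hV, hVK⟩ := exists_nhds_zero_half h1
    obtain ⟨M, hM⟩ := AntiComplete_unif f hV
    have h3 : {s : I | c s - c t ∈ V} ∈ 𝓝 t := by
      have h4 : ContinuousAt (fun s : I => c s - c t) t := by fun_prop
      apply h4.preimage_mem_nhds
      rw [sub_self]
      exact hV
    obtain ⟨ε, hε, hball⟩ := Metric.mem_nhds_iff.mp h3
    have h5 : Metric.ball t ε ∈ 𝓝[≠] t := nhdsWithin_le_nhds (Metric.ball_mem_nhds t hε)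
    filter_upwards [h5, self_mem_nhdsWithin] with s hs hst
    apply hKN
    have h6 : ∀ n ≥ M, ((s : ℝ) - t)⁻¹ • (AntiComplete_C f n s - AntiComplete_C f n t) ∈ K := by
      intro n hn
      refine AntiComplete_quot (AntiComplete_C_deriv f n) hst hK2 hK3 ?_
      intro r hr
      have h7 : r ∈ Metric.ball t ε := by
        have hs' : |(s : ℝ) - t| < ε := by
          have := Metric.mem_ball.mp hs
          rwa [Subtype.dist_eq, Real.dist_eq] at this
        rw [Metric.mem_ball, Subtype.dist_eq, Real.dist_eq]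
        have hr1 : min (s : ℝ) t ≤ r := by
          have := hr.1
          rcases le_total s t with h8 | h8
          · rw [min_eq_left h8] at this
            exact (min_le_left _ _).trans this
          · rw [min_eq_right h8] at this
            exact (min_le_right _ _).trans this
        have hr2 : (r : ℝ) ≤ max (s : ℝ) t := by
          have := hr.2
          rcases le_total s t with h8 | h8
          · rw [max_eq_right h8] at this
            exact le_trans (show (r : ℝ) ≤ t from this) (le_max_right _ _)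
          · rw [max_eq_left h8] at this
            exact le_trans (show (r : ℝ) ≤ s from this) (le_max_left _ _)
        rw [abs_lt] at hs' ⊢
        constructor
        · have : min (s : ℝ) t > t - ε := by
            apply lt_min
            · linarith [hs'.1]
            · linarith
          linarith
        · have : max (s : ℝ) t < t + ε := by
            apply max_lt
            · linarith [hs'.2]
            · linarith
          linarith
      have h8 := hVK _ (hball h7) _ (hM n hn r)
      rw [hf] at h8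
      have h9 : c t + (c r - c t + (bernsteinApproximation n f r - c r)) =
          bernsteinApproximation n f r := by abel
      rw [mem_preimage, h9] at h8
      exact h8
    have h10 : Tendsto (fun n => ((s : ℝ) - t)⁻¹ • (AntiComplete_C f n s - AntiComplete_C f n t))
        atTop (𝓝 (((s : ℝ) - t)⁻¹ • (C s - C t))) := ((hC s).sub (hC t)).const_smul _
    exact hK3.mem_of_tendsto h10 (eventually_atTop.mpr ⟨M, h6⟩)

/-- Banach spaces (fundamental theorem of calculus, or the previous theorem) -/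
theorem hasAnti_banach (Y : Type v) [NormedAddCommGroup Y] [NormedSpace ℝ Y] [CompleteSpace Y] :
    HasAnti Y := by
  refine hasAnti_of_seqComplete fun a ha => ?_
  refine cauchySeq_tendsto_of_complete ?_
  rw [Metric.cauchySeq_iff]
  intro ε hε
  obtain ⟨N, hN⟩ := ha (Metric.ball 0 ε) (Metric.ball_mem_nhds _ hε)
  refine ⟨N, fun m hm n hn => ?_⟩
  have h1 := hN m hm n hn
  rw [mem_ball_zero_iff] at h1
  rwa [dist_eq_norm]

end Pool.Agent.Lib.MP_862e0f_al
end

section

/-!
# Bastiani calculus with a topological parameter: basic lemmas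

All lemmas by induction on `k`, with all types, functions and sets generalised.
-/

set_option autoImplicit false
set_option linter.unusedSectionVars false

namespace Pool.Agent.Lib.MP_862e0f_al

open Filter Topology Set unitInterval

universe u v w x y z

section aux

theorem parCk_mono_aux {T : Type y} [TopologicalSpace T] (k : ℕ) :
    ∀ (E : Type u) (F : Type v) [AddCommGroup E] [Module ℝ E] [TopologicalSpace E]
      [AddCommGroup F] [Module ℝ F] [TopologicalSpace F] (f : T → E → F) (U V : Set (T × E)),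
      ParCk T k E F f U → V ⊆ U → ParCk T k E F f V := by
  induction k with
  | zero => intro E F _ _ _ _ _ _ f U V h hV; exact ContinuousOn.mono h hV
  | succ k ih =>
    intro E F _ _ _ _ _ _ f U V h hV
    obtain ⟨hc, df, hd, hdf⟩ := h
    exact ⟨hc.mono hV, df, fun p hp v => hd p (hV hp) v, ih _ _ df _ _ hdf (fun q hq => hV hq)⟩

theorem parCk_of_succ_aux {T : Type y} [TopologicalSpace T] (k : ℕ) :
    ∀ (E : Type u) (F : Type v) [AddCommGroup E] [Module ℝ E] [TopologicalSpace E]
      [AddCommGroup F] [Module ℝ F] [TopologicalSpace F] (f : T → E → F) (U : Set (T × E)),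
      ParCk T (k + 1) E F f U → ParCk T k E F f U := by
  induction k with
  | zero => intro E F _ _ _ _ _ _ f U h; exact h.1
  | succ k ih =>
    intro E F _ _ _ _ _ _ f U h
    obtain ⟨hc, df, hd, hdf⟩ := h
    exact ⟨hc, df, hd, ih _ _ df _ hdf⟩

theorem hasDirDeriv_congr_aux {T : Type y} [TopologicalSpace T] {E : Type u} {F : Type v}
    [AddCommGroup E] [Module ℝ E] [TopologicalSpace E] [IsTopologicalAddGroup E]
    [ContinuousSMul ℝ E] [AddCommGroup F] [Module ℝ F] [TopologicalSpace F] {f g : T → E → F}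
    {U : Set (T × E)} (hU : IsOpen U) (hfg : ∀ p ∈ U, f p.1 p.2 = g p.1 p.2) {p : T × E}
    (hp : p ∈ U) {v : E} {w : F} (h : HasDirDeriv (f p.1) p.2 v w) :
    HasDirDeriv (g p.1) p.2 v w := by
  unfold HasDirDeriv at h ⊢
  refine h.congr' ?_
  have hc : Continuous fun t : ℝ => (p.1, p.2 + t • v) := by fun_prop
  have h0 : ∀ᶠ t : ℝ in 𝓝 0, (p.1, p.2 + t • v) ∈ U := by
    refine hc.continuousAt.eventually_mem (hU.mem_nhds ?_)
    simpa using hp
  filter_upwards [nhdsWithin_le_nhds h0] with t ht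
  rw [hfg _ ht, hfg _ hp]

theorem parCk_congr_aux {T : Type y} [TopologicalSpace T] (k : ℕ) :
    ∀ (E : Type u) (F : Type v) [AddCommGroup E] [Module ℝ E] [TopologicalSpace E]
      [IsTopologicalAddGroup E] [ContinuousSMul ℝ E]
      [AddCommGroup F] [Module ℝ F] [TopologicalSpace F] (f g : T → E → F) (U : Set (T × E)),
      ParCk T k E F f U → IsOpen U → (∀ p ∈ U, f p.1 p.2 = g p.1 p.2) → ParCk T k E F g U := by
  intro E F _ _ _ _ _ _ _ _ f g U h hU hfg
  cases k with
  | zero =>
    exact ContinuousOn.congr h fun p hp => (hfg p hp).symm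
  | succ k =>
    obtain ⟨hc, df, hd, hdf⟩ := h
    exact ⟨hc.congr fun p hp => (hfg p hp).symm, df,
      fun p hp v => hasDirDeriv_congr_aux hU hfg hp (hd p hp v), hdf⟩

theorem parCk_prodMk_aux {T : Type y} [TopologicalSpace T] (k : ℕ) :
    ∀ (E : Type u) (F : Type v) (G : Type w) [AddCommGroup E] [Module ℝ E] [TopologicalSpace E]
      [AddCommGroup F] [Module ℝ F] [TopologicalSpace F]
      [AddCommGroup G] [Module ℝ G] [TopologicalSpace G] (f : T → E → F) (g : T → E → G)
      (U : Set (T × E)), ParCk T k E F f U → ParCk T k E G g U →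
      ParCk T k E (F × G) (fun t x => (f t x, g t x)) U := by
  induction k with
  | zero => intro E F G _ _ _ _ _ _ _ _ _ f g U hf hg; exact ContinuousOn.prodMk hf hg
  | succ k ih =>
    intro E F G _ _ _ _ _ _ _ _ _ f g U hf hg
    obtain ⟨hc, df, hd, hdf⟩ := hf
    obtain ⟨hc', dg, hd', hdg⟩ := hg
    refine ⟨ContinuousOn.prodMk hc hc', fun t q => (df t q, dg t q), fun p hp v => ?_,
      ih _ _ _ df dg _ hdf hdg⟩
    exact Filter.Tendsto.prodMk_nhds (hd p hp v) (hd' p hp v)

theorem parCk_comp_right_aux {T : Type y} [TopologicalSpace T] (k : ℕ) :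
    ∀ (E : Type u) (F : Type v) (E' : Type x) [AddCommGroup E] [Module ℝ E] [TopologicalSpace E]
      [AddCommGroup F] [Module ℝ F] [TopologicalSpace F]
      [AddCommGroup E'] [Module ℝ E'] [TopologicalSpace E'] (f : T → E → F)
      (U : Set (T × E)) (L : E' →L[ℝ] E), ParCk T k E F f U →
      ParCk T k E' F (fun t x => f t (L x)) {q | (q.1, L q.2) ∈ U} := by
  induction k with
  | zero =>
    intro E F E' _ _ _ _ _ _ _ _ _ f U L hf
    have hc : Continuous fun q : T × E' => (q.1, L q.2) := by fun_prop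
    exact ContinuousOn.comp hf hc.continuousOn fun q hq => hq
  | succ k ih =>
    intro E F E' _ _ _ _ _ _ _ _ _ f U L hf
    obtain ⟨hc, df, hd, hdf⟩ := hf
    have hc' : Continuous fun q : T × E' => (q.1, L q.2) := by fun_prop
    refine ⟨ContinuousOn.comp hc hc'.continuousOn fun q hq => hq,
      fun t q => df t (L q.1, L q.2), fun p hp v => ?_, ?_⟩
    · have := hd (p.1, L p.2) hp (L v)
      unfold HasDirDeriv at this ⊢
      simpa only [map_add, map_smul] using this
    · exact ih (E × E) F (E' × E') df _ (L.prodMap L) hdf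

theorem parCk_clm_comp_aux {T : Type y} [TopologicalSpace T] (k : ℕ) :
    ∀ (E : Type u) (F : Type v) (G : Type w) [AddCommGroup E] [Module ℝ E] [TopologicalSpace E]
      [AddCommGroup F] [Module ℝ F] [TopologicalSpace F]
      [AddCommGroup G] [Module ℝ G] [TopologicalSpace G] (f : T → E → F)
      (U : Set (T × E)) (L : F →L[ℝ] G), ParCk T k E F f U →
      ParCk T k E G (fun t x => L (f t x)) U := by
  induction k with
  | zero =>
    intro E F G _ _ _ _ _ _ _ _ _ f U L hf
    exact L.continuous.comp_continuousOn hf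
  | succ k ih =>
    intro E F G _ _ _ _ _ _ _ _ _ f U L hf
    obtain ⟨hc, df, hd, hdf⟩ := hf
    refine ⟨L.continuous.comp_continuousOn hc, fun t q => L (df t q), fun p hp v => ?_,
      ih _ _ _ df _ L hdf⟩
    have := (L.continuous.tendsto (df p.1 (p.2, v))).comp (hd p hp v)
    unfold HasDirDeriv
    refine this.congr fun t => ?_
    simp only [Function.comp_apply, map_smul, map_sub]

theorem parCk_const_aux {T : Type y} [TopologicalSpace T] (k : ℕ) :
    ∀ (E : Type u) (F : Type v) [AddCommGroup E] [Module ℝ E] [TopologicalSpace E]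
      [AddCommGroup F] [Module ℝ F] [TopologicalSpace F] (c : T → F) (U : Set (T × E)),
      Continuous c → ParCk T k E F (fun t _ => c t) U := by
  induction k with
  | zero =>
    intro E F _ _ _ _ _ _ c U hc
    exact (hc.comp continuous_fst).continuousOn
  | succ k ih =>
    intro E F _ _ _ _ _ _ c U hc
    refine ⟨(hc.comp continuous_fst).continuousOn, fun _ _ => 0, fun p hp v => ?_,
      ih (E × E) F (fun _ => 0) _ continuous_const⟩
    unfold HasDirDeriv
    simp only [sub_self, smul_zero]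
    exact tendsto_const_nhds

theorem parCk_clm_aux {T : Type y} [TopologicalSpace T] (k : ℕ) :
    ∀ (E : Type u) (F : Type v) [AddCommGroup E] [Module ℝ E] [TopologicalSpace E]
      [AddCommGroup F] [Module ℝ F] [TopologicalSpace F] (L : T → E →L[ℝ] F) (U : Set (T × E)),
      (Continuous fun p : T × E => L p.1 p.2) → ParCk T k E F (fun t x => L t x) U := by
  induction k with
  | zero =>
    intro E F _ _ _ _ _ _ L U hL
    exact hL.continuousOn
  | succ k ih =>
    intro E F _ _ _ _ _ _ L U hL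
    refine ⟨hL.continuousOn, fun t q => L t q.2, fun p hp v => ?_, ?_⟩
    · unfold HasDirDeriv
      refine tendsto_const_nhds.congr' ?_
      filter_upwards [self_mem_nhdsWithin] with t ht
      have ht' : t ≠ 0 := ht
      rw [map_add, add_sub_cancel_left, map_smul, inv_smul_smul₀ ht']
    · exact ih (E × E) F (fun t => (L t).comp (ContinuousLinearMap.snd ℝ E E)) _
        (hL.comp (continuous_fst.prodMk (continuous_snd.comp continuous_snd)))

theorem parCk_comp_left_aux {T : Type y} [TopologicalSpace T] {T' : Type z} [TopologicalSpace T']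
    {τ : T' → T} (hτ : Continuous τ) (k : ℕ) :
    ∀ (E : Type u) (F : Type v) [AddCommGroup E] [Module ℝ E] [TopologicalSpace E]
      [AddCommGroup F] [Module ℝ F] [TopologicalSpace F] (f : T → E → F) (U : Set (T × E)),
      ParCk T k E F f U → ParCk T' k E F (fun t x => f (τ t) x) {q | (τ q.1, q.2) ∈ U} := by
  induction k with
  | zero =>
    intro E F _ _ _ _ _ _ f U hf
    have hc : Continuous fun q : T' × E => (τ q.1, q.2) := by fun_prop
    exact ContinuousOn.comp hf hc.continuousOn fun q hq => hq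
  | succ k ih =>
    intro E F _ _ _ _ _ _ f U hf
    obtain ⟨hc, df, hd, hdf⟩ := hf
    have hc' : Continuous fun q : T' × E => (τ q.1, q.2) := by fun_prop
    refine ⟨ContinuousOn.comp hc hc'.continuousOn fun q hq => hq,
      fun t q => df (τ t) q, fun p hp v => hd (τ p.1, p.2) hp v, ?_⟩
    exact ih (E × E) F df _ hdf

end aux

variable {T : Type y} [TopologicalSpace T] {E : Type u} {F : Type v} {G : Type w} {E' : Type x}
  [AddCommGroup E] [Module ℝ E] [TopologicalSpace E] [IsTopologicalAddGroup E] [ContinuousSMul ℝ E]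
  [AddCommGroup F] [Module ℝ F] [TopologicalSpace F] [IsTopologicalAddGroup F] [ContinuousSMul ℝ F]
  [AddCommGroup G] [Module ℝ G] [TopologicalSpace G] [IsTopologicalAddGroup G] [ContinuousSMul ℝ G]
  [AddCommGroup E'] [Module ℝ E'] [TopologicalSpace E'] [IsTopologicalAddGroup E']
  [ContinuousSMul ℝ E']

theorem ParCk.continuousOn {k : ℕ} {f : T → E → F} {U : Set (T × E)} (h : ParCk T k E F f U) :
    ContinuousOn (Function.uncurry f) U := by
  cases k with
  | zero => exact h
  | succ k => exact h.1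

theorem ParCk.mono {k : ℕ} {f : T → E → F} {U V : Set (T × E)} (h : ParCk T k E F f U)
    (hV : V ⊆ U) : ParCk T k E F f V := by
  exact parCk_mono_aux k E F f U V h hV

theorem ParCk.of_succ {k : ℕ} {f : T → E → F} {U : Set (T × E)} (h : ParCk T (k + 1) E F f U) :
    ParCk T k E F f U := by
  exact parCk_of_succ_aux k E F f U h

theorem ParCk.congr {k : ℕ} {f g : T → E → F} {U : Set (T × E)} (h : ParCk T k E F f U)
    (hU : IsOpen U) (hfg : ∀ p ∈ U, f p.1 p.2 = g p.1 p.2) : ParCk T k E F g U := by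
  exact parCk_congr_aux k E F f g U h hU hfg

theorem ParCk.prodMk {k : ℕ} {f : T → E → F} {g : T → E → G} {U : Set (T × E)}
    (hf : ParCk T k E F f U) (hg : ParCk T k E G g U) :
    ParCk T k E (F × G) (fun t x => (f t x, g t x)) U := by
  exact parCk_prodMk_aux k E F G f g U hf hg

theorem ParCk.comp_right {k : ℕ} {f : T → E → F} {U : Set (T × E)} (L : E' →L[ℝ] E)
    (hf : ParCk T k E F f U) :
    ParCk T k E' F (fun t x => f t (L x)) {q | (q.1, L q.2) ∈ U} := by
  exact parCk_comp_right_aux k E F E' f U L hf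

theorem ParCk.clm_comp {k : ℕ} {f : T → E → F} {U : Set (T × E)} (L : F →L[ℝ] G)
    (hf : ParCk T k E F f U) : ParCk T k E G (fun t x => L (f t x)) U := by
  exact parCk_clm_comp_aux k E F G f U L hf

theorem ParCk.const (k : ℕ) {c : T → F} (hc : Continuous c) (U : Set (T × E)) :
    ParCk T k E F (fun t _ => c t) U := by
  exact parCk_const_aux k E F c U hc

theorem ParCk.clm (k : ℕ) {L : T → E →L[ℝ] F} (hL : Continuous fun p : T × E => L p.1 p.2)
    (U : Set (T × E)) : ParCk T k E F (fun t x => L t x) U := by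
  exact parCk_clm_aux k E F L U hL

theorem ParCk.comp_left {T' : Type z} [TopologicalSpace T'] {k : ℕ} {f : T → E → F}
    {U : Set (T × E)} {τ : T' → T} (hτ : Continuous τ) (hf : ParCk T k E F f U) :
    ParCk T' k E F (fun t x => f (τ t) x) {q | (τ q.1, q.2) ∈ U} := by
  exact parCk_comp_left_aux hτ k E F f U hf

end Pool.Agent.Lib.MP_862e0f_al
end

section

/-!
# Uniform difference quotients with parameters

The proof is the one of `C1.quot` (file `MP_862e0f_al/Calc.lean`), with the parameter `t ∈ T`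
added: closed convex neighbourhoods in `F` and `mean_value_mem`.
-/

set_option autoImplicit false
set_option linter.unusedSectionVars false

namespace Pool.Agent.Lib.MP_862e0f_al

open Filter Topology Set unitInterval

universe u v w x y z

variable {T : Type y} [TopologicalSpace T] {E : Type u} {F : Type v}
  [AddCommGroup E] [Module ℝ E] [TopologicalSpace E] [IsTopologicalAddGroup E] [ContinuousSMul ℝ E]
  [AddCommGroup F] [Module ℝ F] [TopologicalSpace F] [IsTopologicalAddGroup F] [ContinuousSMul ℝ F]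
  [LocallyConvexSpace ℝ F]

/-- uniform difference quotients, parametric version -/
theorem parC1_quot {f : T → E → F} {df : T → E × E → F} {U : Set (T × E)} (hU : IsOpen U)
    (hd : ∀ p ∈ U, ∀ v : E, HasDirDeriv (f p.1) p.2 v (df p.1 (p.2, v)))
    (hc : ContinuousOn (Function.uncurry df) {q : T × (E × E) | (q.1, q.2.1) ∈ U})
    {t₀ : T} {x₀ v₀ : E} (hx : (t₀, x₀) ∈ U) :
    Tendsto (fun q : T × ℝ × E × E =>
        q.2.1⁻¹ • (f q.1 (q.2.2.1 + q.2.1 • q.2.2.2) - f q.1 q.2.2.1))
      (𝓝 t₀ ×ˢ (𝓝[≠] (0 : ℝ) ×ˢ (𝓝 x₀ ×ˢ 𝓝 v₀))) (𝓝 (df t₀ (x₀, v₀))) := by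
  intro N hN
  rw [mem_map]
  obtain ⟨N', hN', hcl, hsub⟩ := exists_mem_nhds_isClosed_subset hN
  obtain ⟨C, hC1, hC2, hCN⟩ := (locallyConvexSpace_iff_exists_convex_subset ℝ F).mp inferInstance
    (df t₀ (x₀, v₀)) N' hN'
  have hcc : closure C ⊆ N := (closure_minimal hCN hcl).trans hsub
  have hopen : IsOpen {q : T × (E × E) | (q.1, q.2.1) ∈ U} :=
    hU.preimage (by fun_prop : Continuous fun q : T × (E × E) => (q.1, q.2.1))
  have hdf : ContinuousAt (Function.uncurry df) (t₀, (x₀, v₀)) :=
    hc.continuousAt (hopen.mem_nhds hx)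
  have h1 : ∀ᶠ z : T × (E × E) in 𝓝 (t₀, (x₀, v₀)), (z.1, z.2.1) ∈ U ∧ df z.1 z.2 ∈ C :=
    Filter.Eventually.and (hopen.mem_nhds hx) (hdf.eventually hC1)
  have h2 : Tendsto (fun q : ℝ × (T × (E × E)) =>
      (q.2.1, (q.2.2.1 + q.1 • q.2.2.2, q.2.2.2))) (𝓝 (0, (t₀, (x₀, v₀))))
      (𝓝 (t₀, (x₀, v₀))) := by
    have hc : Continuous (fun q : ℝ × (T × (E × E)) =>
      (q.2.1, (q.2.2.1 + q.1 • q.2.2.2, q.2.2.2))) := by fun_prop
    have := hc.tendsto (0, (t₀, (x₀, v₀)))
    simpa using this
  have h3 := h2.eventually h1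
  rw [nhds_prod_eq] at h3
  obtain ⟨pa, ha, pb, hb, hab⟩ := Filter.eventually_prod_iff.mp h3
  obtain ⟨ε, hε, hball⟩ := Metric.eventually_nhds_iff.mp ha
  set l : Filter (T × ℝ × E × E) := 𝓝 t₀ ×ˢ (𝓝[≠] (0 : ℝ) ×ˢ (𝓝 x₀ ×ˢ 𝓝 v₀)) with hl
  have t1 : Tendsto (fun q : T × ℝ × E × E => q.1) l (𝓝 t₀) := tendsto_fst
  have t2 : Tendsto (fun q : T × ℝ × E × E => q.2.1) l (𝓝[≠] (0 : ℝ)) :=
    tendsto_fst.comp tendsto_snd
  have t3 : Tendsto (fun q : T × ℝ × E × E => q.2.2.1) l (𝓝 x₀) :=
    tendsto_fst.comp (tendsto_snd.comp tendsto_snd)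
  have t4 : Tendsto (fun q : T × ℝ × E × E => q.2.2.2) l (𝓝 v₀) :=
    tendsto_snd.comp (tendsto_snd.comp tendsto_snd)
  have h4 : ∀ᶠ q in l, pb (q.1, (q.2.2.1, q.2.2.2)) :=
    (t1.prodMk_nhds (t3.prodMk_nhds t4)).eventually hb
  have h5 : ∀ᶠ q in l, |q.2.1| < ε := by
    have : ∀ᶠ t in 𝓝 (0 : ℝ), |t| < ε := by
      rw [Metric.eventually_nhds_iff]
      exact ⟨ε, hε, fun t ht => by simpa using ht⟩
    exact t2.eventually (this.filter_mono nhdsWithin_le_nhds)
  have h6 : ∀ᶠ q in l, q.2.1 ≠ 0 := by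
    have : ∀ᶠ t in 𝓝[≠] (0 : ℝ), t ≠ 0 := self_mem_nhdsWithin
    exact t2.eventually this
  filter_upwards [h4, h5, h6] with q ht1 ht2 ht3
  apply hcc
  have key : ∀ s : ℝ, |s| ≤ |q.2.1| → (q.1, q.2.2.1 + s • q.2.2.2) ∈ U ∧
      df q.1 (q.2.2.1 + s • q.2.2.2, q.2.2.2) ∈ C := by
    intro s hs
    have hs' : pa s := hball (by simpa using lt_of_le_of_lt hs ht2)
    exact hab hs' ht1
  refine mean_value_mem (f := f q.1) (df := fun z => df q.1 (z, q.2.2.2)) ht3
    (fun s hs => hd (q.1, q.2.2.1 + s • q.2.2.2) (key s hs).1 _)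
    hC2.closure isClosed_closure (fun s hs => subset_closure (key s hs).2)

/-- uniform difference quotients along arbitrary filters -/
theorem C1.quotF {ι : Type w} {l : Filter ι} {s : ι → ℝ} (hs : Tendsto s l (𝓝[≠] 0))
    {f : E → F} {df : E × E → F} {U : Set E} (h : C1 f df U) (hU : IsOpen U) {x₀ v₀ : E}
    (hx : x₀ ∈ U) {a b : ι → E} (ha : Tendsto a l (𝓝 x₀)) (hb : Tendsto b l (𝓝 v₀)) :
    Tendsto (fun i => (s i)⁻¹ • (f (a i + s i • b i) - f (a i))) l (𝓝 (df (x₀, v₀))) := by
  have hU' : IsOpen {p : Unit × E | p.2 ∈ U} := hU.preimage continuous_snd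
  have h1 := parC1_quot (T := Unit) (f := fun _ => f) (df := fun _ => df)
    (U := {p : Unit × E | p.2 ∈ U}) hU' (fun p hp v => h.deriv p.2 hp v) (by
      refine h.cont.comp (f := fun q : Unit × (E × E) => q.2) continuous_snd.continuousOn ?_
      intro q hq
      exact ⟨hq, mem_univ _⟩) (t₀ := ()) (x₀ := x₀) (v₀ := v₀) hx
  have h2 : Tendsto (fun i => (((), (s i, (a i, b i))) : Unit × ℝ × E × E)) l
      (𝓝 () ×ˢ (𝓝[≠] (0 : ℝ) ×ˢ (𝓝 x₀ ×ˢ 𝓝 v₀))) :=
    tendsto_const_nhds.prodMk (hs.prodMk (ha.prodMk hb))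
  exact h1.comp h2

end Pool.Agent.Lib.MP_862e0f_al
end

section

/-!
# Bastiani calculus with a topological parameter: locality, bilinear maps, Bastiani smoothness
-/

set_option autoImplicit false
set_option linter.unusedSectionVars false

namespace Pool.Agent.Lib.MP_862e0f_al

open Filter Topology Set unitInterval

universe u v w x y z

variable {T : Type y} [TopologicalSpace T] {E : Type u} {F : Type v} {G : Type w}
  [AddCommGroup E] [Module ℝ E] [TopologicalSpace E] [IsTopologicalAddGroup E] [ContinuousSMul ℝ E]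
  [AddCommGroup F] [Module ℝ F] [TopologicalSpace F] [IsTopologicalAddGroup F] [ContinuousSMul ℝ F]
  [AddCommGroup G] [Module ℝ G] [TopologicalSpace G] [IsTopologicalAddGroup G] [ContinuousSMul ℝ G]

theorem parLocal_bd_spec {f : E → F} {x v : E} {w : F} (h : HasDirDeriv f x v w) :
    HasDirDeriv f x v (bd f (x, v)) := by
  have h' : ∃ w : F, HasDirDeriv f (x, v).1 (x, v).2 w := ⟨w, h⟩
  unfold bd
  rw [dif_pos h']
  exact h'.choose_spec

theorem parLocal_bd_eq [T2Space F] {f : E → F} {x v : E} {w : F} (h : HasDirDeriv f x v w) :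
    bd f (x, v) = w :=
  tendsto_nhds_unique (parLocal_bd_spec h) h

theorem parLocal_aux [T2Space F] : ∀ (k : ℕ) (E : Type u) [AddCommGroup E] [Module ℝ E]
    [TopologicalSpace E] [IsTopologicalAddGroup E] [ContinuousSMul ℝ E] (f : T → E → F)
    (U : Set (T × E)),
    (∀ p ∈ U, ∃ V : Set (T × E), IsOpen V ∧ p ∈ V ∧ ParCk T k E F f V) → ParCk T k E F f U := by
  intro k
  induction k with
  | zero =>
    intro E _ _ _ _ _ f U h
    show ContinuousOn (Function.uncurry f) U
    intro p hp
    obtain ⟨V, hV, hpV, h1⟩ := h p hp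
    exact ((h1 : ContinuousOn (Function.uncurry f) V).continuousAt
      (hV.mem_nhds hpV)).continuousWithinAt
  | succ k ih =>
    intro E _ _ _ _ _ f U h
    refine ⟨?_, fun t q => bd (f t) q, ?_, ?_⟩
    · intro p hp
      obtain ⟨V, hV, hpV, h1⟩ := h p hp
      exact (h1.1.continuousAt (hV.mem_nhds hpV)).continuousWithinAt
    · intro p hp v
      obtain ⟨V, hV, hpV, h1, df, h2, h3⟩ := h p hp
      exact parLocal_bd_spec (h2 p hpV v)
    · apply ih
      intro q hq
      obtain ⟨V, hV, hpV, h1, df, h2, h3⟩ := h (q.1, q.2.1) hq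
      have hop : IsOpen {q : T × E × E | (q.1, q.2.1) ∈ V} :=
        hV.preimage (continuous_fst.prodMk (continuous_fst.comp continuous_snd))
      refine ⟨{q | (q.1, q.2.1) ∈ V}, hop, hpV, ?_⟩
      apply ParCk.congr h3 hop
      intro p hp
      exact (parLocal_bd_eq (h2 (p.1, p.2.1) hp p.2.2)).symm

/-- being `C^k` is a local property (take `df p.1 (p.2, v)` to be the directional derivative
`bd (f p.1) (p.2, v)`, which is unique since `F` is Hausdorff) -/
theorem ParCk.of_locally [T2Space F] {k : ℕ} {f : T → E → F} {U : Set (T × E)}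
    (h : ∀ p ∈ U, ∃ V : Set (T × E), IsOpen V ∧ p ∈ V ∧ ParCk T k E F f V) :
    ParCk T k E F f U :=
  parLocal_aux k E f U h

theorem parLocal_bilin : ∀ (k : ℕ) (E : Type u) (F : Type v) [AddCommGroup E] [Module ℝ E]
    [TopologicalSpace E] [IsTopologicalAddGroup E] [ContinuousSMul ℝ E] [AddCommGroup F]
    [Module ℝ F] [TopologicalSpace F] [IsTopologicalAddGroup F] [ContinuousSMul ℝ F]
    (B : E → F → G), IsContBilin B →
    ParCk T k (E × F) G (fun _ p => B p.1 p.2) univ := by
  intro k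
  induction k with
  | zero =>
    intro E F _ _ _ _ _ _ _ _ _ _ B hB
    show ContinuousOn _ _
    exact (hB.cont.comp continuous_snd).continuousOn
  | succ k ih =>
    intro E F _ _ _ _ _ _ _ _ _ _ B hB
    refine ⟨(hB.cont.comp continuous_snd).continuousOn,
      fun _ q => B q.1.1 q.2.2 + B q.2.1 q.1.2, ?_, ?_⟩
    · rintro ⟨t, a, b⟩ - ⟨a', b'⟩
      unfold HasDirDeriv
      have h1 : Tendsto (fun s : ℝ => B a b' + B a' b + s • B a' b') (𝓝[≠] 0)
          (𝓝 (B a b' + B a' b + (0 : ℝ) • B a' b')) := by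
        apply tendsto_nhdsWithin_of_tendsto_nhds
        apply Continuous.tendsto
        exact continuous_const.add (continuous_id.smul continuous_const)
      rw [zero_smul, add_zero] at h1
      refine h1.congr' ?_
      filter_upwards [self_mem_nhdsWithin] with s hs
      have hs0 : s ≠ 0 := hs
      have e1 : B (a + s • a') (b + s • b') - B a b =
          s • (B a b' + B a' b + s • B a' b') := by
        rw [hB.add_left, hB.add_right, hB.add_right, hB.smul_left, hB.smul_left, hB.smul_right,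
          hB.smul_right, smul_add, smul_add]
        abel
      show B a b' + B a' b + s • B a' b' =
        s⁻¹ • (B (a + s • a') (b + s • b') - B a b)
      rw [e1, smul_smul, inv_mul_cancel₀ hs0, one_smul]
    · let L1 : ((E × F) × (E × F)) →L[ℝ] (E × F) :=
        ((ContinuousLinearMap.fst ℝ E F).comp (ContinuousLinearMap.fst ℝ (E × F) (E × F))).prod
        ((ContinuousLinearMap.snd ℝ E F).comp (ContinuousLinearMap.snd ℝ (E × F) (E × F)))
      let L2 : ((E × F) × (E × F)) →L[ℝ] (E × F) :=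
        ((ContinuousLinearMap.fst ℝ E F).comp (ContinuousLinearMap.snd ℝ (E × F) (E × F))).prod
        ((ContinuousLinearMap.snd ℝ E F).comp (ContinuousLinearMap.fst ℝ (E × F) (E × F)))
      have h1 := ParCk.comp_right (T := T) L1 (ih E F B hB)
      have h2 := ParCk.comp_right (T := T) L2 (ih E F B hB)
      have h3 := (h1.prodMk h2).clm_comp
        (ContinuousLinearMap.fst ℝ G G + ContinuousLinearMap.snd ℝ G G)
      exact h3.mono (fun q _ => mem_univ _)

/-- continuous bilinear maps are smooth -/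
theorem IsContBilin.parCk (k : ℕ) {B : E → F → G} (hB : IsContBilin B) :
    ParCk T k (E × F) G (fun _ p => B p.1 p.2) univ :=
  parLocal_bilin k E F B hB

theorem parLocal_ofBastiani : ∀ (k : ℕ) (E : Type u) [AddCommGroup E] [Module ℝ E]
    [TopologicalSpace E] [IsTopologicalAddGroup E] [ContinuousSMul ℝ E] (f : E → F)
    (U : Set E), BastianiCk k E F f U → ParCk T k E F (fun _ => f) {p | p.2 ∈ U} := by
  intro k
  induction k with
  | zero =>
    intro E _ _ _ _ _ f U h
    show ContinuousOn _ _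
    exact (h : ContinuousOn f U).comp continuous_snd.continuousOn (fun p hp => hp)
  | succ k ih =>
    intro E _ _ _ _ _ f U h
    obtain ⟨h1, df, h2, h3⟩ := h
    refine ⟨h1.comp continuous_snd.continuousOn (fun p hp => hp), fun _ => df, ?_, ?_⟩
    · intro p hp v
      exact h2 p.2 hp v
    · exact (ih (E × E) df (U ×ˢ univ) h3).mono (fun q hq => ⟨hq, mem_univ _⟩)

/-- Bastiani smooth maps do not depend on the parameter -/
theorem ParCk.of_bastiani {k : ℕ} {f : E → F} {U : Set E} (h : BastianiCk k E F f U) :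
    ParCk T k E F (fun _ => f) {p | p.2 ∈ U} :=
  parLocal_ofBastiani k E f U h

theorem parLocal_mono : ∀ (k : ℕ) (E : Type u) [AddCommGroup E] [Module ℝ E]
    [TopologicalSpace E] [IsTopologicalAddGroup E] [ContinuousSMul ℝ E] (f : E → F)
    (U V : Set E), V ⊆ U → BastianiCk k E F f U → BastianiCk k E F f V := by
  intro k
  induction k with
  | zero =>
    intro E _ _ _ _ _ f U V hV h
    exact (h : ContinuousOn f U).mono hV
  | succ k ih =>
    intro E _ _ _ _ _ f U V hV h
    obtain ⟨h1, df, h2, h3⟩ := h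
    exact ⟨h1.mono hV, df, fun x hx v => h2 x (hV hx) v,
      ih (E × E) df _ _ (prod_mono hV (Subset.refl _)) h3⟩

theorem parLocal_bastiani (t : T) : ∀ (k : ℕ) (E : Type u) [AddCommGroup E] [Module ℝ E]
    [TopologicalSpace E] [IsTopologicalAddGroup E] [ContinuousSMul ℝ E] (f : T → E → F)
    (U : Set (T × E)), ParCk T k E F f U → BastianiCk k E F (f t) {x | (t, x) ∈ U} := by
  intro k
  induction k with
  | zero =>
    intro E _ _ _ _ _ f U h
    show ContinuousOn _ _
    exact (h : ContinuousOn (Function.uncurry f) U).comp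
      (continuous_const.prodMk continuous_id).continuousOn (fun x hx => hx)
  | succ k ih =>
    intro E _ _ _ _ _ f U h
    obtain ⟨h1, df, h2, h3⟩ := h
    refine ⟨h1.comp (continuous_const.prodMk continuous_id).continuousOn (fun x hx => hx),
      df t, ?_, ?_⟩
    · intro x hx v
      exact h2 (t, x) hx v
    · exact parLocal_mono k (E × E) (df t) _ _ (fun q hq => hq.1) (ih (E × E) df _ h3)

/-- fix the parameter -/
theorem ParCk.bastiani {k : ℕ} {f : T → E → F} {U : Set (T × E)} (h : ParCk T k E F f U) (t : T) :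
    BastianiCk k E F (f t) {x | (t, x) ∈ U} :=
  parLocal_bastiani t k E f U h

end Pool.Agent.Lib.MP_862e0f_al
end

section

/-!
# Picard-Lindelöf for `u' = A(u) ζ(t)` on `[0, 1]`
-/

set_option autoImplicit false
set_option linter.unusedSectionVars false

namespace Pool.Agent.Lib.MP_862e0f_al

open Filter Topology Set unitInterval

universe u v w x y z

variable {E : Type v} [NormedAddCommGroup E] [NormedSpace ℝ E] [CompleteSpace E]

theorem picard_hasIDeriv {g : ℝ → E} {w : E} (t : I)
    (h : HasDerivWithinAt g w (Icc (0 : ℝ) 1) (t : ℝ)) : HasIDeriv (fun s : I => g s) t w := by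
  rw [hasDerivWithinAt_iff_tendsto_slope] at h
  have h1 : Tendsto (Subtype.val : I → ℝ) (𝓝[≠] t) (𝓝[Icc (0 : ℝ) 1 \ {(t : ℝ)}] (t : ℝ)) := by
    rw [tendsto_nhdsWithin_iff]
    refine ⟨(continuous_subtype_val.tendsto t).mono_left nhdsWithin_le_nhds, ?_⟩
    filter_upwards [self_mem_nhdsWithin] with s hs
    exact ⟨s.2, fun h => hs (Subtype.ext h)⟩
  refine (h.comp h1).congr fun s => ?_
  simp [slope, vsub_eq_sub]

/-- Picard-Lindelöf (Mathlib: `IsPicardLindelof`) for `u' = A (u) (ζ t)` -/
theorem exists_picard {x₀ : E} {r : ℝ} (hr : 0 < r) {A : E → E →L[ℝ] E} {K : NNReal}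
    (h2 : ∀ a ∈ Metric.closedBall x₀ r, ‖A a‖ ≤ 2)
    (hK : LipschitzOnWith K A (Metric.closedBall x₀ r)) (ζ : C(I, E)) (hζ : ‖ζ‖ ≤ r / 2) :
    ∃ u : I → E, u 0 = x₀ ∧ ∀ t, u t ∈ Metric.closedBall x₀ r ∧ HasIDeriv u t (A (u t) (ζ t)) := by
  have h01 : (0 : ℝ) ≤ 1 := zero_le_one
  let f : ℝ → E → E := fun t x => A x (ζ (projIcc 0 1 h01 t))
  let t₀ : Icc (0 : ℝ) 1 := ⟨0, by simp⟩
  have hz : ∀ t : I, ‖ζ t‖ ≤ r / 2 := fun t => (ζ.norm_coe_le_norm t).trans hζ
  have hlip : ∀ z : E, ‖z‖ ≤ r / 2 → ∀ a ∈ Metric.closedBall x₀ r, ∀ b ∈ Metric.closedBall x₀ r,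
      dist (A a z) (A b z) ≤ (K * (r / 2)) * dist a b := by
    intro z hz' a ha b hb
    have h1 := hK.dist_le_mul a ha b hb
    rw [dist_eq_norm, ← ContinuousLinearMap.sub_apply]
    rw [dist_eq_norm] at h1
    calc ‖(A a - A b) z‖ ≤ ‖A a - A b‖ * ‖z‖ := ContinuousLinearMap.le_opNorm _ _
      _ ≤ (K * dist a b) * (r / 2) := by gcongr
      _ = (K * (r / 2)) * dist a b := by ring
  have hf : IsPicardLindelof f t₀ x₀ ⟨r, hr.le⟩ 0 ⟨r, hr.le⟩ (K * ⟨r / 2, by positivity⟩) := by
    refine ⟨fun t _ => ?_, fun x hx => ?_, fun t _ x hx => ?_, ?_⟩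
    · refine LipschitzOnWith.of_dist_le_mul fun a ha b hb => ?_
      exact hlip _ (hz _) a ha b hb
    · refine Continuous.continuousOn ?_
      exact (A x).continuous.comp (ζ.continuous.comp continuous_projIcc)
    · have h1 := h2 x hx
      calc ‖f t x‖ ≤ ‖A x‖ * ‖ζ (projIcc 0 1 h01 t)‖ := ContinuousLinearMap.le_opNorm _ _
        _ ≤ 2 * (r / 2) := by
          have := hz (projIcc 0 1 h01 t)
          gcongr
        _ = r := by ring
    · simp [t₀]
  have hx : x₀ ∈ Metric.closedBall x₀ ((0 : NNReal) : ℝ) := by simp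
  obtain ⟨α, hα⟩ := ODE.FunSpace.exists_isFixedPt_next hf hx
  rw [ODE.FunSpace.isFixedPt_next_iff] at hα
  have hmem : ∀ t : ℝ, α.compProj t ∈ Metric.closedBall x₀ r := fun t =>
    α.compProj_mem_closedBall hf.mul_max_le
  refine ⟨fun t => α t, ?_, fun t => ⟨?_, ?_⟩⟩
  · have := hα t₀
    rw [ODE.picard_apply₀] at this
    exact this
  · have := hmem t
    rwa [ODE.FunSpace.compProj_val] at this
  · have hcont : ContinuousOn (Function.uncurry f) (Icc (0 : ℝ) 1 ×ˢ Metric.closedBall x₀ r) :=
      continuousOn_prod_of_continuousOn_lipschitzOnWith' (Function.uncurry f) _ hf.lipschitzOnWith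
        hf.continuousOn
    have hd := ODE.hasDerivWithinAt_picard_Icc (f := f) (α := α.compProj) t₀.2 hcont
      α.continuous_compProj.continuousOn (fun t _ => hmem t) x₀ t.2
    have h3 := picard_hasIDeriv t hd
    have e : (fun s : I => ODE.picard f t₀ x₀ α.compProj s) = fun s : I => α s := by
      funext s
      exact (hα s).symm
    rw [e] at h3
    have e2 : f t (α.compProj t) = A (α t) (ζ t) := by
      simp only [f]
      rw [ODE.FunSpace.compProj_val, projIcc_val]
    rw [e2] at h3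
    exact h3

theorem picard_mean {d d' : I → E} (hd : ∀ t, HasIDeriv d t (d' t)) {C : ℝ}
    (hC : ∀ t, ‖d' t‖ ≤ C) (t : I) : ‖d t - d 0‖ ≤ C := by
  have hC0 : 0 ≤ C := (norm_nonneg _).trans (hC 0)
  rcases eq_or_lt_of_le (show (0 : I) ≤ t from t.2.1) with h | h
  · rw [← h, sub_self, norm_zero]
    exact hC0
  · have h1 := HasIDeriv.mean_value h (fun s _ => hd s) (convex_closedBall (0 : E) C)
      Metric.isClosed_closedBall fun s _ => by simpa using hC s
    rw [mem_closedBall_zero_iff, norm_smul] at h1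
    have ht0 : (0 : ℝ) < t := h
    have ht1 : (t : ℝ) ≤ 1 := t.2.2
    simp only [Icc.coe_zero, sub_zero, norm_inv, Real.norm_eq_abs, abs_of_pos ht0] at h1
    calc ‖d t - d 0‖ = (t : ℝ) * ((t : ℝ)⁻¹ * ‖d t - d 0‖) := by
          rw [← mul_assoc, mul_inv_cancel₀ ht0.ne', one_mul]
      _ ≤ 1 * C := by gcongr
      _ = C := one_mul C

/-- `‖u t - x₀‖ ≤ 2 ‖ζ‖` and then `‖u t - x₀ - ∫₀ᵗ ζ‖ ≤ 2 K ‖ζ‖ ^ 2` by the mean value theorem
(`HasIDeriv.mean_value` with a closed ball) -/
theorem picard_estimate {x₀ : E} {r : ℝ} {A : E → E →L[ℝ] E} {K : NNReal}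
    (h2 : ∀ a ∈ Metric.closedBall x₀ r, ‖A a‖ ≤ 2)
    (hK : LipschitzOnWith K A (Metric.closedBall x₀ r)) (h1 : A x₀ = ContinuousLinearMap.id ℝ E)
    (hr : 0 < r) (ζ : C(I, E)) {u : I → E} (hu0 : u 0 = x₀)
    (hu : ∀ t, u t ∈ Metric.closedBall x₀ r ∧ HasIDeriv u t (A (u t) (ζ t))) (t : I) :
    ‖u t - x₀ - integ ζ t‖ ≤ 2 * K * ‖ζ‖ ^ 2 := by
  have hA : ∀ t, ‖A (u t) (ζ t)‖ ≤ 2 * ‖ζ‖ := by
    intro s
    calc ‖A (u s) (ζ s)‖ ≤ ‖A (u s)‖ * ‖ζ s‖ := ContinuousLinearMap.le_opNorm _ _
      _ ≤ 2 * ‖ζ‖ := by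
        have h3 := h2 _ (hu s).1
        have h4 := ζ.norm_coe_le_norm s
        gcongr
  have hux : ∀ s, ‖u s - x₀‖ ≤ 2 * ‖ζ‖ := by
    intro s
    rw [← hu0]
    exact picard_mean (fun t => (hu t).2) hA s
  obtain ⟨hi0, hi⟩ := integ_spec (hasAnti_banach E) ζ.continuous
  have hd : ∀ s, HasIDeriv (fun s => u s + (-1 : ℝ) • integ ζ s) s
      (A (u s) (ζ s) + (-1 : ℝ) • ζ s) := fun s => (hu s).2.add ((hi s).smul (-1))
  have hb : ∀ s, ‖A (u s) (ζ s) + (-1 : ℝ) • ζ s‖ ≤ 2 * K * ‖ζ‖ ^ 2 := by
    intro s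
    have e : A (u s) (ζ s) + (-1 : ℝ) • ζ s = (A (u s) - A x₀) (ζ s) := by
      rw [h1, ContinuousLinearMap.sub_apply, ContinuousLinearMap.id_apply, neg_one_smul,
        sub_eq_add_neg]
    rw [e]
    have h3 := hK.dist_le_mul (u s) (hu s).1 x₀ (Metric.mem_closedBall_self hr.le)
    rw [dist_eq_norm, dist_eq_norm] at h3
    calc ‖(A (u s) - A x₀) (ζ s)‖ ≤ ‖A (u s) - A x₀‖ * ‖ζ s‖ := ContinuousLinearMap.le_opNorm _ _
      _ ≤ (K * ‖u s - x₀‖) * ‖ζ‖ := by
        have h4 := ζ.norm_coe_le_norm s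
        gcongr
      _ ≤ (K * (2 * ‖ζ‖)) * ‖ζ‖ := by
        have h4 := hux s
        gcongr
      _ = 2 * K * ‖ζ‖ ^ 2 := by ring
  have h5 := picard_mean hd hb t
  have e : (u t + (-1 : ℝ) • integ ζ t) - (u 0 + (-1 : ℝ) • integ ζ 0) = u t - x₀ - integ ζ t := by
    rw [hi0, hu0]
    simp only [neg_smul, one_smul, smul_zero, add_zero]
    abel
  rwa [e] at h5

end Pool.Agent.Lib.MP_862e0f_al
end

section

/-!
# Semidirect products `V ⋊ H`: definitions
-/

set_option autoImplicit false
set_option linter.unusedSectionVars false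

namespace Pool.Agent.Lib.MP_862e0f_al

open Filter Topology Set unitInterval

universe u v w x y z

section

variable (E : Type v) [AddCommGroup E] [Module ℝ E] [TopologicalSpace E]
  {V : Type w} [AddCommGroup V] [Module ℝ V] [TopologicalSpace V] [IsTopologicalAddGroup V]
  [ContinuousSMul ℝ V] {H : Type u} [Group H] [TopologicalSpace H] [ChartedSpace E H]

/-- The linear action `act` of the Lie group `H` on `V` is smooth (as a map `H × V → V`). -/
def IsSmoothAct (act : H →* (V →L[ℝ] V)) : Prop :=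
  ∀ ψ ∈ atlas E H, BastianiSmooth (fun z : E × V => act (ψ.symm z.1) z.2) (ψ.target ×ˢ univ)

end

variable {E : Type v} [AddCommGroup E] [Module ℝ E] [TopologicalSpace E]
  {V : Type w} [AddCommGroup V] [Module ℝ V] [TopologicalSpace V] [IsTopologicalAddGroup V]
  [ContinuousSMul ℝ V] {H : Type u} [Group H] [TopologicalSpace H]

/-- The semidirect product `V ⋊ H`, as a set `V × H`. -/
def SD (_act : H →* (V →L[ℝ] V)) : Type (max w u) := V × H

variable {act : H →* (V →L[ℝ] V)}

instance : TopologicalSpace (SD act) := inferInstanceAs (TopologicalSpace (V × H))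

instance [T2Space V] [T2Space H] : T2Space (SD act) := inferInstanceAs (T2Space (V × H))

/-- the semidirect product: `(v, g) (w, h) = (v + g w, g h)` -/
instance : Group (SD act) where
  mul p q := (p.1 + act p.2 q.1, p.2 * q.2)
  one := (0, 1)
  inv p := (-(act p.2⁻¹ p.1), p.2⁻¹)
  mul_assoc p q r := by
    refine Prod.ext ?_ (mul_assoc _ _ _)
    change p.1 + act p.2 q.1 + act (p.2 * q.2) r.1 = p.1 + act p.2 (q.1 + act q.2 r.1)
    rw [map_mul, map_add, add_assoc]
    rfl
  one_mul p := by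
    refine Prod.ext ?_ (one_mul _)
    change 0 + act 1 p.1 = p.1
    rw [map_one, zero_add]
    rfl
  mul_one p := by
    refine Prod.ext ?_ (mul_one _)
    change p.1 + act p.2 0 = p.1
    rw [map_zero, add_zero]
  inv_mul_cancel p := by
    refine Prod.ext ?_ (inv_mul_cancel _)
    change -(act p.2⁻¹ p.1) + act p.2⁻¹ p.1 = 0
    rw [neg_add_cancel]

/-- elements of the semidirect product -/
def SD.mk (v : V) (h : H) : SD act := (v, h)

@[simp] theorem SD.mul_fst (p q : SD act) : (p * q).1 = p.1 + act p.2 q.1 := rfl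
@[simp] theorem SD.mul_snd (p q : SD act) : (p * q).2 = p.2 * q.2 := rfl
@[simp] theorem SD.one_fst : (1 : SD act).1 = 0 := rfl
@[simp] theorem SD.one_snd : (1 : SD act).2 = 1 := rfl
@[simp] theorem SD.inv_fst (p : SD act) : (p⁻¹).1 = -(act p.2⁻¹ p.1) := rfl
@[simp] theorem SD.inv_snd (p : SD act) : (p⁻¹).2 = p.2⁻¹ := rfl

/-- the chart `id × φ` -/
def SD.chart (φ : OpenPartialHomeomorph H E) : OpenPartialHomeomorph (SD act) (V × E) :=
  (OpenPartialHomeomorph.refl V).prod φ

instance SD.charted [ChartedSpace E H] : ChartedSpace (V × E) (SD act) where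
  atlas := {e | ∃ φ ∈ atlas E H, e = SD.chart φ}
  chartAt p := SD.chart (chartAt E p.2)
  mem_chart_source p := ⟨mem_univ p.1, mem_chart_source E p.2⟩
  chart_mem_atlas p := ⟨chartAt E p.2, chart_mem_atlas E p.2, rfl⟩

theorem SD.mem_atlas [ChartedSpace E H] {e : OpenPartialHomeomorph (SD act) (V × E)} :
    e ∈ atlas (V × E) (SD act) ↔ ∃ φ ∈ atlas E H, e = SD.chart φ := Iff.rfl

theorem SD.chartAt_eq [ChartedSpace E H] (p : SD act) :
    chartAt (V × E) p = SD.chart (chartAt E p.2) := rfl

@[simp] theorem SD.chart_apply (φ : OpenPartialHomeomorph H E) (p : SD act) :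
    (SD.chart φ : OpenPartialHomeomorph (SD act) (V × E)) p = (p.1, φ p.2) := rfl

@[simp] theorem SD.chart_symm_apply (φ : OpenPartialHomeomorph H E) (p : V × E) :
    (SD.chart φ : OpenPartialHomeomorph (SD act) (V × E)).symm p = SD.mk p.1 (φ.symm p.2) := rfl

theorem SD.mem_chart_source (φ : OpenPartialHomeomorph H E) (p : SD act) :
    p ∈ (SD.chart φ : OpenPartialHomeomorph (SD act) (V × E)).source ↔ p.2 ∈ φ.source :=
  ⟨fun h => h.2, fun h => ⟨mem_univ _, h⟩⟩

theorem SD.mem_chart_target (φ : OpenPartialHomeomorph H E) (p : V × E) :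
    p ∈ (SD.chart φ : OpenPartialHomeomorph (SD act) (V × E)).target ↔ p.2 ∈ φ.target :=
  ⟨fun h => h.2, fun h => ⟨mem_univ _, h⟩⟩

/-- the embedding `h ↦ (0, h)` -/
def SD.inr (act : H →* (V →L[ℝ] V)) : H →* SD act where
  toFun h := SD.mk 0 h
  map_one' := rfl
  map_mul' g h := by
    refine Prod.ext ?_ rfl
    change (0 : V) = 0 + act g 0
    rw [map_zero, add_zero]

/-- the embedding `h ↦ (f - h f, h)`, conjugate to `SD.inr` -/
def SD.twist (act : H →* (V →L[ℝ] V)) (f : V) : H →* SD act where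
  toFun h := SD.mk (f - act h f) h
  map_one' := by
    refine Prod.ext ?_ rfl
    change f - act 1 f = 0
    rw [map_one]
    exact sub_self f
  map_mul' g h := by
    refine Prod.ext ?_ rfl
    change f - act (g * h) f = f - act g f + act g (f - act h f)
    rw [map_sub, map_mul]
    change f - act g (act h f) = _
    abel

end Pool.Agent.Lib.MP_862e0f_al
end
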