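import Pool.Agent.Lib.MP_862e0f_P.Mg.G002
import Pool.Agent.Lib.MP_862e0f_P.Mg.G001

section

/-!
# Left velocities of curves `[0, 1] → K`
-/

set_option autoImplicit false
set_option linter.unusedSectionVars false

namespace Pool.Agent.Lib.MP_862e0f_al

open Filter Topology Set unitInterval

universe u v w x y z

variable {F : Type v} [AddCommGroup F] [Module ℝ F] [TopologicalSpace F]
  [IsTopologicalAddGroup F] [ContinuousSMul ℝ F] [LocallyConvexSpace ℝ F] [T2Space F]
  {K : Type u} [Group K] [TopologicalSpace K] [ChartedSpace F K]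

theorem tendsto_sub_nhdsNE (t : I) : Tendsto (fun s : I => (s : ℝ) - t) (𝓝[≠] t) (𝓝[≠] 0) := by
  rw [tendsto_nhdsWithin_iff]
  constructor
  · have hc : Continuous fun s : I => (s : ℝ) - t := by fun_prop
    have h := hc.tendsto t
    simp only [sub_self] at h
    exact h.mono_left nhdsWithin_le_nhds
  · filter_upwards [self_mem_nhdsWithin] with s hs
    have hs' : s ≠ t := hs
    exact sub_ne_zero.2 fun h => hs' (Subtype.ext h)

theorem LVel.const_mul {γ : I → K} {t : I} {v : F} (h : LVel γ t v) (g : K) :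
    LVel (fun s => g * γ s) t v := by
  unfold LVel at h ⊢
  refine h.congr (Eventually.of_forall fun s => ?_)
  group

theorem LVel.mul (hK : IsLieGroup F K) {γ δ : I → K} {t : I} {v w : F} (h : LVel γ t v)
    (h' : LVel δ t w) : LVel (fun s => γ s * δ s) t (AdF (δ t)⁻¹ v + w) := by
  have h1 := VelF.mul hK (tendsto_sub_nhdsNE t)
    (VelF.conj hK (tendsto_sub_nhdsNE t) h (δ t)⁻¹) h'
  unfold LVel
  refine h1.congr (Eventually.of_forall fun s => ?_)
  group

/-- derivative in a chart -/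
theorem LVel.hasIDeriv (hK : IsLieGroup F K) {γ : I → K} {t : I} {v : F} (h : LVel γ t v)
    {ψ : OpenPartialHomeomorph K F} (hψ : ψ ∈ atlas F K) (ht : γ t ∈ ψ.source) :
    HasIDeriv (fun s => ψ (γ s)) t (leftT ψ (ψ (γ t), v)) := by
  have h1 := VelF.left_chart hK (tendsto_sub_nhdsNE t) h hψ ht
  unfold HasIDeriv
  refine h1.congr fun s => ?_
  rw [mul_inv_cancel_left]

theorem LVel.hasLeftLogDeriv (hK : IsLieGroup F K) {γ : I → K} {t : I} {v : F}
    (h : LVel γ t v) : HasLeftLogDeriv F γ t v := by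
  intro ψ hψ ht
  refine ⟨leftT ψ (ψ (γ t), v), h.hasIDeriv hK hψ ht, ?_⟩
  have h1 := leftT_deriv hK hψ (ψ.map_source ht) v
  rw [ψ.left_inv ht] at h1
  exact h1

theorem leftT_zero (hK : IsLieGroup F K) {ψ : OpenPartialHomeomorph K F} (hψ : ψ ∈ atlas F K)
    {u : F} (hu : u ∈ ψ.target) : leftT ψ (u, (0 : F)) = 0 := by
  have h1 := leftT_deriv hK hψ hu (0 : F)
  have h2 : HasDirDeriv (fun z => ψ (ψ.symm u * (chartAt F (1 : K)).symm z))
      (chartAt F (1 : K) 1) (0 : F) (0 : F) := by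
    unfold HasDirDeriv
    simp only [smul_zero, add_zero, sub_self]
    exact tendsto_const_nhds
  exact tendsto_nhds_unique h1 h2

/-- a curve with zero velocity is constant -/
theorem LVel.eq_const [T2Space K] (hK : IsLieGroup F K) {γ : I → K} (hγ : Continuous γ)
    (h : ∀ t, LVel γ t (0 : F)) (t : I) : γ t = γ 0 := by
  have hcl : IsClosed {t | γ t = γ 0} := isClosed_eq hγ continuous_const
  have hop : IsOpen {t | γ t = γ 0} := by
    rw [Metric.isOpen_iff]
    intro t₀ ht₀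
    have ht₀' : γ t₀ = γ 0 := ht₀
    set ψ := chartAt F (γ t₀) with hψdef
    have hψ : ψ ∈ atlas F K := chart_mem_atlas F (γ t₀)
    have hmem : γ t₀ ∈ ψ.source := mem_chart_source F (γ t₀)
    have hU : IsOpen (γ ⁻¹' ψ.source) := ψ.open_source.preimage hγ
    obtain ⟨ε, hε, hball⟩ := Metric.isOpen_iff.1 hU t₀ hmem
    refine ⟨ε, hε, fun s hs => ?_⟩
    have hd : ∀ a ∈ Metric.ball t₀ ε, HasIDeriv (fun s => ψ (γ s)) a (0 : F) := by
      intro a ha
      have h1 := (h a).hasIDeriv hK hψ (hball ha)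
      rwa [leftT_zero hK hψ (ψ.map_source (hball ha))] at h1
    have key : ∀ a b : I, a < b → (∀ c ∈ Icc a b, c ∈ Metric.ball t₀ ε) →
        ψ (γ a) = ψ (γ b) := by
      intro a b hab hc
      have h1 := HasIDeriv.mean_value (C := fun s => ψ (γ s)) (c := fun _ => (0 : F)) hab
        (fun c hc' => hd c (hc c hc')) (convex_singleton (0 : F)) isClosed_singleton
        (fun _ _ => rfl)
      have h2 : ((b : ℝ) - a)⁻¹ ≠ 0 := by
        apply inv_ne_zero
        exact sub_ne_zero.2 fun h => hab.ne' (Subtype.ext h)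
      have h3 : ψ (γ b) - ψ (γ a) = 0 := by
        rcases smul_eq_zero.1 (show ((b : ℝ) - a)⁻¹ • (ψ (γ b) - ψ (γ a)) = 0 from h1) with h4 | h4
        · exact absurd h4 h2
        · exact h4
      exact (sub_eq_zero.1 h3).symm
    have hψeq : ψ (γ s) = ψ (γ t₀) := by
      have hs' : |(s : ℝ) - t₀| < ε := by
        have := Metric.mem_ball.1 hs
        rwa [Subtype.dist_eq, Real.dist_eq] at this
      rcases lt_trichotomy s t₀ with hlt | heq | hgt
      · refine key s t₀ hlt fun c hc => ?_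
        rw [Metric.mem_ball, Subtype.dist_eq, Real.dist_eq]
        have h1 : (s : ℝ) ≤ c := hc.1
        have h2 : (c : ℝ) ≤ t₀ := hc.2
        rw [abs_lt] at hs' ⊢
        constructor <;> linarith
      · rw [heq]
      · refine (key t₀ s hgt fun c hc => ?_).symm
        rw [Metric.mem_ball, Subtype.dist_eq, Real.dist_eq]
        have h1 : (t₀ : ℝ) ≤ c := hc.1
        have h2 : (c : ℝ) ≤ s := hc.2
        rw [abs_lt] at hs' ⊢
        constructor <;> linarith
    have h5 : γ s = γ t₀ := ψ.injOn (hball hs) hmem hψeq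
    show γ s = γ 0
    rw [h5, ht₀']
  have huniv : {t | γ t = γ 0} = univ := IsClopen.eq_univ ⟨hcl, hop⟩ ⟨0, rfl⟩
  have : t ∈ {t | γ t = γ 0} := huniv ▸ mem_univ t
  exact this

/-- uniqueness: consider `fun s => γ s * (δ s)⁻¹` -/
theorem LVel.eq [T2Space K] (hK : IsLieGroup F K) {γ δ : I → K} (hγ : Continuous γ)
    (hδ : Continuous δ) {ξ : I → F} (h : ∀ t, LVel γ t (ξ t)) (h' : ∀ t, LVel δ t (ξ t))
    (h0 : γ 0 = δ 0) : γ = δ := by
  have := hK.isTopologicalGroup
  have hinv : ∀ t, LVel (fun s => (δ s)⁻¹) t (-(AdF (δ t) (ξ t))) := by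
    intro t
    have h1 := VelF.inv hK (tendsto_sub_nhdsNE t)
      (VelF.conj hK (tendsto_sub_nhdsNE t) (h' t) (δ t))
    unfold LVel
    refine h1.congr (Eventually.of_forall fun s => ?_)
    group
  have h1 : ∀ t, LVel (fun s => γ s * (δ s)⁻¹) t (0 : F) := by
    intro t
    have h2 := (h t).mul hK (hinv t)
    rw [inv_inv, add_neg_cancel] at h2
    exact h2
  have h2 : Continuous fun s => γ s * (δ s)⁻¹ := hγ.mul hδ.inv
  funext t
  have h3 := LVel.eq_const hK h2 h1 t
  simp only [h0, mul_inv_cancel] at h3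
  exact mul_inv_eq_one.1 h3

/-- a curve with a smooth left logarithmic derivative is smooth: in the chart `ψ` the curve `c`
satisfies `c' = leftT ψ (c, ξ)`, so if `c` is `C^k` then it is `C^(k+1)` (`CurveCk.comp`) -/
theorem isSmoothCurve_of_leftLogDeriv (hK : IsLieGroup F K) {γ : I → K} (hγ : Continuous γ)
    (ξ : SmoothCurve F) (h : ∀ t, HasLeftLogDeriv F γ t (ξ.1 0 t)) : IsSmoothCurve F γ := by
  refine ⟨hγ, fun ψ hψ k => ?_⟩
  have hc0 : ContinuousOn (fun t => ψ (γ t)) {t | γ t ∈ ψ.source} :=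
    ψ.continuousOn.comp hγ.continuousOn fun t ht => ht
  induction k with
  | zero => exact hc0
  | succ k ih =>
    refine ⟨hc0, fun t => leftT ψ (ψ (γ t), ξ.1 0 t), fun t ht => ?_, ?_⟩
    · obtain ⟨w, hw, hw'⟩ := h t ψ hψ ht
      have h1 := leftT_deriv hK hψ (ψ.map_source ht) (ξ.1 0 t)
      rw [ψ.left_inv ht] at h1
      have h2 : w = leftT ψ (ψ (γ t), ξ.1 0 t) := tendsto_nhds_unique hw' h1
      show HasIDeriv (fun t => ψ (γ t)) t (leftT ψ (ψ (γ t), ξ.1 0 t))
      rw [← h2]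
      exact hw
    · exact CurveCk.comp (leftT_smooth hK hψ k) (ψ.open_target.prod isOpen_univ)
        (ih.prodMk (SmoothCurve.curveCk ξ k _)) fun t ht => ⟨ψ.map_source ht, mem_univ _⟩

end Pool.Agent.Lib.MP_862e0f_al
end

section

/-!
# From small to arbitrary curves: doubling

If the equation `γ' = γ ζ`, `γ(0) = 1` is solvable for `‖ζ‖ ≤ δ` then it is solvable for
`‖ζ‖ ≤ 2 δ`: let `ζ₁ t = ζ (t / 2) / 2`, `ζ₂ t = ζ ((1 + t) / 2) / 2` and
`γ t = γ₁ (2 t)` for `t ≤ 1 / 2`, `γ t = γ₁ 1 * γ₂ (2 t - 1)` for `t ≥ 1 / 2`.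
-/

set_option autoImplicit false
set_option linter.unusedSectionVars false

namespace Pool.Agent.Lib.MP_862e0f_al

open Filter Topology Set unitInterval

universe u v w x y z

variable {E : Type v} [NormedAddCommGroup E] [NormedSpace ℝ E]
  {H : Type u} [Group H] [TopologicalSpace H] [ChartedSpace E H]

/-- reparametrisation with speed two -/
theorem OdeGlue_repar {γ : I → H} {τ t : I} {w : E} (h : LVel γ τ w) {l : Filter I} {d : I → I}
    (hd : Tendsto d l (𝓝[≠] τ)) (hs : ∀ᶠ s in l, (d s : ℝ) - τ = 2 * ((s : ℝ) - t)) :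
    VelF l (fun s : I => (s : ℝ) - t) (fun s => (γ τ)⁻¹ * γ (d s)) ((2 : ℝ) • w) := by
  constructor
  · exact h.cont.comp hd
  · have h1 := (h.vel.comp hd).const_smul (2 : ℝ)
    refine h1.congr' ?_
    filter_upwards [hs] with s hs
    simp only [Function.comp_apply]
    rw [hs, smul_smul, mul_inv, ← mul_assoc, mul_inv_cancel₀ (two_ne_zero), one_mul]

theorem OdeGlue_sup {ι : Type w} {l l' : Filter ι} {s : ι → ℝ} {k : ι → H} {v : E}
    (h : VelF l s k v) (h' : VelF l' s k v) : VelF (l ⊔ l') s k v :=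
  ⟨h.cont.sup h'.cont, h.vel.sup h'.vel⟩

theorem OdeGlue_bot {ι : Type w} {s : ι → ℝ} {k : ι → H} {v : E} : VelF (⊥ : Filter ι) s k v :=
  ⟨tendsto_bot, tendsto_bot⟩

theorem OdeGlue_congr {ι : Type w} {l : Filter ι} {s : ι → ℝ} {k k' : ι → H} {v : E}
    (h : VelF l s k v) (h' : ∀ᶠ i in l, k i = k' i) : VelF l s k' v := by
  constructor
  · exact h.cont.congr' h'
  · refine h.vel.congr' ?_
    filter_upwards [h'] with i hi
    rw [hi]

theorem OdeGlue_split {γ : I → H} {t : I} {v : E} (A : Set I)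
    (h1 : VelF (𝓝[≠] t ⊓ 𝓟 A) (fun s : I => (s : ℝ) - t) (fun s => (γ t)⁻¹ * γ s) v)
    (h2 : VelF (𝓝[≠] t ⊓ 𝓟 Aᶜ) (fun s : I => (s : ℝ) - t) (fun s => (γ t)⁻¹ * γ s) v) :
    LVel γ t v := by
  have h3 := OdeGlue_sup h1 h2
  rw [← inf_sup_left, sup_principal, union_compl_self, principal_univ, inf_top_eq] at h3
  exact h3

/-- the first reparametrisation `s ↦ min (2 s) 1` -/
noncomputable def OdeGlue_d1 (s : I) : I := projIcc (0 : ℝ) 1 zero_le_one (2 * (s : ℝ))

/-- the second reparametrisation `s ↦ max (2 s - 1) 0` -/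
noncomputable def OdeGlue_d2 (s : I) : I := projIcc (0 : ℝ) 1 zero_le_one (2 * (s : ℝ) - 1)

theorem OdeGlue_d1_cont : Continuous OdeGlue_d1 := by
  unfold OdeGlue_d1
  exact continuous_projIcc.comp (by fun_prop)

theorem OdeGlue_d2_cont : Continuous OdeGlue_d2 := by
  unfold OdeGlue_d2
  exact continuous_projIcc.comp (by fun_prop)

theorem OdeGlue_d1_le {s : I} (h : (s : ℝ) ≤ 1 / 2) : (OdeGlue_d1 s : ℝ) = 2 * s := by
  unfold OdeGlue_d1
  rw [projIcc_of_mem zero_le_one ⟨by linarith [s.2.1], by linarith⟩]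

theorem OdeGlue_d1_ge {s : I} (h : 1 / 2 ≤ (s : ℝ)) : OdeGlue_d1 s = 1 := by
  unfold OdeGlue_d1
  exact projIcc_of_right_le zero_le_one (by linarith)

theorem OdeGlue_d2_le {s : I} (h : (s : ℝ) ≤ 1 / 2) : OdeGlue_d2 s = 0 := by
  unfold OdeGlue_d2
  exact projIcc_of_le_left zero_le_one (by linarith)

theorem OdeGlue_d2_ge {s : I} (h : 1 / 2 ≤ (s : ℝ)) : (OdeGlue_d2 s : ℝ) = 2 * s - 1 := by
  unfold OdeGlue_d2
  rw [projIcc_of_mem zero_le_one ⟨by linarith, by linarith [s.2.2]⟩]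

/-- the left half of the interval -/
def OdeGlue_A : Set I := {s : I | (s : ℝ) ≤ 1 / 2}

theorem OdeGlue_memA {s : I} : s ∈ OdeGlue_A ↔ (s : ℝ) ≤ 1 / 2 := Iff.rfl

theorem OdeGlue_memAc {s : I} : s ∈ OdeGlue_Aᶜ ↔ 1 / 2 < (s : ℝ) := by
  rw [mem_compl_iff, OdeGlue_memA, not_le]

theorem evol_double (hH : IsLieGroup E H) {δ : ℝ} (h : ∀ ζ : C(I, E), ‖ζ‖ ≤ δ → ∃ γ : I → H,
      Continuous γ ∧ γ 0 = 1 ∧ ∀ t, LVel γ t (ζ t)) (ζ : C(I, E)) (hζ : ‖ζ‖ ≤ 2 * δ) :
    ∃ γ : I → H, Continuous γ ∧ γ 0 = 1 ∧ ∀ t, LVel γ t (ζ t) := by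
  have hδ : 0 ≤ δ := by linarith [norm_nonneg ζ]
  obtain ⟨c1, hc1⟩ : ∃ c1 : C(I, I), ∀ τ, (c1 τ : ℝ) = (τ : ℝ) / 2 :=
    ⟨⟨fun τ => ⟨(τ : ℝ) / 2, by linarith [τ.2.1], by linarith [τ.2.2]⟩, by fun_prop⟩,
      fun _ => rfl⟩
  obtain ⟨c2, hc2⟩ : ∃ c2 : C(I, I), ∀ τ, (c2 τ : ℝ) = (1 + (τ : ℝ)) / 2 :=
    ⟨⟨fun τ => ⟨(1 + (τ : ℝ)) / 2, by linarith [τ.2.1], by linarith [τ.2.2]⟩, by fun_prop⟩,
      fun _ => rfl⟩
  have hnorm : ∀ c : C(I, I), ‖(1 / 2 : ℝ) • ζ.comp c‖ ≤ δ := by
    intro c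
    rw [ContinuousMap.norm_le _ hδ]
    intro x
    rw [ContinuousMap.smul_apply, norm_smul, ContinuousMap.comp_apply, Real.norm_eq_abs,
      abs_of_pos (by norm_num : (0 : ℝ) < 1 / 2)]
    linarith [ζ.norm_coe_le_norm (c x)]
  obtain ⟨γ₁, hγ₁, h10, h1v⟩ := h ((1 / 2 : ℝ) • ζ.comp c1) (hnorm c1)
  obtain ⟨γ₂, hγ₂, h20, h2v⟩ := h ((1 / 2 : ℝ) • ζ.comp c2) (hnorm c2)
  refine ⟨fun s => γ₁ (OdeGlue_d1 s) * γ₂ (OdeGlue_d2 s), ?_, ?_, ?_⟩
  · exact hH.continuous_mul.comp ((hγ₁.comp OdeGlue_d1_cont).prodMk (hγ₂.comp OdeGlue_d2_cont))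
  · have h1 : OdeGlue_d1 0 = 0 := by
      apply Subtype.ext
      rw [OdeGlue_d1_le (by rw [Icc.coe_zero]; norm_num), Icc.coe_zero, mul_zero]
    have h2 : OdeGlue_d2 0 = 0 := OdeGlue_d2_le (by rw [Icc.coe_zero]; norm_num)
    show γ₁ (OdeGlue_d1 0) * γ₂ (OdeGlue_d2 0) = 1
    rw [h1, h2, h10, h20, one_mul]
  · intro t
    refine OdeGlue_split OdeGlue_A ?_ ?_
    · rcases le_or_gt (t : ℝ) (1 / 2) with ht | ht
      · -- left half
        have hev : ∀ᶠ s : I in 𝓝[≠] t ⊓ 𝓟 OdeGlue_A, (s : ℝ) ≤ 1 / 2 := by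
          have h3 : OdeGlue_A ∈ 𝓝[≠] t ⊓ 𝓟 OdeGlue_A :=
            mem_inf_of_right (mem_principal_self _)
          filter_upwards [h3] with s hs
          exact OdeGlue_memA.mp hs
        have hd : Tendsto OdeGlue_d1 (𝓝[≠] t ⊓ 𝓟 OdeGlue_A)
            (𝓝[≠] (OdeGlue_d1 t)) := by
          apply tendsto_nhdsWithin_of_tendsto_nhds_of_eventually_within
          · exact (OdeGlue_d1_cont.tendsto t).mono_left (inf_le_left.trans nhdsWithin_le_nhds)
          · have hne : ∀ᶠ s : I in 𝓝[≠] t ⊓ 𝓟 OdeGlue_A, s ∈ ({t}ᶜ : Set I) :=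
              mem_inf_of_left self_mem_nhdsWithin
            filter_upwards [hev, hne] with s hs hs'
            intro h3
            apply hs'
            have h4 : (OdeGlue_d1 s : ℝ) = OdeGlue_d1 t := congrArg Subtype.val h3
            rw [OdeGlue_d1_le hs, OdeGlue_d1_le ht] at h4
            exact Subtype.ext (by linarith)
        have h3 := OdeGlue_repar (t := t) (h1v (OdeGlue_d1 t)) hd (by
          filter_upwards [hev] with s hs
          rw [OdeGlue_d1_le hs, OdeGlue_d1_le ht]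
          ring)
        have h4 : (2 : ℝ) • ((1 / 2 : ℝ) • ζ.comp c1) (OdeGlue_d1 t) = ζ t := by
          rw [ContinuousMap.smul_apply, smul_smul, ContinuousMap.comp_apply]
          have h5 : c1 (OdeGlue_d1 t) = t := by
            apply Subtype.ext
            rw [hc1, OdeGlue_d1_le ht]
            ring
          rw [h5]
          norm_num
        rw [h4] at h3
        refine OdeGlue_congr h3 ?_
        filter_upwards [hev] with s hs
        rw [OdeGlue_d2_le hs, OdeGlue_d2_le ht, h20, mul_one, mul_one]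
      · have hbot : 𝓝[≠] t ⊓ 𝓟 OdeGlue_A = ⊥ := by
          rw [← empty_mem_iff_bot]
          have h3 : {s : I | 1 / 2 < (s : ℝ)} ∈ 𝓝[≠] t :=
            nhdsWithin_le_nhds ((isOpen_lt continuous_const continuous_subtype_val).mem_nhds ht)
          have h4 := inter_mem_inf h3 (mem_principal_self OdeGlue_A)
          have h5 : {s : I | 1 / 2 < (s : ℝ)} ∩ OdeGlue_A = ∅ := by
            ext s
            constructor
            · rintro ⟨h6, h7⟩
              have h6' : 1 / 2 < (s : ℝ) := h6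
              exact absurd (OdeGlue_memA.mp h7) (not_le.mpr h6')
            · intro h6
              exact absurd h6 (notMem_empty s)
          rwa [h5] at h4
        rw [hbot]
        exact OdeGlue_bot
    · rcases le_or_gt (1 / 2) (t : ℝ) with ht | ht
      · -- right half
        have hev : ∀ᶠ s : I in 𝓝[≠] t ⊓ 𝓟 OdeGlue_Aᶜ, 1 / 2 ≤ (s : ℝ) := by
          have h3 : OdeGlue_Aᶜ ∈ 𝓝[≠] t ⊓ 𝓟 OdeGlue_Aᶜ :=
            mem_inf_of_right (mem_principal_self _)
          filter_upwards [h3] with s hs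
          exact (OdeGlue_memAc.mp hs).le
        have hd : Tendsto OdeGlue_d2 (𝓝[≠] t ⊓ 𝓟 OdeGlue_Aᶜ)
            (𝓝[≠] (OdeGlue_d2 t)) := by
          apply tendsto_nhdsWithin_of_tendsto_nhds_of_eventually_within
          · exact (OdeGlue_d2_cont.tendsto t).mono_left (inf_le_left.trans nhdsWithin_le_nhds)
          · have hne : ∀ᶠ s : I in 𝓝[≠] t ⊓ 𝓟 OdeGlue_Aᶜ, s ∈ ({t}ᶜ : Set I) :=
              mem_inf_of_left self_mem_nhdsWithin
            filter_upwards [hev, hne] with s hs hs'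
            intro h3
            apply hs'
            have h4 : (OdeGlue_d2 s : ℝ) = OdeGlue_d2 t := congrArg Subtype.val h3
            rw [OdeGlue_d2_ge hs, OdeGlue_d2_ge ht] at h4
            exact Subtype.ext (by linarith)
        have h3 := OdeGlue_repar (t := t) (h2v (OdeGlue_d2 t)) hd (by
          filter_upwards [hev] with s hs
          rw [OdeGlue_d2_ge hs, OdeGlue_d2_ge ht]
          ring)
        have h4 : (2 : ℝ) • ((1 / 2 : ℝ) • ζ.comp c2) (OdeGlue_d2 t) = ζ t := by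
          rw [ContinuousMap.smul_apply, smul_smul, ContinuousMap.comp_apply]
          have h5 : c2 (OdeGlue_d2 t) = t := by
            apply Subtype.ext
            rw [hc2, OdeGlue_d2_ge ht]
            ring
          rw [h5]
          norm_num
        rw [h4] at h3
        refine OdeGlue_congr h3 ?_
        filter_upwards [hev] with s hs
        rw [OdeGlue_d1_ge hs, OdeGlue_d1_ge ht]
        group
      · have hbot : 𝓝[≠] t ⊓ 𝓟 OdeGlue_Aᶜ = ⊥ := by
          rw [← empty_mem_iff_bot]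
          have h3 : {s : I | (s : ℝ) < 1 / 2} ∈ 𝓝[≠] t :=
            nhdsWithin_le_nhds ((isOpen_lt continuous_subtype_val continuous_const).mem_nhds ht)
          have h4 := inter_mem_inf h3 (mem_principal_self OdeGlue_Aᶜ)
          have h5 : {s : I | (s : ℝ) < 1 / 2} ∩ OdeGlue_Aᶜ = ∅ := by
            ext s
            constructor
            · rintro ⟨h6, h7⟩
              have h6' : (s : ℝ) < 1 / 2 := h6
              exact absurd (OdeGlue_memAc.mp h7) (not_lt.mpr h6'.le)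
            · intro h6
              exact absurd h6 (notMem_empty s)
          rwa [h5] at h4
        rw [hbot]
        exact OdeGlue_bot

theorem evol_all (hH : IsLieGroup E H) {δ : ℝ} (hδ : 0 < δ) (h : ∀ ζ : C(I, E), ‖ζ‖ ≤ δ →
      ∃ γ : I → H, Continuous γ ∧ γ 0 = 1 ∧ ∀ t, LVel γ t (ζ t)) (ζ : C(I, E)) :
    ∃ γ : I → H, Continuous γ ∧ γ 0 = 1 ∧ ∀ t, LVel γ t (ζ t) := by
  have key : ∀ n : ℕ, ∀ ζ : C(I, E), ‖ζ‖ ≤ 2 ^ n * δ →
      ∃ γ : I → H, Continuous γ ∧ γ 0 = 1 ∧ ∀ t, LVel γ t (ζ t) := by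
    intro n
    induction n with
    | zero =>
      intro ζ hζ
      exact h ζ (by linarith)
    | succ n ih =>
      intro ζ hζ
      refine evol_double hH (δ := 2 ^ n * δ) ih ζ ?_
      rw [← mul_assoc, mul_comm (2 : ℝ) (2 ^ n), ← pow_succ]
      exact hζ
  obtain ⟨n, hn⟩ := pow_unbounded_of_one_lt (‖ζ‖ / δ) (one_lt_two : (1 : ℝ) < 2)
  exact key n ζ ((div_lt_iff₀ hδ).mp hn).le

end Pool.Agent.Lib.MP_862e0f_al
end

section

/-!
# The adjoint action and right logarithmic derivatives in finite dimension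
-/

set_option autoImplicit false
set_option linter.unusedSectionVars false

namespace Pool.Agent.Lib.MP_862e0f_al

open Filter Topology Set unitInterval

universe u v w x y z

variable {E : Type v} [NormedAddCommGroup E] [NormedSpace ℝ E] [FiniteDimensional ℝ E]
  {H : Type u} [Group H] [TopologicalSpace H] [ChartedSpace E H]
  {Y : Type w} [NormedAddCommGroup Y] [NormedSpace ℝ Y]
  {Z : Type x} [NormedAddCommGroup Z] [NormedSpace ℝ Z]

/-- sections of smooth maps of two variables are Fréchet differentiable -/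
theorem section_hasFDerivAt {c : E × E → E} {D : Set (E × E)} (hD : IsOpen D)
    (hc : BastianiSmooth c D) {a b : E} (h : (a, b) ∈ D) :
    ∃ L : E →L[ℝ] E, (∀ v, L v = bd (fun z => c (a, z)) (b, v)) ∧
      HasFDerivAt (fun z => c (a, z)) L b := by
  have hU : IsOpen {z : E | (a, z) ∈ D} := hD.preimage (Continuous.prodMk_right a)
  have h1 : BastianiSmooth (fun z : E => ((a, z) : E × E)) {z : E | (a, z) ∈ D} :=
    (BastianiSmooth.const a _).prodMk (BastianiSmooth.clm (ContinuousLinearMap.id ℝ E) _)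
  have h2 : BastianiSmooth (fun z : E => c (a, z)) {z : E | (a, z) ∈ D} :=
    hc.comp hD h1 fun z hz => hz
  exact (h2.c1_bd hU).hasFDerivAt hU h

/-- the adjoint action of a finite-dimensional Lie group -/
noncomputable def AdL (hH : IsLieGroup E H) (g : H) : E →L[ℝ] E :=
  LinearMap.toContinuousLinearMap
    { toFun := AdF g
      map_add' := AdF_add hH g
      map_smul' := AdF_smul hH g }

@[simp] theorem AdL_apply (hH : IsLieGroup E H) (g : H) (v : E) : AdL hH g v = AdF g v := rfl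

theorem AdL_one (hH : IsLieGroup E H) : AdL hH 1 = ContinuousLinearMap.id ℝ E := by
  ext v
  exact AdF_one hH v

theorem AdL_mul (hH : IsLieGroup E H) (g h : H) : AdL hH (g * h) = (AdL hH g).comp (AdL hH h) := by
  ext v
  exact AdF_mul hH g h v

/-- pointwise continuity (`AdF_continuous`) gives norm continuity in finite dimension -/
theorem AdL_continuous (hH : IsLieGroup E H) : Continuous (AdL hH) := by
  rw [continuous_clm_apply]
  intro v
  exact (AdF_continuous hH).comp (Continuous.prodMk_left v)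

theorem AdL_hasFDerivAt (hH : IsLieGroup E H) (g : H) :
    HasFDerivAt (fun z => chartAt E (1 : H) (g * (chartAt E (1 : H)).symm z * g⁻¹))
      (AdL hH g) (chartAt E (1 : H) 1) := by
  have hψ := chart_mem_atlas E g
  obtain ⟨L, hL, hd⟩ := section_hasFDerivAt (AdF_aux hH hψ).1 (AdF_aux hH hψ).2
    (AdF_mem hH hψ ((chartAt E g).map_source (mem_chart_source E g)))
  simp only [(chartAt E g).left_inv (mem_chart_source E g)] at hL hd
  have h1 : L = AdL hH g := by
    ext v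
    exact hL v
  rw [← h1]
  exact hd

/-- the right logarithmic derivative of `ψ.symm` at `z`, as a linear map -/
noncomputable def omRL (ψ : OpenPartialHomeomorph H E) (z : E) : E →L[ℝ] E :=
  fderiv ℝ (fun z' => chartAt E (1 : H) (ψ.symm z' * (ψ.symm z)⁻¹)) z

theorem omRL_hasFDerivAt (hH : IsLieGroup E H) {ψ : OpenPartialHomeomorph H E}
    (hψ : ψ ∈ atlas E H) {z : E} (hz : z ∈ ψ.target) :
    HasFDerivAt (fun z' => chartAt E (1 : H) (ψ.symm z' * (ψ.symm z)⁻¹)) (omRL ψ z) z ∧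
      ∀ w, omRL ψ z w = omegaR ψ (z, w) := by
  obtain ⟨L, hL, hd⟩ := section_hasFDerivAt (omegaR_aux hH hψ).1 (omegaR_aux hH hψ).2
    (omegaR_mem hH hψ hz)
  have h1 : omRL ψ z = L := hd.fderiv
  rw [h1]
  exact ⟨hd, hL⟩

theorem omRL_continuousOn (hH : IsLieGroup E H) {ψ : OpenPartialHomeomorph H E}
    (hψ : ψ ∈ atlas E H) : ContinuousOn (omRL ψ) ψ.target := by
  rw [continuousOn_clm_apply]
  intro w
  have h1 : ContinuousOn (fun z : E => omegaR ψ (z, w)) ψ.target :=
    (omegaR_smooth hH hψ).continuousOn.comp (Continuous.prodMk_left w).continuousOn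
      fun z hz => ⟨hz, mem_univ _⟩
  exact h1.congr fun z hz => (omRL_hasFDerivAt hH hψ hz).2 w

end Pool.Agent.Lib.MP_862e0f_al
end

section

/-!
# Local solutions of `γ' = γ · ζ` in a finite-dimensional Lie group

In the chart `φ` at `1` the equation is `u' = leftT φ (u, ζ)`.
-/

set_option autoImplicit false
set_option linter.unusedSectionVars false

namespace Pool.Agent.Lib.MP_862e0f_al

open Filter Topology Set unitInterval

universe u v w x y z

variable {E : Type v} [NormedAddCommGroup E] [NormedSpace ℝ E] [FiniteDimensional ℝ E]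
  {H : Type u} [Group H] [TopologicalSpace H] [ChartedSpace E H]

/-- the left-invariant vector fields in the chart at `1` -/
noncomputable def fieldL (H : Type u) [Group H] [TopologicalSpace H] [ChartedSpace E H] (a : E) :
    E →L[ℝ] E :=
  fderiv ℝ (fun z => chartAt E (1 : H) ((chartAt E (1 : H)).symm a * (chartAt E (1 : H)).symm z))
    (chartAt E (1 : H) 1)

open scoped ContDiff in
/-- the multiplication in the chart at `1` is smooth at `(a, φ 1)` -/
private theorem mul_contDiffAt (hH : IsLieGroup E H) {a : E}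
    (ha : a ∈ (chartAt E (1 : H)).target) :
    ContDiffAt ℝ ∞ (Function.uncurry fun (a : E) (z : E) =>
      chartAt E (1 : H) ((chartAt E (1 : H)).symm a * (chartAt E (1 : H)).symm z))
      (a, chartAt E (1 : H) 1) := by
  set φ := chartAt E (1 : H) with hφ
  have hφa : φ ∈ atlas E H := chart_mem_atlas E 1
  have hs1 : (1 : H) ∈ φ.source := mem_chart_source E 1
  have ht1 : φ 1 ∈ φ.target := φ.map_source hs1
  have hop : IsOpen {z : E × E | (z.1 ∈ φ.target ∧ z.2 ∈ φ.target) ∧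
      φ.symm z.1 * φ.symm z.2 ∈ φ.source} := by
    have h1 : ContinuousOn (fun z : E × E => φ.symm z.1 * φ.symm z.2)
        (φ.target ×ˢ φ.target) := by
      have a1 : ContinuousOn (fun z : E × E => φ.symm z.1) (φ.target ×ˢ φ.target) :=
        φ.continuousOn_symm.comp continuous_fst.continuousOn fun z hz => hz.1
      have a2 : ContinuousOn (fun z : E × E => φ.symm z.2) (φ.target ×ˢ φ.target) :=
        φ.continuousOn_symm.comp continuous_snd.continuousOn fun z hz => hz.2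
      exact hH.continuous_mul.comp_continuousOn (a1.prodMk a2)
    exact h1.isOpen_inter_preimage (φ.open_target.prod φ.open_target) φ.open_source
  have hmem : (a, φ 1) ∈ {z : E × E | (z.1 ∈ φ.target ∧ z.2 ∈ φ.target) ∧
      φ.symm z.1 * φ.symm z.2 ∈ φ.source} := by
    refine ⟨⟨ha, ht1⟩, ?_⟩
    show φ.symm a * φ.symm (φ 1) ∈ φ.source
    rw [φ.left_inv hs1, mul_one]
    exact φ.map_target ha
  have hM := (hH.smooth_mul φ hφa φ hφa φ hφa).contDiffOn hop
  exact hM.contDiffAt (hop.mem_nhds hmem)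

/-- the vector fields are `C^1` (`leftT_smooth`, `BastianiSmooth.contDiffOn`), hence Lipschitz
and bounded by `2` on a small closed ball around `φ 1`, where `fieldL (φ 1) = id` -/
theorem fieldL_spec (hH : IsLieGroup E H) : ∃ r : ℝ, 0 < r ∧ ∃ K : NNReal,
    Metric.closedBall (chartAt E (1 : H) 1) r ⊆ (chartAt E (1 : H)).target ∧
    (∀ a ∈ Metric.closedBall (chartAt E (1 : H) 1) r, ‖fieldL H a‖ ≤ 2) ∧
    LipschitzOnWith K (fieldL H) (Metric.closedBall (chartAt E (1 : H) 1) r) ∧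
    fieldL H (chartAt E (1 : H) 1) = ContinuousLinearMap.id ℝ E ∧
    ∀ a ∈ Metric.closedBall (chartAt E (1 : H) 1) r, ∀ w : E,
      fieldL H a w = leftT (chartAt E (1 : H)) (a, w) := by
  have hs1 : (1 : H) ∈ (chartAt E (1 : H)).source := mem_chart_source E 1
  have ht1 : chartAt E (1 : H) 1 ∈ (chartAt E (1 : H)).target := (chartAt E (1 : H)).map_source hs1
  -- smoothness of the fields
  have hsm : ∀ a ∈ (chartAt E (1 : H)).target, ContDiffAt ℝ 1 (fieldL (E := E) H) a := by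
    intro a ha
    exact ContDiffAt.fderiv (g := fun _ => chartAt E (1 : H) 1) (mul_contDiffAt hH ha)
      contDiffAt_const (by norm_cast)
  have hid : fieldL H (chartAt E (1 : H) 1) = ContinuousLinearMap.id ℝ E := by
    have h1 : HasFDerivAt (fun z => chartAt E (1 : H)
        ((chartAt E (1 : H)).symm (chartAt E (1 : H) 1) * (chartAt E (1 : H)).symm z))
        (ContinuousLinearMap.id ℝ E) (chartAt E (1 : H) 1) := by
      refine (hasFDerivAt_id (chartAt E (1 : H) 1)).congr_of_eventuallyEq ?_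
      filter_upwards [(chartAt E (1 : H)).open_target.mem_nhds ht1] with z hz
      show chartAt E (1 : H) ((chartAt E (1 : H)).symm (chartAt E (1 : H) 1) *
        (chartAt E (1 : H)).symm z) = z
      rw [(chartAt E (1 : H)).left_inv hs1, one_mul, (chartAt E (1 : H)).right_inv hz]
    exact h1.fderiv
  obtain ⟨K, t, ht, hK⟩ := (hsm _ ht1).exists_lipschitzOnWith
  have hcont : ContinuousAt (fun a : E => ‖fieldL H a‖) (chartAt E (1 : H) 1) :=
    (hsm _ ht1).continuousAt.norm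
  have hle : ∀ᶠ a in 𝓝 (chartAt E (1 : H) 1), ‖fieldL H a‖ < 2 := by
    refine hcont.eventually (gt_mem_nhds ?_)
    show ‖fieldL H (chartAt E (1 : H) 1)‖ < 2
    rw [hid]
    exact lt_of_le_of_lt ContinuousLinearMap.norm_id_le one_lt_two
  obtain ⟨r, hr, hsub⟩ := Metric.nhds_basis_closedBall.mem_iff.mp
    (Filter.inter_mem (Filter.inter_mem ht hle) ((chartAt E (1 : H)).open_target.mem_nhds ht1))
  refine ⟨r, hr, K, fun a ha => (hsub ha).2, fun a ha => le_of_lt (hsub ha).1.2,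
    hK.mono fun a ha => (hsub ha).1.1, hid, ?_⟩
  intro a ha w
  have h1 : DifferentiableAt ℝ (fun z => chartAt E (1 : H)
      ((chartAt E (1 : H)).symm a * (chartAt E (1 : H)).symm z)) (chartAt E (1 : H) 1) := by
    have h2 := mul_contDiffAt hH (hsub ha).2
    have h3 := ContDiffAt.comp (g := Function.uncurry fun (a : E) (z : E) =>
      chartAt E (1 : H) ((chartAt E (1 : H)).symm a * (chartAt E (1 : H)).symm z))
      (f := fun z : E => (a, z)) (chartAt E (1 : H) 1) h2 (contDiffAt_const.prodMk contDiffAt_id)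
    exact h3.differentiableAt (by simp)
  have h4 : HasDirDeriv (fun z => chartAt E (1 : H)
      ((chartAt E (1 : H)).symm a * (chartAt E (1 : H)).symm z)) (chartAt E (1 : H) 1) w
      (fieldL H a w) := (h1.hasFDerivAt.hasLineDerivAt w).tendsto_slope_zero
  exact h4.bd_eq.symm

/-- from the chart to the group: `VelF.of_chart_left`, `omegaL_leftT` -/
theorem lVel_of_chart (hH : IsLieGroup E H) {u : I → E} {t : I} {w : E}
    (hu : ∀ s, u s ∈ (chartAt E (1 : H)).target)
    (h : HasIDeriv u t (leftT (chartAt E (1 : H)) (u t, w))) :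
    LVel (fun s => (chartAt E (1 : H)).symm (u s)) t w := by
  have hψ : chartAt E (1 : H) ∈ atlas E H := chart_mem_atlas E 1
  have hg : (chartAt E (1 : H)).symm (u t) ∈ (chartAt E (1 : H)).source :=
    (chartAt E (1 : H)).map_target (hu t)
  have huc : ContinuousAt u t := h.continuousAt
  have hy : Tendsto (fun s => (chartAt E (1 : H)).symm (u s)) (𝓝[≠] t)
      (𝓝 ((chartAt E (1 : H)).symm (u t))) :=
    (((chartAt E (1 : H)).continuousAt_symm (hu t)).tendsto.comp huc.tendsto).mono_left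
      nhdsWithin_le_nhds
  have hw : Tendsto (fun s : I => ((s : ℝ) - t)⁻¹ •
      (chartAt E (1 : H) ((chartAt E (1 : H)).symm (u s)) -
        chartAt E (1 : H) ((chartAt E (1 : H)).symm (u t)))) (𝓝[≠] t)
      (𝓝 (leftT (chartAt E (1 : H)) (u t, w))) := by
    refine Tendsto.congr (fun s => ?_) h
    rw [(chartAt E (1 : H)).right_inv (hu s), (chartAt E (1 : H)).right_inv (hu t)]
  have h1 := VelF.of_chart_left hH (tendsto_sub_nhdsNE t) hψ hg hy hw
  rw [(chartAt E (1 : H)).right_inv (hu t), omegaL_leftT hH hψ (hu t)] at h1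
  exact h1

theorem exists_small_evol (hH : IsLieGroup E H) : ∃ δ : ℝ, 0 < δ ∧ ∃ C : ℝ, 0 ≤ C ∧
    ∀ ζ : C(I, E), ‖ζ‖ ≤ δ → ∃ γ : I → H, Continuous γ ∧ γ 0 = 1 ∧ (∀ t, LVel γ t (ζ t)) ∧
      ∀ t, γ t ∈ (chartAt E (1 : H)).source ∧
        ‖chartAt E (1 : H) (γ t) - chartAt E (1 : H) 1 - integ ζ t‖ ≤ C * ‖ζ‖ ^ 2 := by
  obtain ⟨r, hr, K, hsub, h2, hK, hid, hT⟩ := fieldL_spec hH
  refine ⟨r / 2, by linarith, 2 * K, by positivity, fun ζ hζ => ?_⟩
  obtain ⟨u, hu0, hu⟩ := exists_picard hr h2 hK ζ hζ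
  have hut : ∀ s, u s ∈ (chartAt E (1 : H)).target := fun s => hsub (hu s).1
  have huc : Continuous u := continuous_iff_continuousAt.mpr fun t => (hu t).2.continuousAt
  refine ⟨fun s => (chartAt E (1 : H)).symm (u s), ?_, ?_, ?_, ?_⟩
  · exact (chartAt E (1 : H)).continuousOn_symm.comp_continuous huc hut
  · show (chartAt E (1 : H)).symm (u 0) = 1
    rw [hu0]
    exact (chartAt E (1 : H)).left_inv (mem_chart_source E 1)
  · intro t
    refine lVel_of_chart hH hut ?_
    rw [← hT _ (hu t).1]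
    exact (hu t).2
  · intro t
    refine ⟨(chartAt E (1 : H)).map_target (hut t), ?_⟩
    show ‖chartAt E (1 : H) ((chartAt E (1 : H)).symm (u t)) - chartAt E (1 : H) 1 -
      integ ζ t‖ ≤ 2 * K * ‖ζ‖ ^ 2
    rw [(chartAt E (1 : H)).right_inv (hut t)]
    exact picard_estimate h2 hK hid hr ζ hu0 hu t

end Pool.Agent.Lib.MP_862e0f_al
end

section

/-!
# The evolution map of a finite-dimensional Lie group
-/

set_option autoImplicit false
set_option linter.unusedSectionVars false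

namespace Pool.Agent.Lib.MP_862e0f_al

open Filter Topology Set unitInterval

universe u v w x y z

variable {E : Type v} [NormedAddCommGroup E] [NormedSpace ℝ E] [FiniteDimensional ℝ E]
  {H : Type u} [Group H] [TopologicalSpace H] [ChartedSpace E H]
variable [T2Space H]

theorem exists_evol (hH : IsLieGroup E H) (ζ : C(I, E)) :
    ∃ γ : I → H, Continuous γ ∧ γ 0 = 1 ∧ ∀ t, LVel γ t (ζ t) := by
  obtain ⟨δ, hδ, C, -, h⟩ := exists_small_evol hH
  refine evol_all hH hδ (fun ζ' hζ' => ?_) ζ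
  obtain ⟨γ, h1, h2, h3, -⟩ := h ζ' hζ'
  exact ⟨γ, h1, h2, h3⟩

/-- the evolution of `ζ` -/
noncomputable def evH (hH : IsLieGroup E H) (ζ : C(I, E)) : I → H := (exists_evol hH ζ).choose

theorem evH_continuous (hH : IsLieGroup E H) (ζ : C(I, E)) : Continuous (evH hH ζ) :=
  (exists_evol hH ζ).choose_spec.1

theorem evH_zero (hH : IsLieGroup E H) (ζ : C(I, E)) : evH hH ζ 0 = 1 :=
  (exists_evol hH ζ).choose_spec.2.1

theorem evH_vel (hH : IsLieGroup E H) (ζ : C(I, E)) (t : I) : LVel (evH hH ζ) t (ζ t) :=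
  (exists_evol hH ζ).choose_spec.2.2 t

theorem evH_eq (hH : IsLieGroup E H) (ζ : C(I, E)) {γ : I → H} (hγ : Continuous γ)
    (h0 : γ 0 = 1) (h : ∀ t, LVel γ t (ζ t)) : γ = evH hH ζ :=
  LVel.eq hH hγ (evH_continuous hH ζ) h (evH_vel hH ζ) (h0.trans (evH_zero hH ζ).symm)

theorem evH_small (hH : IsLieGroup E H) : ∃ δ : ℝ, 0 < δ ∧ ∃ C : ℝ, 0 ≤ C ∧
    ∀ ζ : C(I, E), ‖ζ‖ ≤ δ → ∀ t, evH hH ζ t ∈ (chartAt E (1 : H)).source ∧
      ‖chartAt E (1 : H) (evH hH ζ t) - chartAt E (1 : H) 1 - integ ζ t‖ ≤ C * ‖ζ‖ ^ 2 := by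
  obtain ⟨δ, hδ, C, hC, h⟩ := exists_small_evol hH
  refine ⟨δ, hδ, C, hC, fun ζ hζ => ?_⟩
  obtain ⟨γ, h1, h2, h3, h4⟩ := h ζ hζ
  rw [← evH_eq hH ζ h1 h2 h3]
  exact h4

theorem continuous_adCurve (hH : IsLieGroup E H) (ξ ζ : C(I, E)) :
    Continuous fun t : I => (AdF (evH hH ξ t) (ζ t) : E) := by
  have h1 : Continuous fun t : I => (evH hH ξ t, ζ t) :=
    (evH_continuous hH ξ).prodMk ζ.continuous
  have h2 := AdF_continuous (K := H) (F := E) hH
  have h3 := h2.comp h1
  exact h3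

/-- the curve `t ↦ Ad (ev ξ t) (ζ t)` -/
noncomputable def adCurve (hH : IsLieGroup E H) (ξ ζ : C(I, E)) : C(I, E) where
  toFun t := AdF (evH hH ξ t) (ζ t)
  continuous_toFun := continuous_adCurve hH ξ ζ

/-- `ev (ζ + ξ) = ev (Ad (ev ξ) ζ) * ev ξ`: both sides have the left velocity `ζ + ξ`
(`LVel.mul`, `AdF_mul`, `AdF_one`, `LVel.eq`) -/
theorem evH_add (hH : IsLieGroup E H) (ξ ζ : C(I, E)) (t : I) :
    evH hH (ξ + ζ) t = evH hH (adCurve hH ξ ζ) t * evH hH ξ t := by
  have hcont : Continuous fun t : I => evH hH (adCurve hH ξ ζ) t * evH hH ξ t := by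
    have h1 : Continuous fun t : I => (evH hH (adCurve hH ξ ζ) t, evH hH ξ t) :=
      (evH_continuous hH _).prodMk (evH_continuous hH _)
    exact hH.continuous_mul.comp h1
  have h0 : evH hH (adCurve hH ξ ζ) 0 * evH hH ξ 0 = 1 := by
    rw [evH_zero, evH_zero, one_mul]
  have hvel : ∀ t, LVel (fun t : I => evH hH (adCurve hH ξ ζ) t * evH hH ξ t) t
      ((ξ + ζ) t) := by
    intro t
    have h1 := LVel.mul hH (evH_vel hH (adCurve hH ξ ζ) t) (evH_vel hH ξ t)
    have h2 : AdF (evH hH ξ t)⁻¹ (adCurve hH ξ ζ t) + ξ t = (ξ + ζ) t := by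
      have h3 : adCurve hH ξ ζ t = AdF (evH hH ξ t) (ζ t) := rfl
      rw [h3, ← AdF_mul hH, inv_mul_cancel, AdF_one hH, ContinuousMap.add_apply, add_comm]
    rw [h2] at h1
    exact h1
  have h5 := evH_eq hH (ξ + ζ) hcont h0 hvel
  rw [← h5]

/-- `‖adCurve ξ ζ‖ ≤ M ‖ζ‖` -/
theorem adCurve_bound (hH : IsLieGroup E H) (ξ : C(I, E)) : ∃ M : ℝ, 0 ≤ M ∧
    ∀ ζ : C(I, E), ‖adCurve hH ξ ζ‖ ≤ M * ‖ζ‖ := by
  have hc : Continuous fun t : I => AdL hH (evH hH ξ t) :=
    (AdL_continuous hH).comp (evH_continuous hH ξ)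
  obtain ⟨M, hM⟩ := isCompact_univ.exists_bound_of_continuousOn hc.continuousOn
  have hM0 : 0 ≤ M := (norm_nonneg _).trans (hM 0 (mem_univ _))
  refine ⟨M, hM0, fun ζ => ?_⟩
  rw [ContinuousMap.norm_le _ (mul_nonneg hM0 (norm_nonneg _))]
  intro t
  have h1 : adCurve hH ξ ζ t = AdL hH (evH hH ξ t) (ζ t) := rfl
  rw [h1]
  calc ‖AdL hH (evH hH ξ t) (ζ t)‖ ≤ ‖AdL hH (evH hH ξ t)‖ * ‖ζ t‖ :=
        ContinuousLinearMap.le_opNorm _ _
    _ ≤ M * ‖ζ‖ := mul_le_mul (hM t (mem_univ _)) (ζ.norm_coe_le_norm t) (norm_nonneg _) hM0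

theorem adCurve_smul (hH : IsLieGroup E H) (ξ ζ : C(I, E)) (r : ℝ) :
    adCurve hH ξ (r • ζ) = r • adCurve hH ξ ζ := by
  ext t
  exact AdF_smul hH _ _ _

private theorem Evol_integ_le (η : C(I, E)) (t : I) : ‖integ η t‖ ≤ ‖η‖ := by
  have : CompleteSpace E := FiniteDimensional.complete ℝ E
  have h := integ_mem (hasAnti_banach E) η.continuous (K := Metric.closedBall (0 : E) ‖η‖)
    (convex_closedBall _ _) Metric.isClosed_closedBall
    (Metric.mem_closedBall_self (norm_nonneg _)) (fun s => by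
      rw [mem_closedBall_zero_iff]
      exact η.norm_coe_le_norm s) t
  rwa [mem_closedBall_zero_iff] at h

private theorem Evol_tendsto (hH : IsLieGroup E H) {ι : Type w} {l : Filter ι} {η : ι → C(I, E)}
    (hη : Tendsto (fun i => ‖η i‖) l (𝓝 0)) (τ : ι → I) :
    Tendsto (fun i => evH hH (η i) (τ i)) l (𝓝 1) := by
  obtain ⟨δ, hδ, C, hC, h⟩ := evH_small hH
  have hev : ∀ᶠ i in l, ‖η i‖ ≤ δ := (hη.eventually (gt_mem_nhds hδ)).mono fun i hi => le_of_lt hi
  have hchart : Tendsto (fun i => chartAt E (1 : H) (evH hH (η i) (τ i))) l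
      (𝓝 (chartAt E (1 : H) 1)) := by
    rw [tendsto_iff_norm_sub_tendsto_zero]
    have hb : Tendsto (fun i => C * ‖η i‖ ^ 2 + ‖η i‖) l (𝓝 0) := by
      have h1 : Tendsto (fun i => C * ‖η i‖ ^ 2 + ‖η i‖) l (𝓝 (C * 0 ^ 2 + 0)) :=
        ((hη.pow 2).const_mul C).add hη
      simpa using h1
    refine squeeze_zero' (Eventually.of_forall fun i => norm_nonneg _) ?_ hb
    filter_upwards [hev] with i hi
    have h1 := (h (η i) hi (τ i)).2
    have h2 := Evol_integ_le (η i) (τ i)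
    calc ‖chartAt E (1 : H) (evH hH (η i) (τ i)) - chartAt E (1 : H) 1‖
        = ‖(chartAt E (1 : H) (evH hH (η i) (τ i)) - chartAt E (1 : H) 1 - integ (η i) (τ i)) +
            integ (η i) (τ i)‖ := by rw [sub_add_cancel]
      _ ≤ ‖chartAt E (1 : H) (evH hH (η i) (τ i)) - chartAt E (1 : H) 1 - integ (η i) (τ i)‖ +
            ‖integ (η i) (τ i)‖ := norm_add_le _ _
      _ ≤ C * ‖η i‖ ^ 2 + ‖η i‖ := add_le_add h1 h2
  have hsymm : ContinuousAt (chartAt E (1 : H)).symm (chartAt E (1 : H) 1) :=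
    (chartAt E (1 : H)).continuousAt_symm (mem_chart_target E (1 : H))
  have h3 : Tendsto (fun i => (chartAt E (1 : H)).symm
      (chartAt E (1 : H) (evH hH (η i) (τ i)))) l (𝓝 1) := by
    have h4 := hsymm.tendsto.comp hchart
    rw [(chartAt E (1 : H)).left_inv (mem_chart_source E (1 : H))] at h4
    exact h4
  refine h3.congr' ?_
  filter_upwards [hev] with i hi
  exact (chartAt E (1 : H)).left_inv (h (η i) hi (τ i)).1

/-- joint continuity of the evolution: near `ξ₀` use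
`ev ξ t = ev (adCurve ξ₀ (ξ - ξ₀)) t * ev ξ₀ t` and `evH_small` -/
theorem evH_jointly_continuous (hH : IsLieGroup E H) :
    Continuous fun p : I × C(I, E) => evH hH p.2 p.1 := by
  rw [continuous_iff_continuousAt]
  rintro ⟨t₀, ξ₀⟩
  obtain ⟨M, hM0, hM⟩ := adCurve_bound hH ξ₀
  have hη : Tendsto (fun p : I × C(I, E) => ‖adCurve hH ξ₀ (p.2 - ξ₀)‖) (𝓝 (t₀, ξ₀)) (𝓝 0) := by
    have hb : Tendsto (fun p : I × C(I, E) => M * ‖p.2 - ξ₀‖) (𝓝 (t₀, ξ₀)) (𝓝 0) := by
      have hcont : Continuous fun p : I × C(I, E) => M * ‖p.2 - ξ₀‖ := by fun_prop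
      have h1 := hcont.tendsto (t₀, ξ₀)
      simpa using h1
    exact squeeze_zero (fun p => norm_nonneg _) (fun p => hM _) hb
  have h1 := Evol_tendsto hH hη (fun p : I × C(I, E) => p.1)
  have h2 : Tendsto (fun p : I × C(I, E) => evH hH ξ₀ p.1) (𝓝 (t₀, ξ₀)) (𝓝 (evH hH ξ₀ t₀)) :=
    ((evH_continuous hH ξ₀).comp continuous_fst).tendsto (t₀, ξ₀)
  have h3 : Tendsto (fun p : I × C(I, E) =>
      evH hH (adCurve hH ξ₀ (p.2 - ξ₀)) p.1 * evH hH ξ₀ p.1) (𝓝 (t₀, ξ₀))
      (𝓝 (1 * evH hH ξ₀ t₀)) :=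
    (hH.continuous_mul.tendsto (1, evH hH ξ₀ t₀)).comp (h1.prodMk_nhds h2)
  rw [one_mul] at h3
  refine h3.congr fun p => ?_
  rw [← evH_add hH ξ₀ (p.2 - ξ₀) p.1, add_sub_cancel]

/-- the derivative of the evolution -/
theorem evH_deriv (hH : IsLieGroup E H) (ξ ζ : C(I, E)) (t : I) :
    VelF (𝓝[≠] (0 : ℝ)) (fun s => s) (fun s => evH hH (ξ + s • ζ) t * (evH hH ξ t)⁻¹)
      (integ (adCurve hH ξ ζ) t) := by
  have : CompleteSpace E := FiniteDimensional.complete ℝ E
  set A : C(I, E) := adCurve hH ξ ζ with hA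
  have hrw : ∀ s : ℝ, evH hH (ξ + s • ζ) t * (evH hH ξ t)⁻¹ = evH hH (s • A) t := by
    intro s
    rw [evH_add, adCurve_smul, mul_inv_cancel_right]
  have hs0 : Tendsto (fun s : ℝ => s) (𝓝[≠] (0 : ℝ)) (𝓝 0) :=
    tendsto_id.mono_left nhdsWithin_le_nhds
  have hη : Tendsto (fun s : ℝ => ‖s • A‖) (𝓝[≠] (0 : ℝ)) (𝓝 0) := by
    have h1 : Tendsto (fun s : ℝ => ‖s‖ * ‖A‖) (𝓝[≠] (0 : ℝ)) (𝓝 (‖(0 : ℝ)‖ * ‖A‖)) :=
      hs0.norm.mul_const _
    rw [norm_zero, zero_mul] at h1
    refine h1.congr fun s => ?_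
    rw [norm_smul]
  refine ⟨?_, ?_⟩
  · have h1 := Evol_tendsto hH hη (fun _ => t)
    refine h1.congr fun s => ?_
    rw [hrw]
  · obtain ⟨δ, hδ, C, hC, h⟩ := evH_small hH
    have hev : ∀ᶠ s : ℝ in 𝓝[≠] (0 : ℝ), ‖s • A‖ ≤ δ :=
      (hη.eventually (gt_mem_nhds hδ)).mono fun i hi => le_of_lt hi
    have hne : ∀ᶠ s : ℝ in 𝓝[≠] (0 : ℝ), s ≠ 0 := self_mem_nhdsWithin
    rw [tendsto_iff_norm_sub_tendsto_zero]
    have hb : Tendsto (fun s : ℝ => C * ‖A‖ ^ 2 * ‖s‖) (𝓝[≠] (0 : ℝ)) (𝓝 0) := by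
      have h1 : Tendsto (fun s : ℝ => C * ‖A‖ ^ 2 * ‖s‖) (𝓝[≠] (0 : ℝ))
          (𝓝 (C * ‖A‖ ^ 2 * ‖(0 : ℝ)‖)) := hs0.norm.const_mul _
      rw [norm_zero, mul_zero] at h1
      exact h1
    refine squeeze_zero' (Eventually.of_forall fun i => norm_nonneg _) ?_ hb
    filter_upwards [hev, hne] with s hs hs1
    rw [hrw]
    have h1 := (h (s • A) hs t).2
    have h2 : integ (s • A : C(I, E)) t = s • integ A t :=
      integ_smul (hasAnti_banach E) A.continuous s t
    rw [h2] at h1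
    have h3 : s⁻¹ • (chartAt E (1 : H) (evH hH (s • A) t) - chartAt E (1 : H) 1) - integ A t =
        s⁻¹ • (chartAt E (1 : H) (evH hH (s • A) t) - chartAt E (1 : H) 1 - s • integ A t) := by
      rw [smul_sub s⁻¹ _ (s • integ A t), smul_smul, inv_mul_cancel₀ hs1, one_smul]
    rw [h3, norm_smul, norm_inv]
    have hs2 : 0 < ‖s‖ := norm_pos_iff.2 hs1
    calc ‖s‖⁻¹ * ‖chartAt E (1 : H) (evH hH (s • A) t) - chartAt E (1 : H) 1 -
          s • integ A t‖ ≤ ‖s‖⁻¹ * (C * ‖s • A‖ ^ 2) :=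
          mul_le_mul_of_nonneg_left h1 (inv_nonneg.2 hs2.le)
      _ = C * ‖A‖ ^ 2 * ‖s‖ := by
          rw [norm_smul]
          field_simp

end Pool.Agent.Lib.MP_862e0f_al
end

section

/-!
# Regularity of semidirect products `V ⋊ H`

The evolution of `ζ = (η, ξ)` is `(∫₀ᵗ γ(s) η(s) ds, γ(t))`, where `γ = ev · ξ` is the evolution of
`ξ` in `H`.
-/

set_option autoImplicit false
set_option linter.unusedSectionVars false

namespace Pool.Agent.Lib.MP_862e0f_al

open Filter Topology Set unitInterval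

universe u v w x y z

variable {E : Type v} [AddCommGroup E] [Module ℝ E] [TopologicalSpace E]
  [IsTopologicalAddGroup E] [ContinuousSMul ℝ E] [LocallyConvexSpace ℝ E] [T2Space E]
  {V : Type w} [AddCommGroup V] [Module ℝ V] [TopologicalSpace V] [IsTopologicalAddGroup V]
  [ContinuousSMul ℝ V] [LocallyConvexSpace ℝ V] [T2Space V]
  {H : Type u} [Group H] [TopologicalSpace H] [ChartedSpace E H] {act : H →* (V →L[ℝ] V)}

variable (E H) in
/-- `H` has a smooth evolution map on `C([0, 1], E)` (`H` is `C^0`-regular) -/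
structure HasEvol where
  ev : I → C(I, E) → H
  cont : ∀ ξ, Continuous fun t => ev t ξ
  zero : ∀ ξ, ev 0 ξ = 1
  vel : ∀ ξ t, LVel (fun t => ev t ξ) t (ξ t)
  smooth : MSmooth I C(I, E) E ev univ

/-- the `H`-component of a smooth curve in the Lie algebra `V × E` -/
def sndCurve : SmoothCurve (V × E) →L[ℝ] C(I, E) where
  toFun ζ := ⟨fun t => (ζ.1 0 t).2, by fun_prop⟩
  map_add' _ _ := rfl
  map_smul' _ _ := rfl
  cont := by
    have h1 : Continuous fun ζ : SmoothCurve (V × E) => ζ.1 0 :=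
      (continuous_apply 0).comp continuous_subtype_val
    exact (ContinuousMap.continuous_postcomp
      (⟨Prod.snd, continuous_snd⟩ : C(V × E, E))).comp h1

/-- the `V`-component at the time `t` -/
def fstEval (t : I) : SmoothCurve (V × E) →L[ℝ] V where
  toFun ζ := (ζ.1 0 t).1
  map_add' _ _ := rfl
  map_smul' _ _ := rfl
  cont := by
    have h1 : Continuous fun ζ : SmoothCurve (V × E) => ζ.1 0 :=
      (continuous_apply 0).comp continuous_subtype_val
    exact continuous_fst.comp ((continuous_eval_const (F := C(I, V × E)) t).comp h1)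

theorem continuous_fstEval : Continuous fun p : I × SmoothCurve (V × E) => fstEval p.1 p.2 := by
  have h1 : Continuous fun p : I × SmoothCurve (V × E) => p.2.1 0 :=
    (continuous_apply 0).comp (continuous_subtype_val.comp continuous_snd)
  exact continuous_fst.comp (h1.eval continuous_fst)

/-- the `V`-component of the evolution -/
noncomputable def evolV (act : H →* (V →L[ℝ] V)) (hev : HasEvol E H) (t : I)
    (ζ : SmoothCurve (V × E)) : V :=
  integ (fun s => act (hev.ev s (sndCurve ζ)) (fstEval s ζ)) t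

theorem evolV_smooth (hH : IsLieGroup E H) (hact : IsSmoothAct E act) (hV : HasAnti V)
    (hev : HasEvol E H) : ParSmooth I (SmoothCurve (V × E)) V (evolV act hev) univ := by
  intro k
  have h1 : ParCk I k (SmoothCurve (V × E)) C(I, E) (fun _ ζ => sndCurve ζ) univ :=
    ParCk.clm (T := I) k (L := fun _ => (sndCurve : SmoothCurve (V × E) →L[ℝ] C(I, E)))
      (sndCurve.continuous.comp continuous_snd) univ
  have h2 : MCk I (SmoothCurve (V × E)) E k (fun s ζ => hev.ev s (sndCurve ζ)) univ :=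
    MCk.comp isOpen_univ (hev.smooth k) isOpen_univ h1 fun _ _ => mem_univ _
  have h3 : ParCk I k (SmoothCurve (V × E)) V (fun s ζ => fstEval s ζ) univ :=
    ParCk.clm (T := I) k (L := fun s => (fstEval s : SmoothCurve (V × E) →L[ℝ] V))
      continuous_fstEval univ
  have h4 : ParCk I k (SmoothCurve (V × E)) V
      (fun s ζ => act (hev.ev s (sndCurve ζ)) (fstEval s ζ)) univ :=
    MCk.apply (A := fun h v => act h v) hact isOpen_univ h2 h3
  exact ParCk.integ hV h4

theorem evolV_spec (hH : IsLieGroup E H) (hact : IsSmoothAct E act) (hV : HasAnti V)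
    (hev : HasEvol E H) (ζ : SmoothCurve (V × E)) : evolV act hev 0 ζ = 0 ∧
      ∀ t, HasIDeriv (fun s => evolV act hev s ζ) t
        (act (hev.ev t (sndCurve ζ)) (fstEval t ζ)) := by
  have hc : Continuous fun s => act (hev.ev s (sndCurve ζ)) (fstEval s ζ) := by
    have h1 : Continuous fun s : I => fstEval s ζ :=
      continuous_fstEval.comp (Continuous.prodMk_left ζ)
    exact hact.continuous.comp ((hev.cont (sndCurve ζ)).prodMk h1)
  exact integ_spec hV hc

/-- the logarithmic derivative of the evolution -/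
theorem SD.hasLeftLogDeriv (hH : IsLieGroup E H) (hact : IsSmoothAct E act) {a : I → V}
    {γ : I → H} {t : I} {v : V} {w : E} (ha : HasIDeriv a t (act (γ t) v))
    (hγ : LVel γ t w) : HasLeftLogDeriv (V × E) (fun s => (SD.mk (a s) (γ s) : SD act)) t (v, w) := by
  intro ψ hψ hs
  obtain ⟨φ, hφ, rfl⟩ := SD.mem_atlas.1 hψ
  have hs' : γ t ∈ φ.source := (SD.mem_chart_source φ _).1 hs
  refine ⟨(act (γ t) v, leftT φ (φ (γ t), w)), ?_, ?_⟩
  · exact ha.prodMk (hγ.hasIDeriv hH hφ hs')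
  · have h1 := leftT_deriv hH hφ (φ.map_source hs') w
    rw [φ.left_inv hs'] at h1
    have h2 : Tendsto (fun r : ℝ => r⁻¹ • ((a t + act (γ t) (0 + r • v)) - (a t + act (γ t) 0)))
        (𝓝[≠] 0) (𝓝 (act (γ t) v)) := by
      refine Tendsto.congr' ?_ tendsto_const_nhds
      filter_upwards [self_mem_nhdsWithin] with r hr
      have hr' : r ≠ 0 := hr
      rw [zero_add, map_zero, add_zero, map_smul, add_sub_cancel_left, smul_smul,
        inv_mul_cancel₀ hr', one_smul]
    exact h2.prodMk_nhds h1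

end Pool.Agent.Lib.MP_862e0f_al
end

section

/-!
# Smooth dependence of the evolution

Induction on `k`: suppose that `(t, ξ) ↦ ev ξ t` is `C^k` in `ξ` (`MCk`). Then
`(t, (ξ, ζ)) ↦ Ad (ev ξ t) (ζ t)` is `C^k` (`MCk.comp`, `MCk.apply` with `AdF_smooth`,
`ParCk.clm` for the evaluation), hence so is its antiderivative `J` in `t` (`ParCk.integ`). In a
chart `ψ` the derivative of `ξ ↦ ψ (ev ξ t)` in the direction `ζ` is
`rightT ψ (ψ (ev ξ t), J t (ξ, ζ))` (`evH_deriv`, `VelF.right_chart`), which is `C^k` by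
`rightT_smooth` and the chain rule. So `ev` is `C^(k+1)`.
-/

set_option autoImplicit false
set_option linter.unusedSectionVars false

namespace Pool.Agent.Lib.MP_862e0f_al

open Filter Topology Set unitInterval

universe u v w x y z

variable {E : Type v} [NormedAddCommGroup E] [NormedSpace ℝ E] [FiniteDimensional ℝ E]
  {H : Type u} [Group H] [TopologicalSpace H] [ChartedSpace E H]
variable [T2Space H]

theorem evH_chart_deriv (hH : IsLieGroup E H) (ξ ζ : C(I, E)) (t : I)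
    {ψ : OpenPartialHomeomorph H E} (hψ : ψ ∈ atlas E H) (h : evH hH ξ t ∈ ψ.source) :
    HasDirDeriv (fun ξ' : C(I, E) => ψ (evH hH ξ' t)) ξ ζ
      (rightT ψ (ψ (evH hH ξ t), integ (adCurve hH ξ ζ) t)) := by
  have h1 := VelF.right_chart hH tendsto_id (evH_deriv hH ξ ζ t) hψ h
  refine h1.congr fun s => ?_
  rw [inv_mul_cancel_right]
  rfl

/-- the evaluation at `s` of the second component -/
private noncomputable def sndEval (s : I) : C(I, E) × C(I, E) →L[ℝ] E :=
  (ContinuousMap.evalCLM ℝ s).comp (ContinuousLinearMap.snd ℝ C(I, E) C(I, E))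

private theorem sndEval_apply (s : I) (p : C(I, E) × C(I, E)) : sndEval s p = p.2 s := rfl

private theorem evH_integ (hH : IsLieGroup E H) (k : ℕ)
    (ih : MCk I C(I, E) E k (fun t ξ => evH hH ξ t) univ) :
    ParCk I k (C(I, E) × C(I, E)) E
      (fun t p => integ (adCurve hH p.1 p.2) t) univ := by
  have hcomp : CompleteSpace E := FiniteDimensional.complete ℝ E
  have hfst : ParCk I k (C(I, E) × C(I, E)) C(I, E) (fun _ p => p.1) univ :=
    ParCk.clm k (L := fun _ => ContinuousLinearMap.fst ℝ C(I, E) C(I, E))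
      (continuous_fst.comp continuous_snd) univ
  have hev : MCk I (C(I, E) × C(I, E)) E k (fun s p => evH hH p.1 s) univ :=
    MCk.comp isOpen_univ ih isOpen_univ hfst fun _ _ => mem_univ _
  have hcs : Continuous fun p : I × (C(I, E) × C(I, E)) => sndEval p.1 p.2 := by
    have h0 : Continuous fun p : I × (C(I, E) × C(I, E)) => p.2.2 p.1 := by fun_prop
    exact h0
  have hsnd : ParCk I k (C(I, E) × C(I, E)) E (fun s p => sndEval s p) univ :=
    ParCk.clm (T := I) (E := C(I, E) × C(I, E)) (F := E) k (L := fun s => sndEval s) hcs univ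
  have hA := MCk.apply (A := fun (g : H) (v : E) => AdF g v)
    (fun ψ hψ => AdF_smooth hH hψ) isOpen_univ hev hsnd
  exact ParCk.integ (hasAnti_banach E) hA

theorem evH_mCk (hH : IsLieGroup E H) (k : ℕ) :
    MCk I C(I, E) E k (fun t ξ => evH hH ξ t) univ := by
  have hcont : ContinuousOn (Function.uncurry fun (t : I) (ξ : C(I, E)) => evH hH ξ t) univ :=
    (evH_jointly_continuous hH).continuousOn
  have hdom : ∀ ψ ∈ atlas E H, ContinuousOn
      (Function.uncurry fun (t : I) (ξ : C(I, E)) => ψ (evH hH ξ t))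
      {p | p ∈ univ ∧ evH hH p.2 p.1 ∈ ψ.source} := by
    intro ψ hψ
    exact ψ.continuousOn.comp (evH_jointly_continuous hH).continuousOn fun p hp => hp.2
  induction k with
  | zero => exact ⟨hcont, fun ψ hψ => hdom ψ hψ⟩
  | succ k ih =>
    refine ⟨hcont, fun ψ hψ => ⟨hdom ψ hψ, fun t p =>
      rightT ψ (ψ (evH hH p.1 t), integ (adCurve hH p.1 p.2) t), ?_, ?_⟩⟩
    · intro p hp v
      exact evH_chart_deriv hH p.2 v p.1 hψ hp.2
    · have h1 : ParCk I k (C(I, E) × C(I, E)) E (fun t p => ψ (evH hH p.1 t))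
          {q | (q.1, q.2.1) ∈ {p : I × C(I, E) | p ∈ univ ∧ evH hH p.2 p.1 ∈ ψ.source}} :=
        ParCk.comp_right (ContinuousLinearMap.fst ℝ C(I, E) C(I, E)) (ih.2 ψ hψ)
      have h2 := (evH_integ hH k ih).mono (V := {q : I × (C(I, E) × C(I, E)) |
        (q.1, q.2.1) ∈ {p : I × C(I, E) | p ∈ univ ∧ evH hH p.2 p.1 ∈ ψ.source}})
        (subset_univ _)
      have h3 := h1.prodMk h2
      have h4 : ParCk I k (E × E) E (fun _ => rightT ψ) {p | p.2 ∈ ψ.target ×ˢ univ} :=
        ParCk.of_bastiani (rightT_smooth hH hψ k)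
      have hW : IsOpen {p : I × (E × E) | p.2 ∈ ψ.target ×ˢ (univ : Set E)} :=
        (ψ.open_target.prod isOpen_univ).preimage continuous_snd
      exact ParCk.comp h4 hW h3 fun q hq => ⟨ψ.map_source hq.2, mem_univ _⟩

/-- finite-dimensional Lie groups have a smooth evolution map -/
noncomputable def hasEvol (hH : IsLieGroup E H) : HasEvol E H where
  ev t ξ := evH hH ξ t
  cont := evH_continuous hH
  zero := evH_zero hH
  vel := evH_vel hH
  smooth := evH_mCk hH

end Pool.Agent.Lib.MP_862e0f_al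
end

section

/-!
# Right-invariant derivatives of functions on a finite-dimensional Lie group
-/

set_option autoImplicit false
set_option linter.unusedSectionVars false

namespace Pool.Agent.Lib.MP_862e0f_al

open Filter Topology Set unitInterval

universe u v w x y z

variable {E : Type v} [NormedAddCommGroup E] [NormedSpace ℝ E] [FiniteDimensional ℝ E]
  {H : Type u} [Group H] [TopologicalSpace H] [ChartedSpace E H]
  {Y : Type w} [NormedAddCommGroup Y] [NormedSpace ℝ Y]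
  {Z : Type x} [NormedAddCommGroup Z] [NormedSpace ℝ Z]

/-- `F' x` is the right-invariant derivative of `F` at `x`, that is, the derivative of
`z ↦ F (φ.symm z * x)` at `φ 1`, where `φ` is the chart at `1`. -/
def HasRDeriv (F : H → Y) (F' : H → E →L[ℝ] Y) : Prop :=
  ∀ x : H, HasFDerivAt (fun z : E => F ((chartAt E (1 : H)).symm z * x)) (F' x)
    (chartAt E (1 : H) 1)

/-- derivative along families of group elements with a velocity -/
theorem HasRDeriv.vel {F : H → Y} {F' : H → E →L[ℝ] Y} (h : HasRDeriv F F') {ι : Type z}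
    {l : Filter ι} {s : ι → ℝ} (hs : Tendsto s l (𝓝[≠] 0)) {k : ι → H} {v : E}
    (hk : VelF l s k v) (x : H) :
    Tendsto (fun i => (s i)⁻¹ • (F (k i * x) - F x)) l (𝓝 (F' x v)) := by
  have h0 := (h x).hasFDerivWithinAt (s := univ)
  have hd : Tendsto (fun i => chartAt E (1 : H) (k i) - chartAt E (1 : H) 1) l (𝓝 0) := by
    have h2 := ((chartAt E (1 : H)).continuousAt (mem_chart_source E (1 : H))).tendsto.comp hk.cont
    have h3 := h2.sub_const (chartAt E (1 : H) 1)
    rwa [sub_self] at h3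
  have h1 := h0.lim (l := l) (c := fun i => (s i)⁻¹)
    (d := fun i => chartAt E (1 : H) (k i) - chartAt E (1 : H) 1) (v := v) hd
    (Eventually.of_forall fun _ => mem_univ _) hk.vel
  refine h1.congr' ?_
  have e1 : ∀ᶠ i in l, k i ∈ (chartAt E (1 : H)).source :=
    hk.cont.eventually ((chartAt E (1 : H)).open_source.mem_nhds (mem_chart_source E (1 : H)))
  filter_upwards [e1] with i hi
  simp only [add_sub_cancel, (chartAt E (1 : H)).left_inv hi,
    (chartAt E (1 : H)).left_inv (mem_chart_source E (1 : H)), one_mul]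

/-- the derivative in a chart -/
theorem HasRDeriv.chart (hH : IsLieGroup E H) {F : H → Y} {F' : H → E →L[ℝ] Y}
    (h : HasRDeriv F F') {ψ : OpenPartialHomeomorph H E} (hψ : ψ ∈ atlas E H) {z : E}
    (hz : z ∈ ψ.target) (x : H) :
    HasFDerivAt (fun z' => F (ψ.symm z' * x)) ((F' (ψ.symm z * x)).comp (omRL ψ z)) z := by
  have hg := (omRL_hasFDerivAt hH hψ hz).1
  have hz1 : (chartAt E (1 : H)) (ψ.symm z * (ψ.symm z)⁻¹) = chartAt E (1 : H) 1 := by
    rw [mul_inv_cancel]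
  have h0 : HasFDerivAt (fun u : E => F ((chartAt E (1 : H)).symm u * (ψ.symm z * x)))
      (F' (ψ.symm z * x)) ((chartAt E (1 : H)) (ψ.symm z * (ψ.symm z)⁻¹)) := by
    rw [hz1]
    exact h _
  have h1 := h0.comp z hg
  refine h1.congr_of_eventuallyEq ?_
  have hcont : ContinuousAt (fun z' => ψ.symm z' * (ψ.symm z)⁻¹) z :=
    hH.continuous_mul.continuousAt.comp
      ((ψ.continuousAt_symm hz).prodMk continuousAt_const)
  have e1 : ∀ᶠ z' in 𝓝 z, ψ.symm z' * (ψ.symm z)⁻¹ ∈ (chartAt E (1 : H)).source := by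
    refine hcont.eventually ((chartAt E (1 : H)).open_source.mem_nhds ?_)
    simp only [mul_inv_cancel]
    exact mem_chart_source E (1 : H)
  filter_upwards [e1] with z' hz'
  simp only [Function.comp_apply, (chartAt E (1 : H)).left_inv hz']
  congr 1
  group

theorem HasRDeriv.continuous (hH : IsLieGroup E H) {F : H → Y} {F' : H → E →L[ℝ] Y}
    (h : HasRDeriv F F') : Continuous F := by
  rw [continuous_iff_continuousAt]
  intro x
  have hx : chartAt E x x ∈ (chartAt E x).target := (chartAt E x).map_source (mem_chart_source E x)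
  have h1 := (h.chart hH (chart_mem_atlas E x) hx 1).continuousAt
  simp only [mul_one] at h1
  have h2 : ContinuousAt (fun y => F ((chartAt E x).symm (chartAt E x y))) x :=
    ContinuousAt.comp (f := chartAt E x) (g := fun z' => F ((chartAt E x).symm z')) h1
      ((chartAt E x).continuousAt (mem_chart_source E x))
  refine h2.congr ?_
  filter_upwards [(chartAt E x).open_source.mem_nhds (mem_chart_source E x)] with y hy
  rw [(chartAt E x).left_inv hy]

theorem HasRDeriv.unique {F : H → Y} {F' F'' : H → E →L[ℝ] Y} (h : HasRDeriv F F')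
    (h' : HasRDeriv F F'') : F' = F'' := by
  funext x
  exact (h x).unique (h' x)

theorem HasRDeriv.add {F G : H → Y} {F' G' : H → E →L[ℝ] Y} (h : HasRDeriv F F')
    (h' : HasRDeriv G G') : HasRDeriv (fun x => F x + G x) (fun x => F' x + G' x) := by
  intro x
  exact (h x).add (h' x)

theorem HasRDeriv.clm {F : H → Y} {F' : H → E →L[ℝ] Y} (h : HasRDeriv F F') (L : Y →L[ℝ] Z) :
    HasRDeriv (fun x => L (F x)) (fun x => L.comp (F' x)) := by
  intro x
  exact L.hasFDerivAt.comp _ (h x)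

/-- left translates: `F (g⁻¹ φ⁻¹(z) x) = F ((g⁻¹ φ⁻¹(z) g) g⁻¹ x)` -/
theorem HasRDeriv.translate (hH : IsLieGroup E H) {F : H → Y} {F' : H → E →L[ℝ] Y}
    (h : HasRDeriv F F') (g : H) :
    HasRDeriv (fun x => F (g⁻¹ * x)) (fun x => (F' (g⁻¹ * x)).comp (AdL hH g⁻¹)) := by
  intro x
  have h1s : (chartAt E (1 : H)).symm (chartAt E (1 : H) 1) = 1 :=
    (chartAt E (1 : H)).left_inv (mem_chart_source E (1 : H))
  have hg := AdL_hasFDerivAt hH g⁻¹
  have hz1 : chartAt E (1 : H) (g⁻¹ * (chartAt E (1 : H)).symm (chartAt E (1 : H) 1) * g⁻¹⁻¹) =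
      chartAt E (1 : H) 1 := by
    rw [h1s, mul_one, mul_inv_cancel]
  have h0 : HasFDerivAt (fun u : E => F ((chartAt E (1 : H)).symm u * (g⁻¹ * x)))
      (F' (g⁻¹ * x))
      (chartAt E (1 : H) (g⁻¹ * (chartAt E (1 : H)).symm (chartAt E (1 : H) 1) * g⁻¹⁻¹)) := by
    rw [hz1]
    exact h _
  have h1 := h0.comp (chartAt E (1 : H) 1) hg
  refine h1.congr_of_eventuallyEq ?_
  have hcont : ContinuousAt (fun z => g⁻¹ * (chartAt E (1 : H)).symm z * g⁻¹⁻¹)
      (chartAt E (1 : H) 1) := by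
    have ha : ContinuousAt (chartAt E (1 : H)).symm (chartAt E (1 : H) 1) :=
      (chartAt E (1 : H)).continuousAt_symm
        ((chartAt E (1 : H)).map_source (mem_chart_source E (1 : H)))
    have hb : ContinuousAt (fun z => g⁻¹ * (chartAt E (1 : H)).symm z) (chartAt E (1 : H) 1) :=
      hH.continuous_mul.continuousAt.comp (continuousAt_const.prodMk ha)
    exact hH.continuous_mul.continuousAt.comp (hb.prodMk continuousAt_const)
  have e1 : ∀ᶠ z in 𝓝 (chartAt E (1 : H) 1),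
      g⁻¹ * (chartAt E (1 : H)).symm z * g⁻¹⁻¹ ∈ (chartAt E (1 : H)).source := by
    refine hcont.eventually ((chartAt E (1 : H)).open_source.mem_nhds ?_)
    simp only [h1s, mul_one, mul_inv_cancel]
    exact mem_chart_source E (1 : H)
  filter_upwards [e1] with z hz
  simp only [Function.comp_apply, (chartAt E (1 : H)).left_inv hz]
  congr 1
  group

end Pool.Agent.Lib.MP_862e0f_al
end

section

/-!
# The space of jets on a finite-dimensional Lie group

A jet is a family `Ψ k : H → (E^k → ℝ multilinear)` such that `Ψ (k + 1)` is the right-invariant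
derivative of `Ψ k`, and such that all `Ψ k` are bounded on the sets
`BB n = {x | ‖Ad x‖ ≤ n, ‖Ad x⁻¹‖ ≤ n}`.
-/

set_option autoImplicit false
set_option linter.unusedSectionVars false

namespace Pool.Agent.Lib.MP_862e0f_al

open Filter Topology Set unitInterval

universe u v w x y z

/-- multilinear forms -/
abbrev JF (E : Type v) [NormedAddCommGroup E] [NormedSpace ℝ E] (k : ℕ) : Type v := E [×k]→L[ℝ] ℝ

variable {E : Type v} [NormedAddCommGroup E] [NormedSpace ℝ E] [FiniteDimensional ℝ E]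
  {H : Type u} [Group H] [TopologicalSpace H] [ChartedSpace E H]

/-- `Ψ` is the family of all right-invariant derivatives of a function. -/
def IsJet (Ψ : ∀ k : ℕ, H → JF E k) : Prop :=
  ∀ k : ℕ, HasRDeriv (Ψ k) fun x => (Ψ (k + 1) x).curryLeft

/-- jets are determined by their component of order `0` -/
theorem IsJet.ext {Ψ Ψ' : ∀ k : ℕ, H → JF E k} (h : IsJet Ψ) (h' : IsJet Ψ')
    (h0 : ∀ x, Ψ 0 x = Ψ' 0 x) : Ψ = Ψ' := by
  funext k
  induction k with
  | zero => exact funext h0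
  | succ k ih =>
    have h1 := h k
    rw [ih] at h1
    have h2 := h1.unique (h' k)
    funext x
    have h3 := congrFun h2 x
    rw [← (Ψ (k + 1) x).uncurry_curryLeft, h3, ContinuousMultilinearMap.uncurry_curryLeft]

theorem isJet_zero : IsJet (fun (k : ℕ) (_ : H) => (0 : JF E k)) := by
  intro k x
  have h0 : (0 : JF E (k + 1)).curryLeft = 0 := by
    ext v w
    rfl
  simp only [h0]
  exact hasFDerivAt_const _ _

theorem IsJet.add {Ψ Ψ' : ∀ k : ℕ, H → JF E k} (h : IsJet Ψ) (h' : IsJet Ψ') :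
    IsJet fun k x => Ψ k x + Ψ' k x := by
  intro k
  have h1 := (h k).add (h' k)
  have h2 : (fun x => (Ψ (k + 1) x + Ψ' (k + 1) x).curryLeft) =
      fun x => (Ψ (k + 1) x).curryLeft + (Ψ' (k + 1) x).curryLeft := by
    funext x
    ext v w
    rfl
  rw [h2]
  exact h1

theorem IsJet.smul {Ψ : ∀ k : ℕ, H → JF E k} (h : IsJet Ψ) (r : ℝ) :
    IsJet fun k x => r • Ψ k x := by
  intro k
  have h1 := (h k).clm (r • ContinuousLinearMap.id ℝ (JF E k))
  have h2 : (fun x => (r • Ψ (k + 1) x).curryLeft) =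
      fun x => (r • ContinuousLinearMap.id ℝ (JF E k)).comp ((Ψ (k + 1) x).curryLeft) := by
    funext x
    ext v w
    rfl
  rw [h2]
  exact h1

/-- the sets on which jets are bounded -/
def BB (hH : IsLieGroup E H) (n : ℕ) : Set H := {x | ‖AdL hH x‖ ≤ n ∧ ‖AdL hH x⁻¹‖ ≤ n}

/-- each point has a neighbourhood contained in some `BB n` -/
theorem exists_BB_nhds (hH : IsLieGroup E H) (x : H) : ∃ n : ℕ, BB hH n ∈ 𝓝 x := by
  obtain ⟨n, hn⟩ := exists_nat_gt (max ‖AdL hH x‖ ‖AdL hH x⁻¹‖)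
  refine ⟨n, ?_⟩
  have h1 : Tendsto (fun y : H => ‖AdL hH y‖) (𝓝 x) (𝓝 ‖AdL hH x‖) :=
    ((AdL_continuous hH).norm).continuousAt
  have h2 : Tendsto (fun y : H => ‖AdL hH y⁻¹‖) (𝓝 x) (𝓝 ‖AdL hH x⁻¹‖) :=
    (((AdL_continuous hH).comp hH.smooth_inv.1).norm).continuousAt
  filter_upwards [h1.eventually (gt_mem_nhds ((le_max_left _ _).trans_lt hn)),
    h2.eventually (gt_mem_nhds ((le_max_right _ _).trans_lt hn))] with y hy hy'
  exact ⟨hy.le, hy'.le⟩

theorem BB_mul (hH : IsLieGroup E H) {m n : ℕ} {x y : H} (hx : x ∈ BB hH m) (hy : y ∈ BB hH n) :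
    x * y ∈ BB hH (m * n) := by
  refine ⟨?_, ?_⟩
  · rw [AdL_mul, Nat.cast_mul]
    exact (ContinuousLinearMap.opNorm_comp_le _ _).trans
      (mul_le_mul hx.1 hy.1 (norm_nonneg _) (Nat.cast_nonneg _))
  · rw [mul_inv_rev, AdL_mul, Nat.cast_mul, mul_comm (m : ℝ)]
    exact (ContinuousLinearMap.opNorm_comp_le _ _).trans
      (mul_le_mul hy.2 hx.2 (norm_nonneg _) (Nat.cast_nonneg _))

theorem BB_inv (hH : IsLieGroup E H) {n : ℕ} {x : H} (hx : x ∈ BB hH n) : x⁻¹ ∈ BB hH n := by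
  refine ⟨hx.2, ?_⟩
  rw [inv_inv]
  exact hx.1

theorem BB_mono (hH : IsLieGroup E H) {m n : ℕ} (h : m ≤ n) : BB hH m ⊆ BB hH n := by
  have h' : (m : ℝ) ≤ n := by exact_mod_cast h
  exact fun x hx => ⟨hx.1.trans h', hx.2.trans h'⟩

/-- `Ψ` is bounded on all sets `BB n` -/
def IsBddJet (hH : IsLieGroup E H) (Ψ : ∀ k : ℕ, H → JF E k) : Prop :=
  ∀ n k : ℕ, ∃ C : ℝ, ∀ x ∈ BB hH n, ‖Ψ k x‖ ≤ C

/-- the space of bounded jets, as a submodule -/
def JetSub (hH : IsLieGroup E H) : Submodule ℝ (∀ k : ℕ, H → JF E k) where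
  carrier := {Ψ | IsJet Ψ ∧ IsBddJet hH Ψ}
  zero_mem' := ⟨isJet_zero, fun _ _ => ⟨0, fun _ _ => by simp⟩⟩
  add_mem' := by
    rintro a b ⟨ha, ha'⟩ ⟨hb, hb'⟩
    refine ⟨ha.add hb, fun n k => ?_⟩
    obtain ⟨C, hC⟩ := ha' n k
    obtain ⟨D, hD⟩ := hb' n k
    exact ⟨C + D, fun x hx => (norm_add_le _ _).trans (add_le_add (hC x hx) (hD x hx))⟩
  smul_mem' := by
    rintro r a ⟨ha, ha'⟩
    refine ⟨ha.smul r, fun n k => ?_⟩
    obtain ⟨C, hC⟩ := ha' n k
    refine ⟨|r| * C, fun x hx => ?_⟩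
    rw [Pi.smul_apply, Pi.smul_apply, norm_smul]
    exact mul_le_mul_of_nonneg_left (hC x hx) (abs_nonneg r)

/-- the space of bounded jets -/
def Jet (hH : IsLieGroup E H) : Type (max u v) := JetSub hH

variable (hH : IsLieGroup E H)

noncomputable instance : AddCommGroup (Jet hH) := inferInstanceAs (AddCommGroup (JetSub hH))
noncomputable instance : Module ℝ (Jet hH) := inferInstanceAs (Module ℝ (JetSub hH))

variable {hH}

/-- the components of a jet -/
def Jet.val (Ψ : Jet hH) : ∀ k : ℕ, H → JF E k := Subtype.val Ψ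

/-- constructor -/
def Jet.mk (Ψ : ∀ k : ℕ, H → JF E k) (h : IsJet Ψ) (h' : IsBddJet hH Ψ) : Jet hH :=
  (⟨Ψ, h, h'⟩ : JetSub hH)

theorem Jet.isJet (Ψ : Jet hH) : IsJet Ψ.val := Ψ.2.1
theorem Jet.isBddJet (Ψ : Jet hH) : IsBddJet hH Ψ.val := Ψ.2.2

@[simp] theorem Jet.mk_val (Ψ : ∀ k : ℕ, H → JF E k) (h : IsJet Ψ) (h' : IsBddJet hH Ψ) :
    (Jet.mk Ψ h h').val = Ψ := rfl
@[simp] theorem Jet.add_val (Ψ Ψ' : Jet hH) (k : ℕ) (x : H) :
    (Ψ + Ψ').val k x = Ψ.val k x + Ψ'.val k x := rfl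
@[simp] theorem Jet.sub_val (Ψ Ψ' : Jet hH) (k : ℕ) (x : H) :
    (Ψ - Ψ').val k x = Ψ.val k x - Ψ'.val k x := rfl
@[simp] theorem Jet.neg_val (Ψ : Jet hH) (k : ℕ) (x : H) : (-Ψ).val k x = -Ψ.val k x := rfl
@[simp] theorem Jet.zero_val (k : ℕ) (x : H) : (0 : Jet hH).val k x = 0 := rfl
@[simp] theorem Jet.smul_val (r : ℝ) (Ψ : Jet hH) (k : ℕ) (x : H) :
    (r • Ψ).val k x = r • Ψ.val k x := rfl

theorem Jet.ext_zero {Ψ Ψ' : Jet hH} (h : ∀ x, Ψ.val 0 x = Ψ'.val 0 x) : Ψ = Ψ' :=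
  Subtype.ext (IsJet.ext Ψ.isJet Ψ'.isJet h)

theorem Jet.ext_val {Ψ Ψ' : Jet hH} (h : ∀ k x, Ψ.val k x = Ψ'.val k x) : Ψ = Ψ' :=
  Subtype.ext (funext fun k => funext fun x => h k x)

theorem Jet.bddAbove (Ψ : Jet hH) (p : ℕ × ℕ) :
    BddAbove (range fun x : BB hH p.1 => ‖Ψ.val p.2 x‖) := by
  obtain ⟨C, hC⟩ := Ψ.isBddJet p.1 p.2
  refine ⟨C, ?_⟩
  rintro _ ⟨x, rfl⟩
  exact hC x x.2

/-- the seminorm `sup_{x ∈ BB n} ‖Ψ k x‖` -/
noncomputable def jetNorm (hH : IsLieGroup E H) (p : ℕ × ℕ) : Seminorm ℝ (Jet hH) :=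
  Seminorm.of (fun Ψ => ⨆ x : BB hH p.1, ‖Ψ.val p.2 x‖)
    (fun Ψ Ψ' => Real.iSup_le
      (fun x => (norm_add_le _ _).trans
        (add_le_add (le_ciSup (Ψ.bddAbove p) x) (le_ciSup (Ψ'.bddAbove p) x)))
      (add_nonneg (Real.iSup_nonneg fun _ => norm_nonneg _)
        (Real.iSup_nonneg fun _ => norm_nonneg _)))
    (fun r Ψ => by
      rw [Real.mul_iSup_of_nonneg (norm_nonneg r)]
      refine iSup_congr fun x => ?_
      rw [Jet.smul_val, norm_smul])

theorem le_jetNorm (Ψ : Jet hH) {n k : ℕ} {x : H} (hx : x ∈ BB hH n) :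
    ‖Ψ.val k x‖ ≤ jetNorm hH (n, k) Ψ :=
  le_ciSup (Ψ.bddAbove (n, k)) (⟨x, hx⟩ : BB hH n)

theorem jetNorm_le (Ψ : Jet hH) {n k : ℕ} {C : ℝ} (hC : 0 ≤ C)
    (h : ∀ x ∈ BB hH n, ‖Ψ.val k x‖ ≤ C) : jetNorm hH (n, k) Ψ ≤ C :=
  Real.iSup_le (fun x => h x x.2) hC

theorem jetNorm_mono (Ψ : Jet hH) {m n k : ℕ} (h : m ≤ n) :
    jetNorm hH (m, k) Ψ ≤ jetNorm hH (n, k) Ψ :=
  jetNorm_le Ψ (apply_nonneg _ _) fun _ hx => le_jetNorm Ψ (BB_mono hH h hx)

variable (hH) in
/-- the family of seminorms defining the topology of the space of jets -/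
noncomputable def jetFam : SeminormFamily ℝ (Jet hH) (ℕ × ℕ) := jetNorm hH

noncomputable instance : TopologicalSpace (Jet hH) := (jetFam hH).moduleFilterBasis.topology

theorem jet_withSeminorms : WithSeminorms (jetFam hH) := ⟨rfl⟩

noncomputable instance : IsTopologicalAddGroup (Jet hH) := jet_withSeminorms.topologicalAddGroup
noncomputable instance : ContinuousSMul ℝ (Jet hH) := jet_withSeminorms.continuousSMul
noncomputable instance : LocallyConvexSpace ℝ (Jet hH) := jet_withSeminorms.toLocallyConvexSpace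

instance : T2Space (Jet hH) := by
  have h1 : T1Space (Jet hH) := by
    refine (jet_withSeminorms (hH := hH)).T1_of_separating fun Ψ hΨ => ?_
    by_contra hcon
    push Not at hcon
    apply hΨ
    refine Jet.ext_val fun k x => ?_
    obtain ⟨n, hn⟩ := exists_BB_nhds hH x
    have h2 := le_jetNorm Ψ (k := k) (mem_of_mem_nhds hn)
    have h3 : jetNorm hH (n, k) Ψ = 0 := hcon (n, k)
    rw [h3] at h2
    exact norm_le_zero_iff.mp h2
  infer_instance

end Pool.Agent.Lib.MP_862e0f_al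
end

section

/-!
# The action of the group on jets

`(g Ψ) k x = Ψ k (g⁻¹ x) ∘ (Ad g⁻¹, …, Ad g⁻¹)`. Since jets are determined by the component of
order `0` (`Jet.ext_zero`), identities need only be checked for `k = 0`, where
`(g Ψ) 0 x = Ψ 0 (g⁻¹ x)`.
-/

set_option autoImplicit false
set_option linter.unusedSectionVars false

namespace Pool.Agent.Lib.MP_862e0f_al

open Filter Topology Set unitInterval

universe u v w x y z

variable {E : Type v} [NormedAddCommGroup E] [NormedSpace ℝ E] [FiniteDimensional ℝ E]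
  {H : Type u} [Group H] [TopologicalSpace H] [ChartedSpace E H]

/-- the action on families of forms -/
noncomputable def actF (hH : IsLieGroup E H) (g : H) (Ψ : ∀ k : ℕ, H → JF E k) (k : ℕ) (x : H) :
    JF E k :=
  (Ψ k (g⁻¹ * x)).compContinuousLinearMap fun _ => AdL hH g⁻¹

theorem actF_zero (hH : IsLieGroup E H) (g : H) (Ψ : ∀ k : ℕ, H → JF E k) (x : H) :
    actF hH g Ψ 0 x = Ψ 0 (g⁻¹ * x) := by
  ext v
  rw [actF, ContinuousMultilinearMap.compContinuousLinearMap_apply]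
  exact congrArg _ (funext fun i => i.elim0)

theorem norm_actF_le (hH : IsLieGroup E H) (g : H) (Ψ : ∀ k : ℕ, H → JF E k) (k : ℕ) (x : H) :
    ‖actF hH g Ψ k x‖ ≤ ‖AdL hH g⁻¹‖ ^ k * ‖Ψ k (g⁻¹ * x)‖ := by
  have h := ContinuousMultilinearMap.norm_compContinuousLinearMap_le (Ψ k (g⁻¹ * x))
    (fun _ : Fin k => AdL hH g⁻¹)
  rw [Finset.prod_const, Finset.card_univ, Fintype.card_fin, mul_comm] at h
  exact h

/-- `HasRDeriv.translate`, `HasRDeriv.clm` with
`ContinuousMultilinearMap.compContinuousLinearMapL` -/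
theorem IsJet.actF (hH : IsLieGroup E H) {Ψ : ∀ k : ℕ, H → JF E k} (h : IsJet Ψ) (g : H) :
    IsJet (actF hH g Ψ) := by
  intro k
  have h1 := ((h k).translate hH g).clm
    (ContinuousMultilinearMap.compContinuousLinearMapL (F := ℝ) (fun _ : Fin k => AdL hH g⁻¹))
  have h2 : (fun x => (Pool.Agent.Lib.MP_862e0f_al.actF hH g Ψ (k + 1) x).curryLeft) =
      fun x => (ContinuousMultilinearMap.compContinuousLinearMapL (F := ℝ)
        (fun _ : Fin k => AdL hH g⁻¹)).comp
          (((Ψ (k + 1) (g⁻¹ * x)).curryLeft).comp (AdL hH g⁻¹)) := by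
    funext x
    ext v w
    change Ψ (k + 1) (g⁻¹ * x) (fun i => AdL hH g⁻¹ ((Fin.cons v w : Fin (k + 1) → E) i)) =
      Ψ (k + 1) (g⁻¹ * x) (Fin.cons (AdL hH g⁻¹ v) fun i => AdL hH g⁻¹ (w i))
    refine congrArg _ (funext fun i => ?_)
    refine Fin.cases rfl (fun j => rfl) i
  rw [h2]
  exact h1

theorem IsBddJet.actF {hH : IsLieGroup E H} {Ψ : ∀ k : ℕ, H → JF E k} (h : IsBddJet hH Ψ)
    (g : H) : IsBddJet hH (actF hH g Ψ) := by
  intro n k
  obtain ⟨m, hm⟩ := exists_BB_nhds hH g⁻¹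
  obtain ⟨C, hC⟩ := h (m * n) k
  refine ⟨‖AdL hH g⁻¹‖ ^ k * C, fun x hx => (norm_actF_le hH g Ψ k x).trans ?_⟩
  exact mul_le_mul_of_nonneg_left (hC _ (BB_mul hH (mem_of_mem_nhds hm) hx))
    (pow_nonneg (norm_nonneg _) _)

theorem jetNorm_act_le {hH : IsLieGroup E H} {g : H} {m : ℕ} (hg : g⁻¹ ∈ BB hH m) (n k : ℕ)
    (Ψ Φ : Jet hH) (h : ∀ x, Φ.val k x = actF hH g Ψ.val k x) :
    jetNorm hH (n, k) Φ ≤ ‖AdL hH g⁻¹‖ ^ k * jetNorm hH (m * n, k) Ψ := by
  refine jetNorm_le Φ (mul_nonneg (pow_nonneg (norm_nonneg _) _) (apply_nonneg _ _)) fun x hx => ?_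
  rw [h]
  exact (norm_actF_le hH g Ψ.val k x).trans (mul_le_mul_of_nonneg_left
    (le_jetNorm Ψ (BB_mul hH hg hx)) (pow_nonneg (norm_nonneg _) _))

/-- the action of one element, as a linear map -/
noncomputable def jetActLin (hH : IsLieGroup E H) (g : H) : Jet hH →ₗ[ℝ] Jet hH where
  toFun Ψ := Jet.mk (Pool.Agent.Lib.MP_862e0f_al.actF hH g Ψ.val) (Ψ.isJet.actF hH g)
    (Ψ.isBddJet.actF g)
  map_add' Ψ Φ := by
    refine Jet.ext_zero fun x => ?_
    rw [Jet.add_val, Jet.mk_val, Jet.mk_val, Jet.mk_val, actF_zero, actF_zero, actF_zero,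
      Jet.add_val]
  map_smul' r Ψ := by
    refine Jet.ext_zero fun x => ?_
    rw [RingHom.id_apply, Jet.smul_val, Jet.mk_val, Jet.mk_val, actF_zero, actF_zero,
      Jet.smul_val]

theorem jetActLin_continuous (hH : IsLieGroup E H) (g : H) : Continuous (jetActLin hH g) := by
  refine Seminorm.continuous_from_bounded (jet_withSeminorms (hH := hH))
    (jet_withSeminorms (hH := hH)) _ ?_
  rintro ⟨n, k⟩
  obtain ⟨m, hm⟩ := exists_BB_nhds hH g⁻¹
  refine ⟨{(m * n, k)}, (‖AdL hH g⁻¹‖₊ ^ k), fun Ψ => ?_⟩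
  rw [Finset.sup_singleton]
  exact jetNorm_act_le (mem_of_mem_nhds hm) n k Ψ (jetActLin hH g Ψ) fun _ => rfl

/-- the action of one element -/
noncomputable def jetActL (hH : IsLieGroup E H) (g : H) : Jet hH →L[ℝ] Jet hH where
  toFun Ψ := Jet.mk (Pool.Agent.Lib.MP_862e0f_al.actF hH g Ψ.val) (Ψ.isJet.actF hH g)
    (Ψ.isBddJet.actF g)
  map_add' _ _ := (jetActLin hH g).map_add' _ _
  map_smul' _ _ := (jetActLin hH g).map_smul' _ _
  cont := jetActLin_continuous hH g

/-- the action of `H` on jets -/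
noncomputable def jetAct (hH : IsLieGroup E H) : H →* (Jet hH →L[ℝ] Jet hH) where
  toFun := jetActL hH
  map_one' := by
    refine ContinuousLinearMap.ext fun Ψ => Jet.ext_zero fun x => ?_
    change actF hH 1 Ψ.val 0 x = Ψ.val 0 x
    rw [actF_zero, inv_one, one_mul]
  map_mul' g h := by
    refine ContinuousLinearMap.ext fun Ψ => Jet.ext_zero fun x => ?_
    change actF hH (g * h) Ψ.val 0 x = actF hH g (actF hH h Ψ.val) 0 x
    rw [actF_zero, actF_zero, actF_zero, mul_inv_rev, mul_assoc]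

theorem jetAct_val (hH : IsLieGroup E H) (g : H) (Ψ : Jet hH) :
    (jetAct hH g Ψ).val = actF hH g Ψ.val := rfl

theorem jetAct_val_zero (hH : IsLieGroup E H) (g : H) (Ψ : Jet hH) (x : H) :
    (jetAct hH g Ψ).val 0 x = Ψ.val 0 (g⁻¹ * x) := actF_zero hH g Ψ.val x

end Pool.Agent.Lib.MP_862e0f_al
end

section

/-!
# Limits of right-invariant derivatives
-/

set_option autoImplicit false
set_option linter.unusedSectionVars false

namespace Pool.Agent.Lib.MP_862e0f_al

open Filter Topology Set unitInterval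

universe u v w x y z

variable {E : Type v} [NormedAddCommGroup E] [NormedSpace ℝ E] [FiniteDimensional ℝ E]
  {H : Type u} [Group H] [TopologicalSpace H] [ChartedSpace E H]
  {Y : Type w} [NormedAddCommGroup Y] [NormedSpace ℝ Y]
  {Z : Type x} [NormedAddCommGroup Z] [NormedSpace ℝ Z]

/-- locally uniform limits of derivatives (`hasFDerivAt_of_tendstoUniformlyOnFilter` or similar,
with `HasRDeriv.chart` near `φ 1`) -/
theorem HasRDeriv.of_tendsto (hH : IsLieGroup E H) {F : ℕ → H → Y} {F' : ℕ → H → E →L[ℝ] Y}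
    {G : H → Y} {G' : H → E →L[ℝ] Y} (h : ∀ n, HasRDeriv (F n) (F' n))
    (hF : ∀ x, Tendsto (fun n => F n x) atTop (𝓝 (G x)))
    (hF' : ∀ x : H, ∃ N ∈ 𝓝 x, TendstoUniformlyOn F' G' atTop N) : HasRDeriv G G' := by
  intro x
  set φ := chartAt E (1 : H) with hφ
  have hφa : φ ∈ atlas E H := chart_mem_atlas E (1 : H)
  have h1s : (1 : H) ∈ φ.source := mem_chart_source E (1 : H)
  have h1t : φ 1 ∈ φ.target := φ.map_source h1s
  have h1e : φ.symm (φ 1) = 1 := φ.left_inv h1s
  obtain ⟨N, hN, hu⟩ := hF' x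
  -- the linear map `omRL φ (φ 1)` is the identity
  have hid : omRL φ (φ 1) = ContinuousLinearMap.id ℝ E := by
    have h2 := (omRL_hasFDerivAt hH hφa h1t).1
    have h3 : HasFDerivAt (fun z' => φ (φ.symm z' * (φ.symm (φ 1))⁻¹))
        (ContinuousLinearMap.id ℝ E) (φ 1) := by
      refine (hasFDerivAt_id (φ 1)).congr_of_eventuallyEq ?_
      filter_upwards [φ.open_target.mem_nhds h1t] with z hz
      simp only [h1e, inv_one, mul_one, φ.right_inv hz, id]
    exact h2.unique h3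
  -- neighbourhoods
  have hcont : ContinuousAt (fun z => φ.symm z * x) (φ 1) :=
    hH.continuous_mul.continuousAt.comp
      ((φ.continuousAt_symm h1t).prodMk continuousAt_const)
  have e1 : ∀ᶠ z in 𝓝 (φ 1), φ.symm z * x ∈ N := by
    refine hcont.eventually_mem ?_
    simp only [h1e, one_mul]
    exact hN
  have hoc : ContinuousAt (omRL φ) (φ 1) :=
    (omRL_continuousOn hH hφa).continuousAt (φ.open_target.mem_nhds h1t)
  have e2 : ∀ᶠ z in 𝓝 (φ 1), ‖omRL φ z‖ < ‖omRL φ (φ 1)‖ + 1 :=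
    hoc.norm.eventually_lt_const (by linarith)
  obtain ⟨s, hs, hso, hsm⟩ := mem_nhds_iff.mp
    (Filter.inter_mem (Filter.inter_mem e1 e2) (φ.open_target.mem_nhds h1t))
  set C : ℝ := ‖omRL φ (φ 1)‖ + 1 with hC
  have hC0 : 0 < C := by positivity
  have h4 : TendstoUniformlyOn (fun n z => (F' n (φ.symm z * x)).comp (omRL φ z))
      (fun z => (G' (φ.symm z * x)).comp (omRL φ z)) atTop s := by
    rw [Metric.tendstoUniformlyOn_iff] at hu ⊢
    intro ε hε
    filter_upwards [hu (ε / C) (by positivity)] with n hn z hz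
    have hz' := hs hz
    have h5 := hn _ hz'.1.1
    rw [dist_eq_norm] at h5 ⊢
    have h6 : (G' (φ.symm z * x)).comp (omRL φ z) - (F' n (φ.symm z * x)).comp (omRL φ z) =
        (G' (φ.symm z * x) - F' n (φ.symm z * x)).comp (omRL φ z) := by
      rw [ContinuousLinearMap.sub_comp]
    rw [h6]
    calc _ ≤ ‖G' (φ.symm z * x) - F' n (φ.symm z * x)‖ * ‖omRL φ z‖ :=
          ContinuousLinearMap.opNorm_comp_le _ _
      _ ≤ ‖G' (φ.symm z * x) - F' n (φ.symm z * x)‖ * C := by
          gcongr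
          exact le_of_lt hz'.1.2
      _ < ε / C * C := by gcongr
      _ = ε := by field_simp
  have h7 := hasFDerivAt_of_tendstoUniformlyOn (𝕜 := ℝ) (l := atTop)
    (f := fun n z => F n (φ.symm z * x)) (g := fun z => G (φ.symm z * x)) hso h4
    (fun n z hz => (h n).chart hH hφa (hs hz).2 x)
    (fun z _ => hF _) hsm
  simp only [hid, h1e, one_mul, ContinuousLinearMap.comp_id] at h7
  exact h7

end Pool.Agent.Lib.MP_862e0f_al
end

section

/-!
# Semidirect products `V ⋊ H` are regular Fréchet-Lie groups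

The evolution of `ζ = (η, ξ)` is `(∫₀ᵗ γ(s) η(s) ds, γ(t))`, where `γ = ev · ξ` is the evolution of
`ξ` in `H`.
-/

set_option autoImplicit false
set_option linter.unusedSectionVars false

namespace Pool.Agent.Lib.MP_862e0f_al

open Filter Topology Set unitInterval

universe u v w x y z

variable {E : Type v} [AddCommGroup E] [Module ℝ E] [TopologicalSpace E]
  [IsTopologicalAddGroup E] [ContinuousSMul ℝ E] [LocallyConvexSpace ℝ E] [T2Space E]
  {V : Type w} [AddCommGroup V] [Module ℝ V] [TopologicalSpace V] [IsTopologicalAddGroup V]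
  [ContinuousSMul ℝ V] [LocallyConvexSpace ℝ V] [T2Space V]
  {H : Type u} [Group H] [TopologicalSpace H] [ChartedSpace E H] {act : H →* (V →L[ℝ] V)}

/-- the evolution in the semidirect product -/
noncomputable def evolSD (act : H →* (V →L[ℝ] V)) (hev : HasEvol E H) (ζ : SmoothCurve (V × E))
    (t : I) : SD act :=
  SD.mk (evolV act hev t ζ) (hev.ev t (sndCurve ζ))

theorem evolSD_smooth (hH : IsLieGroup E H) (hact : IsSmoothAct E act) (hV : HasAnti V)
    (hev : HasEvol E H) :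
    SmoothMap (SmoothCurve (V × E)) (V × E) fun ζ : SmoothCurve (V × E) => evolSD act hev ζ 1 := by
  have hs := evolV_smooth hH hact hV hev
  have h1 : ∀ k, ParCk I k (SmoothCurve (V × E)) C(I, E) (fun _ ζ => sndCurve ζ) univ := fun k =>
    ParCk.clm (T := I) k (L := fun _ => (sndCurve : SmoothCurve (V × E) →L[ℝ] C(I, E)))
      (sndCurve.continuous.comp continuous_snd) univ
  have h2 : MSmooth I (SmoothCurve (V × E)) E (fun s ζ => hev.ev s (sndCurve ζ)) univ := fun k =>
    MCk.comp isOpen_univ (hev.smooth k) isOpen_univ (h1 k) fun _ _ => mem_univ _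
  constructor
  · have hc1 : Continuous fun ζ : SmoothCurve (V × E) => evolV act hev 1 ζ :=
      (continuousOn_univ.1 (hs 0).continuousOn).comp (Continuous.prodMk_right 1)
    have hc2 : Continuous fun ζ : SmoothCurve (V × E) => hev.ev 1 (sndCurve ζ) :=
      (continuousOn_univ.1 (h2 0).1).comp (Continuous.prodMk_right 1)
    exact hc1.prodMk hc2
  · intro φ hφ ψ hψ k
    rw [chartedSpaceSelf_atlas] at hφ
    subst hφ
    obtain ⟨χ, hχ, rfl⟩ := SD.mem_atlas.1 hψ
    have h3 : ParCk I k (SmoothCurve (V × E)) (V × E)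
        (fun s ζ => (evolV act hev s ζ, χ (hev.ev s (sndCurve ζ))))
        {p : I × SmoothCurve (V × E) | p ∈ univ ∧ hev.ev p.1 (sndCurve p.2) ∈ χ.source} :=
      ((hs k).mono (subset_univ _)).prodMk ((h2 k).2 χ hχ)
    have h4 : ParCk I k (SmoothCurve (V × E)) (V × E)
        (fun s ζ => (evolV act hev s ζ, χ (hev.ev s (sndCurve ζ))))
        {p : I × SmoothCurve (V × E) | p.2 ∈ {x : SmoothCurve (V × E) |
          x ∈ (OpenPartialHomeomorph.refl (SmoothCurve (V × E))).target ∧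
            evolSD act hev ((OpenPartialHomeomorph.refl (SmoothCurve (V × E))).symm x) 1 ∈
              (SD.chart χ : OpenPartialHomeomorph (SD act) (V × E)).source} ∧ p.1 = 1} := by
      refine h3.mono ?_
      rintro ⟨s, ζ⟩ ⟨hp, rfl⟩
      exact ⟨mem_univ _, (SD.mem_chart_source χ _).1 hp.2⟩
    have h5 := h4.bastiani 1
    simp only [and_true, mem_ofPred_eq] at h5
    exact h5

theorem SD.isRegular [T2Space H] (hH : IsLieGroup E H) (hact : IsSmoothAct E act)
    (hV : HasAnti V) (hev : HasEvol E H) : (sdLie hH hact).IsRegularAux := by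
  refine ⟨evolSD act hev, fun ζ => ?_, evolSD_smooth hH hact hV hev⟩
  obtain ⟨h0, hd⟩ := evolV_spec hH hact hV hev ζ
  have hc : Continuous (evolSD act hev ζ) := by
    have hc1 : Continuous fun t => evolV act hev t ζ :=
      continuous_iff_continuousAt.2 fun t => (hd t).continuousAt
    exact hc1.prodMk (hev.cont (sndCurve ζ))
  have hl : ∀ t : I, HasLeftLogDeriv (V × E) (evolSD act hev ζ) t (ζ.1 0 t) := fun t =>
    SD.hasLeftLogDeriv hH hact (hd t) (hev.vel (sndCurve ζ) t)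
  refine ⟨isSmoothCurve_of_leftLogDeriv (SD.isLieGroup hH hact) hc ζ hl, ?_, hl⟩
  exact Prod.ext h0 (hev.zero (sndCurve ζ))

/-- products of Fréchet spaces are Fréchet -/
theorem SD.isFrechet [T2Space H] (hH : IsLieGroup E H) (hact : IsSmoothAct E act)
    (hV : TopologicalSpace.MetrizableSpace V) (hV' : ∀ a : ℕ → V,
      (∀ W ∈ 𝓝 (0 : V), ∃ N : ℕ, ∀ m ≥ N, ∀ n ≥ N, a m - a n ∈ W) → ∃ b, Tendsto a atTop (𝓝 b))
    (hE : TopologicalSpace.MetrizableSpace E) (hE' : ∀ a : ℕ → E,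
      (∀ W ∈ 𝓝 (0 : E), ∃ N : ℕ, ∀ m ≥ N, ∀ n ≥ N, a m - a n ∈ W) → ∃ b, Tendsto a atTop (𝓝 b)) :
    (sdLie hH hact).IsFrechet := by
  refine ⟨(inferInstance : TopologicalSpace.MetrizableSpace (V × E)), ?_⟩
  intro (a : ℕ → V × E) ha
  obtain ⟨b, hb⟩ := hV' (fun n => (a n).1) fun W hW => by
    obtain ⟨N, hN⟩ := ha (Prod.fst ⁻¹' W) (continuous_fst.continuousAt.preimage_mem_nhds hW)
    exact ⟨N, hN⟩
  obtain ⟨c, hc⟩ := hE' (fun n => (a n).2) fun W hW => by
    obtain ⟨N, hN⟩ := ha (Prod.snd ⁻¹' W) (continuous_snd.continuousAt.preimage_mem_nhds hW)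
    exact ⟨N, hN⟩
  exact ⟨(b, c), hb.prodMk_nhds hc⟩

end Pool.Agent.Lib.MP_862e0f_al
end
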