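import Pool.Agent.Lib.MP_862e0f_P.Mg.G001
import Pool.Agent.Lib.MP_862e0f_P.ParComp

section

/-!
# Antiderivatives with parameters

Everything follows from `integ_mem` (closed convex neighbourhoods `K` of `0`), `integ_sub`,
`integ_smul` and the compactness of `[0, 1]` (if `P s x` holds for `(s, x)` near `(s₀, x₀)` for
each `s₀`, then for `x` near `x₀` it holds for all `s`; the same with a filter `𝓝[≠] 0` in the
second variable). For the derivative in the direction `v` at `x`:
`h⁻¹ • (F s (x + h • v) - F s x) - dF s (x, v) ∈ K` for all `s` and all small `h ≠ 0`, by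
`parC1_quot`.
-/

set_option autoImplicit false
set_option linter.unusedSectionVars false

namespace Pool.Agent.Lib.MP_862e0f_al

open Filter Topology Set unitInterval

universe u v w x y z

/-- uniformity on the compact interval -/
theorem antiPar_forall_I {α : Type u} {l : Filter α} {P : α → I → Prop}
    (h : ∀ s : I, ∀ᶠ p : α × I in l ×ˢ 𝓝 s, P p.1 p.2) : ∀ᶠ a in l, ∀ s, P a s := by
  have h1 := (isCompact_univ (X := I)).mem_prod_nhdsSet_of_forall (l := l)
    (s := {p : α × I | P p.1 p.2}) (fun y _ => h y)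
  rw [nhdsSet_univ, mem_prod_top] at h1
  exact h1

variable {Y : Type v} {X : Type w}
  [AddCommGroup Y] [Module ℝ Y] [TopologicalSpace Y] [IsTopologicalAddGroup Y] [ContinuousSMul ℝ Y]
  [LocallyConvexSpace ℝ Y] [T2Space Y]

/-- closed convex neighbourhoods of zero -/
theorem antiPar_closed_convex {N : Set Y} (hN : N ∈ 𝓝 (0 : Y)) :
    ∃ K : Set Y, K ∈ 𝓝 (0 : Y) ∧ Convex ℝ K ∧ IsClosed K ∧ K ⊆ N := by
  obtain ⟨N', hN', hcl, hsub⟩ := exists_mem_nhds_isClosed_subset hN
  obtain ⟨C, hC1, hC2, hCN⟩ := (locallyConvexSpace_iff_exists_convex_subset ℝ Y).mp inferInstance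
    (0 : Y) N' hN'
  exact ⟨closure C, mem_of_superset hC1 subset_closure, hC2.closure, isClosed_closure,
    (closure_minimal hCN hcl).trans hsub⟩

/-- a family of curves tending to zero uniformly has integrals tending to zero -/
theorem antiPar_tendsto_zero (hY : HasAnti Y) {α : Type u} {l : Filter α} {c : α → I → Y}
    {τ : α → I} (hc : ∀ᶠ a in l, Continuous (c a))
    (h : ∀ s : I, Tendsto (fun p : α × I => c p.1 p.2) (l ×ˢ 𝓝 s) (𝓝 0)) :
    Tendsto (fun a => integ (c a) (τ a)) l (𝓝 0) := by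
  intro N hN
  obtain ⟨K, hK1, hK2, hK3, hKN⟩ := antiPar_closed_convex hN
  have h1 : ∀ᶠ a in l, ∀ s, c a s ∈ K :=
    antiPar_forall_I fun s => (h s).eventually hK1
  rw [mem_map]
  filter_upwards [hc, h1] with a ha1 ha2
  exact hKN (integ_mem hY ha1 hK2 hK3 (mem_of_mem_nhds hK1) ha2 _)

theorem continuousAt_integ [TopologicalSpace X] (hY : HasAnti Y) {F : I → X → Y} {x₀ : X}
    (h1 : ∀ᶠ x in 𝓝 x₀, Continuous fun s => F s x)
    (h2 : ∀ s, ContinuousAt (Function.uncurry F) (s, x₀)) (t : I) :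
    ContinuousAt (fun p : I × X => integ (fun s => F s p.2) p.1) (t, x₀) := by
  have hc0 : Continuous fun s => F s x₀ := h1.self_of_nhds
  have h1' : ∀ᶠ p : I × X in 𝓝 (t, x₀), Continuous fun s => F s p.2 :=
    (continuous_snd.tendsto (t, x₀)).eventually h1
  have hg : Tendsto (fun p : I × X => integ (fun s => F s p.2 - F s x₀) p.1) (𝓝 (t, x₀))
      (𝓝 0) := by
    refine antiPar_tendsto_zero hY (c := fun p : I × X => fun s => F s p.2 - F s x₀)
      (τ := fun p => p.1) ?_ ?_
    · filter_upwards [h1'] with p hp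
      exact hp.sub hc0
    · intro s
      have t1 : Tendsto (fun q : (I × X) × I => (q.2, q.1.2)) (𝓝 (t, x₀) ×ˢ 𝓝 s)
          (𝓝 (s, x₀)) := by
        refine Tendsto.prodMk_nhds tendsto_snd ?_
        exact (continuous_snd.tendsto (t, x₀)).comp tendsto_fst
      have t2 : Tendsto (fun q : (I × X) × I => F q.2 q.1.2) (𝓝 (t, x₀) ×ˢ 𝓝 s)
          (𝓝 (F s x₀)) := (h2 s).tendsto.comp t1
      have t3 : Tendsto (fun q : (I × X) × I => F q.2 x₀) (𝓝 (t, x₀) ×ˢ 𝓝 s)
          (𝓝 (F s x₀)) := (hc0.tendsto s).comp tendsto_snd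
      have t4 := t2.sub t3
      rwa [sub_self] at t4
  have hk : Tendsto (fun p : I × X => integ (fun s => F s x₀) p.1) (𝓝 (t, x₀))
      (𝓝 (integ (fun s => F s x₀) t)) := by
    have h3 : ContinuousAt (integ fun s => F s x₀) t :=
      ((integ_spec hY hc0).2 t).continuousAt
    exact h3.tendsto.comp (continuous_fst.tendsto (t, x₀))
  have h4 := hg.add hk
  rw [zero_add] at h4
  refine h4.congr' ?_
  filter_upwards [h1'] with p hp
  rw [integ_sub hY hp hc0, sub_add_cancel]

/-- the induction -/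
theorem ParCk.integ_aux (hY : HasAnti Y) (k : ℕ) : ∀ (X : Type w) [AddCommGroup X] [Module ℝ X]
    [TopologicalSpace X] [IsTopologicalAddGroup X] [ContinuousSMul ℝ X] (F : I → X → Y),
    ParCk I k X Y F univ →
    ParCk I k X Y (fun t x => Pool.Agent.Lib.MP_862e0f_al.integ (fun s => F s x) t) univ := by
  have hcont : ∀ (X : Type w) [AddCommGroup X] [Module ℝ X]
      [TopologicalSpace X] [IsTopologicalAddGroup X] [ContinuousSMul ℝ X] (F : I → X → Y),
      ContinuousOn (Function.uncurry F) univ →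
      ContinuousOn (Function.uncurry
        fun t x => Pool.Agent.Lib.MP_862e0f_al.integ (fun s => F s x) t) univ := by
    intro X _ _ _ _ _ F hF
    have hF' : Continuous (Function.uncurry F) := continuousOn_univ.mp hF
    refine Continuous.continuousOn (continuous_iff_continuousAt.mpr ?_)
    rintro ⟨t, x₀⟩
    refine continuousAt_integ hY (F := F) (Eventually.of_forall fun x => ?_)
      (fun s => hF'.continuousAt) t
    exact hF'.comp (by fun_prop : Continuous fun s : I => (s, x))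
  induction k with
  | zero =>
    intro X _ _ _ _ _ F hF
    exact hcont X F hF
  | succ k ih =>
    intro X _ _ _ _ _ F hF
    obtain ⟨hc, dF, hd, hdF⟩ := hF
    refine ⟨hcont X F hc, fun t p => Pool.Agent.Lib.MP_862e0f_al.integ (fun s => dF s p) t,
      ?_, ?_⟩
    · rintro ⟨t, x⟩ - v
      have hdc : ContinuousOn (Function.uncurry dF)
          {q : I × (X × X) | (q.1, q.2.1) ∈ (univ : Set (I × X))} := hdF.continuousOn
      have hc' : Continuous (Function.uncurry F) := continuousOn_univ.mp hc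
      have hdc' : Continuous (Function.uncurry dF) := by
        rw [← continuousOn_univ]
        exact hdc.mono fun q _ => mem_univ _
      have c1 : ∀ x : X, Continuous fun s => F s x := fun x =>
        hc'.comp (by fun_prop : Continuous fun s : I => (s, x))
      have c2 : ∀ p : X × X, Continuous fun s => dF s p := fun p =>
        hdc'.comp (by fun_prop : Continuous fun s : I => (s, p))
      change Tendsto (fun h : ℝ => h⁻¹ • (Pool.Agent.Lib.MP_862e0f_al.integ
        (fun s => F s (x + h • v)) t - Pool.Agent.Lib.MP_862e0f_al.integ (fun s => F s x) t))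
        (𝓝[≠] 0) (𝓝 (Pool.Agent.Lib.MP_862e0f_al.integ (fun s => dF s (x, v)) t))
      have hg : Tendsto (fun h : ℝ => Pool.Agent.Lib.MP_862e0f_al.integ
          (fun s => h⁻¹ • (F s (x + h • v) - F s x) - dF s (x, v)) t) (𝓝[≠] 0) (𝓝 0) := by
        refine antiPar_tendsto_zero hY (c := fun h : ℝ => fun s =>
          h⁻¹ • (F s (x + h • v) - F s x) - dF s (x, v)) (τ := fun _ => t)
          (Eventually.of_forall fun h => ?_) ?_
        · exact (((c1 _).sub (c1 _)).const_smul _).sub (c2 _)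
        · intro s
          have q1 := parC1_quot (T := I) (f := F) (df := dF) isOpen_univ hd hdc
            (t₀ := s) (x₀ := x) (v₀ := v) (mem_univ _)
          have q2 : Tendsto (fun p : ℝ × I => ((p.2, (p.1, (x, v))) : I × ℝ × X × X))
              (𝓝[≠] 0 ×ˢ 𝓝 s) (𝓝 s ×ˢ (𝓝[≠] (0 : ℝ) ×ˢ (𝓝 x ×ˢ 𝓝 v))) :=
            tendsto_snd.prodMk (tendsto_fst.prodMk
              (tendsto_const_nhds.prodMk tendsto_const_nhds))
          have q3 := q1.comp q2
          have q4 : Tendsto (fun p : ℝ × I => dF p.2 (x, v)) (𝓝[≠] 0 ×ˢ 𝓝 s)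
              (𝓝 (dF s (x, v))) := ((c2 (x, v)).tendsto s).comp tendsto_snd
          have q5 := q3.sub q4
          rw [sub_self] at q5
          exact q5
      have h5 := hg.add (tendsto_const_nhds
        (x := Pool.Agent.Lib.MP_862e0f_al.integ (fun s => dF s (x, v)) t))
      rw [zero_add] at h5
      refine h5.congr fun h => ?_
      have c3 : Continuous fun s => F s (x + h • v) - F s x := (c1 _).sub (c1 _)
      have e1 := integ_sub hY (c := fun s => h⁻¹ • (F s (x + h • v) - F s x))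
        (d := fun s => dF s (x, v)) (c3.const_smul _) (c2 (x, v)) t
      have e2 := integ_smul hY (c := fun s => F s (x + h • v) - F s x) c3 h⁻¹ t
      have e3 := integ_sub hY (c := fun s => F s (x + h • v)) (d := fun s => F s x)
        (c1 _) (c1 _) t
      rw [e1, sub_add_cancel, e2, e3]
    · exact ih (X × X) dF hdF

variable [AddCommGroup X] [Module ℝ X] [TopologicalSpace X] [IsTopologicalAddGroup X]
  [ContinuousSMul ℝ X]

theorem ParCk.integ (hY : HasAnti Y) {k : ℕ} {F : I → X → Y} (hF : ParCk I k X Y F univ) :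
    ParCk I k X Y (fun t x => Pool.Agent.Lib.MP_862e0f_al.integ (fun s => F s x) t) univ :=
  ParCk.integ_aux hY k X F hF

end Pool.Agent.Lib.MP_862e0f_al
end

section

/-!
# Bastiani smooth maps
-/

set_option autoImplicit false
set_option linter.unusedSectionVars false

namespace Pool.Agent.Lib.MP_862e0f_al

open Filter Topology Set unitInterval

universe u v w x y z

variable {E : Type u} {F : Type v} {G : Type w} {E' : Type x}
  [AddCommGroup E] [Module ℝ E] [TopologicalSpace E] [IsTopologicalAddGroup E] [ContinuousSMul ℝ E]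
  [AddCommGroup F] [Module ℝ F] [TopologicalSpace F] [IsTopologicalAddGroup F] [ContinuousSMul ℝ F]
  [AddCommGroup G] [Module ℝ G] [TopologicalSpace G] [IsTopologicalAddGroup G] [ContinuousSMul ℝ G]
  [AddCommGroup E'] [Module ℝ E'] [TopologicalSpace E'] [IsTopologicalAddGroup E']
  [ContinuousSMul ℝ E']

/-- from `BastianiSmooth` to `ParCk` with the parameter space `Unit` -/
private theorem bd_par {f : E → F} {U : Set E} (h : BastianiSmooth f U) (k : ℕ) :
    ParCk Unit k E F (fun _ => f) {p : Unit × E | p.2 ∈ U} :=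
  ParCk.of_bastiani (h k)

private theorem bd_open {U : Set E} (hU : IsOpen U) : IsOpen {p : Unit × E | p.2 ∈ U} :=
  hU.preimage continuous_snd

private theorem bd_congr {k : ℕ} {f g : E → F} {U : Set E} (h : BastianiCk k E F f U)
    (hU : IsOpen U) (hfg : ∀ x ∈ U, f x = g x) : BastianiCk k E F g U := by
  have h1 : ParCk Unit k E F (fun _ => f) {p : Unit × E | p.2 ∈ U} := ParCk.of_bastiani h
  have h2 : ParCk Unit k E F (fun _ => g) {p : Unit × E | p.2 ∈ U} :=
    ParCk.congr h1 (bd_open hU) (fun p hp => hfg p.2 hp)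
  exact ParCk.bastiani h2 ()

theorem HasDirDeriv.bd_eq [T2Space F] {f : E → F} {x v : E} {w : F} (h : HasDirDeriv f x v w) :
    bd f (x, v) = w := by
  have hex : ∃ w : F, HasDirDeriv f (x, v).1 (x, v).2 w := ⟨w, h⟩
  unfold Pool.Agent.Lib.MP_862e0f_al.bd
  rw [dif_pos hex]
  exact tendsto_nhds_unique hex.choose_spec h

theorem BastianiSmooth.hasDirDeriv [T2Space F] {f : E → F} {U : Set E} (h : BastianiSmooth f U)
    {x : E} (hx : x ∈ U) (v : E) : HasDirDeriv f x v (bd f (x, v)) := by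
  obtain ⟨-, df, h1, -⟩ := h 1
  have h2 := h1 x hx v
  rw [h2.bd_eq]
  exact h2

/-- the derivative of a smooth map is smooth -/
theorem BastianiSmooth.bd [T2Space F] {f : E → F} {U : Set E} (h : BastianiSmooth f U)
    (hU : IsOpen U) : BastianiSmooth (bd f) (U ×ˢ univ) := by
  intro k
  obtain ⟨-, df, h1, h2⟩ := h (k + 1)
  refine bd_congr h2 (hU.prod isOpen_univ) ?_
  rintro ⟨x, v⟩ ⟨hx, -⟩
  exact ((h1 x hx v).bd_eq).symm

theorem BastianiSmooth.c1_bd [T2Space F] {f : E → F} {U : Set E} (h : BastianiSmooth f U)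
    (hU : IsOpen U) : C1 f (Pool.Agent.Lib.MP_862e0f_al.bd f) U := by
  exact ⟨fun x hx v => h.hasDirDeriv hx v, (BastianiSmooth.bd h hU) 0⟩

/-- to prove smoothness it suffices to know that the derivative is smooth -/
theorem BastianiSmooth.continuousOn {f : E → F} {U : Set E} (h : BastianiSmooth f U) :
    ContinuousOn f U := by
  exact h 0

theorem BastianiSmooth.mono {f : E → F} {U V : Set E} (h : BastianiSmooth f U) (hV : V ⊆ U) :
    BastianiSmooth f V := by
  intro k
  have h1 : ParCk Unit k E F (fun _ => f) {p : Unit × E | p.2 ∈ V} :=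
    ParCk.mono (bd_par h k) (fun p hp => hV hp)
  exact ParCk.bastiani h1 ()

theorem BastianiSmooth.congr {f g : E → F} {U : Set E} (h : BastianiSmooth f U) (hU : IsOpen U)
    (hfg : ∀ x ∈ U, f x = g x) : BastianiSmooth g U := by
  intro k
  exact bd_congr (h k) hU hfg

theorem BastianiSmooth.comp [LocallyConvexSpace ℝ G] {g : F → G} {W : Set F}
    (hg : BastianiSmooth g W) (hW : IsOpen W) {f : E → F} {U : Set E} (hf : BastianiSmooth f U)
    (hm : ∀ x ∈ U, f x ∈ W) : BastianiSmooth (fun x => g (f x)) U := by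
  intro k
  have h1 : ParCk Unit k E G (fun _ x => g (f x)) {p : Unit × E | p.2 ∈ U} :=
    ParCk.comp (bd_par hg k) (bd_open hW) (bd_par hf k) (fun p hp => hm p.2 hp)
  exact ParCk.bastiani h1 ()

theorem BastianiSmooth.prodMk {f : E → F} {g : E → G} {U : Set E} (hf : BastianiSmooth f U)
    (hg : BastianiSmooth g U) : BastianiSmooth (fun x => (f x, g x)) U := by
  intro k
  have h1 : ParCk Unit k E (F × G) (fun _ x => (f x, g x)) {p : Unit × E | p.2 ∈ U} :=
    ParCk.prodMk (bd_par hf k) (bd_par hg k)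
  exact ParCk.bastiani h1 ()

theorem BastianiSmooth.of_locally [T2Space F] {f : E → F} {U : Set E}
    (h : ∀ x ∈ U, ∃ V : Set E, IsOpen V ∧ x ∈ V ∧ BastianiSmooth f V) : BastianiSmooth f U := by
  intro k
  have h1 : ParCk Unit k E F (fun _ => f) {p : Unit × E | p.2 ∈ U} := by
    apply ParCk.of_locally
    intro p hp
    obtain ⟨V, hV, hpV, hfV⟩ := h p.2 hp
    exact ⟨{p : Unit × E | p.2 ∈ V}, bd_open hV, hpV, bd_par hfV k⟩
  exact ParCk.bastiani h1 ()

theorem BastianiSmooth.clm (L : E →L[ℝ] F) (U : Set E) : BastianiSmooth L U := by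
  intro k
  have h1 : ParCk Unit k E F (fun _ x => L x) {p : Unit × E | p.2 ∈ U} :=
    ParCk.clm k (L := fun _ => L) (L.continuous.comp continuous_snd) _
  exact ParCk.bastiani h1 ()

theorem BastianiSmooth.const (c : F) (U : Set E) : BastianiSmooth (fun _ : E => c) U := by
  intro k
  have h1 : ParCk Unit k E F (fun _ _ => c) {p : Unit × E | p.2 ∈ U} :=
    ParCk.const k (c := fun _ => c) continuous_const _
  exact ParCk.bastiani h1 ()

theorem BastianiSmooth.add {f g : E → F} {U : Set E} (hf : BastianiSmooth f U)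
    (hg : BastianiSmooth g U) : BastianiSmooth (fun x => f x + g x) U := by
  intro k
  have h1 : ParCk Unit k E F (fun _ x => f x + g x) {p : Unit × E | p.2 ∈ U} :=
    ParCk.clm_comp (ContinuousLinearMap.fst ℝ F F + ContinuousLinearMap.snd ℝ F F)
      (ParCk.prodMk (bd_par hf k) (bd_par hg k))
  exact ParCk.bastiani h1 ()

theorem IsContBilin.smooth {B : E → F → G} (hB : IsContBilin B) :
    BastianiSmooth (fun p : E × F => B p.1 p.2) univ := by
  intro k
  have h1 : ParCk Unit k (E × F) G (fun _ p => B p.1 p.2) univ := hB.parCk k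
  exact ParCk.bastiani h1 ()

end Pool.Agent.Lib.MP_862e0f_al
end

section

/-!
# Smooth curves on `[0, 1]`
-/

set_option autoImplicit false
set_option linter.unusedSectionVars false

namespace Pool.Agent.Lib.MP_862e0f_al

open Filter Topology Set unitInterval

universe u v w x y z

variable {E : Type u} {F : Type v} {G : Type w}
  [AddCommGroup E] [Module ℝ E] [TopologicalSpace E] [IsTopologicalAddGroup E] [ContinuousSMul ℝ E]
  [AddCommGroup F] [Module ℝ F] [TopologicalSpace F] [IsTopologicalAddGroup F] [ContinuousSMul ℝ F]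
  [AddCommGroup G] [Module ℝ G] [TopologicalSpace G] [IsTopologicalAddGroup G] [ContinuousSMul ℝ G]

theorem CurveCk.mono {k : ℕ} {c : I → E} {S S' : Set I} (h : CurveCk k c S) (hS : S' ⊆ S) :
    CurveCk k c S' := by
  induction k generalizing c with
  | zero => exact ContinuousOn.mono h hS
  | succ k ih =>
    obtain ⟨h1, c', h2, h3⟩ := h
    exact ⟨h1.mono hS, c', fun t ht => h2 t (hS ht), ih h3⟩

theorem CurveCk.of_succ {k : ℕ} {c : I → E} {S : Set I} (h : CurveCk (k + 1) c S) :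
    CurveCk k c S := by
  induction k generalizing c with
  | zero => exact h.1
  | succ k ih =>
    obtain ⟨h1, c', h2, h3⟩ := h
    exact ⟨h1, c', h2, ih h3⟩

theorem CurveCk.prodMk {k : ℕ} {c : I → E} {d : I → F} {S : Set I} (h : CurveCk k c S)
    (h' : CurveCk k d S) : CurveCk k (fun t => (c t, d t)) S := by
  induction k generalizing c d with
  | zero => exact ContinuousOn.prodMk h h'
  | succ k ih =>
    obtain ⟨h1, c', h2, h3⟩ := h
    obtain ⟨h1', d', h2', h3'⟩ := h'
    exact ⟨ContinuousOn.prodMk h1 h1', fun t => (c' t, d' t),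
      fun t ht => (h2 t ht).prodMk (h2' t ht), ih h3 h3'⟩

theorem CurveCk.clm {k : ℕ} {c : I → E} {S : Set I} (L : E →L[ℝ] F) (h : CurveCk k c S) :
    CurveCk k (fun t => L (c t)) S := by
  induction k generalizing c with
  | zero => exact L.continuous.comp_continuousOn h
  | succ k ih =>
    obtain ⟨h1, c', h2, h3⟩ := h
    exact ⟨L.continuous.comp_continuousOn h1, fun t => L (c' t),
      fun t ht => (h2 t ht).clm L, ih h3⟩

theorem SmoothCurve.curveCk (ξ : SmoothCurve E) (k : ℕ) (S : Set I) : CurveCk k (ξ.1 0) S := by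
  have key : ∀ k j : ℕ, CurveCk k (ξ.1 j) S := by
    intro k
    induction k with
    | zero => intro j; exact (ξ.1 j).continuous.continuousOn
    | succ k ih =>
      intro j
      exact ⟨(ξ.1 j).continuous.continuousOn, ξ.1 (j + 1), fun t _ => ξ.2 j t, ih (j + 1)⟩
  exact key k 0

/-- derivative of a composition of a `C^1` map and a curve -/
theorem HasIDeriv.comp_C1 [LocallyConvexSpace ℝ F] {f : E → F} {df : E × E → F} {U : Set E}
    (hf : C1 f df U) (hU : IsOpen U) {c : I → E} {t : I} {w : E} (hc : HasIDeriv c t w)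
    (ht : c t ∈ U) : HasIDeriv (fun s => f (c s)) t (df (c t, w)) := by
  have h0 : Tendsto (fun s : I => (s : ℝ) - t) (𝓝[≠] t) (𝓝[≠] (0 : ℝ)) := by
    rw [tendsto_nhdsWithin_iff]
    constructor
    · have hc : Continuous fun s : I => (s : ℝ) - t := by fun_prop
      have h := hc.tendsto t
      simp only [sub_self] at h
      exact h.mono_left nhdsWithin_le_nhds
    · filter_upwards [self_mem_nhdsWithin] with s hs
      have hs' : s ≠ t := hs
      exact sub_ne_zero.2 fun h => hs' (Subtype.ext h)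
  have h1 := C1.quotF h0 hf hU ht (a := fun _ => c t) tendsto_const_nhds hc
  unfold HasIDeriv
  refine h1.congr' ?_
  filter_upwards [self_mem_nhdsWithin] with s hs
  have hs' : s ≠ t := hs
  have hne : (s : ℝ) - t ≠ 0 := sub_ne_zero.2 fun h => hs' (Subtype.ext h)
  rw [smul_inv_smul₀ hne, add_sub_cancel]

theorem curveCk_comp_aux (k : ℕ) :
    ∀ (E : Type u) (F : Type v)
      [AddCommGroup E] [Module ℝ E] [TopologicalSpace E] [IsTopologicalAddGroup E]
      [ContinuousSMul ℝ E]
      [AddCommGroup F] [Module ℝ F] [TopologicalSpace F] [IsTopologicalAddGroup F]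
      [ContinuousSMul ℝ F] [LocallyConvexSpace ℝ F]
      (f : E → F) (U : Set E) (c : I → E) (S : Set I),
      BastianiCk k E F f U → IsOpen U → CurveCk k c S → (∀ t ∈ S, c t ∈ U) →
      CurveCk k (fun t => f (c t)) S := by
  induction k with
  | zero =>
    intro E F _ _ _ _ _ _ _ _ _ _ _ f U c S hf hU hc hm
    exact ContinuousOn.comp hf hc hm
  | succ k ih =>
    intro E F _ _ _ _ _ _ _ _ _ _ _ f U c S hf hU hc hm
    have hc0 := hc.of_succ
    obtain ⟨hfc, df, hfd, hdf⟩ := hf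
    obtain ⟨hcc, c', hcd, hc'⟩ := hc
    have hdc : ContinuousOn df (U ×ˢ univ) := by
      cases k with
      | zero => exact hdf
      | succ k => exact hdf.1
    have hC1 : C1 f df U := ⟨hfd, hdc⟩
    refine ⟨ContinuousOn.comp hfc hcc hm, fun t => df (c t, c' t), fun t ht =>
      HasIDeriv.comp_C1 hC1 hU (hcd t ht) (hm t ht), ?_⟩
    exact ih (E × E) F df (U ×ˢ univ) (fun t => (c t, c' t)) S hdf (hU.prod isOpen_univ)
      (hc0.prodMk hc') fun t ht => ⟨hm t ht, mem_univ _⟩

/-- chain rule -/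
theorem CurveCk.comp [LocallyConvexSpace ℝ F] {k : ℕ} {f : E → F} {U : Set E}
    (hf : BastianiCk k E F f U) (hU : IsOpen U) {c : I → E} {S : Set I} (hc : CurveCk k c S)
    (hm : ∀ t ∈ S, c t ∈ U) : CurveCk k (fun t => f (c t)) S := by
  exact curveCk_comp_aux k E F f U c S hf hU hc hm

end Pool.Agent.Lib.MP_862e0f_al
end

section

/-!
# Group-valued smooth maps with parameters

`MCk T X E k f U`: the map `f : T × X → H` is continuous and `C^k` in `x ∈ X` in all charts.
Only the following facts on `H` are used: `hH.chart_change`, `hH.smooth_mul`, `hH.smooth_inv`.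
-/

set_option autoImplicit false
set_option linter.unusedSectionVars false

namespace Pool.Agent.Lib.MP_862e0f_al

open Filter Topology Set unitInterval

universe u v w x y z

section

variable {E : Type v} [AddCommGroup E] [Module ℝ E] [TopologicalSpace E]
  {H : Type u} [TopologicalSpace H] [ChartedSpace E H] [Group H]

theorem IsLieGroup.isTopologicalGroup (hH : IsLieGroup E H) : IsTopologicalGroup H where
  continuous_mul := hH.continuous_mul
  continuous_inv := hH.smooth_inv.1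

end

variable {T : Type y} [TopologicalSpace T] {X : Type w} {X' : Type x} {E : Type v} {H : Type u}
  [AddCommGroup X] [Module ℝ X] [TopologicalSpace X] [IsTopologicalAddGroup X] [ContinuousSMul ℝ X]
  [AddCommGroup X'] [Module ℝ X'] [TopologicalSpace X'] [IsTopologicalAddGroup X']
  [ContinuousSMul ℝ X']
  [AddCommGroup E] [Module ℝ E] [TopologicalSpace E] [IsTopologicalAddGroup E] [ContinuousSMul ℝ E]
  [LocallyConvexSpace ℝ E] [T2Space E]
  [TopologicalSpace H] [ChartedSpace E H] [Group H]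

/-- a function of the parameter only, continuous on the relevant set -/
theorem ParCk.const_on (k : ℕ) {c : T → E} {U : Set (T × X)}
    (hc : ContinuousOn (fun p : T × X => c p.1) U) :
    ParCk T k X E (fun t _ => c t) U := by
  cases k with
  | zero => exact hc
  | succ k =>
    refine ⟨hc, fun _ _ => 0, fun p _ v => ?_, ParCk.const k continuous_const _⟩
    unfold HasDirDeriv
    simp only [sub_self, smul_zero]
    exact tendsto_const_nhds

/-- the domain of a map in a chart is open -/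
theorem MCk.isOpen_dom {k : ℕ} {f : T → X → H} {U : Set (T × X)} (hf : MCk T X E k f U)
    (hU : IsOpen U) (ψ : OpenPartialHomeomorph H E) :
    IsOpen {p : T × X | p ∈ U ∧ f p.1 p.2 ∈ ψ.source} :=
  hf.1.isOpen_inter_preimage hU ψ.open_source

/-- it suffices to check one chart near each point (`hH.chart_change`, `ParCk.of_bastiani`,
`ParCk.comp`, `ParCk.of_locally`) -/
theorem MCk.of_chart (hH : IsLieGroup E H) {k : ℕ} {f : T → X → H} {U : Set (T × X)}
    (hU : IsOpen U) (hc : ContinuousOn (Function.uncurry f) U)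
    (h : ∀ p ∈ U, ∃ ψ ∈ atlas E H, ∃ V : Set (T × X), IsOpen V ∧ p ∈ V ∧ V ⊆ U ∧
      (∀ q ∈ V, f q.1 q.2 ∈ ψ.source) ∧ ParCk T k X E (fun t x => ψ (f t x)) V) :
    MCk T X E k f U := by
  refine ⟨hc, fun ψ hψ => ParCk.of_locally fun p hp => ?_⟩
  obtain ⟨φ, hφ, V, hV, hpV, hVU, hVs, hφV⟩ := h p hp.1
  have hdom : IsOpen {p : T × X | p ∈ U ∧ f p.1 p.2 ∈ ψ.source} :=
    hc.isOpen_inter_preimage hU ψ.open_source
  refine ⟨V ∩ {p : T × X | p ∈ U ∧ f p.1 p.2 ∈ ψ.source}, hV.inter hdom, ⟨hpV, hp⟩, ?_⟩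
  have hD : IsOpen {x : E | x ∈ φ.target ∧ φ.symm x ∈ ψ.source} :=
    φ.symm.continuousOn.isOpen_inter_preimage φ.open_target ψ.open_source
  have h1 : ParCk T k E E (fun _ x => ψ (φ.symm x))
      {p : T × E | p.2 ∈ {x : E | x ∈ φ.target ∧ φ.symm x ∈ ψ.source}} :=
    ParCk.of_bastiani (hH.chart_change φ hφ ψ hψ k)
  have h2 := ParCk.comp h1 (hD.preimage continuous_snd)
    (hφV.mono (inter_subset_left (s := V)
      (t := {p : T × X | p ∈ U ∧ f p.1 p.2 ∈ ψ.source}))) (fun q hq => by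
    refine ⟨φ.map_source (hVs q hq.1), ?_⟩
    show φ.symm (φ (f q.1 q.2)) ∈ ψ.source
    rw [φ.left_inv (hVs q hq.1)]
    exact hq.2.2)
  refine h2.congr (hV.inter hdom) (fun q hq => ?_)
  show ψ (φ.symm (φ (f q.1 q.2))) = ψ (f q.1 q.2)
  rw [φ.left_inv (hVs q hq.1)]

theorem MCk.mono {k : ℕ} {f : T → X → H} {U V : Set (T × X)} (hf : MCk T X E k f U)
    (hV : V ⊆ U) : MCk T X E k f V :=
  ⟨hf.1.mono hV, fun ψ hψ => (hf.2 ψ hψ).mono fun _ hp => ⟨hV hp.1, hp.2⟩⟩

theorem MCk.mul (hH : IsLieGroup E H) {k : ℕ} {f g : T → X → H} {U : Set (T × X)}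
    (hU : IsOpen U) (hf : MCk T X E k f U) (hg : MCk T X E k g U) :
    MCk T X E k (fun t x => f t x * g t x) U := by
  have hcm : ContinuousOn (Function.uncurry fun t x => f t x * g t x) U :=
    hH.continuous_mul.comp_continuousOn (hf.1.prodMk hg.1)
  refine MCk.of_chart hH hU hcm (fun p hp => ?_)
  set φ₁ := chartAt E (f p.1 p.2)
  set φ₂ := chartAt E (g p.1 p.2)
  set ψ := chartAt E (f p.1 p.2 * g p.1 p.2)
  have ha1 : φ₁ ∈ atlas E H := chart_mem_atlas E _
  have ha2 : φ₂ ∈ atlas E H := chart_mem_atlas E _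
  have ha3 : ψ ∈ atlas E H := chart_mem_atlas E _
  set V1 : Set (T × X) := {p | p ∈ U ∧ f p.1 p.2 ∈ φ₁.source}
  set V2 : Set (T × X) := {p | p ∈ U ∧ g p.1 p.2 ∈ φ₂.source}
  set V3 : Set (T × X) := {p | p ∈ U ∧ f p.1 p.2 * g p.1 p.2 ∈ ψ.source}
  have hV1 : IsOpen V1 := hf.isOpen_dom hU φ₁
  have hV2 : IsOpen V2 := hg.isOpen_dom hU φ₂
  have hV3 : IsOpen V3 := hcm.isOpen_inter_preimage hU ψ.open_source
  have hV : IsOpen (V1 ∩ V2 ∩ V3) := (hV1.inter hV2).inter hV3
  refine ⟨ψ, ha3, V1 ∩ V2 ∩ V3, hV, ⟨⟨⟨hp, mem_chart_source E _⟩, ⟨hp, mem_chart_source E _⟩⟩,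
    ⟨hp, mem_chart_source E _⟩⟩, fun q hq => hq.2.1, fun q hq => hq.2.2, ?_⟩
  have hD : IsOpen {z : E × E | (z.1 ∈ φ₁.target ∧ z.2 ∈ φ₂.target) ∧
      φ₁.symm z.1 * φ₂.symm z.2 ∈ ψ.source} := by
    have hc : ContinuousOn (fun z : E × E => φ₁.symm z.1 * φ₂.symm z.2)
        (φ₁.target ×ˢ φ₂.target) :=
      hH.continuous_mul.comp_continuousOn
        ((φ₁.symm.continuousOn.comp continuousOn_fst fun z hz => hz.1).prodMk
          (φ₂.symm.continuousOn.comp continuousOn_snd fun z hz => hz.2))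
    exact hc.isOpen_inter_preimage (φ₁.open_target.prod φ₂.open_target) ψ.open_source
  have h1 : ParCk T k (E × E) E (fun _ z => ψ (φ₁.symm z.1 * φ₂.symm z.2))
      {p : T × (E × E) | p.2 ∈ {z : E × E | (z.1 ∈ φ₁.target ∧ z.2 ∈ φ₂.target) ∧
        φ₁.symm z.1 * φ₂.symm z.2 ∈ ψ.source}} :=
    ParCk.of_bastiani (hH.smooth_mul φ₁ ha1 φ₂ ha2 ψ ha3 k)
  have h2 : ParCk T k X (E × E) (fun t x => (φ₁ (f t x), φ₂ (g t x))) (V1 ∩ V2 ∩ V3) :=
    ((hf.2 φ₁ ha1).mono fun q hq => hq.1.1).prodMk ((hg.2 φ₂ ha2).mono fun q hq => hq.1.2)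
  have h3 := ParCk.comp h1 (hD.preimage continuous_snd) h2 (fun q hq => by
    refine ⟨⟨φ₁.map_source hq.1.1.2, φ₂.map_source hq.1.2.2⟩, ?_⟩
    show φ₁.symm (φ₁ (f q.1 q.2)) * φ₂.symm (φ₂ (g q.1 q.2)) ∈ ψ.source
    rw [φ₁.left_inv hq.1.1.2, φ₂.left_inv hq.1.2.2]
    exact hq.2.2)
  refine h3.congr hV (fun q hq => ?_)
  show ψ (φ₁.symm (φ₁ (f q.1 q.2)) * φ₂.symm (φ₂ (g q.1 q.2))) = ψ (f q.1 q.2 * g q.1 q.2)
  rw [φ₁.left_inv hq.1.1.2, φ₂.left_inv hq.1.2.2]

theorem MCk.inv (hH : IsLieGroup E H) {k : ℕ} {f : T → X → H} {U : Set (T × X)}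
    (hU : IsOpen U) (hf : MCk T X E k f U) : MCk T X E k (fun t x => (f t x)⁻¹) U := by
  have hci : ContinuousOn (Function.uncurry fun t x => (f t x)⁻¹) U :=
    hH.smooth_inv.1.comp_continuousOn hf.1
  refine MCk.of_chart hH hU hci (fun p hp => ?_)
  set φ := chartAt E (f p.1 p.2)
  set ψ := chartAt E (f p.1 p.2)⁻¹
  have ha1 : φ ∈ atlas E H := chart_mem_atlas E _
  have ha3 : ψ ∈ atlas E H := chart_mem_atlas E _
  set V1 : Set (T × X) := {p | p ∈ U ∧ f p.1 p.2 ∈ φ.source}
  set V3 : Set (T × X) := {p | p ∈ U ∧ (f p.1 p.2)⁻¹ ∈ ψ.source}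
  have hV1 : IsOpen V1 := hf.isOpen_dom hU φ
  have hV3 : IsOpen V3 := hci.isOpen_inter_preimage hU ψ.open_source
  have hV : IsOpen (V1 ∩ V3) := hV1.inter hV3
  refine ⟨ψ, ha3, V1 ∩ V3, hV, ⟨⟨hp, mem_chart_source E _⟩, ⟨hp, mem_chart_source E _⟩⟩,
    fun q hq => hq.2.1, fun q hq => hq.2.2, ?_⟩
  have hD : IsOpen {z : E | z ∈ φ.target ∧ (φ.symm z)⁻¹ ∈ ψ.source} := by
    have hc : ContinuousOn (fun z : E => (φ.symm z)⁻¹) φ.target :=
      hH.smooth_inv.1.comp_continuousOn φ.symm.continuousOn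
    exact hc.isOpen_inter_preimage φ.open_target ψ.open_source
  have h1 : ParCk T k E E (fun _ z => ψ (φ.symm z)⁻¹)
      {p : T × E | p.2 ∈ {z : E | z ∈ φ.target ∧ (φ.symm z)⁻¹ ∈ ψ.source}} :=
    ParCk.of_bastiani (hH.smooth_inv.2 φ ha1 ψ ha3 k)
  have h2 : ParCk T k X E (fun t x => φ (f t x)) (V1 ∩ V3) :=
    (hf.2 φ ha1).mono fun q hq => hq.1
  have h3 := ParCk.comp h1 (hD.preimage continuous_snd) h2 (fun q hq => by
    refine ⟨φ.map_source hq.1.2, ?_⟩
    show (φ.symm (φ (f q.1 q.2)))⁻¹ ∈ ψ.source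
    rw [φ.left_inv hq.1.2]
    exact hq.2.2)
  refine h3.congr hV (fun q hq => ?_)
  show ψ (φ.symm (φ (f q.1 q.2)))⁻¹ = ψ (f q.1 q.2)⁻¹
  rw [φ.left_inv hq.1.2]

/-- the inverse of a chart is smooth -/
theorem MCk.symm_chart (hH : IsLieGroup E H) (k : ℕ) {φ : OpenPartialHomeomorph H E}
    (hφ : φ ∈ atlas E H) : MCk T E E k (fun _ x => φ.symm x) {p | p.2 ∈ φ.target} := by
  refine ⟨φ.symm.continuousOn.comp continuousOn_snd fun p hp => hp, fun ψ hψ => ?_⟩
  exact ParCk.of_bastiani (hH.chart_change φ hφ ψ hψ k)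

theorem MCk.const (hH : IsLieGroup E H) (k : ℕ) {c : T → H} (hc : Continuous c)
    {U : Set (T × X)} (hU : IsOpen U) : MCk T X E k (fun t _ => c t) U := by
  refine ⟨(hc.comp continuous_fst).continuousOn, fun ψ hψ => ParCk.const_on k ?_⟩
  exact ψ.continuousOn.comp (hc.comp continuous_fst).continuousOn fun p hp => hp.2

/-- precomposition -/
theorem MCk.comp {k : ℕ} {f : T → X → H} {U : Set (T × X)} (hU : IsOpen U)
    (hf : MCk T X E k f U) {g : T → X' → X} {V : Set (T × X')} (hV : IsOpen V)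
    (hg : ParCk T k X' X g V) (hm : ∀ q ∈ V, (q.1, g q.1 q.2) ∈ U) :
    MCk T X' E k (fun t x => f t (g t x)) V := by
  refine ⟨hf.1.comp (continuousOn_fst.prodMk hg.continuousOn) hm, fun ψ hψ => ?_⟩
  exact ParCk.comp (hf.2 ψ hψ) (hf.isOpen_dom hU ψ) (hg.mono fun q hq => hq.1)
    fun q hq => ⟨hm q hq.1, hq.2⟩

/-- composition with a map `A : H × Y → Z` which is smooth in the charts of `H` -/
theorem MCk.apply {Y : Type x} {Z : Type z}
    [AddCommGroup Y] [Module ℝ Y] [TopologicalSpace Y] [IsTopologicalAddGroup Y]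
    [ContinuousSMul ℝ Y] [AddCommGroup Z] [Module ℝ Z] [TopologicalSpace Z]
    [IsTopologicalAddGroup Z] [ContinuousSMul ℝ Z] [LocallyConvexSpace ℝ Z] [T2Space Z]
    {A : H → Y → Z} (hA : ∀ ψ ∈ atlas E H,
      BastianiSmooth (fun z : E × Y => A (ψ.symm z.1) z.2) (ψ.target ×ˢ univ))
    {k : ℕ} {f : T → X → H} {U : Set (T × X)} (hU : IsOpen U) (hf : MCk T X E k f U)
    {η : T → X → Y} (hη : ParCk T k X Y η U) :
    ParCk T k X Z (fun t x => A (f t x) (η t x)) U := by
  refine ParCk.of_locally fun p hp => ?_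
  set ψ := chartAt E (f p.1 p.2)
  have ha : ψ ∈ atlas E H := chart_mem_atlas E _
  have hV := hf.isOpen_dom hU ψ
  refine ⟨{p : T × X | p ∈ U ∧ f p.1 p.2 ∈ ψ.source}, hV, ⟨hp, mem_chart_source E _⟩, ?_⟩
  have h1 : ParCk T k (E × Y) Z (fun _ z => A (ψ.symm z.1) z.2)
      {p : T × (E × Y) | p.2 ∈ ψ.target ×ˢ (univ : Set Y)} :=
    ParCk.of_bastiani (hA ψ ha k)
  have h2 : ParCk T k X (E × Y) (fun t x => (ψ (f t x), η t x))
      {p : T × X | p ∈ U ∧ f p.1 p.2 ∈ ψ.source} :=
    (hf.2 ψ ha).prodMk (hη.mono fun q hq => hq.1)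
  have h3 := ParCk.comp h1 ((ψ.open_target.prod isOpen_univ).preimage continuous_snd) h2
    (fun q hq => ⟨ψ.map_source hq.2, mem_univ _⟩)
  refine h3.congr hV (fun q hq => ?_)
  show A (ψ.symm (ψ (f q.1 q.2))) (η q.1 q.2) = A (f q.1 q.2) (η q.1 q.2)
  rw [ψ.left_inv hq.2]

/-- for a fixed parameter, in a chart -/
theorem MSmooth.bastiani {f : T → X → H} {U : Set (T × X)} (hf : MSmooth T X E f U) (t : T)
    {ψ : OpenPartialHomeomorph H E} (hψ : ψ ∈ atlas E H) :
    BastianiSmooth (fun x : X => ψ (f t x)) {x | (t, x) ∈ U ∧ f t x ∈ ψ.source} :=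
  fun k => ((hf k).2 ψ hψ).bastiani t

/-- for a fixed parameter a smooth map with values in `H` is smooth -/
theorem MSmooth.smoothMap {f : T → X → H} (hf : MSmooth T X E f univ) (t : T) :
    SmoothMap X E (fun x : X => f t x) := by
  constructor
  · have h1 : Continuous (Function.uncurry f) := continuousOn_univ.1 (hf 0).1
    exact h1.comp (Continuous.prodMk_right t)
  · intro φ hφ ψ hψ
    rw [chartedSpaceSelf_atlas] at hφ
    subst hφ
    refine (hf.bastiani t hψ).mono fun x hx => ?_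
    exact ⟨mem_univ _, hx.2⟩

end Pool.Agent.Lib.MP_862e0f_al
end

section

/-!
# Derivatives of translations and conjugations in a locally convex Lie group

Throughout `φ = chartAt F 1`. `leftT ψ (u, w)` is the derivative of the left translation by
`ψ.symm u` applied to the Lie algebra element `w`, in the chart `ψ`; `rightT` the same for right
translations; `omegaR ψ (u, w)` is the right logarithmic derivative of `ψ.symm` at `u` in the
direction `w`; `AdF g` is the adjoint action.
-/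

set_option autoImplicit false
set_option linter.unusedSectionVars false

namespace Pool.Agent.Lib.MP_862e0f_al

open Filter Topology Set unitInterval

universe u v w x y z

section partialDeriv

variable {X : Type w} {Z : Type x} {F : Type v}
  [AddCommGroup X] [Module ℝ X] [TopologicalSpace X] [IsTopologicalAddGroup X] [ContinuousSMul ℝ X]
  [AddCommGroup Z] [Module ℝ Z] [TopologicalSpace Z] [IsTopologicalAddGroup Z] [ContinuousSMul ℝ Z]
  [AddCommGroup F] [Module ℝ F] [TopologicalSpace F] [IsTopologicalAddGroup F] [ContinuousSMul ℝ F]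
  [LocallyConvexSpace ℝ F] [T2Space F]

/-- the partial derivative in the second variable along a smooth map `τ`:
`bd (fun z => c (x, z)) (τ x, w) = bd c ((x, τ x), (0, w))` -/
theorem bd_snd {c : X × Z → F} {D : Set (X × Z)} (hc : BastianiSmooth c D) {a : X} {b : Z}
    (h : (a, b) ∈ D) (w : Z) :
    HasDirDeriv (fun z => c (a, z)) b w (bd (fun z => c (a, z)) (b, w)) ∧
      bd (fun z => c (a, z)) (b, w) = bd c ((a, b), (0, w)) := by
  have h1 := hc.hasDirDeriv h ((0 : X), w)
  have h2 : HasDirDeriv (fun z => c (a, z)) b w (bd c ((a, b), (0, w))) := by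
    refine Tendsto.congr (fun t => ?_) h1
    rw [Prod.smul_mk, Prod.mk_add_mk, smul_zero, add_zero]
  have h3 := h2.bd_eq
  refine ⟨?_, h3⟩
  rw [h3]
  exact h2

theorem bd_snd_smooth {c : X × Z → F} {D : Set (X × Z)} (hD : IsOpen D)
    (hc : BastianiSmooth c D) {τ : X → Z} (hτ : BastianiSmooth τ univ) :
    BastianiSmooth (fun p : X × Z => bd (fun z => c (p.1, z)) (τ p.1, p.2))
      {p | (p.1, τ p.1) ∈ D} := by
  have hτc : Continuous τ := continuousOn_univ.1 hτ.continuousOn
  have hU : IsOpen {p : X × Z | (p.1, τ p.1) ∈ D} :=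
    hD.preimage (continuous_fst.prodMk (hτc.comp continuous_fst))
  have h1 : BastianiSmooth (fun p : X × Z => p.1) {p : X × Z | (p.1, τ p.1) ∈ D} :=
    BastianiSmooth.clm (ContinuousLinearMap.fst ℝ X Z) _
  have h2 : BastianiSmooth (fun p : X × Z => p.2) {p : X × Z | (p.1, τ p.1) ∈ D} :=
    BastianiSmooth.clm (ContinuousLinearMap.snd ℝ X Z) _
  have h3 : BastianiSmooth (fun p : X × Z => ((p.1, τ p.1), ((0 : X), p.2)))
      {p : X × Z | (p.1, τ p.1) ∈ D} := by
    refine ((h1.prodMk ?_).prodMk ((BastianiSmooth.const (0 : X) _).prodMk h2))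
    have h4 : BastianiSmooth (fun p : X × Z => τ p.1) (univ : Set (X × Z)) := fun k =>
      (ParCk.comp_right (T := Unit) (ContinuousLinearMap.fst ℝ X Z)
        (ParCk.of_bastiani (hτ k))).bastiani ()
    exact h4.mono (subset_univ _)
  refine ((hc.bd hD).comp (hD.prod isOpen_univ) h3 fun p hp => ⟨hp, mem_univ _⟩).congr hU
    fun p hp => ?_
  exact (bd_snd hc hp p.2).2.symm

/-- linearity of the partial derivative -/
theorem bd_snd_linear {c : X × Z → F} {D : Set (X × Z)} (hD : IsOpen D)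
    (hc : BastianiSmooth c D) {a : X} {b : Z} (h : (a, b) ∈ D) (r : ℝ) (w w' : Z) :
    bd (fun z => c (a, z)) (b, w + w') =
        bd (fun z => c (a, z)) (b, w) + bd (fun z => c (a, z)) (b, w') ∧
      bd (fun z => c (a, z)) (b, r • w) = r • bd (fun z => c (a, z)) (b, w) := by
  have h1 := hc.c1_bd hD
  rw [(bd_snd hc h _).2, (bd_snd hc h _).2, (bd_snd hc h _).2, (bd_snd hc h _).2]
  refine ⟨?_, ?_⟩
  · rw [← h1.add hD h, Prod.mk_add_mk, add_zero]
  · rw [← h1.smul h, Prod.smul_mk, smul_zero]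

end partialDeriv

section aux

variable {F : Type v} [AddCommGroup F] [Module ℝ F] [TopologicalSpace F]
  [IsTopologicalAddGroup F] [ContinuousSMul ℝ F] [LocallyConvexSpace ℝ F] [T2Space F]
  {K : Type u} [Group K] [TopologicalSpace K] [ChartedSpace F K]

theorem trans_aux_fst (hK : IsLieGroup F K) {ψ χ : OpenPartialHomeomorph K F}
    (hψ : ψ ∈ atlas F K) (k : ℕ) :
    MCk Unit (F × F) F k (fun _ p => ψ.symm p.1) {q | q.2.1 ∈ ψ.target ∧ q.2.2 ∈ χ.target} := by
  have hU : IsOpen {q : Unit × (F × F) | q.2.1 ∈ ψ.target ∧ q.2.2 ∈ χ.target} :=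
    (ψ.open_target.preimage (continuous_fst.comp continuous_snd)).inter
      (χ.open_target.preimage (continuous_snd.comp continuous_snd))
  have hg : ParCk Unit k (F × F) F (fun _ p => p.1)
      {q : Unit × (F × F) | q.2.1 ∈ ψ.target ∧ q.2.2 ∈ χ.target} :=
    ParCk.clm k (L := fun _ => ContinuousLinearMap.fst ℝ F F)
      (continuous_fst.comp continuous_snd) _
  exact MCk.comp (ψ.open_target.preimage continuous_snd) (MCk.symm_chart hK k hψ) hU
    hg fun q hq => hq.1

theorem trans_aux_snd (hK : IsLieGroup F K) {ψ χ : OpenPartialHomeomorph K F}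
    (hχ : χ ∈ atlas F K) (k : ℕ) :
    MCk Unit (F × F) F k (fun _ p => χ.symm p.2) {q | q.2.1 ∈ ψ.target ∧ q.2.2 ∈ χ.target} := by
  have hU : IsOpen {q : Unit × (F × F) | q.2.1 ∈ ψ.target ∧ q.2.2 ∈ χ.target} :=
    (ψ.open_target.preimage (continuous_fst.comp continuous_snd)).inter
      (χ.open_target.preimage (continuous_snd.comp continuous_snd))
  have hg : ParCk Unit k (F × F) F (fun _ p => p.2)
      {q : Unit × (F × F) | q.2.1 ∈ ψ.target ∧ q.2.2 ∈ χ.target} :=
    ParCk.clm k (L := fun _ => ContinuousLinearMap.snd ℝ F F)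
      (continuous_snd.comp continuous_snd) _
  exact MCk.comp (χ.open_target.preimage continuous_snd) (MCk.symm_chart hK k hχ) hU
    hg fun q hq => hq.2

theorem trans_aux_open (ψ χ : OpenPartialHomeomorph K F) :
    IsOpen {q : Unit × (F × F) | q.2.1 ∈ ψ.target ∧ q.2.2 ∈ χ.target} :=
  (ψ.open_target.preimage (continuous_fst.comp continuous_snd)).inter
    (χ.open_target.preimage (continuous_snd.comp continuous_snd))

/-- a smooth map of two variables `f (x, z)` in the chart `ω` of the target: smooth, with open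
domain -/
theorem trans_aux {ψ χ ω : OpenPartialHomeomorph K F} (hω : ω ∈ atlas F K) {f : F × F → K}
    (hf : ∀ k, MCk Unit (F × F) F k (fun _ p => f p) {q | q.2.1 ∈ ψ.target ∧ q.2.2 ∈ χ.target}) :
    IsOpen {p : F × F | (p.1 ∈ ψ.target ∧ p.2 ∈ χ.target) ∧ f p ∈ ω.source} ∧
      BastianiSmooth (fun p => ω (f p))
        {p : F × F | (p.1 ∈ ψ.target ∧ p.2 ∈ χ.target) ∧ f p ∈ ω.source} := by
  constructor
  · exact ((hf 0).isOpen_dom (trans_aux_open ψ χ) ω).preimage (Continuous.prodMk_right ())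
  · exact MSmooth.bastiani (T := Unit) (f := fun _ p => f p) hf () hω

end aux

variable {F : Type v} [AddCommGroup F] [Module ℝ F] [TopologicalSpace F]
  [IsTopologicalAddGroup F] [ContinuousSMul ℝ F] [LocallyConvexSpace ℝ F] [T2Space F]
  {K : Type u} [Group K] [TopologicalSpace K] [ChartedSpace F K]

/-- derivative of left translations -/
noncomputable def leftT (ψ : OpenPartialHomeomorph K F) (p : F × F) : F :=
  bd (fun z => ψ (ψ.symm p.1 * (chartAt F (1 : K)).symm z)) (chartAt F (1 : K) 1, p.2)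

/-- derivative of right translations -/
noncomputable def rightT (ψ : OpenPartialHomeomorph K F) (p : F × F) : F :=
  bd (fun z => ψ ((chartAt F (1 : K)).symm z * ψ.symm p.1)) (chartAt F (1 : K) 1, p.2)

/-- right logarithmic derivative of the inverse of a chart -/
noncomputable def omegaR (ψ : OpenPartialHomeomorph K F) (p : F × F) : F :=
  bd (fun z => chartAt F (1 : K) (ψ.symm z * (ψ.symm p.1)⁻¹)) (p.1, p.2)

/-- left logarithmic derivative of the inverse of a chart -/
noncomputable def omegaL (ψ : OpenPartialHomeomorph K F) (p : F × F) : F :=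
  bd (fun z => chartAt F (1 : K) ((ψ.symm p.1)⁻¹ * ψ.symm z)) (p.1, p.2)

/-- the adjoint action -/
noncomputable def AdF (g : K) (v : F) : F :=
  bd (fun z => chartAt F (1 : K) (g * (chartAt F (1 : K)).symm z * g⁻¹))
    (chartAt F (1 : K) 1, v)

variable (hK : IsLieGroup F K) {ψ : OpenPartialHomeomorph K F} (hψ : ψ ∈ atlas F K)

theorem trans_one_mem : chartAt F (1 : K) 1 ∈ (chartAt F (1 : K)).target :=
  (chartAt F (1 : K)).map_source (mem_chart_source F _)

theorem trans_symm_one : (chartAt F (1 : K)).symm (chartAt F (1 : K) 1) = 1 :=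
  (chartAt F (1 : K)).left_inv (mem_chart_source F _)

include hK hψ

theorem leftT_aux : IsOpen {p : F × F | (p.1 ∈ ψ.target ∧ p.2 ∈ (chartAt F (1 : K)).target) ∧
      ψ.symm p.1 * (chartAt F (1 : K)).symm p.2 ∈ ψ.source} ∧
    BastianiSmooth (fun p : F × F => ψ (ψ.symm p.1 * (chartAt F (1 : K)).symm p.2))
      {p : F × F | (p.1 ∈ ψ.target ∧ p.2 ∈ (chartAt F (1 : K)).target) ∧
        ψ.symm p.1 * (chartAt F (1 : K)).symm p.2 ∈ ψ.source} :=
  trans_aux hψ (f := fun p => ψ.symm p.1 * (chartAt F (1 : K)).symm p.2) fun k =>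
    MCk.mul hK (trans_aux_open _ _) (trans_aux_fst hK hψ k)
      (trans_aux_snd hK (chart_mem_atlas F (1 : K)) k)

theorem leftT_mem {u : F} (hu : u ∈ ψ.target) :
    (u, chartAt F (1 : K) 1) ∈ {p : F × F | (p.1 ∈ ψ.target ∧ p.2 ∈ (chartAt F (1 : K)).target) ∧
      ψ.symm p.1 * (chartAt F (1 : K)).symm p.2 ∈ ψ.source} := by
  refine ⟨⟨hu, trans_one_mem⟩, ?_⟩
  show ψ.symm u * (chartAt F (1 : K)).symm (chartAt F (1 : K) 1) ∈ ψ.source
  rw [trans_symm_one, mul_one]
  exact ψ.map_target hu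

theorem leftT_smooth : BastianiSmooth (leftT ψ) (ψ.target ×ˢ univ) :=
  (bd_snd_smooth (leftT_aux hK hψ).1 (leftT_aux hK hψ).2
    (BastianiSmooth.const (chartAt F (1 : K) 1) univ)).mono
      fun _ hp => leftT_mem hK hψ hp.1

theorem leftT_deriv {u : F} (hu : u ∈ ψ.target) (w : F) :
    HasDirDeriv (fun z => ψ (ψ.symm u * (chartAt F (1 : K)).symm z)) (chartAt F (1 : K) 1) w
      (leftT ψ (u, w)) :=
  (bd_snd (leftT_aux hK hψ).2 (leftT_mem hK hψ hu) w).1

theorem rightT_aux : IsOpen {p : F × F | (p.1 ∈ ψ.target ∧ p.2 ∈ (chartAt F (1 : K)).target) ∧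
      (chartAt F (1 : K)).symm p.2 * ψ.symm p.1 ∈ ψ.source} ∧
    BastianiSmooth (fun p : F × F => ψ ((chartAt F (1 : K)).symm p.2 * ψ.symm p.1))
      {p : F × F | (p.1 ∈ ψ.target ∧ p.2 ∈ (chartAt F (1 : K)).target) ∧
        (chartAt F (1 : K)).symm p.2 * ψ.symm p.1 ∈ ψ.source} :=
  trans_aux hψ (f := fun p => (chartAt F (1 : K)).symm p.2 * ψ.symm p.1) fun k =>
    MCk.mul hK (trans_aux_open _ _) (trans_aux_snd hK (chart_mem_atlas F (1 : K)) k)
      (trans_aux_fst hK hψ k)

theorem rightT_mem {u : F} (hu : u ∈ ψ.target) :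
    (u, chartAt F (1 : K) 1) ∈ {p : F × F | (p.1 ∈ ψ.target ∧ p.2 ∈ (chartAt F (1 : K)).target) ∧
      (chartAt F (1 : K)).symm p.2 * ψ.symm p.1 ∈ ψ.source} := by
  refine ⟨⟨hu, trans_one_mem⟩, ?_⟩
  show (chartAt F (1 : K)).symm (chartAt F (1 : K) 1) * ψ.symm u ∈ ψ.source
  rw [trans_symm_one, one_mul]
  exact ψ.map_target hu

theorem rightT_smooth : BastianiSmooth (rightT ψ) (ψ.target ×ˢ univ) :=
  (bd_snd_smooth (rightT_aux hK hψ).1 (rightT_aux hK hψ).2
    (BastianiSmooth.const (chartAt F (1 : K) 1) univ)).mono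
      fun _ hp => rightT_mem hK hψ hp.1

theorem rightT_deriv {u : F} (hu : u ∈ ψ.target) (w : F) :
    HasDirDeriv (fun z => ψ ((chartAt F (1 : K)).symm z * ψ.symm u)) (chartAt F (1 : K) 1) w
      (rightT ψ (u, w)) :=
  (bd_snd (rightT_aux hK hψ).2 (rightT_mem hK hψ hu) w).1

theorem omegaR_aux : IsOpen {p : F × F | (p.1 ∈ ψ.target ∧ p.2 ∈ ψ.target) ∧
      ψ.symm p.2 * (ψ.symm p.1)⁻¹ ∈ (chartAt F (1 : K)).source} ∧
    BastianiSmooth (fun p : F × F => chartAt F (1 : K) (ψ.symm p.2 * (ψ.symm p.1)⁻¹))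
      {p : F × F | (p.1 ∈ ψ.target ∧ p.2 ∈ ψ.target) ∧
        ψ.symm p.2 * (ψ.symm p.1)⁻¹ ∈ (chartAt F (1 : K)).source} :=
  trans_aux (chart_mem_atlas F (1 : K)) (f := fun p => ψ.symm p.2 * (ψ.symm p.1)⁻¹) fun k =>
    MCk.mul hK (trans_aux_open _ _) (trans_aux_snd hK hψ k)
      (MCk.inv hK (trans_aux_open _ _) (trans_aux_fst hK hψ k))

theorem omegaR_mem {u : F} (hu : u ∈ ψ.target) :
    (u, u) ∈ {p : F × F | (p.1 ∈ ψ.target ∧ p.2 ∈ ψ.target) ∧
      ψ.symm p.2 * (ψ.symm p.1)⁻¹ ∈ (chartAt F (1 : K)).source} := by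
  refine ⟨⟨hu, hu⟩, ?_⟩
  show ψ.symm u * (ψ.symm u)⁻¹ ∈ (chartAt F (1 : K)).source
  rw [mul_inv_cancel]
  exact mem_chart_source F _

theorem omegaR_smooth : BastianiSmooth (omegaR ψ) (ψ.target ×ˢ univ) :=
  (bd_snd_smooth (omegaR_aux hK hψ).1 (omegaR_aux hK hψ).2
    (BastianiSmooth.clm (ContinuousLinearMap.id ℝ F) univ)).mono
      fun _ hp => omegaR_mem hK hψ hp.1

theorem omegaR_deriv {u : F} (hu : u ∈ ψ.target) (w : F) :
    HasDirDeriv (fun z => chartAt F (1 : K) (ψ.symm z * (ψ.symm u)⁻¹)) u w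
      (omegaR ψ (u, w)) :=
  (bd_snd (omegaR_aux hK hψ).2 (omegaR_mem hK hψ hu) w).1

theorem omegaL_aux : IsOpen {p : F × F | (p.1 ∈ ψ.target ∧ p.2 ∈ ψ.target) ∧
      (ψ.symm p.1)⁻¹ * ψ.symm p.2 ∈ (chartAt F (1 : K)).source} ∧
    BastianiSmooth (fun p : F × F => chartAt F (1 : K) ((ψ.symm p.1)⁻¹ * ψ.symm p.2))
      {p : F × F | (p.1 ∈ ψ.target ∧ p.2 ∈ ψ.target) ∧
        (ψ.symm p.1)⁻¹ * ψ.symm p.2 ∈ (chartAt F (1 : K)).source} :=
  trans_aux (chart_mem_atlas F (1 : K)) (f := fun p => (ψ.symm p.1)⁻¹ * ψ.symm p.2) fun k =>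
    MCk.mul hK (trans_aux_open _ _) (MCk.inv hK (trans_aux_open _ _) (trans_aux_fst hK hψ k))
      (trans_aux_snd hK hψ k)

theorem omegaL_mem {u : F} (hu : u ∈ ψ.target) :
    (u, u) ∈ {p : F × F | (p.1 ∈ ψ.target ∧ p.2 ∈ ψ.target) ∧
      (ψ.symm p.1)⁻¹ * ψ.symm p.2 ∈ (chartAt F (1 : K)).source} := by
  refine ⟨⟨hu, hu⟩, ?_⟩
  show (ψ.symm u)⁻¹ * ψ.symm u ∈ (chartAt F (1 : K)).source
  rw [inv_mul_cancel]
  exact mem_chart_source F _

theorem omegaL_smooth : BastianiSmooth (omegaL ψ) (ψ.target ×ˢ univ) :=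
  (bd_snd_smooth (omegaL_aux hK hψ).1 (omegaL_aux hK hψ).2
    (BastianiSmooth.clm (ContinuousLinearMap.id ℝ F) univ)).mono
      fun _ hp => omegaL_mem hK hψ hp.1

theorem omegaL_deriv {u : F} (hu : u ∈ ψ.target) (w : F) :
    HasDirDeriv (fun z => chartAt F (1 : K) ((ψ.symm u)⁻¹ * ψ.symm z)) u w
      (omegaL ψ (u, w)) :=
  (bd_snd (omegaL_aux hK hψ).2 (omegaL_mem hK hψ hu) w).1

theorem AdF_aux : IsOpen {p : F × F | (p.1 ∈ ψ.target ∧ p.2 ∈ (chartAt F (1 : K)).target) ∧
      ψ.symm p.1 * (chartAt F (1 : K)).symm p.2 * (ψ.symm p.1)⁻¹ ∈ (chartAt F (1 : K)).source} ∧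
    BastianiSmooth (fun p : F × F =>
        chartAt F (1 : K) (ψ.symm p.1 * (chartAt F (1 : K)).symm p.2 * (ψ.symm p.1)⁻¹))
      {p : F × F | (p.1 ∈ ψ.target ∧ p.2 ∈ (chartAt F (1 : K)).target) ∧
        ψ.symm p.1 * (chartAt F (1 : K)).symm p.2 * (ψ.symm p.1)⁻¹ ∈
          (chartAt F (1 : K)).source} :=
  trans_aux (chart_mem_atlas F (1 : K))
    (f := fun p => ψ.symm p.1 * (chartAt F (1 : K)).symm p.2 * (ψ.symm p.1)⁻¹) fun k =>
    MCk.mul hK (trans_aux_open _ _) (MCk.mul hK (trans_aux_open _ _) (trans_aux_fst hK hψ k)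
      (trans_aux_snd hK (chart_mem_atlas F (1 : K)) k))
      (MCk.inv hK (trans_aux_open _ _) (trans_aux_fst hK hψ k))

theorem AdF_mem {u : F} (hu : u ∈ ψ.target) :
    (u, chartAt F (1 : K) 1) ∈ {p : F × F | (p.1 ∈ ψ.target ∧ p.2 ∈ (chartAt F (1 : K)).target) ∧
      ψ.symm p.1 * (chartAt F (1 : K)).symm p.2 * (ψ.symm p.1)⁻¹ ∈
        (chartAt F (1 : K)).source} := by
  refine ⟨⟨hu, trans_one_mem⟩, ?_⟩
  show ψ.symm u * (chartAt F (1 : K)).symm (chartAt F (1 : K) 1) * (ψ.symm u)⁻¹ ∈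
    (chartAt F (1 : K)).source
  rw [trans_symm_one, mul_one, mul_inv_cancel]
  exact mem_chart_source F _

/-- the adjoint action is smooth -/
theorem AdF_smooth :
    BastianiSmooth (fun z : F × F => AdF (ψ.symm z.1) z.2) (ψ.target ×ˢ univ) :=
  (bd_snd_smooth (AdF_aux hK hψ).1 (AdF_aux hK hψ).2
    (BastianiSmooth.const (chartAt F (1 : K) 1) univ)).mono
      fun _ hp => AdF_mem hK hψ hp.1

omit hψ

theorem AdF_deriv (g : K) (v : F) :
    HasDirDeriv (fun z => chartAt F (1 : K) (g * (chartAt F (1 : K)).symm z * g⁻¹))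
      (chartAt F (1 : K) 1) v (AdF g v) := by
  have h := (bd_snd (AdF_aux hK (chart_mem_atlas F g)).2
    (AdF_mem hK (chart_mem_atlas F g) ((chartAt F g).map_source (mem_chart_source F g))) v).1
  simp only [(chartAt F g).left_inv (mem_chart_source F g)] at h
  exact h

theorem AdF_linear (g : K) (r : ℝ) (v w : F) :
    AdF g (v + w) = AdF g v + AdF g w ∧ AdF g (r • v) = r • AdF g v := by
  have h := bd_snd_linear (AdF_aux hK (chart_mem_atlas F g)).1 (AdF_aux hK (chart_mem_atlas F g)).2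
    (AdF_mem hK (chart_mem_atlas F g) ((chartAt F g).map_source (mem_chart_source F g))) r v w
  simp only [(chartAt F g).left_inv (mem_chart_source F g)] at h
  exact h

theorem AdF_add (g : K) (v w : F) : AdF g (v + w) = AdF g v + AdF g w :=
  (AdF_linear hK g 0 v w).1

theorem AdF_smul (g : K) (r : ℝ) (v : F) : AdF g (r • v) = r • AdF g v :=
  (AdF_linear hK g r v 0).2

theorem AdF_continuous : Continuous fun p : K × F => AdF p.1 p.2 := by
  rw [continuous_iff_continuousAt]
  rintro ⟨g, v⟩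
  set χ := chartAt F g with hχ
  have hs : χ.source ∈ 𝓝 g := χ.open_source.mem_nhds (mem_chart_source F g)
  have h1 : ContinuousAt (fun z : F × F => AdF (χ.symm z.1) z.2) (χ g, v) :=
    ((AdF_smooth hK (chart_mem_atlas F g)).continuousOn).continuousAt
      ((χ.open_target.prod isOpen_univ).mem_nhds
        ⟨χ.map_source (mem_chart_source F g), mem_univ _⟩)
  have h2 : ContinuousAt (fun p : K × F => (χ p.1, p.2)) (g, v) :=
    ((χ.continuousAt (mem_chart_source F g)).comp continuousAt_fst).prodMk continuousAt_snd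
  have h3 : ContinuousAt (fun p : K × F => AdF (χ.symm (χ p.1)) p.2) (g, v) :=
    ContinuousAt.comp (f := fun p : K × F => (χ p.1, p.2)) (x := (g, v)) h1 h2
  refine h3.congr ?_
  have h4 : ∀ᶠ p : K × F in 𝓝 (g, v), p.1 ∈ χ.source := continuousAt_fst.eventually hs
  filter_upwards [h4] with p hp
  rw [χ.left_inv hp]

end Pool.Agent.Lib.MP_862e0f_al
end

section

/-!
# Velocities

`VelF l s k v`: `k i → 1` and `(s i)⁻¹ • (φ (k i) - φ 1) → v` along the filter `l`, where
`φ = chartAt F 1` and `s i → 0`, `s i ≠ 0`. All proofs are applications of `C1.quotF` (file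
ParQuot) to smooth maps in charts; compare `Vel.mul`, `dm_one` in `MP_862e0f_al/Curves.lean`.
-/

set_option autoImplicit false
set_option linter.unusedSectionVars false

namespace Pool.Agent.Lib.MP_862e0f_al

open Filter Topology Set unitInterval

universe u v w x y z

variable {F : Type v} [AddCommGroup F] [Module ℝ F] [TopologicalSpace F]
  [IsTopologicalAddGroup F] [ContinuousSMul ℝ F] [LocallyConvexSpace ℝ F] [T2Space F]
  {K : Type u} [Group K] [TopologicalSpace K] [ChartedSpace F K]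
  {ι : Type w} {l : Filter ι} {s : ι → ℝ} {k k₁ k₂ : ι → K} {v v₁ v₂ : F}

theorem VelF.unique [NeBot l] (h : VelF l s k v₁) (h' : VelF l s k v₂) : v₁ = v₂ :=
  tendsto_nhds_unique h.vel h'.vel

theorem VelF.one : VelF l s (fun _ => (1 : K)) (0 : F) where
  cont := tendsto_const_nhds
  vel := by
    simp only [sub_self, smul_zero]
    exact tendsto_const_nhds

theorem VelF.congr (h : VelF l s k₁ v) (h' : ∀ᶠ i in l, k₁ i = k₂ i) : VelF l s k₂ v where
  cont := h.cont.congr' h'
  vel := by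
    refine h.vel.congr' ?_
    filter_upwards [h'] with i hi
    rw [hi]

/-- scalars tending to zero -/
theorem velF_tendsto_smul (hs : Tendsto s l (𝓝[≠] 0)) {b : ι → F} (hb : Tendsto b l (𝓝 v))
    (u : F) : Tendsto (fun i => u + s i • b i) l (𝓝 u) := by
  have h0 : Tendsto s l (𝓝 0) := hs.mono_right nhdsWithin_le_nhds
  have h1 := (tendsto_const_nhds (x := u)).add (h0.smul hb)
  rwa [zero_smul, add_zero] at h1

theorem velF_ne (hs : Tendsto s l (𝓝[≠] 0)) : ∀ᶠ i in l, s i ≠ 0 := by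
  have h1 : ∀ᶠ t in 𝓝[≠] (0 : ℝ), t ≠ 0 := self_mem_nhdsWithin
  exact hs.eventually h1

/-- the line in the chart at `1` -/
theorem VelF.line (hs : Tendsto s l (𝓝[≠] 0)) {b : ι → F} (hb : Tendsto b l (𝓝 v)) :
    VelF (K := K) l s (fun i => (chartAt F (1 : K)).symm (chartAt F (1 : K) 1 + s i • b i)) v := by
  set φ := chartAt F (1 : K) with hφ
  have h1 : (1 : K) ∈ φ.source := mem_chart_source F (1 : K)
  have hy := velF_tendsto_smul hs hb (φ 1)
  have hc : ContinuousAt φ.symm (φ 1) := φ.continuousAt_symm (φ.map_source h1)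
  refine ⟨?_, ?_⟩
  · have h2 := hc.tendsto.comp hy
    rw [φ.left_inv h1] at h2
    exact h2
  · refine hb.congr' ?_
    filter_upwards [hy.eventually (φ.open_target.mem_nhds (φ.map_source h1)), velF_ne hs]
      with i hi hne
    rw [← hφ, φ.right_inv hi, add_sub_cancel_left, smul_smul, inv_mul_cancel₀ hne, one_smul]

/-- difference quotients of a smooth map, along a filter -/
theorem velF_quot {F' : Type v} [AddCommGroup F'] [Module ℝ F'] [TopologicalSpace F']
    [IsTopologicalAddGroup F'] [ContinuousSMul ℝ F'] (hs : Tendsto s l (𝓝[≠] 0)) {c : F' → F}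
    {D : Set F'} (hD : IsOpen D) (hc : BastianiSmooth c D) {u₀ : F'} (hu : u₀ ∈ D) {y : ι → F'}
    {w : F'} (hy : Tendsto (fun i => (s i)⁻¹ • (y i - u₀)) l (𝓝 w)) :
    Tendsto (fun i => (s i)⁻¹ • (c (y i) - c u₀)) l (𝓝 (bd c (u₀, w))) := by
  have h1 := C1.quotF hs (hc.c1_bd hD) hD hu (a := fun _ => u₀)
    (b := fun i => (s i)⁻¹ • (y i - u₀)) tendsto_const_nhds hy
  refine h1.congr' ?_
  filter_upwards [velF_ne hs] with i hne
  rw [smul_smul, mul_inv_cancel₀ hne, one_smul, add_sub_cancel]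

/-- expressions in charts -/
theorem velF_expr (hs : Tendsto s l (𝓝[≠] 0)) {f : F → K} {D : Set F} (hD : IsOpen D)
    (hf : MSmooth Unit F F (fun _ x => f x) {p : Unit × F | p.2 ∈ D}) {u₀ : F} (hu : u₀ ∈ D)
    {χ : OpenPartialHomeomorph K F} (hχ : χ ∈ atlas F K) (hfu : f u₀ ∈ χ.source) {y : ι → F}
    {w : F} (hy : Tendsto (fun i => (s i)⁻¹ • (y i - u₀)) l (𝓝 w)) :
    Tendsto (fun i => (s i)⁻¹ • (χ (f (y i)) - χ (f u₀))) l
      (𝓝 (bd (fun x => χ (f x)) (u₀, w))) := by
  have hU : IsOpen {p : Unit × F | p.2 ∈ D} := hD.preimage continuous_snd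
  have h1 := hf.bastiani () hχ
  have h2 : IsOpen {x : F | ((), x) ∈ {p : Unit × F | p.2 ∈ D} ∧ f x ∈ χ.source} := by
    have h3 := (hf 0).isOpen_dom hU χ
    exact h3.preimage (by fun_prop : Continuous fun x : F => (((), x) : Unit × F))
  exact velF_quot hs h2 h1 ⟨hu, hfu⟩ hy

theorem velF_mem {χ : OpenPartialHomeomorph K F} (h : Tendsto k l (𝓝 1))
    (h1 : (1 : K) ∈ χ.source) : ∀ᶠ i in l, k i ∈ χ.source :=
  h.eventually (χ.open_source.mem_nhds h1)

theorem VelF.mul (hK : IsLieGroup F K) (hs : Tendsto s l (𝓝[≠] 0)) (h₁ : VelF l s k₁ v₁)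
    (h₂ : VelF l s k₂ v₂) : VelF l s (fun i => k₁ i * k₂ i) (v₁ + v₂) := by
  set φ := chartAt F (1 : K) with hφ
  have h1 : (1 : K) ∈ φ.source := mem_chart_source F (1 : K)
  have hφa : φ ∈ atlas F K := chart_mem_atlas F (1 : K)
  have hx : (φ 1, φ 1) ∈ muld φ φ φ := by
    refine ⟨⟨φ.map_source h1, φ.map_source h1⟩, ?_⟩
    rw [φ.left_inv h1, mul_one]
    exact h1
  have hsm : BastianiSmooth (mulc φ φ φ) (muld φ φ φ) := hK.smooth_mul φ hφa φ hφa φ hφa
  refine ⟨?_, ?_⟩
  · have h2 := (hK.continuous_mul.tendsto (1, 1)).comp (h₁.cont.prodMk_nhds h₂.cont)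
    rw [mul_one] at h2
    exact h2
  · have h3 := C1.quotF hs (hsm.c1_bd (muld_open hK)) (muld_open hK) hx
      (a := fun _ => (φ 1, φ 1))
      (b := fun i => ((s i)⁻¹ • (φ (k₁ i) - φ 1), (s i)⁻¹ • (φ (k₂ i) - φ 1)))
      tendsto_const_nhds (h₁.vel.prodMk_nhds h₂.vel)
    have h4 : bd (mulc φ φ φ) ((φ 1, φ 1), (v₁, v₂)) = v₁ + v₂ :=
      dm_one hK h1 (hsm.c1_bd (muld_open hK)) v₁ v₂
    rw [h4] at h3
    refine h3.congr' ?_
    filter_upwards [velF_mem h₁.cont h1, velF_mem h₂.cont h1, velF_ne hs] with i hi1 hi2 hne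
    simp only [mulc, Prod.smul_mk, Prod.mk_add_mk, smul_smul, mul_inv_cancel₀ hne, one_smul,
      add_sub_cancel, φ.left_inv hi1, φ.left_inv hi2, φ.left_inv h1, mul_one]
    rfl

theorem VelF.inv (hK : IsLieGroup F K) (hs : Tendsto s l (𝓝[≠] 0)) (h : VelF l s k v) :
    VelF l s (fun i => (k i)⁻¹) (-v) := by
  rcases l.eq_or_neBot with hl | hl
  · subst hl
    exact ⟨tendsto_bot, tendsto_bot⟩
  have hG := hK.isTopologicalGroup
  set φ := chartAt F (1 : K) with hφ
  have h1 : (1 : K) ∈ φ.source := mem_chart_source F (1 : K)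
  have hφa : φ ∈ atlas F K := chart_mem_atlas F (1 : K)
  have hf : MSmooth Unit F F (fun _ x => (φ.symm x)⁻¹) {p : Unit × F | p.2 ∈ φ.target} :=
    fun n => (MCk.symm_chart hK n hφa).inv hK (φ.open_target.preimage continuous_snd)
  have h2 := velF_expr hs φ.open_target hf (φ.map_source h1) hφa
    (by rw [φ.left_inv h1, inv_one]; exact h1) h.vel
  have h3 : VelF l s (fun i => (k i)⁻¹) (bd (fun x => φ ((φ.symm x)⁻¹)) (φ 1, v)) := by
    refine ⟨?_, ?_⟩
    · have h4 := h.cont.inv
      rwa [inv_one] at h4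
    · refine h2.congr' ?_
      filter_upwards [velF_mem h.cont h1] with i hi
      rw [φ.left_inv h1, φ.left_inv hi, inv_one]
  have h5 := (h.mul hK hs h3).congr (k₂ := fun _ => 1)
    (Eventually.of_forall fun i => mul_inv_cancel _)
  have h6 : v + bd (fun x => φ ((φ.symm x)⁻¹)) (φ 1, v) = 0 := h5.unique VelF.one
  rw [eq_neg_of_add_eq_zero_right h6] at h3
  exact h3

theorem VelF.conj (hK : IsLieGroup F K) (hs : Tendsto s l (𝓝[≠] 0)) (h : VelF l s k v) (g : K) :
    VelF l s (fun i => g * k i * g⁻¹) (AdF g v) := by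
  have hG := hK.isTopologicalGroup
  set φ := chartAt F (1 : K) with hφ
  have h1 : (1 : K) ∈ φ.source := mem_chart_source F (1 : K)
  have hφa : φ ∈ atlas F K := chart_mem_atlas F (1 : K)
  have hU : IsOpen {p : Unit × F | p.2 ∈ φ.target} := φ.open_target.preimage continuous_snd
  have hf : MSmooth Unit F F (fun _ x => g * φ.symm x * g⁻¹)
      {p : Unit × F | p.2 ∈ φ.target} :=
    fun n => ((MCk.const hK n (T := Unit) (c := fun _ => g) continuous_const hU).mul hK hU
      (MCk.symm_chart hK n hφa)).mul hK hU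
      (MCk.const hK n (T := Unit) (c := fun _ => g⁻¹) continuous_const hU)
  have e1 : g * φ.symm (φ 1) * g⁻¹ = 1 := by
    rw [φ.left_inv h1, mul_one, mul_inv_cancel]
  have h2 := velF_expr hs φ.open_target hf (φ.map_source h1) hφa
    (by rw [e1]; exact h1) h.vel
  refine ⟨?_, ?_⟩
  · have h4 := (h.cont.const_mul g).mul_const g⁻¹
    rwa [mul_one, mul_inv_cancel] at h4
  · refine h2.congr' ?_
    filter_upwards [velF_mem h.cont h1] with i hi
    rw [e1, φ.left_inv hi]

/-- the standard line with velocity `v` -/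
theorem velF_id_line (v : F) : VelF (K := K) (𝓝[≠] (0 : ℝ)) (fun t : ℝ => t)
    (fun t => (chartAt F (1 : K)).symm (chartAt F (1 : K) 1 + t • v)) v :=
  VelF.line tendsto_id tendsto_const_nhds

theorem AdF_one (hK : IsLieGroup F K) (v : F) : AdF (1 : K) v = v := by
  have h1 := velF_id_line (K := K) v
  have h2 := h1.conj hK tendsto_id (1 : K)
  have h3 := h2.congr (k₂ := fun t => (chartAt F (1 : K)).symm (chartAt F (1 : K) 1 + t • v))
    (Eventually.of_forall fun t => by rw [one_mul, inv_one, mul_one])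
  exact h3.unique h1

theorem AdF_mul (hK : IsLieGroup F K) (g h : K) (v : F) : AdF (g * h) v = AdF g (AdF h v) := by
  have h1 := velF_id_line (K := K) v
  have h2 := h1.conj hK tendsto_id (g * h)
  have h3 := (h1.conj hK tendsto_id h).conj hK tendsto_id g
  have h4 := h3.congr (k₂ := fun t => g * h *
    (chartAt F (1 : K)).symm (chartAt F (1 : K) 1 + t • v) * (g * h)⁻¹)
    (Eventually.of_forall fun t => by rw [mul_inv_rev]; simp only [mul_assoc])
  exact h2.unique h4

/-- velocities of left translates, in charts -/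
theorem VelF.left_chart (hK : IsLieGroup F K) (hs : Tendsto s l (𝓝[≠] 0)) (h : VelF l s k v)
    {ψ : OpenPartialHomeomorph K F} (hψ : ψ ∈ atlas F K) {g : K} (hg : g ∈ ψ.source) :
    Tendsto (fun i => (s i)⁻¹ • (ψ (g * k i) - ψ g)) l (𝓝 (leftT ψ (ψ g, v))) := by
  set φ := chartAt F (1 : K) with hφ
  have h1 : (1 : K) ∈ φ.source := mem_chart_source F (1 : K)
  have hφa : φ ∈ atlas F K := chart_mem_atlas F (1 : K)
  have hU : IsOpen {p : Unit × F | p.2 ∈ φ.target} := φ.open_target.preimage continuous_snd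
  have hf : MSmooth Unit F F (fun _ x => g * φ.symm x) {p : Unit × F | p.2 ∈ φ.target} :=
    fun n => (MCk.const hK n (T := Unit) (c := fun _ => g) continuous_const hU).mul hK hU
      (MCk.symm_chart hK n hφa)
  have e1 : g * φ.symm (φ 1) = g := by rw [φ.left_inv h1, mul_one]
  have h2 := velF_expr hs φ.open_target hf (φ.map_source h1) hψ
    (by rw [e1]; exact hg) h.vel
  have e2 : leftT ψ (ψ g, v) = bd (fun x => ψ (g * φ.symm x)) (φ 1, v) := by
    unfold leftT
    rw [ψ.left_inv hg]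
  rw [e2]
  refine h2.congr' ?_
  filter_upwards [velF_mem h.cont h1] with i hi
  rw [e1, φ.left_inv hi]

/-- velocities of right translates, in charts -/
theorem VelF.right_chart (hK : IsLieGroup F K) (hs : Tendsto s l (𝓝[≠] 0)) (h : VelF l s k v)
    {ψ : OpenPartialHomeomorph K F} (hψ : ψ ∈ atlas F K) {g : K} (hg : g ∈ ψ.source) :
    Tendsto (fun i => (s i)⁻¹ • (ψ (k i * g) - ψ g)) l (𝓝 (rightT ψ (ψ g, v))) := by
  set φ := chartAt F (1 : K) with hφ
  have h1 : (1 : K) ∈ φ.source := mem_chart_source F (1 : K)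
  have hφa : φ ∈ atlas F K := chart_mem_atlas F (1 : K)
  have hU : IsOpen {p : Unit × F | p.2 ∈ φ.target} := φ.open_target.preimage continuous_snd
  have hf : MSmooth Unit F F (fun _ x => φ.symm x * g) {p : Unit × F | p.2 ∈ φ.target} :=
    fun n => (MCk.symm_chart hK n hφa).mul hK hU
      (MCk.const hK n (T := Unit) (c := fun _ => g) continuous_const hU)
  have e1 : φ.symm (φ 1) * g = g := by rw [φ.left_inv h1, one_mul]
  have h2 := velF_expr hs φ.open_target hf (φ.map_source h1) hψ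
    (by rw [e1]; exact hg) h.vel
  have e2 : rightT ψ (ψ g, v) = bd (fun x => ψ (φ.symm x * g)) (φ 1, v) := by
    unfold rightT
    rw [ψ.left_inv hg]
  rw [e2]
  refine h2.congr' ?_
  filter_upwards [velF_mem h.cont h1] with i hi
  rw [e1, φ.left_inv hi]

/-- from charts to velocities: left -/
theorem VelF.of_chart_left (hK : IsLieGroup F K) (hs : Tendsto s l (𝓝[≠] 0))
    {ψ : OpenPartialHomeomorph K F} (hψ : ψ ∈ atlas F K) {g : K} (hg : g ∈ ψ.source) {y : ι → K}
    (hy : Tendsto y l (𝓝 g)) {w : F} (hw : Tendsto (fun i => (s i)⁻¹ • (ψ (y i) - ψ g)) l (𝓝 w)) :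
    VelF l s (fun i => g⁻¹ * y i) (omegaL ψ (ψ g, w)) := by
  have hG := hK.isTopologicalGroup
  set φ := chartAt F (1 : K) with hφ
  have h1 : (1 : K) ∈ φ.source := mem_chart_source F (1 : K)
  have hφa : φ ∈ atlas F K := chart_mem_atlas F (1 : K)
  have hU : IsOpen {p : Unit × F | p.2 ∈ ψ.target} := ψ.open_target.preimage continuous_snd
  have hf : MSmooth Unit F F (fun _ x => g⁻¹ * ψ.symm x) {p : Unit × F | p.2 ∈ ψ.target} :=
    fun n => (MCk.const hK n (T := Unit) (c := fun _ => g⁻¹) continuous_const hU).mul hK hU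
      (MCk.symm_chart hK n hψ)
  have e1 : g⁻¹ * ψ.symm (ψ g) = 1 := by rw [ψ.left_inv hg, inv_mul_cancel]
  have h2 := velF_expr hs ψ.open_target hf (ψ.map_source hg) hφa
    (by rw [e1]; exact h1) hw
  have e2 : omegaL ψ (ψ g, w) = bd (fun x => φ (g⁻¹ * ψ.symm x)) (ψ g, w) := by
    unfold omegaL
    rw [ψ.left_inv hg]
  rw [e2]
  refine ⟨?_, ?_⟩
  · have h4 := hy.const_mul g⁻¹
    rwa [inv_mul_cancel] at h4
  · refine h2.congr' ?_
    filter_upwards [hy.eventually (ψ.open_source.mem_nhds hg)] with i hi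
    rw [e1, ψ.left_inv hi]

/-- from charts to velocities: right -/
theorem VelF.of_chart_right (hK : IsLieGroup F K) (hs : Tendsto s l (𝓝[≠] 0))
    {ψ : OpenPartialHomeomorph K F} (hψ : ψ ∈ atlas F K) {g : K} (hg : g ∈ ψ.source) {y : ι → K}
    (hy : Tendsto y l (𝓝 g)) {w : F} (hw : Tendsto (fun i => (s i)⁻¹ • (ψ (y i) - ψ g)) l (𝓝 w)) :
    VelF l s (fun i => y i * g⁻¹) (omegaR ψ (ψ g, w)) := by
  have hG := hK.isTopologicalGroup
  set φ := chartAt F (1 : K) with hφ
  have h1 : (1 : K) ∈ φ.source := mem_chart_source F (1 : K)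
  have hφa : φ ∈ atlas F K := chart_mem_atlas F (1 : K)
  have hU : IsOpen {p : Unit × F | p.2 ∈ ψ.target} := ψ.open_target.preimage continuous_snd
  have hf : MSmooth Unit F F (fun _ x => ψ.symm x * g⁻¹) {p : Unit × F | p.2 ∈ ψ.target} :=
    fun n => (MCk.symm_chart hK n hψ).mul hK hU
      (MCk.const hK n (T := Unit) (c := fun _ => g⁻¹) continuous_const hU)
  have e1 : ψ.symm (ψ g) * g⁻¹ = 1 := by rw [ψ.left_inv hg, mul_inv_cancel]
  have h2 := velF_expr hs ψ.open_target hf (ψ.map_source hg) hφa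
    (by rw [e1]; exact h1) hw
  have e2 : omegaR ψ (ψ g, w) = bd (fun x => φ (ψ.symm x * g⁻¹)) (ψ g, w) := by
    unfold omegaR
    rw [ψ.left_inv hg]
  rw [e2]
  refine ⟨?_, ?_⟩
  · have h4 := hy.mul_const g⁻¹
    rwa [mul_inv_cancel] at h4
  · refine h2.congr' ?_
    filter_upwards [hy.eventually (ψ.open_source.mem_nhds hg)] with i hi
    rw [e1, ψ.left_inv hi]

/-- `leftT` and `omegaL` are inverse to each other -/
theorem omegaL_leftT (hK : IsLieGroup F K) {ψ : OpenPartialHomeomorph K F} (hψ : ψ ∈ atlas F K)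
    {u : F} (hu : u ∈ ψ.target) (w : F) : omegaL ψ (u, leftT ψ (u, w)) = w := by
  have hG := hK.isTopologicalGroup
  set g := ψ.symm u with hgd
  have hg : g ∈ ψ.source := ψ.map_target hu
  have hug : ψ g = u := ψ.right_inv hu
  have h1 := velF_id_line (K := K) w
  have hid : Tendsto (fun t : ℝ => t) (𝓝[≠] 0) (𝓝[≠] 0) := tendsto_id
  have h2 := h1.left_chart hK hid hψ hg
  have hy : Tendsto (fun t : ℝ => g * (chartAt F (1 : K)).symm (chartAt F (1 : K) 1 + t • w))
      (𝓝[≠] 0) (𝓝 g) := by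
    have h4 := h1.cont.const_mul g
    rwa [mul_one] at h4
  have h3 := VelF.of_chart_left hK hid hψ hg hy h2
  have h4 := h3.congr (k₂ := fun t : ℝ => (chartAt F (1 : K)).symm (chartAt F (1 : K) 1 + t • w))
    (Eventually.of_forall fun t => by rw [inv_mul_cancel_left])
  rw [hug] at h4
  exact h4.unique h1

end Pool.Agent.Lib.MP_862e0f_al
end

section

/-!
# Bastiani smoothness versus Fréchet smoothness on finite-dimensional spaces
-/

set_option autoImplicit false
set_option linter.unusedSectionVars false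

namespace Pool.Agent.Lib.MP_862e0f_al

open Filter Topology Set unitInterval
open scoped ContDiff

universe u v w x y z

variable {E : Type u} {F : Type v} [NormedAddCommGroup E] [NormedSpace ℝ E]
  [NormedAddCommGroup F] [NormedSpace ℝ F]

/-- On a finite-dimensional space, continuous directional derivatives give a Fréchet derivative:
`f (x + h) - f x - df (x, h) = O(‖h‖ sup_{‖w‖ = 1, |s| ≤ ‖h‖} ‖df (x + s w', w) - df (x, w)‖)` by
the mean value inequality along segments and compactness of the unit sphere. Linearity of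
`df (x, ·)`: `C1.add`, `C1.smul`. -/
theorem C1.hasFDerivAt [FiniteDimensional ℝ E] {f : E → F} {df : E × E → F} {U : Set E}
    (h : C1 f df U) (hU : IsOpen U) {x : E} (hx : x ∈ U) :
    ∃ L : E →L[ℝ] F, (∀ v, L v = df (x, v)) ∧ HasFDerivAt f L x := by
  set L₀ : E →ₗ[ℝ] F :=
    { toFun := fun v => df (x, v)
      map_add' := fun v w => h.add hU hx v w
      map_smul' := fun s v => h.smul hx s } with hL₀
  refine ⟨LinearMap.toContinuousLinearMap L₀, fun v => rfl, ?_⟩
  rw [hasFDerivAt_iff_isLittleO_nhds_zero, Asymptotics.isLittleO_iff]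
  intro ε hε
  have hdf : ∀ v : E, ContinuousAt df (x, v) := fun v =>
    h.cont.continuousAt ((hU.prod isOpen_univ).mem_nhds ⟨hx, mem_univ _⟩)
  have hloc : ∀ v ∈ Metric.sphere (0 : E) 1, ∀ᶠ z : E × E in 𝓝 (x, v),
      df (z.1, z.2) ∈ Metric.closedBall (df (x, z.2)) ε := by
    intro v _
    have h1 : Tendsto (fun z : E × E => df (z.1, z.2)) (𝓝 (x, v)) (𝓝 (df (x, v))) := hdf v
    have h2 : Tendsto (fun z : E × E => df (x, z.2)) (𝓝 (x, v)) (𝓝 (df (x, v))) := by
      have h3 : Tendsto (fun z : E × E => (x, z.2)) (𝓝 (x, v)) (𝓝 (x, v)) :=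
        (by fun_prop : Continuous (fun z : E × E => (x, z.2))).tendsto (x, v)
      exact (hdf v).tendsto.comp h3
    have h4 := (h1.dist h2)
    rw [dist_self] at h4
    filter_upwards [h4.eventually (gt_mem_nhds hε)] with z hz
    exact hz.le
  have hcomp : IsCompact (Metric.sphere (0 : E) 1) := isCompact_sphere 0 1
  have hev := hcomp.eventually_forall_of_forall_eventually (x₀ := x)
    (P := fun y v => df (y, v) ∈ Metric.closedBall (df (x, v)) ε) hloc
  obtain ⟨δ, hδ, hball⟩ := Metric.eventually_nhds_iff.mp (hev.and (hU.mem_nhds hx))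
  have hsmall : ∀ᶠ k : E in 𝓝 0, ‖k‖ < δ := by
    have : Metric.ball (0 : E) δ ∈ 𝓝 (0 : E) := Metric.ball_mem_nhds 0 hδ
    filter_upwards [this] with k hk
    simpa using hk
  filter_upwards [hsmall] with k hk
  rcases eq_or_ne k 0 with rfl | hk0
  · simp
  have ht : 0 < ‖k‖ := norm_pos_iff.mpr hk0
  set v : E := ‖k‖⁻¹ • k with hv
  have hkv : k = ‖k‖ • v := by
    rw [hv, smul_smul, mul_inv_cancel₀ ht.ne', one_smul]
  have hv1 : ‖v‖ = 1 := by
    rw [hv, norm_smul, norm_inv, norm_norm, inv_mul_cancel₀ ht.ne']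
  have hvS : v ∈ Metric.sphere (0 : E) 1 := by simpa using hv1
  have hseg : ∀ s : ℝ, |s| ≤ |‖k‖| → x + s • v ∈ U ∧
      df (x + s • v, v) ∈ Metric.closedBall (df (x, v)) ε := by
    intro s hs
    rw [abs_norm] at hs
    have hd : dist (x + s • v) x < δ := by
      rw [dist_eq_norm, add_sub_cancel_left, norm_smul, hv1, mul_one, Real.norm_eq_abs]
      exact lt_of_le_of_lt hs hk
    obtain ⟨h1, h2⟩ := hball hd
    exact ⟨h2, h1 v hvS⟩
  have hmv := mean_value_mem (f := f) (df := fun z => df (z, v)) (a := x) (b := v) ht.ne'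
    (fun s hs => h.deriv _ (hseg s hs).1 v)
    (convex_closedBall (df (x, v)) ε) Metric.isClosed_closedBall (fun s hs => (hseg s hs).2)
  rw [← hkv, Metric.mem_closedBall, dist_eq_norm] at hmv
  have hLk : (LinearMap.toContinuousLinearMap L₀) k = ‖k‖ • df (x, v) := by
    conv_lhs => rw [hkv]
    rw [map_smul]
    rfl
  rw [hLk]
  have heq : f (x + k) - f x - ‖k‖ • df (x, v) =
      ‖k‖ • (‖k‖⁻¹ • (f (x + k) - f x) - df (x, v)) := by
    rw [smul_sub, smul_smul, mul_inv_cancel₀ ht.ne', one_smul]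
  rw [heq, norm_smul, norm_norm, mul_comm]
  exact mul_le_mul_of_nonneg_right hmv ht.le

theorem BastianiSmooth.contDiffOn_nat [FiniteDimensional ℝ E] {U : Set E} (hU : IsOpen U)
    (k : ℕ) : ∀ {f : E → F}, BastianiSmooth f U → ContDiffOn ℝ k f U := by
  induction k with
  | zero =>
    intro f h
    rw [Nat.cast_zero, contDiffOn_zero]
    exact h.continuousOn
  | succ k ih =>
    intro f h
    have hC1 := h.c1_bd hU
    have hfd : ∀ x ∈ U, ∃ L : E →L[ℝ] F, (∀ v, L v = Pool.Agent.Lib.MP_862e0f_al.bd f (x, v)) ∧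
        HasFDerivAt f L x := fun x hx => hC1.hasFDerivAt hU hx
    rw [Nat.cast_add, Nat.cast_one, contDiffOn_succ_iff_fderiv_of_isOpen hU]
    refine ⟨?_, ?_, ?_⟩
    · intro x hx
      obtain ⟨L, _, hL⟩ := hfd x hx
      exact hL.differentiableAt.differentiableWithinAt
    · intro hω
      exact absurd hω (by simp)
    · rw [contDiffOn_clm_apply]
      intro v
      have hs : BastianiSmooth (fun x : E => Pool.Agent.Lib.MP_862e0f_al.bd f (x, v)) U := by
        refine BastianiSmooth.comp (h.bd hU) (hU.prod isOpen_univ) (f := fun x : E => (x, v)) ?_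
          (fun x hx => ⟨hx, mem_univ _⟩)
        exact BastianiSmooth.prodMk (BastianiSmooth.clm (ContinuousLinearMap.id ℝ E) U)
          (BastianiSmooth.const v U)
      refine (ih hs).congr ?_
      intro x hx
      obtain ⟨L, hLv, hL⟩ := hfd x hx
      rw [hL.fderiv, hLv]

/-- by induction on `k` (`contDiffOn_succ_iff_fderiv_of_isOpen` and `contDiffOn_clm_apply`) -/
theorem BastianiSmooth.contDiffOn [FiniteDimensional ℝ E] {f : E → F} {U : Set E}
    (h : BastianiSmooth f U) (hU : IsOpen U) : ContDiffOn ℝ ∞ f U := by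
  rw [contDiffOn_infty]
  intro n
  exact BastianiSmooth.contDiffOn_nat hU n h

theorem bastianiCk_of_contDiffOn (k : ℕ) : ∀ {E : Type u} [NormedAddCommGroup E]
    [NormedSpace ℝ E] {f : E → F} {U : Set E}, ContDiffOn ℝ ∞ f U → IsOpen U →
    BastianiCk k E F f U := by
  induction k with
  | zero =>
    intro E _ _ f U h hU
    exact h.continuousOn
  | succ k ih =>
    intro E _ _ f U h hU
    refine ⟨h.continuousOn, fun p => fderiv ℝ f p.1 p.2, ?_, ?_⟩
    · intro x hx v
      have hd : DifferentiableAt ℝ f x :=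
        (h.contDiffAt (hU.mem_nhds hx)).differentiableAt (by simp)
      have h1 := hd.hasFDerivAt.hasLineDerivAt v
      unfold HasLineDerivAt at h1
      rw [hasDerivAt_iff_tendsto_slope_zero] at h1
      unfold HasDirDeriv
      refine h1.congr fun t => ?_
      simp
    · apply ih
      · have h1 : ContDiffOn ℝ ∞ (fderiv ℝ f) U := ((contDiffOn_infty_iff_fderiv_of_isOpen hU).mp h).2
        have h2 : ContDiffOn ℝ ∞ (fun p : E × E => fderiv ℝ f p.1) (U ×ˢ univ) :=
          h1.comp contDiff_fst.contDiffOn (fun p hp => hp.1)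
        exact h2.clm_apply contDiff_snd.contDiffOn
      · exact hU.prod isOpen_univ

theorem bastianiSmooth_of_contDiffOn {f : E → F} {U : Set E} (h : ContDiffOn ℝ ∞ f U)
    (hU : IsOpen U) : BastianiSmooth f U := by
  intro k
  exact bastianiCk_of_contDiffOn k h hU

end Pool.Agent.Lib.MP_862e0f_al
end

section

/-!
# Semidirect products `V ⋊ H` are Lie groups
-/

set_option autoImplicit false
set_option linter.unusedSectionVars false

namespace Pool.Agent.Lib.MP_862e0f_al

open Filter Topology Set unitInterval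

universe u v w x y z

variable {E : Type v} [AddCommGroup E] [Module ℝ E] [TopologicalSpace E]
  [IsTopologicalAddGroup E] [ContinuousSMul ℝ E] [LocallyConvexSpace ℝ E] [T2Space E]
  {V : Type w} [AddCommGroup V] [Module ℝ V] [TopologicalSpace V] [IsTopologicalAddGroup V]
  [ContinuousSMul ℝ V] [LocallyConvexSpace ℝ V] [T2Space V]
  {H : Type u} [Group H] [TopologicalSpace H] [ChartedSpace E H] {act : H →* (V →L[ℝ] V)}

/-- a smooth action is jointly continuous -/
theorem IsSmoothAct.continuous (hact : IsSmoothAct E act) :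
    Continuous fun p : H × V => act p.1 p.2 := by
  rw [continuous_iff_continuousAt]
  rintro ⟨h₀, v₀⟩
  set ψ := chartAt E h₀ with hψ
  have hmem : h₀ ∈ ψ.source := mem_chart_source E h₀
  have hA := (hact ψ (chart_mem_atlas E h₀)).continuousOn
  have h1 : ContinuousOn (fun p : H × V => (ψ p.1, p.2)) (ψ.source ×ˢ univ) :=
    (ψ.continuousOn.comp continuousOn_fst fun p hp => hp.1).prodMk continuousOn_snd
  have h2 : ContinuousOn (fun p : H × V => act (ψ.symm (ψ p.1)) p.2) (ψ.source ×ˢ univ) :=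
    hA.comp h1 fun p hp => ⟨ψ.map_source hp.1, mem_univ _⟩
  have h3 : ContinuousOn (fun p : H × V => act p.1 p.2) (ψ.source ×ˢ univ) := by
    refine h2.congr fun p hp => ?_
    simp only [ψ.left_inv hp.1]
  exact h3.continuousAt ((ψ.open_source.prod isOpen_univ).mem_nhds ⟨hmem, mem_univ _⟩)

omit [IsTopologicalAddGroup E] [ContinuousSMul ℝ E] [LocallyConvexSpace ℝ E] [T2Space E]
  [Group H] [ChartedSpace E H] [AddCommGroup E] [Module ℝ E] in
theorem chart_dom_open (φ ψ : OpenPartialHomeomorph H E) :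
    IsOpen {x | x ∈ φ.target ∧ φ.symm x ∈ ψ.source} :=
  φ.continuousOn_symm.isOpen_inter_preimage φ.open_target ψ.open_source

theorem SD.isLieGroup (hH : IsLieGroup E H) (hact : IsSmoothAct E act) :
    IsLieGroup (V × E) (SD act) := by
  have htg := hH.isTopologicalGroup
  have hcm : Continuous fun p : SD act × SD act => p.1 * p.2 := by
    have h1 : Continuous fun p : (V × H) × (V × H) =>
        (p.1.1 + act p.1.2 p.2.1, p.1.2 * p.2.2) := by
      refine Continuous.prodMk ?_ ?_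
      · exact (continuous_fst.comp continuous_fst).add (hact.continuous.comp
          ((continuous_snd.comp continuous_fst).prodMk (continuous_fst.comp continuous_snd)))
      · exact (continuous_snd.comp continuous_fst).mul (continuous_snd.comp continuous_snd)
    exact h1
  have hci : Continuous fun p : SD act => p⁻¹ := by
    have h1 : Continuous fun p : V × H => (-(act p.2⁻¹ p.1), p.2⁻¹) := by
      refine Continuous.prodMk ?_ ?_
      · exact (hact.continuous.comp (continuous_snd.inv.prodMk continuous_fst)).neg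
      · exact continuous_snd.inv
    exact h1
  refine ⟨?_, hcm, ?_, hci, ?_⟩
  · rintro _ ⟨φ, hφ, rfl⟩ _ ⟨ψ, hψ, rfl⟩
    have h1 : BastianiSmooth (fun x : V × E => (x.1, ψ (φ.symm x.2)))
        {x | x.2 ∈ φ.target ∧ φ.symm x.2 ∈ ψ.source} := by
      refine BastianiSmooth.prodMk (BastianiSmooth.clm (ContinuousLinearMap.fst ℝ V E) _) ?_
      exact BastianiSmooth.comp (hH.chart_change φ hφ ψ hψ) (chart_dom_open φ ψ)
        (BastianiSmooth.clm (ContinuousLinearMap.snd ℝ V E) _) fun x hx => hx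
    exact h1.mono fun x hx => ⟨hx.1.2, hx.2.2⟩
  · rintro _ ⟨φ₁, hφ₁, rfl⟩ _ ⟨φ₂, hφ₂, rfl⟩ _ ⟨ψ, hψ, rfl⟩
    have h1 : BastianiSmooth (fun z : (V × E) × (V × E) =>
        (z.1.1 + act (φ₁.symm z.1.2) z.2.1, ψ (φ₁.symm z.1.2 * φ₂.symm z.2.2)))
        {z | (z.1.2 ∈ φ₁.target ∧ z.2.2 ∈ φ₂.target) ∧
          φ₁.symm z.1.2 * φ₂.symm z.2.2 ∈ ψ.source} := by
      refine BastianiSmooth.prodMk (BastianiSmooth.add ?_ ?_) ?_
      · exact BastianiSmooth.clm ((ContinuousLinearMap.fst ℝ V E).comp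
          (ContinuousLinearMap.fst ℝ (V × E) (V × E))) _
      · exact BastianiSmooth.comp (hact φ₁ hφ₁) (φ₁.open_target.prod isOpen_univ)
          (BastianiSmooth.clm (((ContinuousLinearMap.snd ℝ V E).comp
            (ContinuousLinearMap.fst ℝ (V × E) (V × E))).prod
            ((ContinuousLinearMap.fst ℝ V E).comp
            (ContinuousLinearMap.snd ℝ (V × E) (V × E)))) _)
          fun z hz => ⟨hz.1.1, mem_univ _⟩
      · exact BastianiSmooth.comp (hH.smooth_mul φ₁ hφ₁ φ₂ hφ₂ ψ hψ) (muld_open hH)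
          (BastianiSmooth.clm (((ContinuousLinearMap.snd ℝ V E).comp
            (ContinuousLinearMap.fst ℝ (V × E) (V × E))).prod
            ((ContinuousLinearMap.snd ℝ V E).comp
            (ContinuousLinearMap.snd ℝ (V × E) (V × E)))) _)
          fun z hz => hz
    exact h1.mono fun z hz => ⟨⟨hz.1.1.2, hz.1.2.2⟩, hz.2.2⟩
  · rintro _ ⟨φ, hφ, rfl⟩ _ ⟨ψ, hψ, rfl⟩
    have hci0 : ContinuousOn (fun x : E => (φ.symm x)⁻¹) φ.target :=
      htg.continuous_inv.comp_continuousOn φ.continuousOn_symm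
    have hW : IsOpen {x : E | x ∈ φ.target ∧ (φ.symm x)⁻¹ ∈ ψ.source} :=
      hci0.isOpen_inter_preimage φ.open_target ψ.open_source
    have hD : IsOpen {x : V × E | x.2 ∈ φ.target ∧ (φ.symm x.2)⁻¹ ∈ ψ.source} :=
      hW.preimage continuous_snd
    have h2 : BastianiSmooth (fun x : V × E => ψ ((φ.symm x.2)⁻¹))
        {x : V × E | x.2 ∈ φ.target ∧ (φ.symm x.2)⁻¹ ∈ ψ.source} :=
      BastianiSmooth.comp (hH.smooth_inv.2 φ hφ ψ hψ) hW
        (BastianiSmooth.clm (ContinuousLinearMap.snd ℝ V E) _) fun x hx => hx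
    have h3 : BastianiSmooth (fun x : V × E => -(act (ψ.symm (ψ ((φ.symm x.2)⁻¹))) x.1))
        {x : V × E | x.2 ∈ φ.target ∧ (φ.symm x.2)⁻¹ ∈ ψ.source} := by
      have h4 := BastianiSmooth.comp (hact ψ hψ) (ψ.open_target.prod isOpen_univ)
        (h2.prodMk (BastianiSmooth.clm (ContinuousLinearMap.fst ℝ V E) _))
        fun x hx => ⟨ψ.map_source hx.2, mem_univ _⟩
      exact BastianiSmooth.comp (BastianiSmooth.clm (-ContinuousLinearMap.id ℝ V) univ)
        isOpen_univ h4 fun x _ => mem_univ _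
    have h5 : BastianiSmooth (fun x : V × E => -(act (φ.symm x.2)⁻¹ x.1))
        {x : V × E | x.2 ∈ φ.target ∧ (φ.symm x.2)⁻¹ ∈ ψ.source} := by
      refine h3.congr hD fun x hx => ?_
      simp only [ψ.left_inv hx.2]
    have h6 : BastianiSmooth (fun x : V × E => (-(act (φ.symm x.2)⁻¹ x.1), ψ ((φ.symm x.2)⁻¹)))
        {x : V × E | x.2 ∈ φ.target ∧ (φ.symm x.2)⁻¹ ∈ ψ.source} := h5.prodMk h2
    exact h6.mono fun x hx => ⟨hx.1.2, hx.2.2⟩

/-- the semidirect product as a Lie group -/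
def sdLie [T2Space H] (hH : IsLieGroup E H) (hact : IsSmoothAct E act) :
    LieGrp.{max w u, max w v} where
  carrier := SD act
  model := V × E
  lie := SD.isLieGroup hH hact

theorem SD.inr_smooth (hH : IsLieGroup E H) (hact : IsSmoothAct E act) :
    SmoothMap E (V × E) (SD.inr act) := by
  constructor
  · have h1 : Continuous fun h : H => ((0 : V), h) := by fun_prop
    exact h1
  · rintro φ hφ _ ⟨ψ, hψ, rfl⟩
    have h1 : BastianiSmooth (fun x : E => ((0 : V), ψ (φ.symm x)))
        {x | x ∈ φ.target ∧ φ.symm x ∈ ψ.source} :=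
      (BastianiSmooth.const (0 : V) _).prodMk (hH.chart_change φ hφ ψ hψ)
    exact h1.mono fun x hx => ⟨hx.1, hx.2.2⟩

theorem SD.twist_smooth (hH : IsLieGroup E H) (hact : IsSmoothAct E act) (f : V) :
    SmoothMap E (V × E) (SD.twist act f) := by
  constructor
  · have h1 : Continuous fun h : H => (f - act h f, h) :=
      (continuous_const.sub (hact.continuous.comp (continuous_id.prodMk continuous_const))).prodMk
        continuous_id
    exact h1
  · rintro φ hφ _ ⟨ψ, hψ, rfl⟩
    have h0 : BastianiSmooth (fun x : E => -(act (φ.symm x) f)) φ.target := by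
      have h4 := BastianiSmooth.comp (hact φ hφ) (φ.open_target.prod isOpen_univ)
        ((BastianiSmooth.clm (ContinuousLinearMap.id ℝ E) φ.target).prodMk
          (BastianiSmooth.const f φ.target)) fun x hx => ⟨hx, mem_univ _⟩
      exact BastianiSmooth.comp (BastianiSmooth.clm (-ContinuousLinearMap.id ℝ V) univ)
        isOpen_univ h4 fun x _ => mem_univ _
    have h2 : BastianiSmooth (fun x : E => f - act (φ.symm x) f) φ.target := by
      have h5 := (BastianiSmooth.const f φ.target).add h0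
      simpa only [← sub_eq_add_neg] using h5
    have h1 : BastianiSmooth (fun x : E => (f - act (φ.symm x) f, ψ (φ.symm x)))
        {x | x ∈ φ.target ∧ φ.symm x ∈ ψ.source} :=
      (h2.mono fun x hx => hx.1).prodMk (hH.chart_change φ hφ ψ hψ)
    exact h1.mono fun x hx => ⟨hx.1, hx.2.2⟩

end Pool.Agent.Lib.MP_862e0f_al
end

section

/-!
# A criterion for smoothness of a linear action
-/

set_option autoImplicit false
set_option linter.unusedSectionVars false

namespace Pool.Agent.Lib.MP_862e0f_al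

open Filter Topology Set unitInterval

universe u v w x y z

variable {E : Type v} [AddCommGroup E] [Module ℝ E] [TopologicalSpace E]
  [IsTopologicalAddGroup E] [ContinuousSMul ℝ E] [LocallyConvexSpace ℝ E] [T2Space E]
  {V : Type w} [AddCommGroup V] [Module ℝ V] [TopologicalSpace V] [IsTopologicalAddGroup V]
  [ContinuousSMul ℝ V] [LocallyConvexSpace ℝ V] [T2Space V]
  {H : Type u} [Group H] [TopologicalSpace H] [ChartedSpace E H] {act : H →* (V →L[ℝ] V)}

/-- Let the action be jointly continuous, and let its derivative be given by a continuous bilinear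
map `R`: then the action is smooth. Induction on `k`: for `F (u, v) = act (ψ.symm u) v` one has
`dF ((u, v), (w, z)) = -R (ω (u, w)) (F (u, v)) + F (u, z)` with `ω = omegaR ψ`, so if `F` is
`C^k` then `dF` is `C^k` (chain rule for `BastianiCk`, from `ParCk.comp` with `T = Unit`;
`omegaR_smooth`; `IsContBilin.parCk`). -/
theorem isSmoothAct_of_deriv (hH : IsLieGroup E H)
    (hcont : Continuous fun p : H × V => act p.1 p.2) {R : E → V → V} (hR : IsContBilin R)
    (hd : ∀ ψ ∈ atlas E H, ∀ u ∈ ψ.target, ∀ (w : E) (v : V),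
      HasDirDeriv (fun z => act (ψ.symm z) v) u w
        (-(R (omegaR ψ (u, w)) (act (ψ.symm u) v)))) : IsSmoothAct E act := by
  intro ψ hψ
  have hc : ContinuousOn (fun z : E × V => act (ψ.symm z.1) z.2) (ψ.target ×ˢ univ) :=
    hcont.comp_continuousOn
      ((ψ.symm.continuousOn.comp continuousOn_fst fun z hz => hz.1).prodMk continuousOn_snd)
  intro k
  induction k with
  | zero => exact hc
  | succ k ih =>
    refine ⟨hc, fun q => -(R (omegaR ψ (q.1.1, q.2.1)) (act (ψ.symm q.1.1) q.1.2)) +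
      act (ψ.symm q.1.1) q.2.2, ?_, ?_⟩
    · rintro ⟨u, v⟩ ⟨hu, -⟩ ⟨w, z⟩
      have h1 := hd ψ hψ u hu w v
      have h2 : Tendsto (fun t : ℝ => act (ψ.symm (u + t • w)) z) (𝓝[≠] 0)
          (𝓝 (act (ψ.symm u) z)) := by
        have h3 : ContinuousAt (fun y : E => act (ψ.symm y) z) u := by
          have h4 : ContinuousAt (fun y : E => (ψ.symm y, z)) u :=
            (ψ.symm.continuousAt hu).prodMk continuousAt_const
          exact ContinuousAt.comp (f := fun y : E => (ψ.symm y, z)) hcont.continuousAt h4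
        have h5 : Tendsto (fun t : ℝ => u + t • w) (𝓝[≠] 0) (𝓝 u) := by
          have hc : Continuous (fun t : ℝ => u + t • w) := by fun_prop
          have := hc.tendsto 0
          rw [zero_smul, add_zero] at this
          exact this.mono_left nhdsWithin_le_nhds
        exact h3.tendsto.comp h5
      have h6 := Tendsto.add h1 h2
      refine Tendsto.congr' ?_ h6
      filter_upwards [self_mem_nhdsWithin] with t ht
      have ht' : t ≠ 0 := ht
      show t⁻¹ • (act (ψ.symm (u + t • w)) v - act (ψ.symm u) v) + act (ψ.symm (u + t • w)) z =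
        t⁻¹ • (act (ψ.symm (u + t • w)) (v + t • z) - act (ψ.symm u) v)
      rw [map_add, map_smul, add_sub_right_comm, smul_add, smul_smul, inv_mul_cancel₀ ht',
        one_smul]
    · have hF : ParCk Unit k (E × V) V (fun _ z => act (ψ.symm z.1) z.2)
          {p : Unit × (E × V) | p.2 ∈ ψ.target ×ˢ (univ : Set V)} := ParCk.of_bastiani ih
      have hom : ParCk Unit k (E × E) E (fun _ => omegaR ψ)
          {p : Unit × (E × E) | p.2 ∈ ψ.target ×ˢ (univ : Set E)} :=
        ParCk.of_bastiani (omegaR_smooth hH hψ k)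
      set U : Set (Unit × ((E × V) × (E × V))) := {q | q.2 ∈ (ψ.target ×ˢ univ) ×ˢ univ}
      let L1 : ((E × V) × (E × V)) →L[ℝ] E × E :=
        ((ContinuousLinearMap.fst ℝ E V).comp (ContinuousLinearMap.fst ℝ (E × V) (E × V))).prod
          ((ContinuousLinearMap.fst ℝ E V).comp (ContinuousLinearMap.snd ℝ (E × V) (E × V)))
      let L0 : ((E × V) × (E × V)) →L[ℝ] E × V := ContinuousLinearMap.fst ℝ (E × V) (E × V)
      let L2 : ((E × V) × (E × V)) →L[ℝ] E × V :=
        ((ContinuousLinearMap.fst ℝ E V).comp (ContinuousLinearMap.fst ℝ (E × V) (E × V))).prod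
          ((ContinuousLinearMap.snd ℝ E V).comp (ContinuousLinearMap.snd ℝ (E × V) (E × V)))
      have h1 : ParCk Unit k ((E × V) × (E × V)) E (fun _ q => omegaR ψ (L1 q)) U :=
        (ParCk.comp_right L1 hom).mono fun q hq => ⟨hq.1.1, mem_univ _⟩
      have h0 : ParCk Unit k ((E × V) × (E × V)) V
          (fun _ q => act (ψ.symm (L0 q).1) (L0 q).2) U :=
        (ParCk.comp_right L0 hF).mono fun q hq => ⟨hq.1.1, mem_univ _⟩
      have h2 : ParCk Unit k ((E × V) × (E × V)) V
          (fun _ q => act (ψ.symm (L2 q).1) (L2 q).2) U :=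
        (ParCk.comp_right L2 hF).mono fun q hq => ⟨hq.1.1, mem_univ _⟩
      have h3 : ParCk Unit k ((E × V) × (E × V)) V
          (fun _ q => R (omegaR ψ (L1 q)) (act (ψ.symm (L0 q).1) (L0 q).2)) U :=
        ParCk.comp (hR.parCk k) isOpen_univ (h1.prodMk h0) fun _ _ => mem_univ _
      have h4 := (h3.prodMk h2).clm_comp
        (-(ContinuousLinearMap.fst ℝ V V) + ContinuousLinearMap.snd ℝ V V)
      exact h4.bastiani ()

end Pool.Agent.Lib.MP_862e0f_al
end

section

/-!
# Changing the model space by a linear homeomorphism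
-/

set_option autoImplicit false
set_option linter.unusedSectionVars false

namespace Pool.Agent.Lib.MP_862e0f_al

open Filter Topology Set unitInterval

universe u v w x y z

variable {E : Type v} [AddCommGroup E] [Module ℝ E] [TopologicalSpace E]
  [IsTopologicalAddGroup E] [ContinuousSMul ℝ E] [LocallyConvexSpace ℝ E] [T2Space E]
  {F : Type w} [AddCommGroup F] [Module ℝ F] [TopologicalSpace F]
  [IsTopologicalAddGroup F] [ContinuousSMul ℝ F] [LocallyConvexSpace ℝ F] [T2Space F]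
  {H : Type u} [Group H] [TopologicalSpace H] [ChartedSpace E H]

/-- the chart `φ`, with values in `F` -/
def chartTrans (e : E ≃L[ℝ] F) (φ : OpenPartialHomeomorph H E) : OpenPartialHomeomorph H F :=
  φ.trans e.toHomeomorph.toOpenPartialHomeomorph

private theorem chartTrans_apply (e : E ≃L[ℝ] F) (φ : OpenPartialHomeomorph H E) (g : H) :
    chartTrans e φ g = e (φ g) := rfl

private theorem chartTrans_symm_apply (e : E ≃L[ℝ] F) (φ : OpenPartialHomeomorph H E) (y : F) :
    (chartTrans e φ).symm y = φ.symm (e.symm y) := rfl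

private theorem chartTrans_source (e : E ≃L[ℝ] F) (φ : OpenPartialHomeomorph H E) :
    (chartTrans e φ).source = φ.source := by
  unfold chartTrans
  rw [OpenPartialHomeomorph.trans_source]
  simp

private theorem mem_chartTrans_target (e : E ≃L[ℝ] F) (φ : OpenPartialHomeomorph H E) (y : F) :
    y ∈ (chartTrans e φ).target ↔ e.symm y ∈ φ.target := by
  unfold chartTrans
  rw [OpenPartialHomeomorph.trans_target]
  simp

variable (H) in
/-- the charted space structure over `F` -/
@[reducible]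
def chartedTrans (e : E ≃L[ℝ] F) : ChartedSpace F H where
  atlas := {ψ | ∃ φ ∈ atlas E H, ψ = chartTrans e φ}
  chartAt x := chartTrans e (chartAt E x)
  mem_chart_source x := by
    rw [chartTrans_source]
    exact mem_chart_source E x
  chart_mem_atlas x := ⟨chartAt E x, chart_mem_atlas E x, rfl⟩

private theorem sandwich {A : Type x} {B : Type y} {A' : Type v} {B' : Type w}
    [AddCommGroup A] [Module ℝ A] [TopologicalSpace A] [IsTopologicalAddGroup A]
    [ContinuousSMul ℝ A]
    [AddCommGroup B] [Module ℝ B] [TopologicalSpace B] [IsTopologicalAddGroup B]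
    [ContinuousSMul ℝ B] [LocallyConvexSpace ℝ B]
    [AddCommGroup A'] [Module ℝ A'] [TopologicalSpace A'] [IsTopologicalAddGroup A']
    [ContinuousSMul ℝ A']
    [AddCommGroup B'] [Module ℝ B'] [TopologicalSpace B'] [IsTopologicalAddGroup B']
    [ContinuousSMul ℝ B'] [LocallyConvexSpace ℝ B']
    (L : A' →L[ℝ] A) (M : B →L[ℝ] B') {f : A → B} {U : Set A} (hU : IsOpen U)
    (hf : BastianiSmooth f U) {V : Set A'} (hV : ∀ x ∈ V, L x ∈ U) :
    BastianiSmooth (fun x => M (f (L x))) V :=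
  (BastianiSmooth.clm M univ).comp isOpen_univ
    (hf.comp hU (BastianiSmooth.clm L V) hV) fun _ _ => mem_univ _

private theorem isOpen_change (φ ψ : OpenPartialHomeomorph H E) {g : H → H} (hg : Continuous g) :
    IsOpen {x | x ∈ φ.target ∧ g (φ.symm x) ∈ ψ.source} :=
  (hg.comp_continuousOn φ.continuousOn_symm).isOpen_inter_preimage φ.open_target ψ.open_source

theorem isLieGroup_trans (hH : IsLieGroup E H) (e : E ≃L[ℝ] F) :
    @IsLieGroup F _ _ _ H _ _ (chartedTrans H e) := by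
  let _ : ChartedSpace F H := chartedTrans H e
  refine ⟨?_, hH.continuous_mul, ?_, hH.smooth_inv.1, ?_⟩
  · rintro _ ⟨φ, hφ, rfl⟩ _ ⟨ψ, hψ, rfl⟩
    refine sandwich (e.symm : F →L[ℝ] E) (e : E →L[ℝ] F)
      (isOpen_change φ ψ continuous_id) (hH.chart_change φ hφ ψ hψ) ?_
    rintro y ⟨h1, h2⟩
    rw [mem_chartTrans_target] at h1
    rw [chartTrans_source] at h2
    exact ⟨h1, h2⟩
  · rintro _ ⟨φ₁, h₁, rfl⟩ _ ⟨φ₂, h₂, rfl⟩ _ ⟨ψ, hψ, rfl⟩
    have ho : IsOpen {z : E × E | (z.1 ∈ φ₁.target ∧ z.2 ∈ φ₂.target) ∧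
        φ₁.symm z.1 * φ₂.symm z.2 ∈ ψ.source} := by
      have hc : ContinuousOn (fun z : E × E => φ₁.symm z.1 * φ₂.symm z.2)
          (φ₁.target ×ˢ φ₂.target) := by
        refine hH.continuous_mul.comp_continuousOn (ContinuousOn.prodMk ?_ ?_)
        · exact φ₁.continuousOn_symm.comp continuousOn_fst fun z hz => hz.1
        · exact φ₂.continuousOn_symm.comp continuousOn_snd fun z hz => hz.2
      exact hc.isOpen_inter_preimage (φ₁.open_target.prod φ₂.open_target) ψ.open_source
    refine sandwich ((e.symm : F →L[ℝ] E).prodMap (e.symm : F →L[ℝ] E)) (e : E →L[ℝ] F)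
      ho (hH.smooth_mul φ₁ h₁ φ₂ h₂ ψ hψ) ?_
    rintro y ⟨⟨h1, h2⟩, h3⟩
    rw [mem_chartTrans_target] at h1 h2
    rw [chartTrans_source] at h3
    exact ⟨⟨h1, h2⟩, h3⟩
  · rintro _ ⟨φ, hφ, rfl⟩ _ ⟨ψ, hψ, rfl⟩
    refine sandwich (e.symm : F →L[ℝ] E) (e : E →L[ℝ] F)
      (isOpen_change φ ψ hH.smooth_inv.1) (hH.smooth_inv.2 φ hφ ψ hψ) ?_
    rintro y ⟨h1, h2⟩
    rw [mem_chartTrans_target] at h1
    rw [chartTrans_source] at h2
    exact ⟨h1, h2⟩

/-- a map which is smooth on `H` modelled on `F` is smooth on `H` modelled on `E` -/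
theorem smoothMap_trans (e : E ≃L[ℝ] F) {X : Type x} [AddCommGroup X] [Module ℝ X]
    [TopologicalSpace X] [IsTopologicalAddGroup X] [ContinuousSMul ℝ X] [LocallyConvexSpace ℝ X]
    [T2Space X] {N : Type y} [TopologicalSpace N] [ChartedSpace X N] {f : H → N}
    (h : @SmoothMap F _ _ _ H _ (chartedTrans H e) X _ _ _ N _ _ f) : SmoothMap E X f := by
  refine ⟨h.1, fun φ hφ ψ hψ => ?_⟩
  have h2 := h.2 (chartTrans e φ) ⟨φ, hφ, rfl⟩ ψ hψ
  have ho : IsOpen {x | x ∈ (chartTrans e φ).target ∧ f ((chartTrans e φ).symm x) ∈ ψ.source} :=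
    (h.1.comp_continuousOn (chartTrans e φ).continuousOn_symm).isOpen_inter_preimage
      (chartTrans e φ).open_target ψ.open_source
  have h3 := h2.comp ho (BastianiSmooth.clm (e : E →L[ℝ] F)
    {x | x ∈ φ.target ∧ f (φ.symm x) ∈ ψ.source}) ?_
  · refine (funext fun x => ?_ : (fun x : E => ψ (f (φ.symm x))) = _) ▸ h3
    change _ = ψ (f ((chartTrans e φ).symm (e x)))
    rw [chartTrans_symm_apply, e.symm_apply_apply]
  · rintro x ⟨h4, h5⟩
    change (e x) ∈ (chartTrans e φ).target ∧ f ((chartTrans e φ).symm (e x)) ∈ ψ.source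
    rw [mem_chartTrans_target, chartTrans_symm_apply, e.symm_apply_apply]
    exact ⟨h4, h5⟩

end Pool.Agent.Lib.MP_862e0f_al
end
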