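import Pool.Agent.Lib.MP_862e0f_P.Mg.G002
import Pool.Agent.Lib.MP_862e0f_al.Mg.G001
import Pool.Agent.Lib.MP_862e0f_al.Mg.G002

section

/-!
# Weak directional derivatives
-/

set_option autoImplicit false
set_option linter.unusedSectionVars false

namespace Pool.Agent.Lib.MP_862e0f_al

open Filter Topology Set unitInterval

universe u v w x y z

/-- A map `f : E → V` which has weak directional derivatives `g z` in the direction `w`, tested by
a separating family of functionals, with `g` continuous, has the directional derivative `g`.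
Proof: for small `a` the curve `c_a τ = g (u + (τ * a) • w)` on `[0, 1]` is continuous; with
`C_a = integ c_a`, the real functions `τ ↦ ev i (f (u + (τ * a) • w))` and
`τ ↦ a * ev i (C_a τ)` have the same derivative, so `f (u + a • w) - f u = a • C_a 1`, and
`C_a 1 → C_0 1 = g u` as `a → 0` (`continuousAt_integ`, `integ_const`). -/
theorem hasDirDeriv_of_weak {E : Type u} {V : Type v} {ι : Type w}
    [AddCommGroup E] [Module ℝ E] [TopologicalSpace E] [IsTopologicalAddGroup E]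
    [ContinuousSMul ℝ E] [AddCommGroup V] [Module ℝ V] [TopologicalSpace V]
    [IsTopologicalAddGroup V] [ContinuousSMul ℝ V] [LocallyConvexSpace ℝ V] [T2Space V]
    (hV : HasAnti V) {ev : ι → V →L[ℝ] ℝ} (hsep : ∀ v : V, (∀ i, ev i v = 0) → v = 0)
    {f g : E → V} {U : Set E} (hU : IsOpen U) (hg : ContinuousOn g U) {u w : E} (hu : u ∈ U)
    (hd : ∀ i, ∀ z ∈ U, HasDirDeriv (fun z => ev i (f z)) z w (ev i (g z))) :
    HasDirDeriv f u w (g u) := by
  -- the line stays in `U`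
  have hlin : Continuous fun r : ℝ => u + r • w := by fun_prop
  have h0 : ∀ᶠ r in 𝓝 (0 : ℝ), u + r • w ∈ U := by
    have h1 : Tendsto (fun r : ℝ => u + r • w) (𝓝 0) (𝓝 u) := by
      have := hlin.tendsto 0
      simpa using this
    exact h1.eventually (hU.mem_nhds hu)
  obtain ⟨δ, hδ, hb⟩ := Metric.eventually_nhds_iff.mp h0
  have hmem : ∀ r : ℝ, |r| < δ → u + r • w ∈ U := fun r hr => hb (by simpa using hr)
  have hmemI : ∀ a : ℝ, |a| < δ → ∀ t : I, u + ((t : ℝ) * a) • w ∈ U := by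
    intro a ha t
    apply hmem
    rw [abs_mul, abs_of_nonneg t.2.1]
    calc (t : ℝ) * |a| ≤ 1 * |a| := mul_le_mul_of_nonneg_right t.2.2 (abs_nonneg a)
      _ = |a| := one_mul _
      _ < δ := ha
  -- the curves
  set F : I → ℝ → V := fun t a => g (u + ((t : ℝ) * a) • w) with hF
  have hcont : ∀ a : ℝ, |a| < δ → Continuous fun t : I => F t a := by
    intro a ha
    have hc : Continuous fun t : I => u + ((t : ℝ) * a) • w := by fun_prop
    rw [continuous_iff_continuousAt]
    intro t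
    exact (hg.continuousAt (hU.mem_nhds (hmemI a ha t))).comp
      (f := fun t : I => u + ((t : ℝ) * a) • w) hc.continuousAt
  have hsm : ∀ᶠ a in 𝓝 (0 : ℝ), |a| < δ := by
    rw [Metric.eventually_nhds_iff]
    exact ⟨δ, hδ, fun a ha => by simpa using ha⟩
  have h2 : ∀ s : I, ContinuousAt (Function.uncurry F) (s, 0) := by
    intro s
    have hc : Continuous fun p : I × ℝ => u + ((p.1 : ℝ) * p.2) • w := by fun_prop
    have hgu : ContinuousAt g ((fun p : I × ℝ => u + ((p.1 : ℝ) * p.2) • w) (s, 0)) := by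
      have : (fun p : I × ℝ => u + ((p.1 : ℝ) * p.2) • w) (s, 0) = u := by simp
      rw [this]
      exact hg.continuousAt (hU.mem_nhds hu)
    exact hgu.comp (f := fun p : I × ℝ => u + ((p.1 : ℝ) * p.2) • w) hc.continuousAt
  have h3 := continuousAt_integ hV (F := F) (x₀ := (0 : ℝ)) (hsm.mono hcont) h2 (1 : I)
  have h4 : Tendsto (fun a : ℝ => integ (fun s => F s a) 1) (𝓝 0) (𝓝 (g u)) := by
    have h5 : ContinuousAt (fun a : ℝ => ((1 : I), a)) 0 := by fun_prop
    have h6 := ContinuousAt.comp (f := fun a : ℝ => ((1 : I), a))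
      (g := fun p : I × ℝ => integ (fun s => F s p.2) p.1) (x := (0 : ℝ)) h3 h5
    have h7 : (fun s : I => F s 0) = fun _ => g u := by
      funext s
      simp [hF]
    have h8 : Tendsto (fun a : ℝ => integ (fun s => F s a) 1) (𝓝 0)
        (𝓝 (integ (fun s : I => F s 0) 1)) := h6
    rw [h7, integ_const] at h8
    simpa using h8
  -- the formula for the difference quotient
  have key : ∀ a : ℝ, |a| < δ → a ≠ 0 → f (u + a • w) - f u = a • integ (fun s => F s a) 1 := by
    intro a ha ha0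
    rw [← sub_eq_zero]
    apply hsep
    intro i
    have hi : (fun s : I => ev i (f (u + ((s : ℝ) * a) • w)) - ev i (f u)) =
        fun s : I => (a • ev i) (integ (fun s => F s a) s) := by
      refine eq_of_hasIDeriv (c := fun t : I => a * ev i (F t a)) ?_ ?_ ?_
      · intro t
        have h9 := hd i _ (hmemI a ha t)
        have hm : Tendsto (fun s : I => ((s : ℝ) - t) * a) (𝓝[≠] t) (𝓝[≠] 0) := by
          apply tendsto_nhdsWithin_of_tendsto_nhds_of_eventually_within
          · have hc : Continuous fun s : I => ((s : ℝ) - t) * a := by fun_prop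
            have h10 := hc.tendsto t
            rw [sub_self, zero_mul] at h10
            exact h10.mono_left nhdsWithin_le_nhds
          · filter_upwards [self_mem_nhdsWithin] with s hs
            refine mul_ne_zero (sub_ne_zero.mpr ?_) ha0
            intro h
            exact hs (Subtype.ext h)
        have h11 := (h9.comp hm).const_smul a
        refine Tendsto.congr (fun s => ?_) h11
        simp only [Function.comp_apply, smul_eq_mul]
        have e1 : u + ((t : ℝ) * a) • w + (((s : ℝ) - t) * a) • w = u + ((s : ℝ) * a) • w := by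
          rw [add_assoc, ← add_smul]
          congr 2
          ring
        rw [e1, ← mul_assoc, mul_inv, mul_comm ((s : ℝ) - t)⁻¹ a⁻¹, ← mul_assoc,
          mul_inv_cancel₀ ha0, one_mul]
        congr 1
        ring
      · intro t
        have h12 := (integ_spec hV (hcont a ha)).2 t
        exact h12.clm (a • ev i)
      · rw [(integ_spec hV (hcont a ha)).1]
        simp
    have h13 := congrFun hi 1
    simp only [Set.Icc.coe_one, one_mul, FunLike.coe_smul, Pi.smul_apply,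
      smul_eq_mul] at h13
    rw [map_sub, map_sub, map_smul, smul_eq_mul, h13, sub_self]
  have h14 : Tendsto (fun a : ℝ => integ (fun s => F s a) 1) (𝓝[≠] 0) (𝓝 (g u)) :=
    h4.mono_left nhdsWithin_le_nhds
  refine h14.congr' ?_
  filter_upwards [hsm.filter_mono nhdsWithin_le_nhds, self_mem_nhdsWithin] with a ha ha0
  rw [key a ha ha0, smul_smul, inv_mul_cancel₀ ha0, one_smul]

end Pool.Agent.Lib.MP_862e0f_al
end

section

/-!
# Smooth dependence on parameters (TASK EV Sm)

`X` is a finite-dimensional normed space of parameters. Proofs.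
`contDiff_toE`: there is a continuous linear projection `π : V → E n` with `π x = x` on `E n`
(`Submodule.ClosedComplemented.of_finiteDimensional`), and `toE T n (f x) = π (f x)`.
`smooth_op`: `T.op (f x) (g x) = (fun z => T.op z.1 z.2) (toE T n (f x), toE T n (g x))`.
`smooth_Afac`: finite sum of products of constants with `pen j n` of a smooth map.
`smooth_nxt`: apply `exists_radial` to `A (x, r) = Afac (s x) (s x n + r • v x)` (smooth on
`X × ℝ`; `one_le_Afac`, `Afac_ray`); by uniqueness `tau .. = τ x`, so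
`nxt .. = s x n + τ x • v x`. The rest is induction on `n`.
-/

set_option autoImplicit false

namespace Pool.Agent.Lib.MP_862e0f_al.EV

open Filter Topology Set
open scoped ContDiff

variable {V : Type} [NormedAddCommGroup V] [NormedSpace ℝ V] {T : Tower V} (G : Gear T)
  {W : ℕ → ℕ → ℝ} {X : Type} [NormedAddCommGroup X] [NormedSpace ℝ X]

theorem toE_coe {n : ℕ} {y : V} (h : y ∈ T.E n) : ((toE T n y : T.E n) : V) = y := by
  unfold toE
  rw [dif_pos h]

theorem contDiff_toE {n : ℕ} {f : X → V} (hf : ContDiff ℝ ∞ f) (hE : ∀ x, f x ∈ T.E n) :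
    ContDiff ℝ ∞ (fun x => toE T n (f x)) := by
  obtain ⟨π, hπ⟩ := Submodule.ClosedComplemented.of_finiteDimensional (T.E n)
  have h : (fun x => toE T n (f x)) = fun x => π (f x) := by
    funext x
    have h1 := hπ ⟨f x, hE x⟩
    have h2 : π (f x) = ⟨f x, hE x⟩ := h1
    rw [h2]
    exact Subtype.ext (toE_coe (hE x))
  rw [h]
  exact π.contDiff.comp hf

theorem smooth_op {n : ℕ} {f g : X → V} (hf : ContDiff ℝ ∞ f) (hfE : ∀ x, f x ∈ T.E n)
    (hg : ContDiff ℝ ∞ g) (hgE : ∀ x, g x ∈ T.E n) :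
    ContDiff ℝ ∞ (fun x => T.op (f x) (g x)) := by
  have h := (T.op_smooth n).comp ((contDiff_toE hf hfE).prodMk (contDiff_toE hg hgE))
  have h1 : (fun x => T.op (f x) (g x)) =
      (fun z : T.E n × T.E n => T.op (z.1 : V) (z.2 : V)) ∘
        (fun x => (toE T n (f x), toE T n (g x))) := by
    funext x
    change T.op (f x) (g x) = T.op ((toE T n (f x) : T.E n) : V) ((toE T n (g x) : T.E n) : V)
    rw [toE_coe (hfE x), toE_coe (hgE x)]
  rw [h1]
  exact h

theorem smooth_iv {n : ℕ} {f : X → V} (hf : ContDiff ℝ ∞ f) (hfE : ∀ x, f x ∈ T.E n) :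
    ContDiff ℝ ∞ (fun x => T.iv (f x)) := by
  have h := (T.iv_smooth n).comp (contDiff_toE hf hfE)
  have h1 : (fun x => T.iv (f x)) =
      (fun z : T.E n => T.iv (z : V)) ∘ (fun x => toE T n (f x)) := by
    funext x
    change T.iv (f x) = T.iv ((toE T n (f x) : T.E n) : V)
    rw [toE_coe (hfE x)]
  rw [h1]
  exact h

theorem smooth_Afac {t n : ℕ} {s : X → ℕ → V} (hs : ∀ j, ContDiff ℝ ∞ (fun x => s x j))
    {y : X → V} (hy : ContDiff ℝ ∞ y) : ContDiff ℝ ∞ (fun x => Afac G W t n (s x) (y x)) := by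
  unfold Afac
  refine contDiff_const.add (ContDiff.sum fun j _ => ?_)
  exact contDiff_const.mul ((G.pen_smooth j n).comp (hy.sub (hs j)))

theorem smooth_nxt [FiniteDimensional ℝ X] (hW : ∀ k n, 0 ≤ W k n) {t n : ℕ} {s : X → ℕ → V}
    (hs : ∀ j, ContDiff ℝ ∞ (fun x => s x j)) (hg : ∀ x, Good T n (s x)) {v : X → V}
    (hv : ContDiff ℝ ∞ v) (hE : ∀ x, v x ∈ T.E (n + 1)) :
    ContDiff ℝ ∞ (fun x => nxt G W t n (s x) (v x)) := by
  have hA : ContDiff ℝ ∞ (fun z : X × ℝ => Afac G W t n (s z.1) (s z.1 n + z.2 • v z.1)) := by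
    refine smooth_Afac G (s := fun z : X × ℝ => s z.1)
      (y := fun z : X × ℝ => s z.1 n + z.2 • v z.1) (fun j => (hs j).comp contDiff_fst) ?_
    exact ((hs n).comp contDiff_fst).add (contDiff_snd.smul (hv.comp contDiff_fst))
  obtain ⟨τ, hτ1, -, hτ3⟩ := exists_radial _ hA
    (fun z => one_le_Afac G hW t n _ _)
    (fun x r => Afac_ray G hW (hg x) (hE x) r)
  have h : (fun x => nxt G W t n (s x) (v x)) = fun x => s x n + τ x • v x := by
    funext x
    unfold nxt
    rw [hτ3 x _ (tau_spec G hW (hg x) (hE x))]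
  rw [h]
  exact (hs n).add (hτ1.smul hv)

theorem smooth_updst {n : ℕ} {s : X → ℕ → V} (hs : ∀ j, ContDiff ℝ ∞ (fun x => s x j))
    {y : X → V} (hy : ContDiff ℝ ∞ y) (j : ℕ) :
    ContDiff ℝ ∞ (fun x => updst G n (s x) (y x) j) := by
  rcases Nat.lt_or_ge n j with h | h
  · have h1 : (fun x => updst G n (s x) (y x) j) = y := by
      funext x
      exact updst_gt G h (s x) (y x)
    rw [h1]
    exact hy
  · have h1 : (fun x => updst G n (s x) (y x) j) =
        fun x => s x j + G.upd j n (y x - s x j) • (y x - s x j) := by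
      funext x
      exact updst_le G h (s x) (y x)
    rw [h1]
    exact (hs j).add (((G.upd_smooth j n).comp (hy.sub (hs j))).smul (hy.sub (hs j)))

theorem smooth_obs {n : ℕ} {Z : X → ℕ → V} (hZ : ∀ a, a ≤ n → ContDiff ℝ ∞ (fun x => Z x a))
    (j : ℕ) : ContDiff ℝ ∞ (fun x => obs G (Z x) n j) := by
  induction n generalizing j with
  | zero => exact hZ 0 le_rfl
  | succ n ih =>
    exact smooth_updst G (s := fun x => obs G (Z x) n)
      (fun j => ih (fun a ha => hZ a (by omega)) j) (hZ (n + 1) le_rfl) j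

theorem smooth_st [FiniteDimensional ℝ X] (hW : ∀ k n, 0 ≤ W k n) {v : X → ℕ → V}
    (hv : ∀ a, ContDiff ℝ ∞ (fun x => v x a)) (hE : ∀ x a, v x a ∈ T.E a) (n j : ℕ) :
    ContDiff ℝ ∞ (fun x => st G W (v x) n j) := by
  induction n generalizing j with
  | zero => exact hv 0
  | succ n ih =>
    exact smooth_updst G (s := fun x => st G W (v x) n) (fun j => ih j)
      (smooth_nxt G hW (s := fun x => st G W (v x) n) (fun j => ih j)
        (fun x => st_good G (hE x) n) (hv (n + 1)) (fun x => hE x (n + 1))) j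

theorem smooth_Gv [FiniteDimensional ℝ X] (hW : ∀ k n, 0 ≤ W k n) {v : X → ℕ → V}
    (hv : ∀ a, ContDiff ℝ ∞ (fun x => v x a)) (hE : ∀ x a, v x a ∈ T.E a) (n : ℕ) :
    ContDiff ℝ ∞ (fun x => Gv G W (v x) n) :=
  smooth_st G hW hv hE n n

theorem smooth_Gt [FiniteDimensional ℝ X] (hW : ∀ k n, 0 ≤ W k n) {t : ℕ} {v : X → ℕ → V}
    (hv : ∀ a, ContDiff ℝ ∞ (fun x => v x a)) (hE : ∀ x a, v x a ∈ T.E a) (n : ℕ) :
    ContDiff ℝ ∞ (fun x => Gt G W t (v x) n) := by
  cases n with
  | zero => exact hv 0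
  | succ n =>
    exact smooth_nxt G hW (s := fun x => st G W (v x) n) (fun j => smooth_st G hW hv hE n j)
      (fun x => st_good G (hE x) n) (hv (n + 1)) (fun x => hE x (n + 1))

theorem smooth_crd1 {t n : ℕ} {Z : X → ℕ → V} (hZ : ∀ a, a ≤ n → ContDiff ℝ ∞ (fun x => Z x a))
    {y : X → V} (hy : ContDiff ℝ ∞ y) : ContDiff ℝ ∞ (fun x => crd1 G W t n (Z x) (y x)) := by
  unfold crd1
  exact (smooth_Afac G (s := fun x => obs G (Z x) n) (fun j => smooth_obs G hZ j) hy).smul
    (hy.sub (hZ n le_rfl))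

theorem smooth_Fm [FiniteDimensional ℝ X] (hW : ∀ k n, 0 ≤ W k n) {t : ℕ} {v v' : X → ℕ → V}
    (hv : ∀ a, ContDiff ℝ ∞ (fun x => v x a)) (hE : ∀ x a, v x a ∈ T.E a)
    (hv' : ∀ a, ContDiff ℝ ∞ (fun x => v' x a)) (hE' : ∀ x a, v' x a ∈ T.E a) (n : ℕ) :
    ContDiff ℝ ∞ (fun x => Fm G W t (v x) (v' x) n) := by
  cases n with
  | zero => exact smooth_op (hv 0) (fun x => hE x 0) (hv' 0) (fun x => hE' x 0)
  | succ n =>
    refine smooth_crd1 G (Z := fun x a => T.op (Gv G W (v x) a) (Gv G W (v' x) a)) ?_ ?_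
    · intro a _
      exact smooth_op (smooth_Gv G hW hv hE a) (fun x => Gv_mem G (hE x) a)
        (smooth_Gv G hW hv' hE' a) (fun x => Gv_mem G (hE' x) a)
    · exact smooth_op (smooth_Gt G hW hv hE (n + 1)) (fun x => Gt_mem G (hE x) (n + 1))
        (smooth_Gt G hW hv' hE' (n + 1)) (fun x => Gt_mem G (hE' x) (n + 1))

theorem smooth_Fi [FiniteDimensional ℝ X] (hW : ∀ k n, 0 ≤ W k n) {t : ℕ} {v : X → ℕ → V}
    (hv : ∀ a, ContDiff ℝ ∞ (fun x => v x a)) (hE : ∀ x a, v x a ∈ T.E a) (n : ℕ) :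
    ContDiff ℝ ∞ (fun x => Fi G W t (v x) n) := by
  cases n with
  | zero => exact smooth_iv (hv 0) (fun x => hE x 0)
  | succ n =>
    refine smooth_crd1 G (Z := fun x a => T.iv (Gv G W (v x) a)) ?_ ?_
    · intro a _
      exact smooth_iv (smooth_Gv G hW hv hE a) (fun x => Gv_mem G (hE x) a)
    · exact smooth_iv (smooth_Gt G hW hv hE (n + 1)) (fun x => Gt_mem G (hE x) (n + 1))

theorem ext_mem (n : ℕ) (z : Hist T n) (a : ℕ) : ext T n z a ∈ T.E a := by
  unfold ext
  split_ifs with h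
  · exact (z ⟨a, h⟩).2
  · exact (T.E a).zero_mem

theorem contDiff_ext (n a : ℕ) : ContDiff ℝ ∞ (fun z : Hist T n => ext T n z a) := by
  by_cases h : a < n + 1
  · have h1 : (fun z : Hist T n => ext T n z a) = fun z : Hist T n => ((z ⟨a, h⟩ : T.E a) : V) := by
      funext z
      unfold ext
      rw [dif_pos h]
    rw [h1]
    exact (T.E a).subtypeL.contDiff.comp
      (ContinuousLinearMap.proj (R := ℝ) (φ := fun a : Fin (n + 1) => T.E (a : ℕ))
        ⟨a, h⟩).contDiff
  · have h1 : (fun z : Hist T n => ext T n z a) = fun _ => (0 : V) := by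
      funext z
      unfold ext
      rw [dif_neg h]
    rw [h1]
    exact contDiff_const

end Pool.Agent.Lib.MP_862e0f_al.EV
end

section

/-!
# Property U (TASK EV PU)

`N_bound`: `E n` is finite-dimensional: with a basis `b` of `E n`,
`N j x ≤ ∑ |coord_i x| * N j (b i)` and the coordinates are continuous linear functionals.
`cont_N_comp`: `|N j (f y) - N j (f y')| ≤ N j (f y - f y') ≤ C * ‖f y - f y'‖`.
`PropU.op`: limit `T.op z z'`, from `n₀ = max ..` on; use `T.op_cont`. `PropU.iv`: `T.iv_cont`.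
-/

set_option autoImplicit false

namespace Pool.Agent.Lib.MP_862e0f_al.EV

open Filter Topology Set
open scoped ContDiff

variable {V : Type} [NormedAddCommGroup V] [NormedSpace ℝ V] {T : Tower V}

variable (T) in
/-- Property U: the sequence `Z x` is eventually constant, and `Z y n` is close to its limit,
uniformly in `n ≥ n₀`, for `y` near `x`. -/
def PropU {𝔼 : Type} [TopologicalSpace 𝔼] (Z : 𝔼 → ℕ → V) (x : 𝔼) : Prop :=
  ∃ (z : V) (n₀ : ℕ), (∀ n, n₀ ≤ n → Z x n = z) ∧
    ∀ (k : ℕ) (ε : ℝ), 0 < ε → ∀ᶠ y in 𝓝 x, ∀ n, n₀ ≤ n → T.N k (Z y n - z) < ε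

/-- `N j` is bounded by a multiple of the norm on `E n` -/
theorem N_bound (T : Tower V) (j n : ℕ) : ∃ C : ℝ, 0 < C ∧ ∀ x ∈ T.E n, T.N j x ≤ C * ‖x‖ := by
  classical
  let b := Module.finBasis ℝ (T.E n)
  let φ : Fin (Module.finrank ℝ (T.E n)) → (T.E n →L[ℝ] ℝ) :=
    fun i => LinearMap.toContinuousLinearMap (b.coord i)
  have hnn : ∀ i, 0 ≤ ‖φ i‖ * T.N j (b i : V) := fun i =>
    mul_nonneg (norm_nonneg (φ i)) (apply_nonneg (T.N j) _)
  have hsum : 0 ≤ ∑ i, ‖φ i‖ * T.N j (b i : V) := Finset.sum_nonneg fun i _ => hnn i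
  refine ⟨∑ i, ‖φ i‖ * T.N j (b i : V) + 1, by linarith, fun x hx => ?_⟩
  have h1 : x = ∑ i, (φ i ⟨x, hx⟩) • (b i : V) := by
    have h2 := congrArg (fun y : T.E n => (y : V)) (b.sum_repr ⟨x, hx⟩)
    simp only [Submodule.coe_sum, Submodule.coe_smul] at h2
    exact h2.symm
  have h3 : T.N j x ≤ ∑ i, |φ i ⟨x, hx⟩| * T.N j (b i : V) := by
    calc T.N j x = T.N j (∑ i, (φ i ⟨x, hx⟩) • (b i : V)) := by rw [← h1]
      _ ≤ ∑ i, T.N j ((φ i ⟨x, hx⟩) • (b i : V)) := by
          exact Finset.le_sum_of_subadditive (T.N j) (map_zero (T.N j)).le (map_add_le_add (T.N j)) _ _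
      _ = ∑ i, |φ i ⟨x, hx⟩| * T.N j (b i : V) := by
          refine Finset.sum_congr rfl fun i _ => ?_
          rw [map_smul_eq_mul, Real.norm_eq_abs]
  have h4 : ∀ i, |φ i ⟨x, hx⟩| * T.N j (b i : V) ≤ (‖φ i‖ * T.N j (b i : V)) * ‖x‖ := by
    intro i
    have h5 : ‖φ i ⟨x, hx⟩‖ ≤ ‖φ i‖ * ‖x‖ := (φ i).le_opNorm ⟨x, hx⟩
    rw [Real.norm_eq_abs] at h5
    have h6 : (0 : ℝ) ≤ T.N j (b i : V) := apply_nonneg _ _
    nlinarith [mul_le_mul_of_nonneg_right h5 h6]
  calc T.N j x ≤ ∑ i, |φ i ⟨x, hx⟩| * T.N j (b i : V) := h3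
    _ ≤ ∑ i, (‖φ i‖ * T.N j (b i : V)) * ‖x‖ := Finset.sum_le_sum fun i _ => h4 i
    _ = (∑ i, ‖φ i‖ * T.N j (b i : V)) * ‖x‖ := by rw [Finset.sum_mul]
    _ ≤ (∑ i, ‖φ i‖ * T.N j (b i : V) + 1) * ‖x‖ := by
        nlinarith [norm_nonneg x]

/-- `N j` is continuous on `E n` -/
theorem cont_N_comp {Y : Type} [TopologicalSpace Y] {n : ℕ} (j : ℕ) {f : Y → V}
    (hf : Continuous f) (hE : ∀ y, f y ∈ T.E n) : Continuous (fun y => T.N j (f y)) := by
  obtain ⟨C, hC, h⟩ := N_bound T j n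
  rw [continuous_iff_continuousAt]
  intro y₀
  rw [ContinuousAt, Metric.tendsto_nhds]
  intro ε hε
  have h1 : Tendsto (fun y => C * ‖f y - f y₀‖) (𝓝 y₀) (𝓝 (C * ‖f y₀ - f y₀‖)) :=
    ((continuous_const.mul ((hf.sub continuous_const).norm)).tendsto y₀)
  rw [sub_self, norm_zero, mul_zero] at h1
  filter_upwards [h1.eventually (gt_mem_nhds hε)] with y hy
  rw [Real.dist_eq]
  have h2 : |T.N j (f y) - T.N j (f y₀)| ≤ T.N j (f y - f y₀) :=
    abs_sub_map_le_sub (T.N j) _ _
  have h3 := h (f y - f y₀) ((T.E n).sub_mem (hE y) (hE y₀))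
  linarith

theorem PropU.comp {𝔼 𝔽 : Type} [TopologicalSpace 𝔼] [TopologicalSpace 𝔽] {Z : 𝔼 → ℕ → V}
    {g : 𝔽 → 𝔼} {x : 𝔽} (h : PropU T Z (g x)) (hg : ContinuousAt g x) :
    PropU T (fun y => Z (g y)) x := by
  obtain ⟨z, n₀, h1, h2⟩ := h
  exact ⟨z, n₀, h1, fun k ε hε => hg.eventually (h2 k ε hε)⟩

theorem PropU.op {𝔼 : Type} [TopologicalSpace 𝔼] {Z Z' : 𝔼 → ℕ → V} {x : 𝔼}
    (h : PropU T Z x) (h' : PropU T Z' x) : PropU T (fun y n => T.op (Z y n) (Z' y n)) x := by
  obtain ⟨z, n₀, h1, h2⟩ := h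
  obtain ⟨z', n₀', h1', h2'⟩ := h'
  refine ⟨T.op z z', max n₀ n₀', fun n hn => ?_, fun k ε hε => ?_⟩
  · show T.op (Z x n) (Z' x n) = T.op z z'
    rw [h1 n (le_trans (le_max_left _ _) hn), h1' n (le_trans (le_max_right _ _) hn)]
  · obtain ⟨l, δ, hδ, h3⟩ := T.op_cont z z' k ε hε
    filter_upwards [h2 l δ hδ, h2' l δ hδ] with y hy hy' n hn
    exact h3 _ _ (hy n (le_trans (le_max_left _ _) hn)) (hy' n (le_trans (le_max_right _ _) hn))

theorem PropU.iv {𝔼 : Type} [TopologicalSpace 𝔼] {Z : 𝔼 → ℕ → V} {x : 𝔼}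
    (h : PropU T Z x) : PropU T (fun y n => T.iv (Z y n)) x := by
  obtain ⟨z, n₀, h1, h2⟩ := h
  refine ⟨T.iv z, n₀, fun n hn => ?_, fun k ε hε => ?_⟩
  · show T.iv (Z x n) = T.iv z
    rw [h1 n hn]
  · obtain ⟨l, δ, hδ, h3⟩ := T.iv_cont z k ε hε
    filter_upwards [h2 l δ hδ] with y hy n hn
    exact h3 _ (hy n hn)

end Pool.Agent.Lib.MP_862e0f_al.EV
end

section

/-!
# Existence of the gear (TASK EV GE)

For `j n` apply `exists_pen` to `E = T.E (n + 1)`, `N = T.N j` and `a = ta n`, `b = tb n` (penalty) resp.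
`a = tb n`, `b = tc (n + 1)` (update). The constants: `N_bound T (n + 1) (n + 1)` gives `C > 0`, take
`D n = C / (tb n - tc n)`.
-/

set_option autoImplicit false

namespace Pool.Agent.Lib.MP_862e0f_al.EV

theorem exists_gear {V : Type} [NormedAddCommGroup V] [NormedSpace ℝ V] (T : Tower V) :
    Nonempty (Gear T) := by
  have h1 := fun j n => exists_pen (T.E (n + 1)) (T.N j) (fun x _ h => T.N_def j x h)
    (ta n) (tb n) (ta_pos n) (ta_lt_tb n)
  have h2 := fun j n => exists_pen (T.E (n + 1)) (T.N j) (fun x _ h => T.N_def j x h)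
    (tb n) (tc (n + 1)) (tb_pos n) (tb_lt_tc n)
  choose pen p1 p2 p3 p4 p5 p6 using h1
  choose upd u1 u2 u3 u4 u5 u6 using h2
  choose C hC hC' using fun n => N_bound T (n + 1) (n + 1)
  have hd : ∀ n, 0 < tb n - tc n := fun n => by
    have h3 := tc_lt_ta n
    have h4 := ta_lt_tb n
    linarith
  exact ⟨{
    pen := pen
    upd := upd
    D := fun n => C n / (tb n - tc n)
    pen_smooth := p1
    pen_nonneg := p2
    pen_zero := fun j n x hx h => p4 j n x hx h
    pen_one := fun j n x hx h => p5 j n x hx h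
    pen_ray := fun j n x w hx hw h => p6 j n x hx w hw h
    upd_smooth := u1
    upd_nonneg := u2
    upd_le_one := u3
    upd_zero := fun j n x hx h => u4 j n x hx h
    upd_one := fun j n x hx h => u5 j n x hx h
    D_pos := fun n => div_pos (hC n) (hd n)
    D_spec := fun n x hx => by
      rw [mul_div_cancel₀ _ (hd n).ne']
      exact hC' n x hx }⟩

end Pool.Agent.Lib.MP_862e0f_al.EV
end

section

/-!
# The tower of the triangular polynomial group
-/

set_option autoImplicit false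

namespace Pool.Agent.Lib.MP_862e0f_al.EV

/-- The tower of the triangular polynomial group. -/
noncomputable def triTower : Tower Vb where
  E := Eb
  fin := fun n => inferInstance
  mono := Eb_mono
  exh := fun F => F.exh
  N := Nb
  N_two := Nb_two
  N_def := fun _ _ h => Nb_def h
  op := opb
  iv := ivb
  op_assoc := opb_assoc
  zero_op := zero_opb
  op_zero := opb_zero
  iv_op := ivb_opb
  op_mem := fun _ _ _ hx hy => opb_mem hx hy
  iv_mem := fun _ _ hx => ivb_mem hx
  op_smooth := opb_smooth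
  iv_smooth := ivb_smooth
  op_cont := opb_cont
  iv_cont := ivb_cont

end Pool.Agent.Lib.MP_862e0f_al.EV
end

section

/-!
# The dead zone (TASK EV DZ)

`dead_zone`: `Z x n = z` for `n ≥ n₀`; put `n₁ = max n₀ j`, `ρ = obs (Z x) n₁ j`,
`η = (ta n₁ - tc n₁) / 3 > 0`; `N j (z - ρ) ≤ tc n₁` (`obs_good`, `Good.near`, `obs_diag`).
Near `x`: `N j (Z y n - z) < η` for all `n ≥ n₀` and `N j (obs (Z y) n₁ j - ρ) < η` (continuity of
`obs (Z ·) n₁ j` at `x`, and `N_bound`). By induction on `n ≥ n₁`: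
`obs (Z y) n j = obs (Z y) n₁ j` and `N j (Z y (n + 1) - obs (Z y) n j) ≤
N j (Z y (n + 1) - z) + N j (z - ρ) + N j (ρ - obs (Z y) n₁ j) < tc n₁ + 2 η < ta n₁ ≤ ta n ≤ tb n`,
so the observer is kept (`updst_keep`).
-/

set_option autoImplicit false

namespace Pool.Agent.Lib.MP_862e0f_al.EV

open Filter Topology Set
open scoped ContDiff

variable {V : Type} [NormedAddCommGroup V] [NormedSpace ℝ V] {T : Tower V} (G : Gear T)

theorem dead_zone {𝔼 : Type} [TopologicalSpace 𝔼] {Z : 𝔼 → ℕ → V} {x : 𝔼}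
    (hmem : ∀ y n, Z y n ∈ T.E n) (hU : PropU T Z x)
    (hc : ∀ n j, ContinuousAt (fun y => obs G (Z y) n j) x) (j : ℕ) :
    ∃ n₁, ∀ᶠ y in 𝓝 x, ∀ n, n₁ ≤ n → T.N j (Z y (n + 1) - obs G (Z y) n j) < ta n := by
  obtain ⟨z, n₀, hz, hb⟩ := hU
  obtain ⟨n₁, hn₁⟩ : ∃ n₁, n₁ = max n₀ j := ⟨_, rfl⟩
  have hn0 : n₀ ≤ n₁ := by rw [hn₁]; exact le_max_left _ _
  have hnj : j ≤ n₁ := by rw [hn₁]; exact le_max_right _ _
  obtain ⟨ρ, hρ⟩ : ∃ ρ, ρ = obs G (Z x) n₁ j := ⟨_, rfl⟩
  have hgx := obs_good G (hmem x) n₁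
  have hnear : T.N j (z - ρ) ≤ tc n₁ := by
    have h := hgx.near j
    rw [obs_diag G (Z x) (le_refl n₁), hz n₁ hn0, ← hρ] at h
    exact h
  obtain ⟨η, hη⟩ : ∃ η : ℝ, η = (ta n₁ - tc n₁) / 3 := ⟨_, rfl⟩
  have hη0 : 0 < η := by
    have := tc_lt_ta n₁
    rw [hη]
    linarith
  obtain ⟨C, hC, hCb⟩ := N_bound T j n₁
  have hB : ∀ᶠ y in 𝓝 x, T.N j (obs G (Z y) n₁ j - ρ) < η := by
    have h1 := Metric.tendsto_nhds.1 (hc n₁ j) (η / C) (div_pos hη0 hC)
    filter_upwards [h1] with y hy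
    rw [dist_eq_norm, ← hρ] at hy
    have hm : obs G (Z y) n₁ j - ρ ∈ T.E n₁ := by
      rw [hρ]
      exact Submodule.sub_mem _ ((obs_good G (hmem y) n₁).mem j) (hgx.mem j)
    calc T.N j (obs G (Z y) n₁ j - ρ) ≤ C * ‖obs G (Z y) n₁ j - ρ‖ := hCb _ hm
      _ < C * (η / C) := mul_lt_mul_of_pos_left hy hC
      _ = η := mul_div_cancel₀ η hC.ne'
  refine ⟨n₁, ?_⟩
  filter_upwards [hb j η hη0, hB] with y hA hB'
  have hest : ∀ n, n₁ ≤ n → T.N j (Z y (n + 1) - obs G (Z y) n₁ j) < ta n := by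
    intro n hn
    have e : Z y (n + 1) - obs G (Z y) n₁ j =
        (Z y (n + 1) - z) + ((z - ρ) + (ρ - obs G (Z y) n₁ j)) := by abel
    have h1 := hA (n + 1) (by omega)
    have h2 : T.N j (ρ - obs G (Z y) n₁ j) < η := by
      rw [map_sub_rev]
      exact hB'
    have h3 : T.N j (Z y (n + 1) - obs G (Z y) n₁ j) ≤ T.N j (Z y (n + 1) - z) +
        (T.N j (z - ρ) + T.N j (ρ - obs G (Z y) n₁ j)) := by
      rw [e]
      exact (map_add_le_add _ _ _).trans (add_le_add_right (map_add_le_add _ _ _) _)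
    have h4 := ta_le hn
    linarith
  have hkeep : ∀ n, n₁ ≤ n → obs G (Z y) n j = obs G (Z y) n₁ j := by
    intro n hn
    induction n, hn using Nat.le_induction with
    | base => rfl
    | succ n hn ih =>
      have h1 : obs G (Z y) (n + 1) j = updst G n (obs G (Z y) n) (Z y (n + 1)) j := rfl
      rw [h1, updst_keep G (obs_good G (hmem y) n).mem (hmem y (n + 1)) (by omega), ih]
      rw [ih]
      exact (hest n hn).le.trans (ta_lt_tb n).le
  intro n hn
  rw [hkeep n hn]
  exact hest n hn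

end Pool.Agent.Lib.MP_862e0f_al.EV
end

section

/-!
# Existence of the weights (TASK EV Gr)

Proof of `exists_weights`: apply `exists_array` to `C k m W = Grow G k m W`.
`hcongr`: the maps in `Grow G k m W` depend on `W j a`, `a ≤ m`, and `W j (m + 1)`, `j ≥ k + 1`, only
(`Fm_congr_W`, `Fi_congr_W`, `Afac_congr_W` with `t = k + 1`); the box `Box T W (m + 1) k` is given
by the weights `W (k + 1) a`, `a ≤ m + 1`; the bound is `W k (m + 1)`.
`hex`: let `W` be given (positive). The maps are smooth (`smooth_Fm`, `smooth_Fi` with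
`v z = ext T (m + 1) z`, `ext_mem`, `contDiff_ext`, then `contDiff_toE`, `Fm_mem`, `Fi_mem`),
the boxes are compact (a closed bounded subset of a finite-dimensional space, or
`isCompact_univ_pi` of closed balls), so `exists_TBd` gives constants `C₁, C₂`; the continuous
function `x ↦ ‖Afac .. x • x‖` (`smooth_Afac`) is bounded by `C₃` on the compact set
`{x ∈ E (m + 1) | ‖x‖ ≤ m + 1}`. Take `x = (m + 2) * max (C₁, C₂, C₃)`; the maps and the box do not
change when `W k (m + 1)` is replaced by `x` (the congruences above), use `TBd.mono`.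
-/

set_option autoImplicit false

namespace Pool.Agent.Lib.MP_862e0f_al.EV

open Filter Topology Set
open scoped ContDiff

variable {V : Type} [NormedAddCommGroup V] [NormedSpace ℝ V] {T : Tower V} (G : Gear T)

/-- The growth condition on the weight `W k (m + 1)`. -/
def Grow (k m : ℕ) (W : ℕ → ℕ → ℝ) : Prop :=
  TBd (m + 1) (Hist T (m + 1) × Hist T (m + 1))
    (fun z => toE T (m + 1) (Fm G W (k + 1) (ext T (m + 1) z.1) (ext T (m + 1) z.2) (m + 1)))
    (Box T W (m + 1) k ×ˢ Box T W (m + 1) k) (W k (m + 1) / (((m + 1 : ℕ) : ℝ) + 1)) ∧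
  TBd (m + 1) (Hist T (m + 1))
    (fun z => toE T (m + 1) (Fi G W (k + 1) (ext T (m + 1) z) (m + 1)))
    (Box T W (m + 1) k) (W k (m + 1) / (((m + 1 : ℕ) : ℝ) + 1)) ∧
  ∀ x ∈ T.E (m + 1), ‖x‖ ≤ m + 1 →
    ‖Afac G W (k + 1) m (fun _ => 0) x • x‖ ≤ W k (m + 1) / (((m + 1 : ℕ) : ℝ) + 1)

/-- The growth condition with a bound `C`. -/
private def Gr_C (k m : ℕ) (W : ℕ → ℕ → ℝ) (C : ℝ) : Prop :=
  TBd (m + 1) (Hist T (m + 1) × Hist T (m + 1))
    (fun z => toE T (m + 1) (Fm G W (k + 1) (ext T (m + 1) z.1) (ext T (m + 1) z.2) (m + 1)))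
    (Box T W (m + 1) k ×ˢ Box T W (m + 1) k) C ∧
  TBd (m + 1) (Hist T (m + 1))
    (fun z => toE T (m + 1) (Fi G W (k + 1) (ext T (m + 1) z) (m + 1)))
    (Box T W (m + 1) k) C ∧
  ∀ x ∈ T.E (m + 1), ‖x‖ ≤ m + 1 →
    ‖Afac G W (k + 1) m (fun _ => 0) x • x‖ ≤ C

private theorem Gr_box_congr {k m : ℕ} {W W' : ℕ → ℕ → ℝ} (h : ∀ j a, a ≤ m → W j a = W' j a)
    (h' : ∀ j, k + 1 ≤ j → W j (m + 1) = W' j (m + 1)) :
    Box T W (m + 1) k = Box T W' (m + 1) k := by
  have key : ∀ a : Fin (m + 1 + 1), W (k + 1) a = W' (k + 1) a := by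
    intro a
    rcases Nat.lt_or_ge (a : ℕ) (m + 1) with h1 | h1
    · exact h _ _ (by omega)
    · have h2 : (a : ℕ) = m + 1 := by have := a.2; omega
      rw [h2]
      exact h' _ le_rfl
  unfold Box
  ext z
  simp only [Set.mem_ofPred_eq, key]

private theorem Gr_C_congr {k m : ℕ} {W W' : ℕ → ℕ → ℝ} (h : ∀ j a, a ≤ m → W j a = W' j a)
    (h' : ∀ j, k + 1 ≤ j → W j (m + 1) = W' j (m + 1)) {C : ℝ} (hC : Gr_C G k m W C) :
    Gr_C G k m W' C := by
  obtain ⟨h1, h2, h3⟩ := hC
  have hb : Box T W (m + 1) k = Box T W' (m + 1) k := Gr_box_congr h h'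
  have e1 : (fun z : Hist T (m + 1) × Hist T (m + 1) =>
      toE T (m + 1) (Fm G W (k + 1) (ext T (m + 1) z.1) (ext T (m + 1) z.2) (m + 1))) =
      (fun z : Hist T (m + 1) × Hist T (m + 1) =>
      toE T (m + 1) (Fm G W' (k + 1) (ext T (m + 1) z.1) (ext T (m + 1) z.2) (m + 1))) := by
    funext z
    rw [Fm_congr_W G h h']
  have e2 : (fun z : Hist T (m + 1) =>
      toE T (m + 1) (Fi G W (k + 1) (ext T (m + 1) z) (m + 1))) =
      (fun z : Hist T (m + 1) =>
      toE T (m + 1) (Fi G W' (k + 1) (ext T (m + 1) z) (m + 1))) := by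
    funext z
    rw [Fi_congr_W G h h']
  refine ⟨?_, ?_, ?_⟩
  · rw [← hb, ← e1]
    exact h1
  · rw [← hb, ← e2]
    exact h2
  · intro x hx hx'
    rw [← Afac_congr_W G h']
    exact h3 x hx hx'

private theorem Gr_box_compact (W : ℕ → ℕ → ℝ) (n k : ℕ) : IsCompact (Box T W n k) := by
  have h1 : Box T W n k = Set.pi univ (fun a : Fin (n + 1) =>
      Metric.closedBall (0 : T.E (a : ℕ)) (n * W (k + 1) a)) := by
    ext z
    simp only [Box, Set.mem_ofPred_eq, Set.mem_pi, Set.mem_univ, true_implies,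
      mem_closedBall_zero_iff]
  rw [h1]
  exact isCompact_univ_pi fun a => isCompact_closedBall _ _

private theorem Gr_exists (k m : ℕ) (W : ℕ → ℕ → ℝ) (hW : ∀ j a, 0 ≤ W j a) :
    ∃ C : ℝ, 0 < C ∧ Gr_C G k m W C := by
  have hs1 : ContDiff ℝ ∞ (fun z : Hist T (m + 1) × Hist T (m + 1) =>
      toE T (m + 1) (Fm G W (k + 1) (ext T (m + 1) z.1) (ext T (m + 1) z.2) (m + 1))) := by
    refine contDiff_toE (smooth_Fm G hW (fun a => ?_) (fun x a => ext_mem _ _ _)
      (fun a => ?_) (fun x a => ext_mem _ _ _) (m + 1)) (fun x => ?_)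
    · exact (contDiff_ext (m + 1) a).comp contDiff_fst
    · exact (contDiff_ext (m + 1) a).comp contDiff_snd
    · exact Fm_mem G (fun a => ext_mem _ _ _) (fun a => ext_mem _ _ _) (m + 1)
  have hs2 : ContDiff ℝ ∞ (fun z : Hist T (m + 1) =>
      toE T (m + 1) (Fi G W (k + 1) (ext T (m + 1) z) (m + 1))) := by
    refine contDiff_toE (smooth_Fi G hW (fun a => ?_) (fun x a => ext_mem _ _ _) (m + 1))
      (fun x => ?_)
    · exact contDiff_ext (m + 1) a
    · exact Fi_mem G (fun a => ext_mem _ _ _) (m + 1)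
  obtain ⟨C₁, hC₁, h1⟩ := exists_TBd (m + 1) _ _ _ hs1
    ((Gr_box_compact (T := T) W (m + 1) k).prod (Gr_box_compact (T := T) W (m + 1) k))
  obtain ⟨C₂, hC₂, h2⟩ := exists_TBd (m + 1) _ _ _ hs2 (Gr_box_compact (T := T) W (m + 1) k)
  have hc : Continuous (fun x : T.E (m + 1) =>
      ‖Afac G W (k + 1) m (fun _ => 0) (x : V) • (x : V)‖) := by
    have hA : ContDiff ℝ ∞ (fun x : V => Afac G W (k + 1) m (fun _ => 0) x) :=
      smooth_Afac G (s := fun _ _ => 0) (fun j => contDiff_const) contDiff_id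
    exact ((hA.continuous.comp continuous_subtype_val).smul continuous_subtype_val).norm
  obtain ⟨C₃, h3⟩ := (isCompact_closedBall (0 : T.E (m + 1)) ((m : ℝ) + 1)).bddAbove_image
    hc.continuousOn
  refine ⟨max (max C₁ C₂) C₃, lt_of_lt_of_le hC₁ (le_trans (le_max_left _ _) (le_max_left _ _)),
    TBd.mono _ _ _ _ _ _ (le_trans (le_max_left _ _) (le_max_left _ _)) h1,
    TBd.mono _ _ _ _ _ _ (le_trans (le_max_right _ _) (le_max_left _ _)) h2, ?_⟩
  intro x hx hx'
  refine le_trans (h3 ⟨(⟨x, hx⟩ : T.E (m + 1)), ?_, rfl⟩) (le_max_right _ _)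
  rw [mem_closedBall_zero_iff]
  exact hx'

theorem exists_weights : ∃ W : ℕ → ℕ → ℝ, (∀ j a, 0 < W j a) ∧ (∀ j a, a ≤ j → W j a = 1) ∧
    ∀ k m, k ≤ m → Grow G k m W := by
  refine exists_array (fun k m W => Grow G k m W) ?_ ?_
  · intro k m W W' _ h h' hG
    have h1 : Gr_C G k m W (W k (m + 1) / (((m + 1 : ℕ) : ℝ) + 1)) := hG
    have h2 : Gr_C G k m W' (W k (m + 1) / (((m + 1 : ℕ) : ℝ) + 1)) :=
      Gr_C_congr G h (fun j hj => h' j (by omega)) h1
    rw [h' k le_rfl] at h2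
    exact h2
  · intro k m W _ hpos _
    obtain ⟨C, hC, h⟩ := Gr_exists G k m W (fun j a => (hpos j a).le)
    have hm : (0 : ℝ) < ((m + 1 : ℕ) : ℝ) + 1 := by positivity
    refine ⟨(((m + 1 : ℕ) : ℝ) + 1) * C, mul_pos hm hC, ?_⟩
    have h2 : Gr_C G k m (fun j a => if j = k ∧ a = m + 1 then (((m + 1 : ℕ) : ℝ) + 1) * C
        else W j a) C := by
      refine Gr_C_congr G (fun j a ha => ?_) (fun j hj => ?_) h
      · rw [if_neg (by omega)]
      · rw [if_neg (by omega)]
    have h3 : (fun j a => if j = k ∧ a = m + 1 then (((m + 1 : ℕ) : ℝ) + 1) * C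
        else W j a) k (m + 1) / (((m + 1 : ℕ) : ℝ) + 1) = C := by
      simp only [and_self, if_true]
      rw [mul_div_cancel_left₀ _ hm.ne']
    have h4 : ∀ C' : ℝ, C' = C → Gr_C G k m
        (fun j a => if j = k ∧ a = m + 1 then (((m + 1 : ℕ) : ℝ) + 1) * C else W j a) C' := by
      intro C' hC'
      rw [hC']
      exact h2
    exact h4 _ h3

end Pool.Agent.Lib.MP_862e0f_al.EV
end

section

/-!
# Sequences with coordinates near a given point (TASK EV UG)

`cont_st`: `st G W v.c n j = st G W (ext T n (hist T W hW n v)) n j` (`st_congr_v`, `ext_hist`),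
smooth, hence continuous, in the history (`smooth_st` with `X = Hist T n`, `contDiff_ext`,
`ext_mem`), and `hist` is continuous.

`propU_Gv`: let `n₀` be such that `x.c n = 0` for `n ≥ n₀`, `z = Gv x n₀` (`Gv_const`).
Given `k`, `ε` choose `j ≥ k` with `4 ≤ ε * 2 ^ (j - k)`, so that `N j y < 4` implies `N k y < ε`
(`N_pow`), and `n₂ = max n₀ j`. Near `x` we have
(i) `N j (Gv y n - z) < 1` for the finitely many `n` with `n₀ ≤ n ≤ n₂` (`cont_Gv`,
`cont_N_comp`);
(ii) `Pn j (y - x) < 1` (`eventually_Pn`), so `‖y.c n‖ < W j n` for all `n ≥ n₀` (`le_Pn`,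
`x.c n = 0`).
For `n ≥ n₂`, by induction, `st y n j = st y n₂ j`: the step is `no_update` and `updst_keep`
(`j ≤ n₂ ≤ n`). For `n > n₂` (write `n = n' + 1`): `N j (Gv y n - st y n₂ j) < tb n' < 1` by
`no_update`, and `N j (Gv y n₂ - st y n₂ j) ≤ tc n₂ < 1` (`st_good`, `Good.near`). Hence
`N j (Gv y n - z) < 1 + 1 + 1 < 4`.
-/

set_option autoImplicit false

namespace Pool.Agent.Lib.MP_862e0f_al.EV

open Filter Topology Set
open scoped ContDiff

variable {V : Type} [NormedAddCommGroup V] [NormedSpace ℝ V] {T : Tower V} (G : Gear T)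
  {W : ℕ → ℕ → ℝ}

theorem cont_st (hW : ∀ k n, 0 < W k n) (n j : ℕ) :
    Continuous (fun v : Md T W => st G W v.c n j) := by
  have h1 : ContDiff ℝ ∞ (fun z : Hist T n => st G W (ext T n z) n j) :=
    smooth_st G (fun k n => (hW k n).le) (fun a => contDiff_ext n a) (fun z a => ext_mem n z a) n j
  have h2 : (fun v : Md T W => st G W v.c n j) =
      (fun z : Hist T n => st G W (ext T n z) n j) ∘ (hist T W hW n) := by
    funext v
    show _ = st G W (ext T n (hist T W hW n v)) n j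
    rw [st_congr_v G (fun a ha => (ext_hist hW n v ha).symm)]
  rw [h2]
  exact h1.continuous.comp (hist T W hW n).continuous

theorem cont_Gv (hW : ∀ k n, 0 < W k n) (n : ℕ) :
    Continuous (fun v : Md T W => Gv G W v.c n) := cont_st G hW n n

theorem propU_Gv (hW : ∀ k n, 0 < W k n) (x : Md T W) :
    PropU T (fun v : Md T W => Gv G W v.c) x := by
  obtain ⟨n₀, hn₀⟩ := x.ev
  have hconst : ∀ n, n₀ ≤ n → Gv G W x.c n = Gv G W x.c n₀ := fun n hn =>
    Gv_const G (fun m hm => hn₀ m hm.le) hn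
  refine ⟨Gv G W x.c n₀, n₀, hconst, fun k ε hε => ?_⟩
  obtain ⟨i, hi⟩ : ∃ i : ℕ, 4 ≤ ε * 2 ^ i := by
    obtain ⟨i, hi⟩ := pow_unbounded_of_one_lt (4 / ε) (by norm_num : (1 : ℝ) < 2)
    refine ⟨i, ?_⟩
    rw [div_lt_iff₀ hε] at hi
    linarith
  set j := k + i with hj
  set n₂ := max n₀ j with hn₂
  set z := Gv G W x.c n₀ with hz
  have hsmall : ∀ w : V, T.N j w < 4 → T.N k w < ε := by
    intro w hw
    have h1 := N_pow T k i w
    have h2 : (0 : ℝ) < 2 ^ i := by positivity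
    by_contra hcon
    push Not at hcon
    have h3 : ε * 2 ^ i ≤ T.N k w * 2 ^ i := mul_le_mul_of_nonneg_right hcon h2.le
    rw [← hj] at h1
    linarith
  have hev1 : ∀ᶠ y : Md T W in 𝓝 x, ∀ n ∈ Finset.Icc n₀ n₂, T.N j (Gv G W y.c n - z) < 1 := by
    rw [Filter.eventually_all_finset]
    intro n hn
    rw [Finset.mem_Icc] at hn
    have hc : Continuous fun y : Md T W => T.N j (Gv G W y.c n - z) :=
      cont_N_comp (T := T) (n := n) j ((cont_Gv G hW n).sub continuous_const) fun y =>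
        (T.E n).sub_mem (Gv_mem G y.mem n) (T.mono hn.1 (Gv_mem G x.mem n₀))
    have h0 : T.N j (Gv G W x.c n - z) < 1 := by
      rw [hconst n hn.1, sub_self, map_zero]
      exact one_pos
    exact (hc.tendsto x).eventually (gt_mem_nhds h0)
  filter_upwards [hev1, eventually_Pn x j one_pos] with y hy1 hy2
  have hyn : ∀ n, n₀ ≤ n → ‖y.c n‖ < W j n := by
    intro n hn
    have h1 := le_Pn hW j (y - x) n
    rw [Md.c_sub, hn₀ n hn, sub_zero] at h1
    have h2 : W j n * Pn T W j (y - x) < W j n * 1 := mul_lt_mul_of_pos_left hy2 (hW j n)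
    linarith
  have hg : ∀ n, Good T n (st G W y.c n) := fun n => st_good G y.mem n
  have hnu : ∀ n, n₂ ≤ n →
      T.N j (nxt G W 0 n (st G W y.c n) (y.c (n + 1)) - st G W y.c n j) < tb n := by
    intro n hn
    refine no_update G hW (le_trans (le_max_right n₀ j) hn) (hg n) (y.mem (n + 1))
      (hyn (n + 1) ?_)
    exact le_trans (le_trans (le_max_left n₀ j) hn) (Nat.le_succ n)
  have hst : ∀ n, n₂ ≤ n → st G W y.c n j = st G W y.c n₂ j := by
    intro n hn
    induction n, hn using Nat.le_induction with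
    | base => rfl
    | succ n hn ih =>
      rw [← ih]
      show updst G n (st G W y.c n) (nxt G W 0 n (st G W y.c n) (y.c (n + 1))) j = _
      exact updst_keep G (hg n).mem (nxt_mem G (hg n).mem (y.mem (n + 1)))
        (le_trans (le_max_right n₀ j) hn) (hnu n hn).le
  intro n hn
  apply hsmall
  rcases le_or_gt n n₂ with h | h
  · have := hy1 n (Finset.mem_Icc.2 ⟨hn, h⟩)
    linarith
  · obtain ⟨m, rfl⟩ : ∃ m, n = m + 1 := ⟨n - 1, by omega⟩
    have hm : n₂ ≤ m := by omega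
    have e1 : T.N j (Gv G W y.c (m + 1) - st G W y.c n₂ j) < 1 := by
      rw [Gv_succ, ← hst m hm]
      exact lt_trans (hnu m hm) (tb_lt_one m)
    have e2 : T.N j (st G W y.c n₂ j - Gv G W y.c n₂) < 1 := by
      have h1 := (hg n₂).near j
      have h2 := tc_lt_one n₂
      have h3 : T.N j (st G W y.c n₂ j - Gv G W y.c n₂) =
          T.N j (st G W y.c n₂ n₂ - st G W y.c n₂ j) := map_sub_rev _ _ _
      rw [h3]
      linarith
    have e3 : T.N j (Gv G W y.c n₂ - z) < 1 :=
      hy1 n₂ (Finset.mem_Icc.2 ⟨le_max_left n₀ j, le_rfl⟩)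
    have e4 : Gv G W y.c (m + 1) - z = (Gv G W y.c (m + 1) - st G W y.c n₂ j) +
        ((st G W y.c n₂ j - Gv G W y.c n₂) + (Gv G W y.c n₂ - z)) := by abel
    rw [e4]
    have e5 := map_add_le_add (T.N j) (Gv G W y.c (m + 1) - st G W y.c n₂ j)
      ((st G W y.c n₂ j - Gv G W y.c n₂) + (Gv G W y.c n₂ - z))
    have e6 := map_add_le_add (T.N j) (st G W y.c n₂ j - Gv G W y.c n₂) (Gv G W y.c n₂ - z)
    linarith

end Pool.Agent.Lib.MP_862e0f_al.EV
end

section

/-!
# Smoothness of the inversion in coordinates (TASK EV Hi)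

Apply `bastiani_of_growth` with `m = 0`, `𝔼 = Md T W`, `S n = Hist T n`, `π n = hist n`,
`Φ n z = toE T n (Fi G W 0 (ext T n z) n)`, `Z n = {z | z (Fin.last n) = 0}`,
`Bx n k = Box T W n k`.
* `hΦ`: `smooth_Fi`, `contDiff_toE`, `Fi_mem`; `hZ0`: `Fi_vanish`; `hZ`: `Md.ev`; `hBx`: `box_absorb`;
  `hf`: `Fi_congr_v`, `ext_hist`, `toE_coe`.
* `hyp k x`: by `dead_zone` (with `propU_Gv`, `PropU.iv`, `cont_st`, `obs_Gv`) for the two
  sequences `Gv y`, `T.iv (Gv y ·)` and all levels `j ≤ k` (finitely many) there are `O ∈ 𝓝 x` and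
  `n₁ ≥ k` such that both are in the dead zone of level `j` in the step `n → n + 1` for `n ≥ n₁`.
  For `n = m + 1`, `m ≥ n₁`, take `Φ' z = toE T n (Fi G W (k + 1) (ext T n z) n)` and `Q` the set of
  all `z ∈ Hist T n` where the sequences `Gv (ext z)` and `T.iv (Gv (ext z) ·)` satisfy the strict
  inequalities `N j (..) < ta m`, `j ≤ k` (open: `smooth_Gv`, `smooth_st`, `smooth_obs`, `smooth_iv`,
  `cont_N_comp`). On `Q` the maps agree by `Fi_trunc`; the bound is the second part of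
  `Grow G k m W`. (The continuity of `y ↦ obs G (fun a => T.iv (Gv y a)) n j`: it is a smooth
  function of the history, `obs_congr`, `st_congr_v`, `ext_hist`.)
-/

set_option autoImplicit false

namespace Pool.Agent.Lib.MP_862e0f_al.EV

open Filter Topology Set
open scoped ContDiff

variable {V : Type} [NormedAddCommGroup V] [NormedSpace ℝ V] {T : Tower V} (G : Gear T)
  {W : ℕ → ℕ → ℝ}

/-- finitely many levels at the same time -/
private theorem Hi_levels {𝔼 : Type} [TopologicalSpace 𝔼] {x : 𝔼} {P : ℕ → 𝔼 → ℕ → Prop}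
    (h : ∀ j, ∃ n₁, ∀ᶠ y in 𝓝 x, ∀ n, n₁ ≤ n → P j y n) (k : ℕ) :
    ∃ n₁, ∀ᶠ y in 𝓝 x, ∀ n, n₁ ≤ n → ∀ j, j ≤ k → P j y n := by
  choose N hN using h
  refine ⟨(Finset.range (k + 1)).sup N, ?_⟩
  have h1 : ∀ᶠ y in 𝓝 x, ∀ j ∈ Finset.range (k + 1), ∀ n, N j ≤ n → P j y n :=
    (Filter.eventually_all_finset _).2 fun j _ => hN j
  filter_upwards [h1] with y hy n hn j hj
  have hj' : j ∈ Finset.range (k + 1) := Finset.mem_range.2 (by omega)
  exact hy j hj' n ((Finset.le_sup (f := N) hj').trans hn)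

private theorem Hi_Gv_congr {v w : ℕ → V} {n : ℕ} (h : ∀ a, a ≤ n → v a = w a) {a : ℕ} (ha : a ≤ n) :
    Gv G W v a = Gv G W w a := by
  unfold Gv
  rw [st_congr_v G fun b hb => h b (hb.trans ha)]

/-- the inverse of a sequence given by a history depends smoothly on it -/
private theorem Hi_smooth_inv (hW : ∀ k n, 0 < W k n) (n a : ℕ) :
    ContDiff ℝ ∞ (fun z : Hist T n => T.iv (Gv G W (ext T n z) a)) := by
  have hW' : ∀ k n, 0 ≤ W k n := fun k n => (hW k n).le
  refine smooth_iv (n := a) ?_ (fun z => Gv_mem G (ext_mem n z) a)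
  exact smooth_Gv G hW' (v := fun z : Hist T n => ext T n z)
      (fun b => contDiff_ext n b) (fun z => ext_mem n z) a

private theorem Hi_cont_obs (hW : ∀ k n, 0 < W k n) (n j : ℕ) :
    Continuous (fun y : Md T W => obs G (fun a => T.iv (Gv G W y.c a)) n j) := by
  have h1 : ContDiff ℝ ∞ (fun z : Hist T n => obs G (fun a => T.iv (Gv G W (ext T n z) a)) n j) :=
    smooth_obs G (fun a _ => Hi_smooth_inv G hW n a) j
  have h2 := h1.continuous.comp (hist T W hW n).continuous
  refine h2.congr fun y => ?_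
  show obs G (fun a => T.iv (Gv G W (ext T n (hist T W hW n y)) a)) n j = _
  rw [obs_congr G (Z' := fun a => T.iv (Gv G W y.c a)) fun a ha => ?_]
  rw [Hi_Gv_congr G (fun b hb => ext_hist hW n y hb) ha]

/-- both sequences are in the dead zone -/
private theorem Hi_dead (hW : ∀ k n, 0 < W k n) (k : ℕ) (x : Md T W) :
    ∃ n₁, ∀ᶠ y : Md T W in 𝓝 x, ∀ n, n₁ ≤ n → ∀ j, j ≤ k →
      T.N j (Gv G W y.c (n + 1) - st G W y.c n j) < ta n ∧
      T.N j (T.iv (Gv G W y.c (n + 1)) - obs G (fun a => T.iv (Gv G W y.c a)) n j) < ta n := by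
  have u1 : PropU T (fun y : Md T W => Gv G W y.c) x := propU_Gv G hW x
  have u3 := u1.iv
  have m1 : ∀ (y : Md T W) n, Gv G W y.c n ∈ T.E n := fun y n => Gv_mem G y.mem n
  have c1 : ∀ n j, ContinuousAt (fun y : Md T W => obs G (Gv G W y.c) n j) x := by
    intro n j
    simp only [obs_Gv]
    exact (cont_st G hW n j).continuousAt
  obtain ⟨n₁, h₁⟩ := Hi_levels (fun j => dead_zone G m1 u1 c1 j) k
  obtain ⟨n₃, h₃⟩ := Hi_levels (fun j => dead_zone G (fun y n => T.iv_mem n _ (m1 y n)) u3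
    (fun n j => (Hi_cont_obs G hW n j).continuousAt) j) k
  refine ⟨max n₁ n₃, ?_⟩
  filter_upwards [h₁, h₃] with y a₁ a₃ n hn j hj
  have b₁ := a₁ n ((le_max_left _ _).trans hn) j hj
  have b₃ := a₃ n ((le_max_right _ _).trans hn) j hj
  rw [obs_Gv] at b₁
  exact ⟨b₁, b₃⟩

theorem smooth_inv (hW : ∀ k n, 0 < W k n) (hG : ∀ k m, k ≤ m → Grow G k m W)
    (f : Md T W → Md T W) (hf : ∀ x n, (f x).c n = Fi G W 0 x.c n) :
    BastianiSmooth f univ := by
  have hW' : ∀ k n, 0 ≤ W k n := fun k n => (hW k n).le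
  have hsm : ∀ (t n : ℕ), ContDiff ℝ ∞ (fun z : Hist T n => toE T n (Fi G W t (ext T n z) n)) := by
    intro t n
    refine contDiff_toE ?_ fun z => Fi_mem G (ext_mem n z) n
    exact smooth_Fi G hW' (v := fun z : Hist T n => ext T n z)
      (fun b => contDiff_ext n b) (fun z => ext_mem n z) n
  refine bastiani_of_growth T W hW 0 (Md T W) (fun n => Hist T n)
    (fun n => hist T W hW n)
    (fun n z => toE T n (Fi G W 0 (ext T n z) n)) (fun n => hsm 0 n)
    (fun n => LinearMap.ker (LinearMap.proj (R := ℝ) (φ := fun a : Fin (n + 1) => T.E (a : ℕ)) (Fin.last n)))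
    ?_ ?_ (fun n k => Box T W n k) ?_ ?_ f ?_
  · -- vanishing
    intro n z hz
    have e : ext T n z n = 0 := by
      have h1 : z (Fin.last n) = 0 := hz
      unfold ext
      rw [dif_pos (Nat.lt_succ_self n)]
      show ((z (Fin.last n) : T.E (Fin.last n : ℕ)) : V) = 0
      rw [h1]
      rfl
    have h2 : Fi G W 0 (ext T n z) n = 0 := Fi_vanish G e
    show toE T n (Fi G W 0 (ext T n z) n) = 0
    rw [h2]
    apply Subtype.ext
    rw [toE_coe (T.E n).zero_mem]
    rfl
  · -- eventually in `Z n`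
    intro x
    obtain ⟨n₁, h₁⟩ := x.ev
    filter_upwards [eventually_ge_atTop n₁] with n hn
    show hist T W hW n x (Fin.last n) = 0
    apply Subtype.ext
    exact h₁ n hn
  · -- boxes
    intro k x
    exact box_absorb hW k x
  · -- the local comparison
    intro k x
    obtain ⟨n₁, h₁⟩ := Hi_dead G hW k x
    refine ⟨_, h₁, max n₁ k + 1, fun n hn => ?_⟩
    obtain ⟨m, rfl⟩ : ∃ m, n = m + 1 := ⟨n - 1, by omega⟩
    have hm1 : n₁ ≤ m := (le_max_left n₁ k).trans (by omega)
    have hmk : k ≤ m := (le_max_right n₁ k).trans (by omega)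
    refine ⟨fun z => toE T (m + 1) (Fi G W (k + 1) (ext T (m + 1) z) (m + 1)),
      ⋂ j ∈ Finset.range (k + 1), ({z : Hist T (m + 1) |
        T.N j (Gv G W (ext T (m + 1) z) (m + 1) - st G W (ext T (m + 1) z) m j) < ta m} ∩
        {z | T.N j (T.iv (Gv G W (ext T (m + 1) z) (m + 1)) -
          obs G (fun a => T.iv (Gv G W (ext T (m + 1) z) a)) m j) < ta m}),
      hsm (k + 1) (m + 1), ?_, ?_, ?_, ?_⟩
    · refine isOpen_biInter_finset fun j _ => IsOpen.inter ?_ ?_
      · refine isOpen_lt (cont_N_comp (n := m + 1) j ?_ ?_) continuous_const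
        · refine Continuous.sub ?_ ?_
          · exact (smooth_Gv G hW' (v := fun z : Hist T (m + 1) => ext T (m + 1) z)
              (fun b => contDiff_ext (m + 1) b) (fun z => ext_mem (m + 1) z) (m + 1)).continuous
          · exact (smooth_st G hW' (v := fun z : Hist T (m + 1) => ext T (m + 1) z)
              (fun b => contDiff_ext (m + 1) b) (fun z => ext_mem (m + 1) z) m j).continuous
        · intro z
          exact (T.E (m + 1)).sub_mem (Gv_mem G (ext_mem (m + 1) z) (m + 1))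
            (T.mono (Nat.le_succ m) ((st_good G (ext_mem (m + 1) z) m).mem j))
      · refine isOpen_lt (cont_N_comp (n := m + 1) j ?_ ?_) continuous_const
        · refine Continuous.sub ?_ ?_
          · exact (Hi_smooth_inv G hW (m + 1) (m + 1)).continuous
          · exact (smooth_obs G (n := m) (fun a _ => Hi_smooth_inv G hW (m + 1) a) j).continuous
        · intro z
          have hZ : ∀ a, T.iv (Gv G W (ext T (m + 1) z) a) ∈ T.E a := fun a =>
            T.iv_mem a _ (Gv_mem G (ext_mem (m + 1) z) a)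
          exact (T.E (m + 1)).sub_mem (hZ (m + 1)) (T.mono (Nat.le_succ m) ((obs_good G hZ m).mem j))
    · intro y hy
      rw [Set.mem_iInter₂]
      intro j hj
      obtain ⟨b₁, b₃⟩ := hy m hm1 j (by have := Finset.mem_range.1 hj; omega)
      have e1 : ∀ a, a ≤ m + 1 → ext T (m + 1) (hist T W hW (m + 1) y) a = y.c a := fun a ha =>
        ext_hist hW (m + 1) y ha
      refine ⟨?_, ?_⟩
      · show T.N j (Gv G W (ext T (m + 1) (hist T W hW (m + 1) y)) (m + 1) -
          st G W (ext T (m + 1) (hist T W hW (m + 1) y)) m j) < ta m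
        rw [Hi_Gv_congr G e1 le_rfl, st_congr_v G fun b hb => e1 b (by omega)]
        exact b₁
      · show T.N j (T.iv (Gv G W (ext T (m + 1) (hist T W hW (m + 1) y)) (m + 1)) -
          obs G (fun a => T.iv (Gv G W (ext T (m + 1) (hist T W hW (m + 1) y)) a)) m j) < ta m
        rw [Hi_Gv_congr G e1 le_rfl,
          obs_congr G (Z' := fun a => T.iv (Gv G W y.c a)) fun a ha => by
            rw [Hi_Gv_congr G e1 (show a ≤ m + 1 by omega)]]
        exact b₃
    · intro z hz
      rw [Set.mem_iInter₂] at hz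
      have hz' : ∀ j, j < k + 1 → _ := fun j hj => hz j (Finset.mem_range.2 hj)
      show toE T (m + 1) (Fi G W 0 (ext T (m + 1) z) (m + 1)) =
        toE T (m + 1) (Fi G W (k + 1) (ext T (m + 1) z) (m + 1))
      rw [Fi_trunc G hW' (t := k + 1) (ext_mem (m + 1) z)
        (fun j hj _ => (hz' j hj).1.le) (fun j hj _ => (hz' j hj).2.le)]
    · exact (hG k m hmk).2.1
  · intro x n
    rw [hf, toE_coe (Fi_mem G (ext_mem n _) n)]
    exact Fi_congr_v G (fun a ha => (ext_hist hW n x ha).symm)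

end Pool.Agent.Lib.MP_862e0f_al.EV
end
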