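import Pool.Agent.Lib.MP_862e0f_P.Mg.G003
import Pool.Agent.Lib.MP_862e0f_P.Mg.G001
import Pool.Agent.Lib.MP_862e0f_P.Mg.G005
import Pool.Agent.Lib.MP_862e0f_P.Mg.G002

section

/-!
# Jets of smooth functions, bump functions

A function `F : H → Y` is chart-smooth if it is `C^∞` in all charts. Its right-invariant
derivative `F' x = fderiv (z ↦ F (φ.symm z * x)) (φ 1)` is chart-smooth again: near a point
`ψ.symm u₀` the map `(z, u) ↦ F (φ.symm z * ψ.symm u)` is `C^∞` at `(φ 1, u₀)` (multiplication in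
charts: `hH.smooth_mul`, `BastianiSmooth.contDiffOn`), so its partial derivative is
(`ContDiffAt.fderiv`).
-/

set_option autoImplicit false
set_option linter.unusedSectionVars false

namespace Pool.Agent.Lib.MP_862e0f_al

open Filter Topology Set unitInterval

universe u v w x y z

variable {E : Type v} [NormedAddCommGroup E] [NormedSpace ℝ E] [FiniteDimensional ℝ E]
  {H : Type u} [Group H] [TopologicalSpace H] [ChartedSpace E H]
open scoped ContDiff

variable (E) in
/-- smooth in all charts -/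
def ChSmooth {Y : Type w} [NormedAddCommGroup Y] [NormedSpace ℝ Y] (F : H → Y) : Prop :=
  ∀ ψ ∈ atlas E H, ContDiffOn ℝ ∞ (fun z => F (ψ.symm z)) ψ.target

/-- the domain of the multiplication in charts is open -/
private theorem isOpen_mulDom (hH : IsLieGroup E H) (φ ψ₀ ψ : OpenPartialHomeomorph H E) :
    IsOpen {z : E × E | (z.1 ∈ φ.target ∧ z.2 ∈ ψ₀.target) ∧
      φ.symm z.1 * ψ₀.symm z.2 ∈ ψ.source} := by
  have h1 : ContinuousOn (fun z : E × E => φ.symm z.1 * ψ₀.symm z.2)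
      (φ.target ×ˢ ψ₀.target) := by
    have a1 : ContinuousOn (fun z : E × E => φ.symm z.1) (φ.target ×ˢ ψ₀.target) :=
      φ.continuousOn_symm.comp continuous_fst.continuousOn fun z hz => hz.1
    have a2 : ContinuousOn (fun z : E × E => ψ₀.symm z.2) (φ.target ×ˢ ψ₀.target) :=
      ψ₀.continuousOn_symm.comp continuous_snd.continuousOn fun z hz => hz.2
    exact hH.continuous_mul.comp_continuousOn (a1.prodMk a2)
  exact h1.isOpen_inter_preimage (φ.open_target.prod ψ₀.open_target) ψ.open_source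

/-- a chart-smooth function of a product is smooth in charts -/
private theorem ChSmooth.mul_contDiffAt (hH : IsLieGroup E H) {Y : Type w} [NormedAddCommGroup Y]
    [NormedSpace ℝ Y] {F : H → Y} (hF : ChSmooth E F) {φ ψ₀ : OpenPartialHomeomorph H E}
    (hφ : φ ∈ atlas E H) (hψ₀ : ψ₀ ∈ atlas E H) {a u : E} (ha : a ∈ φ.target)
    (hu : u ∈ ψ₀.target) :
    ContDiffAt ℝ ∞ (fun z : E × E => F (φ.symm z.1 * ψ₀.symm z.2)) (a, u) := by
  set x : H := φ.symm a * ψ₀.symm u with hx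
  set ψ := chartAt E x with hψ
  have hψa : ψ ∈ atlas E H := chart_mem_atlas E x
  have hop := isOpen_mulDom hH φ ψ₀ ψ
  have hmem : (a, u) ∈ {z : E × E | (z.1 ∈ φ.target ∧ z.2 ∈ ψ₀.target) ∧
      φ.symm z.1 * ψ₀.symm z.2 ∈ ψ.source} := ⟨⟨ha, hu⟩, mem_chart_source E x⟩
  have hM := (hH.smooth_mul φ hφ ψ₀ hψ₀ ψ hψa).contDiffOn hop
  have hFc := hF ψ hψa
  have hcomp : ContDiffOn ℝ ∞ (fun z : E × E => F (ψ.symm (ψ (φ.symm z.1 * ψ₀.symm z.2))))
      {z : E × E | (z.1 ∈ φ.target ∧ z.2 ∈ ψ₀.target) ∧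
        φ.symm z.1 * ψ₀.symm z.2 ∈ ψ.source} :=
    hFc.comp hM fun z hz => ψ.map_source hz.2
  have hat := hcomp.contDiffAt (hop.mem_nhds hmem)
  refine hat.congr_of_eventuallyEq ?_
  filter_upwards [hop.mem_nhds hmem] with z hz
  rw [ψ.left_inv hz.2]

theorem ChSmooth.rderiv (hH : IsLieGroup E H) {Y : Type w} [NormedAddCommGroup Y]
    [NormedSpace ℝ Y] {F : H → Y} (hF : ChSmooth E F) :
    ∃ F' : H → E →L[ℝ] Y, HasRDeriv F F' ∧ ChSmooth E F' := by
  set φ := chartAt E (1 : H) with hφ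
  have hφa : φ ∈ atlas E H := chart_mem_atlas E 1
  have h1 : φ 1 ∈ φ.target := φ.map_source (mem_chart_source E 1)
  refine ⟨fun x => fderiv ℝ (fun z : E => F (φ.symm z * x)) (φ 1), ?_, ?_⟩
  · intro x
    have hx : chartAt E x x ∈ (chartAt E x).target :=
      (chartAt E x).map_source (mem_chart_source E x)
    have h2 := hF.mul_contDiffAt hH hφa (chart_mem_atlas E x) h1 hx
    have h3 : ContDiffAt ℝ ∞ (fun z : E => (z, chartAt E x x)) (φ 1) :=
      contDiffAt_id.prodMk contDiffAt_const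
    have h4 : ContDiffAt ℝ ∞ (fun z : E => F (φ.symm z * (chartAt E x).symm (chartAt E x x)))
        (φ 1) := ContDiffAt.comp (g := fun z : E × E => F (φ.symm z.1 * (chartAt E x).symm z.2))
      (f := fun z : E => (z, chartAt E x x)) (φ 1) h2 h3
    rw [(chartAt E x).left_inv (mem_chart_source E x)] at h4
    exact (h4.differentiableAt (by simp)).hasFDerivAt
  · intro ψ₀ hψ₀ u hu
    refine ContDiffAt.contDiffWithinAt ?_
    have h2 := hF.mul_contDiffAt hH hφa hψ₀ h1 hu
    have h3 : ContDiffAt ℝ ∞ (fun q : E × E => (q.2, q.1)) (u, φ 1) :=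
      contDiffAt_snd.prodMk contDiffAt_fst
    have h4 : ContDiffAt ℝ ∞
        (Function.uncurry fun (u : E) (z : E) => F (φ.symm z * ψ₀.symm u)) (u, φ 1) :=
      ContDiffAt.comp (g := fun z : E × E => F (φ.symm z.1 * ψ₀.symm z.2))
        (f := fun q : E × E => (q.2, q.1)) (u, φ 1) h2 h3
    exact ContDiffAt.fderiv (g := fun _ => φ 1) h4 contDiffAt_const (by norm_cast)

/-- the inverse of `curryLeft` -/
private noncomputable def unc (k : ℕ) (L : E →L[ℝ] JF E k) : JF E (k + 1) :=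
  (continuousMultilinearCurryLeftEquiv ℝ (fun _ : Fin (k + 1) => E) ℝ).symm L

private theorem unc_curryLeft (k : ℕ) (L : E →L[ℝ] JF E k) : (unc k L).curryLeft = L :=
  (continuousMultilinearCurryLeftEquiv ℝ (fun _ : Fin (k + 1) => E) ℝ).apply_symm_apply L

private theorem ChSmooth.unc (k : ℕ) {F' : H → E →L[ℝ] JF E k} (h : ChSmooth E F') :
    ChSmooth E (fun x => unc k (F' x)) := by
  intro ψ hψ
  exact ((continuousMultilinearCurryLeftEquiv ℝ (fun _ : Fin (k + 1) => E)
    ℝ).symm.contDiff (n := ∞)).comp_contDiffOn (h ψ hψ)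

/-- every chart-smooth function is the `0`-component of a jet (recursion, `curryLeft` is an
isometric isomorphism `continuousMultilinearCurryLeftEquiv`) -/
theorem exists_jet_of_chSmooth (hH : IsLieGroup E H) {F : H → ℝ} (hF : ChSmooth E F) :
    ∃ Θ : ∀ k : ℕ, H → JF E k, IsJet Θ ∧ ∀ x, Θ 0 x 0 = F x := by
  classical
  -- the first component
  have h0 : ChSmooth E (fun x => ContinuousMultilinearMap.uncurry0 ℝ E (F x) : H → JF E 0) := by
    intro ψ hψ
    exact ((continuousMultilinearCurryFin0 ℝ E ℝ).symm.contDiff (n := ∞)).comp_contDiffOn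
      (hF ψ hψ)
  -- the step
  have hstep : ∀ (k : ℕ) (Θ : {Θ : H → JF E k // ChSmooth E Θ}),
      ∃ Θ' : {Θ : H → JF E (k + 1) // ChSmooth E Θ},
        HasRDeriv Θ.1 fun x => (Θ'.1 x).curryLeft := by
    rintro k ⟨Θ, hΘ⟩
    obtain ⟨F', hF', hs⟩ := hΘ.rderiv hH
    refine ⟨⟨fun x => unc k (F' x), hs.unc k⟩, ?_⟩
    have : (fun x => (unc k (F' x)).curryLeft) = F' := by
      funext x
      exact unc_curryLeft k (F' x)
    show HasRDeriv Θ (fun x => (unc k (F' x)).curryLeft)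
    rw [this]
    exact hF'
  choose S hS using hstep
  let Θ : ∀ k : ℕ, {Θ : H → JF E k // ChSmooth E Θ} := fun k =>
    Nat.rec (motive := fun k => {Θ : H → JF E k // ChSmooth E Θ}) ⟨_, h0⟩ (fun k Θ => S k Θ) k
  exact ⟨fun k => (Θ k).1, fun k => hS k (Θ k), fun x => rfl⟩

/-- the jet vanishes outside the support -/
theorem IsJet.eq_zero (hH : IsLieGroup E H) {Θ : ∀ k : ℕ, H → JF E k} (h : IsJet Θ) {S : Set H}
    (hS : IsClosed S) (h0 : ∀ x ∉ S, Θ 0 x 0 = 0) (k : ℕ) : ∀ x ∉ S, Θ k x = 0 := by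
  induction k with
  | zero =>
    intro x hx
    ext m
    have hm : m = 0 := Subsingleton.elim _ _
    rw [hm]
    exact h0 x hx
  | succ k ih =>
    intro x hx
    have h1 := h k x
    -- near `φ 1` the function vanishes
    have hcont : ContinuousAt (fun z : E => (chartAt E (1 : H)).symm z * x)
        (chartAt E (1 : H) 1) := by
      have a1 : ContinuousAt (chartAt E (1 : H)).symm (chartAt E (1 : H) 1) :=
        (chartAt E (1 : H)).continuousAt_symm
          ((chartAt E (1 : H)).map_source (mem_chart_source E 1))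
      exact hH.continuous_mul.continuousAt.comp (a1.prodMk continuousAt_const)
    have hval : (chartAt E (1 : H)).symm (chartAt E (1 : H) 1) * x = x := by
      rw [(chartAt E (1 : H)).left_inv (mem_chart_source E 1), one_mul]
    have hnear : ∀ᶠ z in 𝓝 (chartAt E (1 : H) 1), (chartAt E (1 : H)).symm z * x ∉ S := by
      refine hcont.eventually (hS.isOpen_compl.mem_nhds ?_)
      show (chartAt E (1 : H)).symm (chartAt E (1 : H) 1) * x ∈ Sᶜ
      rw [hval]
      exact hx
    have h2 : HasFDerivAt (fun _ : E => (0 : JF E k)) ((Θ (k + 1) x).curryLeft)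
        (chartAt E (1 : H) 1) := by
      refine h1.congr_of_eventuallyEq ?_
      filter_upwards [hnear] with z hz
      exact (ih _ hz).symm
    have h3 : (Θ (k + 1) x).curryLeft = 0 := h2.unique (hasFDerivAt_const _ _)
    rw [← ContinuousMultilinearMap.uncurry_curryLeft (Θ (k + 1) x), h3]
    ext m
    rfl

/-- smooth bump functions near `1` supported off a closed set -/
theorem exists_chSmooth_bump (hH : IsLieGroup E H) [T2Space H] {A : Set H} (hA : IsClosed A)
    (h1 : (1 : H) ∉ A) : ∃ F : H → ℝ, ChSmooth E F ∧ (∀ x, 0 ≤ F x) ∧ 0 < F 1 ∧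
      ∃ S : Set H, IsCompact S ∧ Disjoint S A ∧ ∀ x ∉ S, F x = 0 := by
  classical
  set φ := chartAt E (1 : H) with hφ
  have hφa : φ ∈ atlas E H := chart_mem_atlas E 1
  have hs1 : (1 : H) ∈ φ.source := mem_chart_source E 1
  have ht1 : φ 1 ∈ φ.target := φ.map_source hs1
  have hV : IsOpen (φ.target ∩ φ.symm ⁻¹' Aᶜ) :=
    φ.continuousOn_symm.isOpen_inter_preimage φ.open_target hA.isOpen_compl
  have hV1 : φ 1 ∈ φ.target ∩ φ.symm ⁻¹' Aᶜ := by
    refine ⟨ht1, ?_⟩
    show φ.symm (φ 1) ∈ Aᶜ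
    rw [φ.left_inv hs1]
    exact h1
  obtain ⟨r, hr, hrV⟩ := Metric.nhds_basis_closedBall.mem_iff.mp (hV.mem_nhds hV1)
  let f : ContDiffBump (φ 1) := ⟨r / 2, r, by linarith, by linarith⟩
  have hball : Metric.closedBall (φ 1) r ⊆ φ.target := fun z hz => (hrV hz).1
  set S : Set H := φ.symm '' Metric.closedBall (φ 1) r with hSdef
  have hSc : IsCompact S :=
    (isCompact_closedBall (φ 1) r).image_of_continuousOn (φ.continuousOn_symm.mono hball)
  have hSs : S ⊆ φ.source := by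
    rintro _ ⟨z, hz, rfl⟩
    exact φ.map_target (hball hz)
  let F : H → ℝ := fun x => if x ∈ φ.source then f (φ x) else 0
  have hF0 : ∀ x ∉ S, F x = 0 := by
    intro x hx
    by_cases hxs : x ∈ φ.source
    · have h2 : F x = f (φ x) := if_pos hxs
      rw [h2]
      refine f.zero_of_le_dist ?_
      show r ≤ dist (φ x) (φ 1)
      by_contra hlt
      push Not at hlt
      exact hx ⟨φ x, Metric.mem_closedBall.mpr hlt.le, φ.left_inv hxs⟩
    · exact if_neg hxs
  refine ⟨F, ?_, ?_, ?_, S, hSc, ?_, hF0⟩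
  · intro ψ hψ u hu
    refine ContDiffAt.contDiffWithinAt ?_
    by_cases hxs : ψ.symm u ∈ φ.source
    · have hop : IsOpen {x : E | x ∈ ψ.target ∧ ψ.symm x ∈ φ.source} :=
        ψ.continuousOn_symm.isOpen_inter_preimage ψ.open_target φ.open_source
      have h2 := (hH.chart_change ψ hψ φ hφa).contDiffOn hop
      have h3 : ContDiffAt ℝ ∞ (fun x => φ (ψ.symm x)) u :=
        h2.contDiffAt (hop.mem_nhds ⟨hu, hxs⟩)
      have h4 : ContDiffAt ℝ ∞ (fun x => f (φ (ψ.symm x))) u :=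
        ContDiffAt.comp (g := fun y : E => f y) (f := fun x => φ (ψ.symm x)) u
          (f.contDiffAt (n := ⊤)) h3
      refine h4.congr_of_eventuallyEq ?_
      filter_upwards [hop.mem_nhds ⟨hu, hxs⟩] with z hz
      exact if_pos hz.2
    · have hxS : ψ.symm u ∉ S := fun h => hxs (hSs h)
      have hcs : ContinuousAt ψ.symm u := ψ.continuousAt_symm hu
      have hev : ∀ᶠ z in 𝓝 u, ψ.symm z ∉ S :=
        hcs.eventually (hSc.isClosed.isOpen_compl.mem_nhds hxS)
      have h4 : ContDiffAt ℝ ∞ (fun _ : E => (0 : ℝ)) u := contDiffAt_const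
      refine h4.congr_of_eventuallyEq ?_
      filter_upwards [hev] with z hz
      exact hF0 _ hz
  · intro x
    by_cases hxs : x ∈ φ.source
    · have h2 : F x = f (φ x) := if_pos hxs
      rw [h2]
      exact f.nonneg
    · have h2 : F x = 0 := if_neg hxs
      rw [h2]
  · have h2 : F 1 = f (φ 1) := if_pos hs1
    rw [h2]
    exact f.pos_of_mem_ball (Metric.mem_ball_self hr)
  · rw [Set.disjoint_left]
    rintro _ ⟨z, hz, rfl⟩
    exact (hrV hz).2

end Pool.Agent.Lib.MP_862e0f_al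
end

section

/-!
# Haar averages of jets over a closed subgroup
-/

set_option autoImplicit false
set_option linter.unusedSectionVars false

namespace Pool.Agent.Lib.MP_862e0f_al

open Filter Topology Set unitInterval

universe u v w x y z

variable {E : Type v} [NormedAddCommGroup E] [NormedSpace ℝ E] [FiniteDimensional ℝ E]
  {H : Type u} [Group H] [TopologicalSpace H] [ChartedSpace E H]
open MeasureTheory

/-- jets have continuous components -/
theorem IsJet.continuous (hH : IsLieGroup E H) {Θ : ∀ k : ℕ, H → JF E k} (h : IsJet Θ) (k : ℕ) :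
    Continuous (Θ k) :=
  (h k).continuous hH

/-- joint continuity of `(g, x) ↦ (g Θ) k x` -/
theorem IsJet.continuous_actF (hH : IsLieGroup E H) {Θ : ∀ k : ℕ, H → JF E k} (h : IsJet Θ)
    (k : ℕ) : Continuous fun p : H × H => Pool.Agent.Lib.MP_862e0f_al.actF hH p.1 Θ k p.2 := by
  have := hH.isTopologicalGroup
  have h1 : Continuous fun p : H × H => Θ k (p.1⁻¹ * p.2) :=
    (h.continuous hH k).comp (continuous_fst.inv.mul continuous_snd)
  have h2 : Continuous fun p : H × H => (fun _ : Fin k => AdL hH p.1⁻¹) :=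
    continuous_pi fun _ => (AdL_continuous hH).comp continuous_fst.inv
  have h3 : Continuous fun p : H × H =>
      ContinuousMultilinearMap.compContinuousLinearMapContinuousMultilinear ℝ (fun _ : Fin k => E)
        (fun _ : Fin k => E) ℝ (fun _ : Fin k => AdL hH p.1⁻¹) :=
    (ContinuousMultilinearMap.compContinuousLinearMapContinuousMultilinear ℝ (fun _ : Fin k => E)
        (fun _ : Fin k => E) ℝ).cont.comp h2
  exact h3.clm_apply h1

variable {L : Subgroup H} [MeasurableSpace L] [BorelSpace L] (μ : Measure L)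
  [μ.IsMulLeftInvariant] [IsFiniteMeasureOnCompacts μ] [μ.IsOpenPosMeasure]

/-- the average `∫_L l Θ dl` -/
noncomputable def avgJet (hH : IsLieGroup E H) (Θ : ∀ k : ℕ, H → JF E k) (k : ℕ) (x : H) :
    JF E k :=
  ∫ l : L, actF hH (l : H) Θ k x ∂μ

variable {Θ : ∀ k : ℕ, H → JF E k} {S : Set H}

/-- for `x` in a compact set `C`, the integrand is supported in a compact subset of `L`:
`(l Θ) k x ≠ 0` implies `l⁻¹ x ∈ S`, `l ∈ C S⁻¹` (and `L` is closed) -/
theorem exists_compact_support (hH : IsLieGroup E H) (hL : IsClosed (L : Set H))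
    (hS : IsCompact S) (hΘ : ∀ k, ∀ x ∉ S, Θ k x = 0) {C : Set H} (hC : IsCompact C) :
    ∃ Q : Set L, IsCompact Q ∧ ∀ l ∉ Q, ∀ k, ∀ x ∈ C, actF hH (l : H) Θ k x = 0 := by
  have := hH.isTopologicalGroup
  have hK : IsCompact ((fun p : H × H => p.1 * p.2⁻¹) '' (C ×ˢ S)) :=
    (hC.prod hS).image (continuous_fst.mul continuous_snd.inv)
  refine ⟨(fun l : L => (l : H)) ⁻¹' ((fun p : H × H => p.1 * p.2⁻¹) '' (C ×ˢ S)),
    hL.isClosedEmbedding_subtypeVal.isCompact_preimage hK, fun l hl k x hx => ?_⟩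
  have h1 : (l : H)⁻¹ * x ∉ S := by
    intro h2
    refine hl ⟨(x, (l : H)⁻¹ * x), ⟨hx, h2⟩, ?_⟩
    simp
  unfold actF
  rw [hΘ k _ h1]
  ext v
  simp

theorem avg_aux {Y : Type*} {Y' : Type*} [NormedAddCommGroup Y] [NormedSpace ℝ Y] [CompleteSpace Y]
    [NormedAddCommGroup Y'] [NormedSpace ℝ Y'] [CompleteSpace Y'] [T2Space L]
    (cur : Y' →L[ℝ] (E →L[ℝ] Y)) {s : Set E} {z₀ : E} (hs : s ∈ 𝓝 z₀) (hsc : IsCompact s)
    {Q : Set L} (hQ : IsCompact Q) (F : E → L → Y) (G : E → L → Y') (om : E → E →L[ℝ] E)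
    (hF : ∀ z ∈ s, Continuous (F z)) (hF0 : ∀ z ∈ s, ∀ l ∉ Q, F z l = 0)
    (hG : ∀ z ∈ s, Continuous (G z)) (hG0 : ∀ z ∈ s, ∀ l ∉ Q, G z l = 0)
    (hGc : ContinuousOn (fun p : E × L => G p.1 p.2) (s ×ˢ Q)) (hom : ContinuousOn om s)
    (hd : ∀ l, ∀ z ∈ s, HasFDerivAt (fun z' => F z' l) ((cur (G z l)).comp (om z)) z)
    (hd0 : ∀ l, HasFDerivAt (fun z' => F z' l) (cur (G z₀ l)) z₀) :
    HasFDerivAt (fun z => ∫ l, F z l ∂μ) (cur (∫ l, G z₀ l ∂μ)) z₀ := by
  have hz₀ : z₀ ∈ s := mem_of_mem_nhds hs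
  let F' : E → L → (E →L[ℝ] Y) := fun z l => (cur (G z l)).comp (om z)
  have hF'0 : ∀ l : L, F' z₀ l = cur (G z₀ l) := fun l => (hd l z₀ hz₀).unique (hd0 l)
  have hF'c : ContinuousOn (fun p : E × L => F' p.1 p.2) (s ×ˢ Q) := by
    have e3 : ContinuousOn (fun p : E × L => om p.1) (s ×ˢ Q) :=
      hom.comp continuousOn_fst fun p hp => hp.1
    exact (cur.continuous.comp_continuousOn hGc).clm_comp e3
  obtain ⟨M, hM⟩ := (hsc.prod hQ).exists_bound_of_continuousOn hF'c
  have hQm : MeasurableSet Q := hQ.isClosed.measurableSet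
  have hbound : ∀ l : L, ∀ z ∈ s, ‖F' z l‖ ≤ Q.indicator (fun _ => M) l := by
    intro l z hz
    by_cases hl : l ∈ Q
    · rw [indicator_of_mem hl]
      exact hM (z, l) ⟨hz, hl⟩
    · rw [indicator_of_notMem hl]
      have : F' z l = 0 := by
        simp only [F']
        rw [hG0 z hz l hl, map_zero, ContinuousLinearMap.zero_comp]
      rw [this, norm_zero]
  have hint : Integrable (Q.indicator fun _ => M) μ := by
    rw [integrable_indicator_iff hQm]
    exact integrableOn_const hQ.measure_lt_top.ne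
  have hGs : HasCompactSupport (G z₀) := HasCompactSupport.intro hQ fun l hl => hG0 z₀ hz₀ l hl
  have hmain := hasFDerivAt_integral_of_dominated_of_fderiv_le (μ := μ)
    (F := F) (F' := F') (x₀ := z₀) hs
    (by
      filter_upwards [hs] with z hz
      exact ((hF z hz).stronglyMeasurable_of_hasCompactSupport
        (HasCompactSupport.intro hQ fun l hl => hF0 z hz l hl)).aestronglyMeasurable)
    ((hF z₀ hz₀).integrable_of_hasCompactSupport
      (HasCompactSupport.intro hQ fun l hl => hF0 z₀ hz₀ l hl))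
    (by
      have h1 : Continuous fun l : L => F' z₀ l :=
        (cur.continuous.comp (hG z₀ hz₀)).clm_comp continuous_const
      have h2 : HasCompactSupport fun l : L => F' z₀ l := by
        refine HasCompactSupport.intro hQ fun l hl => ?_
        have h3 := hbound l z₀ hz₀
        rw [indicator_of_notMem hl] at h3
        exact norm_le_zero_iff.1 h3
      exact (h1.stronglyMeasurable_of_hasCompactSupport h2).aestronglyMeasurable)
    (ae_of_all _ hbound) hint (ae_of_all _ hd)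
  have e : ∫ l : L, F' z₀ l ∂μ = cur (∫ l, G z₀ l ∂μ) := by
    simp_rw [hF'0]
    exact cur.integral_comp_comm ((hG z₀ hz₀).integrable_of_hasCompactSupport hGs)
  rwa [e] at hmain

/-- differentiation under the integral sign (`hasFDerivAt_integral_of_dominated_of_fderiv_le`
with `HasRDeriv.chart` for the jet `l Θ`, bounds on the compact set `Q`, measurability by
`Continuous.stronglyMeasurable_of_hasCompactSupport`) -/
theorem avgJet_isJet (hH : IsLieGroup E H) [T2Space H] (hL : IsClosed (L : Set H))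
    (h : IsJet Θ) (hS : IsCompact S) (hΘ : ∀ k, ∀ x ∉ S, Θ k x = 0) :
    IsJet (avgJet μ hH Θ) := by
  have := hH.isTopologicalGroup
  have : T2Space L := inferInstance
  have : ProperSpace E := FiniteDimensional.proper ℝ E
  intro k x₀
  set φ := chartAt E (1 : H) with hφ
  have hφa : φ ∈ atlas E H := chart_mem_atlas E 1
  have h1t : φ 1 ∈ φ.target := φ.map_source (mem_chart_source E 1)
  have h1s : φ.symm (φ 1) = 1 := φ.left_inv (mem_chart_source E 1)
  obtain ⟨s, hs, hst, hsc⟩ : ∃ s : Set E, s ∈ 𝓝 (φ 1) ∧ s ⊆ φ.target ∧ IsCompact s := by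
    obtain ⟨s, hs, hst, hsc⟩ := local_compact_nhds (φ.open_target.mem_nhds h1t)
    exact ⟨s, hs, hst, hsc⟩
  have hφc : ContinuousOn (fun z => φ.symm z * x₀) s :=
    (φ.continuousOn_symm.mono hst).mul continuousOn_const
  obtain ⟨Q, hQ, hQ0⟩ := exists_compact_support hH hL hS hΘ (hsc.image_of_continuousOn hφc)
  have hQ0' : ∀ j, ∀ z ∈ s, ∀ l ∉ Q, actF hH (l : H) Θ j (φ.symm z * x₀) = 0 :=
    fun j z hz l hl => hQ0 l hl j _ ⟨z, hz, rfl⟩
  have hcont : ∀ j, Continuous fun p : L × H => actF hH (p.1 : H) Θ j p.2 := fun j =>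
    (h.continuous_actF hH j).comp ((continuous_subtype_val.comp continuous_fst).prodMk continuous_snd)
  have hcz : ∀ j z, Continuous fun l : L => actF hH (l : H) Θ j (φ.symm z * x₀) := fun j z =>
    (hcont j).comp (continuous_id.prodMk continuous_const)
  let cur : JF E (k + 1) →L[ℝ] (E →L[ℝ] JF E k) :=
    ((continuousMultilinearCurryLeftEquiv ℝ (fun _ : Fin (k + 1) => E) ℝ).toContinuousLinearEquiv :
      JF E (k + 1) →L[ℝ] (E →L[ℝ] JF E k))
  have hcont2 : ContinuousOn (fun p : E × L => actF hH (p.2 : H) Θ (k + 1) (φ.symm p.1 * x₀))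
      (s ×ˢ Q) := by
    have e1 : ContinuousOn (fun p : E × L => φ.symm p.1 * x₀) (s ×ˢ Q) :=
      hφc.comp continuousOn_fst fun p hp => hp.1
    exact (hcont (k + 1)).comp_continuousOn (continuousOn_snd.prodMk e1)
  have hmain := avg_aux μ (Y := JF E k) (Y' := JF E (k + 1)) cur hs hsc hQ
    (fun z l => actF hH (l : H) Θ k (φ.symm z * x₀))
    (fun z l => actF hH (l : H) Θ (k + 1) (φ.symm z * x₀)) (omRL φ)
    (fun z _ => hcz k z) (hQ0' k) (fun z _ => hcz (k + 1) z) (hQ0' (k + 1)) hcont2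
    ((omRL_continuousOn hH hφa).mono hst)
    (fun l z hz => (h.actF hH (l : H) k).chart hH hφa (hst hz) x₀)
    (fun l => by
      have h2 := h.actF hH (l : H) k x₀
      rw [h1s, one_mul]
      exact h2)
  rw [h1s, one_mul] at hmain
  exact hmain

end Pool.Agent.Lib.MP_862e0f_al
end

section

/-!
# Invariance and bounds of Haar averages of jets
-/

set_option autoImplicit false
set_option linter.unusedSectionVars false

namespace Pool.Agent.Lib.MP_862e0f_al

open Filter Topology Set unitInterval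

universe u v w x y z

variable {E : Type v} [NormedAddCommGroup E] [NormedSpace ℝ E] [FiniteDimensional ℝ E]
  {H : Type u} [Group H] [TopologicalSpace H] [ChartedSpace E H]
open MeasureTheory

variable {L : Subgroup H} [MeasurableSpace L] [BorelSpace L] (μ : Measure L)
  [μ.IsMulLeftInvariant] [IsFiniteMeasureOnCompacts μ] [μ.IsOpenPosMeasure]

variable {Θ : ∀ k : ℕ, H → JF E k} {S : Set H}

/-- left invariance of the Haar measure -/
theorem avgJet_zero_inv (hH : IsLieGroup E H) (m : L) (x : H) :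
    avgJet μ hH Θ 0 ((m : H)⁻¹ * x) = avgJet μ hH Θ 0 x := by
  have hT : IsTopologicalGroup H := hH.isTopologicalGroup
  have : MeasurableMul L := inferInstance
  unfold avgJet
  rw [← integral_mul_left_eq_self (μ := μ)
    (fun l : L => actF hH (l : H) Θ 0 x) m]
  refine integral_congr_ae (Filter.Eventually.of_forall fun l => ?_)
  simp only [actF_zero]
  congr 1
  rw [Subgroup.coe_mul, mul_inv_rev, mul_assoc]

theorem avgJet_actF (hH : IsLieGroup E H) [T2Space H] (hL : IsClosed (L : Set H))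
    (h : IsJet Θ) (hS : IsCompact S) (hΘ : ∀ k, ∀ x ∉ S, Θ k x = 0) (m : L) :
    actF hH (m : H) (avgJet μ hH Θ) = avgJet μ hH Θ := by
  have hj := avgJet_isJet μ hH hL h hS hΘ
  refine IsJet.ext (hj.actF hH (m : H)) hj fun x => ?_
  rw [actF_zero]
  exact avgJet_zero_inv μ hH m x

private theorem Avg2_cpt_BB (hH : IsLieGroup E H) (hS : IsCompact S) :
    ∃ N : ℕ, S ⊆ BB hH N := by
  choose n hn using exists_BB_nhds hH
  obtain ⟨t, _, ht⟩ := hS.elim_nhds_subcover (fun x => BB hH (n x)) (fun x _ => hn x)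
  refine ⟨t.sup n, fun x hx => ?_⟩
  obtain ⟨y, hy, hxy⟩ := mem_iUnion₂.mp (ht hx)
  exact BB_mono hH (Finset.le_sup hy) hxy

/-- `F k x ≠ 0` implies `h₀ = l₀⁻¹ x ∈ S` for some `l₀ ∈ L`; by invariance
`F k x = F k h₀ ∘ (Ad l₀⁻¹)^k`, and `Ad l₀⁻¹ = Ad h₀ Ad x⁻¹` is bounded for `x ∈ BB n` -/
theorem avgJet_bdd (hH : IsLieGroup E H) [T2Space H] (hL : IsClosed (L : Set H))
    (h : IsJet Θ) (hS : IsCompact S) (hΘ : ∀ k, ∀ x ∉ S, Θ k x = 0) :
    IsBddJet hH (avgJet μ hH Θ) := by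
  intro n k
  obtain ⟨N, hN⟩ := Avg2_cpt_BB hH hS
  have hj := avgJet_isJet μ hH hL h hS hΘ
  obtain ⟨C, hC⟩ := hS.exists_bound_of_continuousOn (hj.continuous hH k).continuousOn
  refine ⟨((N * n : ℕ) : ℝ) ^ k * max C 0, fun x hx => ?_⟩
  by_cases h0 : ∀ l : L, actF hH (l : H) Θ k x = 0
  · have : avgJet μ hH Θ k x = 0 := by
      unfold avgJet
      rw [show (fun l : L => actF hH (l : H) Θ k x) = fun _ => 0 from funext h0]
      exact integral_zero _ _
    rw [this, norm_zero]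
    positivity
  · push Not at h0
    obtain ⟨l, hl⟩ := h0
    have hmem : (l : H)⁻¹ * x ∈ S := by
      by_contra hns
      apply hl
      unfold actF
      rw [hΘ k _ hns]
      rfl
    have hact : actF hH (l : H) (avgJet μ hH Θ) k x = avgJet μ hH Θ k x := by
      rw [avgJet_actF μ hH hL h hS hΘ l]
    rw [← hact]
    refine (norm_actF_le hH (l : H) _ k x).trans ?_
    have hBB : (l : H)⁻¹ ∈ BB hH (N * n) := by
      have := BB_mul hH (hN hmem) (BB_inv hH hx)
      rwa [mul_inv_cancel_right] at this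
    have h1 : ‖AdL hH (l : H)⁻¹‖ ≤ ((N * n : ℕ) : ℝ) := hBB.1
    have h2 : ‖avgJet μ hH Θ k ((l : H)⁻¹ * x)‖ ≤ max C 0 := (hC _ hmem).trans (le_max_left _ _)
    exact mul_le_mul (pow_le_pow_left₀ (norm_nonneg _) h1 k) h2 (norm_nonneg _) (by positivity)

theorem avgJet_pos (hH : IsLieGroup E H) [T2Space H] (hL : IsClosed (L : Set H))
    (h : IsJet Θ) (hS : IsCompact S) (hΘ : ∀ k, ∀ x ∉ S, Θ k x = 0) (h0 : ∀ x, 0 ≤ Θ 0 x 0)
    (h1 : 0 < Θ 0 1 0) : 0 < avgJet μ hH Θ 0 1 0 := by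
  have hT : IsTopologicalGroup H := hH.isTopologicalGroup
  obtain ⟨Q, hQ, hQ0⟩ := exists_compact_support (L := L) hH hL hS hΘ
    (isCompact_singleton (x := (1 : H)))
  have hcont : Continuous fun l : L => actF hH (l : H) Θ 0 1 :=
    (h.continuous_actF hH 0).comp (continuous_subtype_val.prodMk continuous_const)
  have hsupp : HasCompactSupport fun l : L => actF hH (l : H) Θ 0 1 :=
    HasCompactSupport.intro hQ fun l hl => hQ0 l hl 0 1 (mem_singleton 1)
  have hint : Integrable (fun l : L => actF hH (l : H) Θ 0 1) μ :=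
    hcont.integrable_of_hasCompactSupport hsupp
  let A : JF E 0 →L[ℝ] ℝ := ContinuousMultilinearMap.apply ℝ (fun _ : Fin 0 => E) ℝ 0
  have e1 : avgJet μ hH Θ 0 1 0 = ∫ l : L, actF hH (l : H) Θ 0 1 0 ∂μ := by
    have := A.integral_comp_comm hint
    exact this.symm
  rw [e1]
  have hc2 : Continuous fun l : L => actF hH (l : H) Θ 0 1 0 := A.continuous.comp hcont
  have hs2 : HasCompactSupport fun l : L => actF hH (l : H) Θ 0 1 0 :=
    HasCompactSupport.intro hQ fun l hl => by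
      rw [hQ0 l hl 0 1 (mem_singleton 1)]; rfl
  refine hc2.integral_pos_of_hasCompactSupport_nonneg_nonzero (x := 1) hs2 (fun l => ?_) ?_
  · rw [Pi.zero_apply, actF_zero]
    exact h0 _
  · rw [actF_zero]
    have : ((1 : L) : H)⁻¹ * 1 = 1 := by simp
    rw [this]
    exact h1.ne'

theorem avgJet_eq_zero (hH : IsLieGroup E H) {c : H} (hc : ∀ l : L, Θ 0 ((l : H) * c) = 0) :
    avgJet μ hH Θ 0 c = 0 := by
  unfold avgJet
  rw [show (fun l : L => actF hH (l : H) Θ 0 c) = fun _ => 0 from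
    funext fun l => by
      rw [actF_zero]
      exact hc l⁻¹]
  exact integral_zero _ _

end Pool.Agent.Lib.MP_862e0f_al
end

section

/-!
# An invariant jet

For a closed subgroup `L` of `H` and `c ∉ L` there is a bounded jet which is fixed by `L` and not
fixed by `c⁻¹`.
-/

set_option autoImplicit false
set_option linter.unusedSectionVars false

namespace Pool.Agent.Lib.MP_862e0f_al

open Filter Topology Set unitInterval

universe u v w x y z

variable {E : Type v} [NormedAddCommGroup E] [NormedSpace ℝ E] [FiniteDimensional ℝ E]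
  {H : Type u} [Group H] [TopologicalSpace H] [ChartedSpace E H]

/-- apply the previous files to the bump function for the closed set `A = {l c | l ∈ L}`, with the
Haar measure of the locally compact group `L` (Borel σ-algebra); `(c⁻¹ f) 0 1 = f 0 c = 0`, while
`f 0 1 > 0` -/
theorem exists_invariant_jet (hH : IsLieGroup E H) [T2Space H] (L : Subgroup H)
    (hL : IsClosed (L : Set H)) {c : H} (hc : c ∉ L) :
    ∃ f : Jet hH, (∀ l ∈ L, jetAct hH l f = f) ∧ jetAct hH c⁻¹ f ≠ f := by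
  have hT : IsTopologicalGroup H := hH.isTopologicalGroup
  have hE : LocallyCompactSpace E := by
    have := FiniteDimensional.proper ℝ E
    infer_instance
  have hHc : LocallyCompactSpace H := ChartedSpace.locallyCompactSpace E H
  have hLc : LocallyCompactSpace L :=
    hL.isClosedEmbedding_subtypeVal.locallyCompactSpace
  -- the closed set `L c`
  let A : Set H := {x | ∃ l ∈ L, x = l * c}
  have hA : IsClosed A := by
    have h1 : A = (fun x => x * c⁻¹) ⁻¹' (L : Set H) := by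
      ext x
      constructor
      · rintro ⟨l, hl, rfl⟩
        show l * c * c⁻¹ ∈ (L : Set H)
        rw [mul_inv_cancel_right]
        exact hl
      · intro hx
        exact ⟨x * c⁻¹, hx, by rw [inv_mul_cancel_right]⟩
    rw [h1]
    exact hL.preimage (continuous_id.mul continuous_const)
  have h1A : (1 : H) ∉ A := by
    rintro ⟨l, hl, h⟩
    apply hc
    have : c = l⁻¹ := eq_inv_of_mul_eq_one_right h.symm
    rw [this]
    exact L.inv_mem hl
  obtain ⟨F, hF, hF0, hF1, S, hS, hSA, hFS⟩ := exists_chSmooth_bump hH hA h1A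
  obtain ⟨Θ, hΘ, hΘF⟩ := exists_jet_of_chSmooth hH hF
  have hΘS : ∀ k, ∀ x ∉ S, Θ k x = 0 := fun k => hΘ.eq_zero hH hS.isClosed
    (fun x hx => by rw [hΘF, hFS x hx]) k
  let _ : MeasurableSpace L := borel L
  have : BorelSpace L := ⟨rfl⟩
  let μ : MeasureTheory.Measure L := MeasureTheory.Measure.haar
  have j1 : IsJet (avgJet μ hH Θ) := avgJet_isJet μ hH hL hΘ hS hΘS
  have j2 : IsBddJet hH (avgJet μ hH Θ) := avgJet_bdd μ hH hL hΘ hS hΘS
  refine ⟨Jet.mk (avgJet μ hH Θ) j1 j2, fun l hl => ?_, fun h => ?_⟩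
  · refine Jet.ext_val fun k x => ?_
    rw [jetAct_val, Jet.mk_val]
    exact congrFun (congrFun (avgJet_actF μ hH hL hΘ hS hΘS ⟨l, hl⟩) k) x
  · have h2 : (jetAct hH c⁻¹ (Jet.mk (avgJet μ hH Θ) j1 j2)).val 0 1
        = avgJet μ hH Θ 0 1 := by rw [h, Jet.mk_val]
    rw [jetAct_val_zero, Jet.mk_val, inv_inv, mul_one] at h2
    have h3 : avgJet μ hH Θ 0 c = 0 := by
      refine avgJet_eq_zero μ hH fun l => hΘS 0 _ fun hx => ?_
      exact Set.disjoint_left.1 hSA hx ⟨l, l.2, rfl⟩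
    have h4 : 0 < avgJet μ hH Θ 0 1 0 := avgJet_pos μ hH hL hΘ hS hΘS
      (fun x => by rw [hΘF]; exact hF0 x) (by rw [hΘF]; exact hF1)
    rw [← h2, h3] at h4
    simp at h4

end Pool.Agent.Lib.MP_862e0f_al
end

section

/-!
# The space of jets is a Fréchet space

Completeness: a Cauchy sequence `a n` is Cauchy in all seminorms `jetNorm (n, k)`, so
`(a n).val k x` converges, uniformly on all `BB n`; the limit is a jet by `HasRDeriv.of_tendsto`
(`curryLeft` is a linear isometry, `exists_BB_nhds` gives the neighbourhoods).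
-/

set_option autoImplicit false
set_option linter.unusedSectionVars false

namespace Pool.Agent.Lib.MP_862e0f_al

open Filter Topology Set unitInterval

universe u v w x y z

variable {E : Type v} [NormedAddCommGroup E] [NormedSpace ℝ E] [FiniteDimensional ℝ E]
  {H : Type u} [Group H] [TopologicalSpace H] [ChartedSpace E H]

theorem jet_metrizable (hH : IsLieGroup E H) : TopologicalSpace.MetrizableSpace (Jet hH) := by
  have h1 : FirstCountableTopology (Jet hH) := (jet_withSeminorms (hH := hH)).firstCountableTopology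
  let _ := IsTopologicalAddGroup.rightUniformSpace (Jet hH)
  have : IsUniformAddGroup (Jet hH) := isUniformAddGroup_of_addCommGroup
  have : IsCountablyGenerated (uniformity (Jet hH)) :=
    IsUniformAddGroup.uniformity_countably_generated
  exact UniformSpace.metrizableSpace

theorem jet_tendsto_iff {hH : IsLieGroup E H} {ι : Type w} {l : Filter ι} {a : ι → Jet hH}
    {b : Jet hH} : Tendsto a l (𝓝 b) ↔
      ∀ (n k : ℕ) (ε : ℝ), 0 < ε → ∀ᶠ i in l, jetNorm hH (n, k) (a i - b) < ε := by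
  rw [(jet_withSeminorms (hH := hH)).tendsto_nhds a b]
  exact ⟨fun h n k ε hε => h (n, k) ε hε, fun h p ε hε => h p.1 p.2 ε hε⟩

theorem jet_cauchy {hH : IsLieGroup E H} {a : ℕ → Jet hH}
    (ha : ∀ W ∈ 𝓝 (0 : Jet hH), ∃ N : ℕ, ∀ m ≥ N, ∀ n ≥ N, a m - a n ∈ W) (n k : ℕ) {ε : ℝ}
    (hε : 0 < ε) : ∃ N : ℕ, ∀ i ≥ N, ∀ j ≥ N, ∀ x ∈ BB hH n,
      ‖(a i).val k x - (a j).val k x‖ < ε := by
  have h1 : {Ψ : Jet hH | jetNorm hH (n, k) Ψ < ε} ∈ 𝓝 (0 : Jet hH) := by
    have h2 : Tendsto (fun Ψ : Jet hH => Ψ) (𝓝 0) (𝓝 0) := tendsto_id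
    have h3 := jet_tendsto_iff.mp h2 n k ε hε
    simp only [sub_zero] at h3
    exact h3
  obtain ⟨N, hN⟩ := ha _ h1
  refine ⟨N, fun i hi j hj x hx => ?_⟩
  rw [← Jet.sub_val]
  exact (le_jetNorm (a i - a j) hx).trans_lt (hN i hi j hj)

theorem jet_seqComplete (hH : IsLieGroup E H) (a : ℕ → Jet hH)
    (ha : ∀ W ∈ 𝓝 (0 : Jet hH), ∃ N : ℕ, ∀ m ≥ N, ∀ n ≥ N, a m - a n ∈ W) :
    ∃ b : Jet hH, Tendsto a atTop (𝓝 b) := by
  have h1 : ∀ (k : ℕ) (x : H), ∃ G : JF E k, Tendsto (fun i => (a i).val k x) atTop (𝓝 G) := by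
    intro k x
    obtain ⟨n, hn⟩ := exists_BB_nhds hH x
    refine cauchySeq_tendsto_of_complete (Metric.cauchySeq_iff.mpr fun ε hε => ?_)
    obtain ⟨N, hN⟩ := jet_cauchy ha n k hε
    refine ⟨N, fun i hi j hj => ?_⟩
    rw [dist_eq_norm]
    exact hN i hi j hj x (mem_of_mem_nhds hn)
  choose G hG using h1
  have h2 : ∀ (n k : ℕ) (ε : ℝ), 0 < ε → ∃ N : ℕ, ∀ i ≥ N, ∀ x ∈ BB hH n,
      ‖(a i).val k x - G k x‖ ≤ ε := by
    intro n k ε hε
    obtain ⟨N, hN⟩ := jet_cauchy ha n k hε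
    refine ⟨N, fun i hi x hx => ?_⟩
    have h3 : Tendsto (fun j => ‖(a i).val k x - (a j).val k x‖) atTop
        (𝓝 ‖(a i).val k x - G k x‖) := (tendsto_const_nhds.sub (hG k x)).norm
    refine le_of_tendsto h3 ?_
    filter_upwards [eventually_ge_atTop N] with j hj
    exact (hN i hi j hj x hx).le
  have h4 : IsJet G := by
    intro k
    refine HasRDeriv.of_tendsto hH (F := fun i => (a i).val k)
      (F' := fun i x => ((a i).val (k + 1) x).curryLeft) (fun i => (a i).isJet k) (hG k)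
      fun x => ?_
    obtain ⟨n, hn⟩ := exists_BB_nhds hH x
    refine ⟨BB hH n, hn, ?_⟩
    rw [Metric.tendstoUniformlyOn_iff]
    intro ε hε
    obtain ⟨N, hN⟩ := h2 n (k + 1) (ε / 2) (half_pos hε)
    filter_upwards [eventually_ge_atTop N] with i hi y hy
    rw [dist_eq_norm, norm_sub_rev]
    have h5 : ((a i).val (k + 1) y).curryLeft - (G (k + 1) y).curryLeft =
        ((a i).val (k + 1) y - G (k + 1) y).curryLeft := by
      ext v w
      rfl
    rw [h5, ContinuousMultilinearMap.curryLeft_norm]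
    exact (hN i hi y hy).trans_lt (half_lt_self hε)
  have h6 : IsBddJet hH G := by
    intro n k
    obtain ⟨N, hN⟩ := h2 n k 1 one_pos
    refine ⟨jetNorm hH (n, k) (a N) + 1, fun x hx => ?_⟩
    have h7 : G k x = (a N).val k x - ((a N).val k x - G k x) := by abel
    rw [h7]
    exact (norm_sub_le _ _).trans (add_le_add (le_jetNorm _ hx) (hN N le_rfl x hx))
  refine ⟨Jet.mk G h4 h6, jet_tendsto_iff.mpr fun n k ε hε => ?_⟩
  obtain ⟨N, hN⟩ := h2 n k (ε / 2) (half_pos hε)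
  filter_upwards [eventually_ge_atTop N] with i hi
  refine (jetNorm_le _ (half_pos hε).le fun x hx => ?_).trans_lt (half_lt_self hε)
  rw [Jet.sub_val]
  exact hN i hi x hx

theorem jet_hasAnti (hH : IsLieGroup E H) : HasAnti (Jet hH) :=
  hasAnti_of_seqComplete (jet_seqComplete hH)

end Pool.Agent.Lib.MP_862e0f_al
end

section

/-!
# The action on jets is jointly continuous

(a) `jetNorm (n, k) (g Ψ) ≤ c ^ k * jetNorm (n', k) Ψ` for all `g` near `g₀`, with `c`, `n'`
independent of `g`, `Ψ` (`exists_BB_nhds`, `BB_mul`, `norm_actF_le`). So it suffices to show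
that for fixed `Ψ` the map `g ↦ g Ψ` is continuous, and because `g Ψ = g₀ (κ⁻¹ Ψ)` with
`κ = g⁻¹ g₀ → 1`, it suffices to show `κ⁻¹ Ψ → Ψ` as `κ → 1`.
(b) `‖Ψ k (κ x) ∘ (Ad κ)^k - Ψ k x‖ ≤ ‖Ψ k (κ x)‖ * ‖(Ad κ)^k - id‖ + ‖Ψ k (κ x) - Ψ k x‖`, where
`(Ad κ)^k` is the operator `ContinuousMultilinearMap.compContinuousLinearMapL`, continuous in
`Ad κ` (`compContinuousLinearMapContinuousMultilinear`), and the second term is estimated by the
mean value inequality along the segment from `φ 1` to `φ κ` in the chart `φ` at `1`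
(`HasRDeriv.chart`, `omRL` is bounded near `φ 1` by `omRL_continuousOn`), uniformly for
`x ∈ BB n`.
-/

set_option autoImplicit false
set_option linter.unusedSectionVars false

namespace Pool.Agent.Lib.MP_862e0f_al

open Filter Topology Set unitInterval

universe u v w x y z

variable {E : Type v} [NormedAddCommGroup E] [NormedSpace ℝ E] [FiniteDimensional ℝ E]
  {H : Type u} [Group H] [TopologicalSpace H] [ChartedSpace E H]

theorem jetAct_equicont (hH : IsLieGroup E H) (g₀ : H) (n k : ℕ) : ∃ N ∈ 𝓝 g₀, ∃ (n' : ℕ) (C : ℝ),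
    0 ≤ C ∧ ∀ g ∈ N, ∀ Ψ : Jet hH,
      jetNorm hH (n, k) (jetAct hH g Ψ) ≤ C * jetNorm hH (n', k) Ψ := by
  obtain ⟨m, hm⟩ := exists_BB_nhds hH g₀
  refine ⟨BB hH m, hm, m * n, (m : ℝ) ^ k, pow_nonneg (Nat.cast_nonneg _) _, fun g hg Ψ => ?_⟩
  refine (jetNorm_act_le (BB_inv hH hg) n k Ψ (jetAct hH g Ψ) fun _ => rfl).trans ?_
  exact mul_le_mul_of_nonneg_right (pow_le_pow_left₀ (norm_nonneg _) hg.2 _) (apply_nonneg _ _)

/-- uniform continuity of the components of a jet -/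
theorem jet_uniform (hH : IsLieGroup E H) (Ψ : Jet hH) (n k : ℕ) {ε : ℝ} (hε : 0 < ε) :
    ∀ᶠ κ in 𝓝 (1 : H), ∀ x ∈ BB hH n, ‖Ψ.val k (κ * x) - Ψ.val k x‖ ≤ ε := by
  obtain ⟨m, hm⟩ := exists_BB_nhds hH (1 : H)
  set φ := chartAt E (1 : H) with hφ
  have h1 : (1 : H) ∈ φ.source := mem_chart_source E 1
  have h1t : φ 1 ∈ φ.target := φ.map_source h1
  have hat : φ ∈ atlas E H := chart_mem_atlas E 1
  have h2 : ContinuousAt (omRL φ) (φ 1) :=
    (omRL_continuousOn hH hat).continuousAt (φ.open_target.mem_nhds h1t)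
  have h3 : ∀ᶠ z in 𝓝 (φ 1), ‖omRL φ z‖ < ‖omRL φ (φ 1)‖ + 1 :=
    h2.norm.eventually (gt_mem_nhds (lt_add_one _))
  have h4 : ∀ᶠ z in 𝓝 (φ 1), φ.symm z ∈ BB hH m := by
    have h5 : Tendsto φ.symm (𝓝 (φ 1)) (𝓝 (φ.symm (φ 1))) :=
      (φ.continuousAt_symm h1t)
    rw [φ.left_inv h1] at h5
    exact h5 hm
  obtain ⟨r, hr, hball⟩ := Metric.eventually_nhds_iff_ball.mp
    (h3.and (h4.and (φ.open_target.mem_nhds h1t)))
  set C := jetNorm hH (m * n, k + 1) Ψ * (‖omRL φ (φ 1)‖ + 1) with hC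
  have hC0 : 0 ≤ C := mul_nonneg (apply_nonneg _ _) (by positivity)
  have h6 : Tendsto (fun κ : H => C * ‖φ κ - φ 1‖) (𝓝 1) (𝓝 (C * ‖φ 1 - φ 1‖)) :=
    ((φ.continuousAt h1).sub continuousAt_const).norm.const_mul C
  rw [sub_self, norm_zero, mul_zero] at h6
  have h7 : ∀ᶠ κ in 𝓝 (1 : H), φ κ ∈ Metric.ball (φ 1) r :=
    (φ.continuousAt h1).eventually (Metric.ball_mem_nhds _ hr)
  filter_upwards [h6.eventually (gt_mem_nhds hε), h7, φ.open_source.mem_nhds h1]
    with κ hκ1 hκ2 hκ3 x hx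
  have h8 : ∀ z ∈ Metric.ball (φ 1) r, HasFDerivWithinAt (fun z' => Ψ.val k (φ.symm z' * x))
      (((Ψ.val (k + 1) (φ.symm z * x)).curryLeft).comp (omRL φ z)) (Metric.ball (φ 1) r) z :=
    fun z hz => (HasRDeriv.chart hH (Ψ.isJet k) hat (hball z hz).2.2 x).hasFDerivWithinAt
  have h9 : ∀ z ∈ Metric.ball (φ 1) r,
      ‖((Ψ.val (k + 1) (φ.symm z * x)).curryLeft).comp (omRL φ z)‖ ≤ C := by
    intro z hz
    refine (ContinuousLinearMap.opNorm_comp_le _ _).trans ?_
    rw [ContinuousMultilinearMap.curryLeft_norm]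
    exact mul_le_mul (le_jetNorm Ψ (BB_mul hH (hball z hz).2.1 hx)) (hball z hz).1.le
      (norm_nonneg _) (apply_nonneg _ _)
  have h10 := (convex_ball (φ 1) r).norm_image_sub_le_of_norm_hasFDerivWithin_le h8 h9
    (Metric.mem_ball_self hr) hκ2
  rw [φ.left_inv hκ3, φ.left_inv h1, one_mul] at h10
  exact h10.trans hκ1.le

theorem eventually_norm_apply_sub {X : Type w} [TopologicalSpace X] {Y : Type x}
    [NormedAddCommGroup Y] [NormedSpace ℝ Y] {T : X → Y →L[ℝ] Y} {x₀ : X}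
    (hT : ContinuousAt T x₀) (h1 : ∀ f, T x₀ f = f) {ε : ℝ} (hε : 0 < ε) :
    ∀ᶠ x in 𝓝 x₀, ∀ f, ‖T x f - f‖ ≤ ε * ‖f‖ := by
  have h4 := tendsto_iff_norm_sub_tendsto_zero.mp hT
  filter_upwards [h4.eventually (gt_mem_nhds hε)] with κ hκ f
  have h5 : T κ f - f = (T κ - T x₀) f := by
    rw [sub_apply, h1]
  rw [h5]
  exact (ContinuousLinearMap.le_opNorm _ _).trans
    (mul_le_mul_of_nonneg_right hκ.le (norm_nonneg _))

theorem compAd_tendsto (hH : IsLieGroup E H) (k : ℕ) {ε : ℝ} (hε : 0 < ε) :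
    ∀ᶠ κ in 𝓝 (1 : H), ∀ f : JF E k,
      ‖f.compContinuousLinearMap (fun _ => AdL hH κ) - f‖ ≤ ε * ‖f‖ := by
  set T : H → (JF E k →L[ℝ] JF E k) := fun κ =>
    ContinuousMultilinearMap.compContinuousLinearMapContinuousMultilinear ℝ (fun _ : Fin k => E)
      (fun _ : Fin k => E) ℝ (fun _ => AdL hH κ) with hT
  have h1 : Continuous T :=
    (ContinuousMultilinearMap.compContinuousLinearMapContinuousMultilinear ℝ
      (fun _ : Fin k => E) (fun _ : Fin k => E) ℝ).cont.comp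
      (continuous_pi fun _ => AdL_continuous hH)
  have h2 : ∀ (κ : H) (f : JF E k), T κ f = f.compContinuousLinearMap (fun _ => AdL hH κ) :=
    fun _ _ => rfl
  have h3 : ∀ f : JF E k, T 1 f = f := by
    intro f
    rw [h2, AdL_one]
    ext v
    rfl
  exact eventually_norm_apply_sub h1.continuousAt h3 hε

theorem jetAct_tendsto_one (hH : IsLieGroup E H) (Ψ : Jet hH) :
    Tendsto (fun κ : H => jetAct hH κ Ψ) (𝓝 1) (𝓝 Ψ) := by
  refine jet_tendsto_iff.mpr fun n k ε hε => ?_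
  obtain ⟨m, hm⟩ := exists_BB_nhds hH (1 : H)
  set J := jetNorm hH (m * n, k) Ψ with hJ
  have hJ0 : 0 ≤ J := apply_nonneg _ _
  have hinv : Tendsto (fun κ : H => κ⁻¹) (𝓝 1) (𝓝 1) := by
    have h := hH.smooth_inv.1.tendsto (1 : H)
    rwa [inv_one] at h
  filter_upwards [hinv.eventually (compAd_tendsto hH k (ε := ε / 4 / (J + 1)) (by positivity)),
    hinv.eventually (jet_uniform hH Ψ n k (ε := ε / 4) (by positivity)),
    hinv.eventually hm] with κ h1 h2 h3
  refine (jetNorm_le _ (C := ε / 4 + ε / 4) (by positivity) fun x hx => ?_).trans_lt (by linarith)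
  have h4 : (jetAct hH κ Ψ - Ψ).val k x =
      ((Ψ.val k (κ⁻¹ * x)).compContinuousLinearMap (fun _ => AdL hH κ⁻¹) - Ψ.val k (κ⁻¹ * x)) +
        (Ψ.val k (κ⁻¹ * x) - Ψ.val k x) := by
    rw [Jet.sub_val, jetAct_val, actF]
    abel
  rw [h4]
  refine (norm_add_le _ _).trans (add_le_add ((h1 _).trans ?_) (h2 x hx))
  have h5 : ‖Ψ.val k (κ⁻¹ * x)‖ ≤ J := le_jetNorm Ψ (BB_mul hH h3 hx)
  have h6 : ε / 4 / (J + 1) * ‖Ψ.val k (κ⁻¹ * x)‖ ≤ ε / 4 / (J + 1) * (J + 1) :=
    mul_le_mul_of_nonneg_left (by linarith) (by positivity)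
  rwa [div_mul_cancel₀ _ (by positivity : (J + 1) ≠ 0)] at h6

theorem jetAct_tendsto (hH : IsLieGroup E H) (g₀ : H) (Ψ : Jet hH) :
    Tendsto (fun g : H => jetAct hH g Ψ) (𝓝 g₀) (𝓝 (jetAct hH g₀ Ψ)) := by
  have h1 : Tendsto (fun g : H => g₀⁻¹ * g) (𝓝 g₀) (𝓝 1) := by
    have h := (hH.continuous_mul.comp (continuous_const.prodMk continuous_id)).tendsto g₀
      (f := fun g : H => (fun p : H × H => p.1 * p.2) (g₀⁻¹, g))
    simp only [inv_mul_cancel] at h
    exact h
  have h2 := ((jetAct hH g₀).continuous.tendsto Ψ).comp ((jetAct_tendsto_one hH Ψ).comp h1)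
  refine h2.congr fun g => ?_
  change (jetAct hH g₀) ((jetAct hH (g₀⁻¹ * g)) Ψ) = _
  rw [← mul_apply_eq_comp, ← map_mul, mul_inv_cancel_left]

theorem jetAct_continuous (hH : IsLieGroup E H) :
    Continuous fun p : H × Jet hH => jetAct hH p.1 p.2 := by
  refine continuous_iff_continuousAt.mpr fun p => ?_
  obtain ⟨g₀, Ψ₀⟩ := p
  refine jet_tendsto_iff.mpr fun n k ε hε => ?_
  obtain ⟨N, hN, n', C, hC, h1⟩ := jetAct_equicont hH g₀ n k
  have h2 : ∀ᶠ Ψ in 𝓝 Ψ₀, jetNorm hH (n', k) (Ψ - Ψ₀) < ε / 2 / (C + 1) :=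
    jet_tendsto_iff.mp tendsto_id n' k _ (by positivity)
  have h3 : ∀ᶠ g in 𝓝 g₀, jetNorm hH (n, k) (jetAct hH g Ψ₀ - jetAct hH g₀ Ψ₀) < ε / 2 :=
    jet_tendsto_iff.mp (jetAct_tendsto hH g₀ Ψ₀) n k _ (by positivity)
  have h4 : ∀ᶠ g in 𝓝 g₀, g ∈ N := hN
  filter_upwards [(h4.and h3).prod_nhds h2] with p hp
  obtain ⟨⟨hp1, hp2⟩, hp3⟩ := hp
  have h5 : jetAct hH p.1 p.2 - jetAct hH g₀ Ψ₀ =
      jetAct hH p.1 (p.2 - Ψ₀) + (jetAct hH p.1 Ψ₀ - jetAct hH g₀ Ψ₀) := by
    rw [map_sub]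
    abel
  change jetNorm hH (n, k) (jetAct hH p.1 p.2 - jetAct hH g₀ Ψ₀) < ε
  rw [h5]
  refine (map_add_le_add _ _ _).trans_lt ?_
  have h6 := h1 p.1 hp1 (p.2 - Ψ₀)
  have h7 : C * jetNorm hH (n', k) (p.2 - Ψ₀) ≤ (C + 1) * (ε / 2 / (C + 1)) :=
    mul_le_mul (by linarith) hp3.le (apply_nonneg _ _) (by positivity)
  rw [mul_div_cancel₀ _ (by positivity : (C + 1) ≠ 0)] at h7
  linarith

end Pool.Agent.Lib.MP_862e0f_al
end

section

/-!
# Right-invariant derivatives of jets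

`(R v Ψ) k x = Ψ (k + 1) x (·, …, ·, v)`.
-/

set_option autoImplicit false
set_option linter.unusedSectionVars false

namespace Pool.Agent.Lib.MP_862e0f_al

open Filter Topology Set unitInterval

universe u v w x y z

variable {E : Type v} [NormedAddCommGroup E] [NormedSpace ℝ E] [FiniteDimensional ℝ E]
  {H : Type u} [Group H] [TopologicalSpace H] [ChartedSpace E H]

/-- insert `v` into the last argument -/
noncomputable def evLast (k : ℕ) (v : E) (f : JF E (k + 1)) : JF E k :=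
  (ContinuousLinearMap.apply ℝ ℝ v).compContinuousMultilinearMap f.curryRight

theorem evLast_apply (k : ℕ) (v : E) (f : JF E (k + 1)) (m : Fin k → E) :
    evLast k v f m = f (Fin.snoc m v) := rfl

theorem norm_evLast_le (k : ℕ) (v : E) (f : JF E (k + 1)) : ‖evLast k v f‖ ≤ ‖v‖ * ‖f‖ := by
  refine ContinuousMultilinearMap.opNorm_le_bound (by positivity) fun m => ?_
  rw [evLast_apply]
  refine (f.le_opNorm _).trans (le_of_eq ?_)
  rw [Fin.prod_univ_castSucc]
  simp only [Fin.snoc_castSucc, Fin.snoc_last]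
  ring

/-- `evLast` as a continuous linear map of `f` -/
noncomputable def evLastL (k : ℕ) (v : E) : JF E (k + 1) →L[ℝ] JF E k :=
  LinearMap.mkContinuous
    { toFun := evLast k v
      map_add' := fun f g => by
        ext m
        rfl
      map_smul' := fun r f => by
        ext m
        rfl } ‖v‖ (norm_evLast_le k v)

@[simp] theorem evLastL_apply (k : ℕ) (v : E) (f : JF E (k + 1)) :
    evLastL k v f = evLast k v f := rfl

/-- `HasRDeriv.clm` with `evLastL k v`; compare the two sides at `w` and `m` with `evLast_apply`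
and `Fin.cons_snoc_eq_snoc_cons` -/
theorem IsJet.evLast {Ψ : ∀ k : ℕ, H → JF E k} (h : IsJet Ψ) (v : E) :
    IsJet fun k x => evLast k v (Ψ (k + 1) x) := by
  intro k
  have h1 := (h (k + 1)).clm (evLastL k v)
  have e : (fun x => (evLastL k v).comp (Ψ (k + 1 + 1) x).curryLeft) =
      fun x => (Pool.Agent.Lib.MP_862e0f_al.evLast (k + 1) v (Ψ (k + 1 + 1) x)).curryLeft := by
    funext x
    ext w m
    change (Ψ (k + 1 + 1) x) (Fin.cons w (Fin.snoc m v)) =
      (Ψ (k + 1 + 1) x) (Fin.snoc (Fin.cons w m) v)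
    congr 1
    exact Fin.cons_snoc_eq_snoc_cons w m v
  rw [e] at h1
  exact h1

/-- the derivative of jets in the direction `v` -/
noncomputable def jetR {hH : IsLieGroup E H} (v : E) (Ψ : Jet hH) : Jet hH :=
  Jet.mk (fun k x => Pool.Agent.Lib.MP_862e0f_al.evLast k v (Ψ.val (k + 1) x))
    (Ψ.isJet.evLast v) (by
      intro n k
      obtain ⟨C, hC⟩ := Ψ.isBddJet n (k + 1)
      exact ⟨‖v‖ * C, fun x hx => (norm_evLast_le k v _).trans
        (mul_le_mul_of_nonneg_left (hC x hx) (norm_nonneg v))⟩)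

theorem jetR_val {hH : IsLieGroup E H} (v : E) (Ψ : Jet hH) (k : ℕ) (x : H) :
    (jetR v Ψ).val k x = evLast k v (Ψ.val (k + 1) x) := rfl

theorem jetR_add_left {hH : IsLieGroup E H} (a b : E) (Ψ : Jet hH) :
    jetR (a + b) Ψ = jetR a Ψ + jetR b Ψ := by
  refine Jet.ext_val fun k x => ?_
  rw [Jet.add_val, jetR_val, jetR_val, jetR_val]
  ext m
  exact (((Ψ.val (k + 1) x).curryRight) m).map_add a b

theorem jetR_smul_left {hH : IsLieGroup E H} (r : ℝ) (a : E) (Ψ : Jet hH) :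
    jetR (r • a) Ψ = r • jetR a Ψ := by
  refine Jet.ext_val fun k x => ?_
  rw [Jet.smul_val, jetR_val, jetR_val]
  ext m
  exact (((Ψ.val (k + 1) x).curryRight) m).map_smul r a

theorem jetNorm_jetR_le {hH : IsLieGroup E H} (v : E) (Ψ : Jet hH) (n k : ℕ) :
    jetNorm hH (n, k) (jetR v Ψ) ≤ ‖v‖ * jetNorm hH (n, k + 1) Ψ := by
  refine jetNorm_le _ (mul_nonneg (norm_nonneg v) (apply_nonneg _ _)) fun x hx => ?_
  rw [jetR_val]
  exact (norm_evLast_le k v _).trans
    (mul_le_mul_of_nonneg_left (le_jetNorm Ψ hx) (norm_nonneg v))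

theorem jetR_isContBilin (hH : IsLieGroup E H) : IsContBilin (jetR : E → Jet hH → Jet hH) := by
  have hr : ∀ (a : E) (b c : Jet hH), jetR a (b + c) = jetR a b + jetR a c := fun a b c =>
    Jet.ext_val fun k x => rfl
  refine ⟨?_, jetR_add_left, hr, jetR_smul_left, fun r a b => Jet.ext_val fun k x => rfl⟩
  rw [continuous_iff_continuousAt]
  rintro ⟨v0, Ψ0⟩
  refine (jet_withSeminorms.tendsto_nhds _ _).mpr ?_
  rintro ⟨n, k⟩ ε hε
  have hc : Continuous fun Ψ : Jet hH => jetNorm hH (n, k + 1) Ψ :=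
    jet_withSeminorms.continuous_seminorm (n, k + 1)
  have h1 : Continuous fun p : E × Jet hH => ‖p.1 - v0‖ * jetNorm hH (n, k + 1) p.2 +
      ‖v0‖ * jetNorm hH (n, k + 1) (p.2 - Ψ0) := by
    refine ((continuous_fst.sub continuous_const).norm.mul (hc.comp continuous_snd)).add
      (continuous_const.mul (hc.comp (continuous_snd.sub continuous_const)))
  have h2 : ∀ᶠ p : E × Jet hH in 𝓝 (v0, Ψ0), ‖p.1 - v0‖ * jetNorm hH (n, k + 1) p.2 +
      ‖v0‖ * jetNorm hH (n, k + 1) (p.2 - Ψ0) < ε := by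
    refine (h1.tendsto (v0, Ψ0)).eventually_lt_const ?_
    simp only [sub_self, norm_zero, zero_mul, map_zero, mul_zero, add_zero]
    exact hε
  filter_upwards [h2] with p hp
  refine lt_of_le_of_lt ?_ hp
  change jetNorm hH (n, k) (jetR p.1 p.2 - jetR v0 Ψ0) ≤ _
  have e : jetR p.1 p.2 - jetR v0 Ψ0 = jetR (p.1 - v0) p.2 + jetR v0 (p.2 - Ψ0) := by
    have e1 : jetR p.1 p.2 = jetR (p.1 - v0) p.2 + jetR v0 p.2 := by
      rw [← jetR_add_left, sub_add_cancel]
    have e2 : jetR v0 p.2 = jetR v0 (p.2 - Ψ0) + jetR v0 Ψ0 := by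
      rw [← hr, sub_add_cancel]
    rw [e1, e2]
    abel
  rw [e]
  exact (map_add_le_add _ _ _).trans (add_le_add (jetNorm_jetR_le _ _ _ _)
    (jetNorm_jetR_le _ _ _ _))

end Pool.Agent.Lib.MP_862e0f_al
end

section

/-!
# The action on jets is smooth
-/

set_option autoImplicit false
set_option linter.unusedSectionVars false

namespace Pool.Agent.Lib.MP_862e0f_al

open Filter Topology Set unitInterval

universe u v w x y z

variable {E : Type v} [NormedAddCommGroup E] [NormedSpace ℝ E] [FiniteDimensional ℝ E]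
  {H : Type u} [Group H] [TopologicalSpace H] [ChartedSpace E H]

/-- the evaluation as a linear map -/
private noncomputable def jetEvalLin (hH : IsLieGroup E H) (x : H) : Jet hH →ₗ[ℝ] ℝ where
  toFun Ψ := Ψ.val 0 x 0
  map_add' _ _ := rfl
  map_smul' _ _ := rfl

private theorem jetEvalLin_continuous (hH : IsLieGroup E H) (x : H) :
    Continuous (jetEvalLin hH x) := by
  obtain ⟨n, hn⟩ := exists_BB_nhds hH x
  have hx : x ∈ BB hH n := mem_of_mem_nhds hn
  refine (jet_withSeminorms (hH := hH)).continuous_normedSpace_rng ℝ (jetEvalLin hH x) ⟨{(n, 0)}, 1, fun Ψ => ?_⟩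
  have h1 : ‖(Ψ.val 0 x) 0‖ ≤ ‖Ψ.val 0 x‖ * ∏ i : Fin 0, ‖(0 : Fin 0 → E) i‖ :=
    (Ψ.val 0 x).le_opNorm 0
  rw [Fin.prod_univ_zero, mul_one] at h1
  have h2 : ‖Ψ.val 0 x‖ ≤ jetNorm hH (n, 0) Ψ := le_jetNorm Ψ hx
  rw [one_smul, Finset.sup_singleton]
  exact h1.trans h2

/-- the evaluation `Ψ ↦ Ψ 0 x` -/
noncomputable def jetEval (hH : IsLieGroup E H) (x : H) : Jet hH →L[ℝ] ℝ where
  toFun Ψ := Ψ.val 0 x 0
  map_add' _ _ := rfl
  map_smul' _ _ := rfl
  cont := jetEvalLin_continuous hH x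

theorem jetEval_sep (hH : IsLieGroup E H) (Ψ : Jet hH) (h : ∀ x, jetEval hH x Ψ = 0) : Ψ = 0 := by
  refine Jet.ext_zero fun x => ?_
  have h1 : Ψ.val 0 x 0 = 0 := h x
  ext m
  have hm : m = 0 := Subsingleton.elim _ _
  rw [hm]
  exact h1

/-- derivative of `s ↦ χ 0 (κ(s)⁻¹ x)` with `χ = (ψ.symm z) Ψ`,
`κ(s) = ψ.symm (z + s w) * (ψ.symm z)⁻¹`: `VelF.of_chart_right`, `VelF.inv`, `HasRDeriv.vel` -/
theorem jet_weak_deriv (hH : IsLieGroup E H) {ψ : OpenPartialHomeomorph H E}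
    (hψ : ψ ∈ atlas E H) {z : E} (hz : z ∈ ψ.target) (w : E) (Ψ : Jet hH) (x : H) :
    HasDirDeriv (fun z => jetEval hH x (jetAct hH (ψ.symm z) Ψ)) z w
      (jetEval hH x (-(jetR (omegaR ψ (z, w)) (jetAct hH (ψ.symm z) Ψ)))) := by
  have hs : Tendsto (fun t : ℝ => t) (𝓝[≠] (0 : ℝ)) (𝓝[≠] 0) := tendsto_id
  -- the points `z + t w`
  have hz0 : Tendsto (fun t : ℝ => z + t • w) (𝓝[≠] 0) (𝓝 z) := by
    have h1 : Continuous fun t : ℝ => z + t • w := by fun_prop
    have h2 := h1.tendsto 0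
    rw [zero_smul, add_zero] at h2
    exact h2.mono_left nhdsWithin_le_nhds
  have hzt : ∀ᶠ t : ℝ in 𝓝[≠] 0, z + t • w ∈ ψ.target :=
    hz0.eventually (ψ.open_target.mem_nhds hz)
  have hψz : ψ (ψ.symm z) = z := ψ.right_inv hz
  have hsrc : ψ.symm z ∈ ψ.source := ψ.map_target hz
  have hy : Tendsto (fun t : ℝ => ψ.symm (z + t • w)) (𝓝[≠] 0) (𝓝 (ψ.symm z)) :=
    (ψ.continuousAt_symm hz).tendsto.comp hz0
  have hw : Tendsto (fun t : ℝ => t⁻¹ • (ψ (ψ.symm (z + t • w)) - ψ (ψ.symm z))) (𝓝[≠] 0)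
      (𝓝 w) := by
    refine tendsto_const_nhds.congr' ?_
    filter_upwards [hzt, self_mem_nhdsWithin] with t ht ht0
    rw [ψ.right_inv ht, hψz, add_sub_cancel_left, smul_smul, inv_mul_cancel₀ ht0, one_smul]
  have hκ : VelF (𝓝[≠] (0 : ℝ)) (fun t : ℝ => t)
      (fun t : ℝ => ψ.symm (z + t • w) * (ψ.symm z)⁻¹) (omegaR ψ (z, w)) := by
    have := VelF.of_chart_right hH hs hψ hsrc hy hw
    rwa [hψz] at this
  have hκi := VelF.inv hH hs hκ
  set χ : Jet hH := jetAct hH (ψ.symm z) Ψ with hχ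
  have hv := (χ.isJet 0).vel hs hκi x
  -- evaluation at `0`
  have hev : Continuous fun f : JF E 0 => f 0 :=
    (ContinuousMultilinearMap.apply ℝ (fun _ : Fin 0 => E) ℝ 0).continuous
  have hv2 := (hev.tendsto _).comp hv
  have hval : ((χ.val (0 + 1) x).curryLeft (-omegaR ψ (z, w))) (0 : Fin 0 → E) =
      jetEval hH x (-(jetR (omegaR ψ (z, w)) χ)) := by
    have h1 : jetEval hH x (-(jetR (omegaR ψ (z, w)) χ)) =
        -((jetR (omegaR ψ (z, w)) χ).val 0 x 0) := rfl
    rw [h1, jetR_val, evLast_apply]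
    have h2 : ((χ.val (0 + 1) x).curryLeft (-omegaR ψ (z, w))) =
        -((χ.val (0 + 1) x).curryLeft (omegaR ψ (z, w))) := map_neg _ _
    rw [h2]
    have h3 : (-((χ.val (0 + 1) x).curryLeft (omegaR ψ (z, w)))) (0 : Fin 0 → E) =
        -(((χ.val (0 + 1) x).curryLeft (omegaR ψ (z, w))) (0 : Fin 0 → E)) := rfl
    rw [h3, ContinuousMultilinearMap.curryLeft_apply]
    congr 2
    funext i
    have hi : i = 0 := Subsingleton.elim (α := Fin 1) _ _
    subst hi
    rfl
  rw [← hval]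
  unfold HasDirDeriv
  refine hv2.congr fun t => ?_
  show _ = t⁻¹ • (jetEval hH x (jetAct hH (ψ.symm (z + t • w)) Ψ) -
    jetEval hH x (jetAct hH (ψ.symm z) Ψ))
  have h4 : jetAct hH (ψ.symm (z + t • w)) Ψ =
      jetAct hH (ψ.symm (z + t • w) * (ψ.symm z)⁻¹) χ := by
    rw [hχ, ← mul_apply_eq_comp, ← map_mul, inv_mul_cancel_right]
  have h5 : jetEval hH x (jetAct hH (ψ.symm (z + t • w)) Ψ) =
      χ.val 0 ((ψ.symm (z + t • w) * (ψ.symm z)⁻¹)⁻¹ * x) 0 := by
    rw [h4]
    show (jetAct hH (ψ.symm (z + t • w) * (ψ.symm z)⁻¹) χ).val 0 x 0 = _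
    rw [jetAct_val_zero]
  have h6 : jetEval hH x χ = χ.val 0 x 0 := rfl
  rw [h5, ← hχ, h6]
  rfl

private theorem jetAct_symm_cont (hH : IsLieGroup E H) (ψ : OpenPartialHomeomorph H E)
    (v : Jet hH) : ContinuousOn (fun z : E => jetAct hH (ψ.symm z) v) ψ.target := by
  have h20 : ContinuousOn (fun z : E => (ψ.symm z, v)) ψ.target :=
    ψ.continuousOn_symm.prodMk continuousOn_const
  have h21 : Continuous (fun p : H × Jet hH => jetAct hH p.1 p.2) := jetAct_continuous hH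
  have h22 := Continuous.comp_continuousOn h21 h20
  exact h22

private theorem jetAct_deriv_cont (hH : IsLieGroup E H) {ψ : OpenPartialHomeomorph H E}
    (hψ : ψ ∈ atlas E H) (w : E) (v : Jet hH) :
    ContinuousOn (fun z => -(jetR (omegaR ψ (z, w)) (jetAct hH (ψ.symm z) v))) ψ.target := by
  have h1 : ContinuousOn (fun z : E => omegaR ψ (z, w)) ψ.target := by
    have h0 : ContinuousOn (omegaR ψ) (ψ.target ×ˢ univ) :=
      BastianiSmooth.continuousOn (omegaR_smooth hH hψ)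
    exact h0.comp (f := fun z : E => (z, w)) (by fun_prop) (fun z hz => ⟨hz, mem_univ _⟩)
  have h2 := jetAct_symm_cont hH ψ v
  have h3 : ContinuousOn (fun z : E => (omegaR ψ (z, w), jetAct hH (ψ.symm z) v)) ψ.target :=
    h1.prodMk h2
  have h4 : Continuous (fun p : E × Jet hH => jetR p.1 p.2) := (jetR_isContBilin hH).cont
  have h5 := Continuous.comp_continuousOn h4 h3
  have h6 := ContinuousOn.neg h5
  exact h6

/-- `hasDirDeriv_of_weak` and `isSmoothAct_of_deriv` -/
theorem jetAct_smooth (hH : IsLieGroup E H) : IsSmoothAct E (jetAct hH) := by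
  refine isSmoothAct_of_deriv hH (jetAct_continuous hH) (jetR_isContBilin hH) ?_
  intro ψ hψ u hu w v
  exact hasDirDeriv_of_weak (jet_hasAnti hH) (ev := jetEval hH) (jetEval_sep hH)
    (f := fun z => jetAct hH (ψ.symm z) v)
    (g := fun z => -(jetR (omegaR ψ (z, w)) (jetAct hH (ψ.symm z) v))) ψ.open_target
    (jetAct_deriv_cont hH hψ w v) hu
    (fun x z hz => jet_weak_deriv hH hψ hz w v x)

end Pool.Agent.Lib.MP_862e0f_al
end
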